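import Pool.Agent.Y594.NT.Bad
import Pool.Agent.Y815.NT.Prim

/-!
# Logarithmic form of the counting theorems (helper594)
-/

set_option autoImplicit false

namespace Pool.Agent.Y594.NT

open Finset Pool.Agent.H785R2.ABC Pool.Agent.H705R2.ABC

/-- the sum of `log p` over the primes `p` outside `S` that divide `a` -/
noncomputable def N1 (S : Finset ℕ) (a : ℤ) : ℝ := ∑ p ∈ a.natAbs.primeFactors \ S, Real.log p

/-- the height of a point with coprime integer coordinates -/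
noncomputable def ht {N : ℕ} (x : Fin N → ℤ) : ℝ :=
  Real.log ((univ.sup fun j => (x j).natAbs : ℕ) : ℝ)

theorem N1_eq (S : Finset ℕ) (a : ℤ) : N1 S a = Real.log (radS S a : ℝ) := by
  unfold N1 radS
  rw [Nat.cast_prod, Real.log_prod]
  intro p hp
  have := (Nat.prime_of_mem_primeFactors (mem_sdiff.1 hp).1).pos
  exact_mod_cast this.ne'

theorem N1_nonneg (S : Finset ℕ) (a : ℤ) : 0 ≤ N1 S a := by
  rw [N1_eq]; exact Real.log_nonneg (one_le_radS S a)

theorem sum_N1 {ι : Type*} (S : Finset ℕ) (a : ι → ℤ) (I : Finset ι) :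
    ∑ i ∈ I, N1 S (a i) = Real.log (∏ i ∈ I, (radS S (a i) : ℝ)) := by
  rw [Real.log_prod]
  · exact sum_congr rfl fun i _ => N1_eq S (a i)
  · intro i _
    have := one_le_radS S (a i)
    linarith

theorem le_of_log_le {a X : ℝ} (ha : 0 < a) (hX : 1 ≤ X) (h : Real.log a ≤ Real.log X) :
    a ≤ X := (Real.log_le_log_iff ha (by linarith)).1 h

theorem ncard_le {α : Type*} (s : Set α) (B : ℝ) (hB : 0 ≤ B)
    (h : ∀ E : Finset α, (∀ x ∈ E, x ∈ s) → (E.card : ℝ) ≤ B) : (s.ncard : ℝ) ≤ B := by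
  classical
  by_cases hs : s.Finite
  · rw [Set.ncard_eq_toFinset_card s hs]
    exact h _ fun x hx => by simpa using hx
  · rw [Set.Infinite.ncard hs]
    simpa using hB

section

variable {N : ℕ}

theorem sup_pos {x : Fin N → ℤ} (hx : univ.gcd x = 1) :
    1 ≤ (univ.sup fun j => (x j).natAbs : ℕ) := by
  by_contra h
  have h0 : (univ.sup fun j => (x j).natAbs : ℕ) = 0 := by omega
  have h1 : ∀ j, x j = 0 := by
    intro j
    have h2 : (x j).natAbs ≤ (univ.sup fun j => (x j).natAbs : ℕ) :=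
      le_sup (f := fun j => (x j).natAbs) (mem_univ j)
    have h3 : (x j).natAbs = 0 := by omega
    exact Int.natAbs_eq_zero.1 h3
  have h2 : univ.gcd x = 0 := Finset.gcd_eq_zero_iff.2 fun j _ => h1 j
  rw [h2] at hx
  exact zero_ne_one hx

theorem abs_le_sup (x : Fin N → ℤ) (j : Fin N) :
    |(x j : ℝ)| ≤ ((univ.sup fun j => (x j).natAbs : ℕ) : ℝ) := by
  have h2 : (x j).natAbs ≤ (univ.sup fun j => (x j).natAbs : ℕ) :=
    le_sup (f := fun j => (x j).natAbs) (mem_univ j)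
  calc |(x j : ℝ)| = ((x j).natAbs : ℝ) := by rw [Nat.cast_natAbs, Int.cast_abs]
    _ ≤ _ := by exact_mod_cast h2

theorem exists_sup (x : Fin (N + 1) → ℤ) :
    ∃ j, ((univ.sup fun j => (x j).natAbs : ℕ) : ℝ) = |(x j : ℝ)| := by
  obtain ⟨j, -, hj⟩ := exists_mem_eq_sup univ (univ_nonempty (α := Fin (N + 1)))
    (fun j => (x j).natAbs)
  refine ⟨j, ?_⟩
  rw [hj, Nat.cast_natAbs, Int.cast_abs]

theorem sup_le_of_ht {x : Fin N → ℤ} (hx : univ.gcd x = 1) {A X : ℝ} (hX : 0 < X)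
    (h : ht x ≤ A * Real.log X) : ((univ.sup fun j => (x j).natAbs : ℕ) : ℝ) ≤ X ^ A := by
  have h1 : (0 : ℝ) < ((univ.sup fun j => (x j).natAbs : ℕ) : ℝ) := by
    exact_mod_cast sup_pos hx
  rw [← Real.log_le_log_iff h1 (by positivity), Real.log_rpow hX]
  exact h

theorem ht_nonneg {x : Fin N → ℤ} (hx : univ.gcd x = 1) : 0 ≤ ht x := by
  apply Real.log_nonneg
  exact_mod_cast sup_pos hx

end

section

variable {m q : ℕ}

/-- points with bounded height are finite in number -/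
theorem finite_ht (B : ℝ) : {x : Fin (m + 1) → ℤ | univ.gcd x = 1 ∧ ht x ≤ B}.Finite := by
  refine Set.Finite.subset (Finset.finite_toSet
    (Fintype.piFinset fun _ : Fin (m + 1) => Icc (-(⌊Real.exp B⌋₊ : ℤ)) ⌊Real.exp B⌋₊)) ?_
  rintro x ⟨hx, hB⟩
  rw [mem_coe, Fintype.mem_piFinset]
  intro j
  have h1 : (0 : ℝ) < ((univ.sup fun j => (x j).natAbs : ℕ) : ℝ) := by
    exact_mod_cast sup_pos hx
  have h2 : ((univ.sup fun j => (x j).natAbs : ℕ) : ℝ) ≤ Real.exp B := by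
    rw [← Real.exp_log h1]
    exact Real.exp_le_exp.2 hB
  have h3 : (x j).natAbs ≤ ⌊Real.exp B⌋₊ := by
    apply Nat.le_floor
    rw [Nat.cast_natAbs, Int.cast_abs]
    exact (abs_le_sup x j).trans h2
  rw [mem_Icc]
  omega

/-- the points that are counted -/
def Pts (L : Fin q → Fin (m + 1) → ℤ) (S : Finset ℕ) (A X : ℝ) : Set (Fin (m + 1) → ℤ) :=
  {x | univ.gcd x = 1 ∧ (∀ i, form (L i) x ≠ 0) ∧ ht x ≤ A * Real.log X ∧
    ∑ i, N1 S (form (L i) x) ≤ Real.log X}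

variable {L : Fin q → Fin (m + 1) → ℤ}

theorem Pts_finite (S : Finset ℕ) (A X : ℝ) : (Pts L S A X).Finite :=
  (finite_ht (A * Real.log X)).subset fun _ hx => ⟨hx.1, hx.2.2.1⟩

theorem mem_Pts {S : Finset ℕ} {A A' X : ℝ} (hX : 1 ≤ X) (hA : A ≤ A') {x : Fin (m + 1) → ℤ}
    (hx : x ∈ Pts L S A X) : univ.gcd x = 1 ∧ (∀ i, form (L i) x ≠ 0) ∧
      (∀ j, |(x j : ℝ)| ≤ X ^ A') ∧ ∏ i, (radS S (form (L i) x) : ℝ) ≤ X := by
  obtain ⟨h1, h2, h3, h4⟩ := hx
  refine ⟨h1, h2, fun j => ?_, ?_⟩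
  · refine (abs_le_sup x j).trans ((sup_le_of_ht h1 (by linarith) h3).trans ?_)
    exact Real.rpow_le_rpow_of_exponent_le hX hA
  · rw [sum_N1] at h4
    refine le_of_log_le ?_ hX h4
    exact prod_pos fun i _ => by have := one_le_radS S (form (L i) x); linarith

/-- upper bound for the number of all points -/
theorem pts_upper (hL : GP L) (hq : m + 1 ≤ q) (S : Finset ℕ) (A δ : ℝ) (hδ : 0 < δ) :
    ∃ C : ℝ, 0 < C ∧ ∀ X : ℝ, 1 ≤ X →
      ((Pts L S A X).ncard : ℝ) ≤ C * X ^ (((m : ℝ) + 1) / q + δ) := by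
  obtain ⟨C, hC, h⟩ := ub_count hL hq S (max A 1) δ (le_max_right _ _) hδ
  refine ⟨C, hC, fun X hX => ncard_le _ _ (by positivity) fun E hE => ?_⟩
  have hX0 : 0 < X := by linarith
  refine (h X hX X hX0.le E fun x hx => ?_).trans (le_of_eq ?_)
  · have := mem_Pts hX (le_max_left A 1) (hE x hx)
    exact ⟨this.2.1, this.2.2.1, this.2.2.2⟩
  · rw [mul_assoc, ← Real.rpow_add hX0, add_comm]

/-- the exceptional points are rare -/
theorem pts_bad (hL : GP L) (hm : 1 ≤ m) (hq : m + 2 ≤ q) (S : Finset ℕ) (A ε : ℝ)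
    (hε : 0 < ε) : ∃ ν : ℝ, 0 < ν ∧ ∃ C : ℝ, 0 < C ∧ ∀ X : ℝ, 1 ≤ X →
      (({x ∈ Pts L S A X | N1 S (∏ i, form (L i) x) < ((q : ℝ) - ε) * ht x}.ncard : ℕ) : ℝ) ≤
        C * X ^ (((m : ℝ) + 1) / q - ν) := by
  obtain ⟨ν, hν, C, hC, h⟩ := bad_arr hL hm hq S (max A 1) ε (le_max_right _ _) hε
  refine ⟨ν, hν, C, hC, fun X hX => ncard_le _ _ (by positivity) fun E hE => h X hX E ?_⟩
  intro x hx
  obtain ⟨hx1, hx2⟩ := hE x hx
  obtain ⟨g1, g2, g3, g4⟩ := mem_Pts hX (le_max_left A 1) hx1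
  refine ⟨g1, g2, g3, g4, ((univ.sup fun j => (x j).natAbs : ℕ) : ℝ), ?_, ?_, ?_⟩
  · exact_mod_cast sup_pos g1
  · obtain ⟨j, hj⟩ := exists_sup x
    exact ⟨j, hj.le⟩
  · have h1 : (0 : ℝ) < ((univ.sup fun j => (x j).natAbs : ℕ) : ℝ) := by
      exact_mod_cast sup_pos g1
    have h2 := one_le_radS S (∏ i, form (L i) x)
    rw [← Real.log_lt_log_iff (by linarith) (by positivity), Real.log_rpow h1, ← N1_eq]
    exact hx2

/-- the truncated counting function is at most `q` times the height -/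
theorem N1_le (hL : GP L) (hq : m + 1 ≤ q) (S : Finset ℕ) : ∃ C : ℝ, ∀ x : Fin (m + 1) → ℤ,
    univ.gcd x = 1 → (∀ i, form (L i) x ≠ 0) →
    ∑ i, N1 S (form (L i) x) ≤ q * ht x + C := by
  obtain ⟨M, hM, hupp⟩ := form_upper L
  refine ⟨q * Real.log M, fun x hx hne => ?_⟩
  have h1 : (0 : ℝ) < ((univ.sup fun j => (x j).natAbs : ℕ) : ℝ) := by
    exact_mod_cast sup_pos hx
  have h2 : ∀ i, N1 S (form (L i) x) ≤ Real.log M + ht x := by
    intro i
    rw [N1_eq, ht, ← Real.log_mul (by linarith) h1.ne']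
    apply Real.log_le_log (by have := one_le_radS S (form (L i) x); linarith)
    calc (radS S (form (L i) x) : ℝ) ≤ ((form (L i) x).natAbs : ℝ) := by
          exact_mod_cast radS_le_natAbs S (hne i)
      _ = |(form (L i) x : ℝ)| := by rw [Nat.cast_natAbs, Int.cast_abs]
      _ ≤ _ := hupp x _ (abs_le_sup x) i
  calc ∑ i, N1 S (form (L i) x) ≤ ∑ _i : Fin q, (Real.log M + ht x) := sum_le_sum fun i _ => h2 i
    _ = q * (Real.log M + ht x) := by rw [sum_const, nsmul_eq_mul, card_univ, Fintype.card_fin]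
    _ = _ := by ring

theorem N1_prod_le {ι : Type*} [DecidableEq ι] (S : Finset ℕ) (a : ι → ℤ) (I : Finset ι) :
    N1 S (∏ i ∈ I, a i) ≤ ∑ i ∈ I, N1 S (a i) := by
  classical
  by_cases h0 : ∏ i ∈ I, a i = 0
  · rw [h0]
    simp only [N1, Int.natAbs_zero, Nat.primeFactors_zero, empty_sdiff, sum_empty]
    exact sum_nonneg fun i _ => N1_nonneg S (a i)
  · have hd : radS S (∏ i ∈ I, a i) ∣ ∏ i ∈ I, radS S (a i) := by
      unfold radS
      apply Finset.prod_primes_dvd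
      · intro p hp
        exact (Nat.prime_of_mem_primeFactors (mem_sdiff.1 hp).1).prime
      · intro p hp
        rw [mem_sdiff, Nat.mem_primeFactors] at hp
        obtain ⟨⟨hp1, hp2, -⟩, hp3⟩ := hp
        obtain ⟨i, hi, hi2⟩ := (Nat.prime_iff_prime_int.1 hp1).exists_mem_finset_dvd
          (Int.natCast_dvd.2 hp2)
        refine dvd_trans ?_ (Finset.dvd_prod_of_mem _ hi)
        apply Finset.dvd_prod_of_mem
        refine mem_sdiff.2 ⟨Nat.mem_primeFactors.2 ⟨hp1, Int.natCast_dvd.1 hi2, ?_⟩, hp3⟩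
        rw [Int.natAbs_ne_zero]
        exact (prod_ne_zero_iff.1 h0) i hi
    have hle := Nat.le_of_dvd (prod_pos fun i _ => radS_pos S (a i)) hd
    rw [sum_N1, N1_eq]
    apply Real.log_le_log (by have := one_le_radS S (∏ i ∈ I, a i); linarith)
    exact_mod_cast hle

/-- lower bound for the number of all points -/
theorem pts_lower (hL : GP L) (hm : 1 ≤ m) (hq : m + 1 ≤ q) (S : Finset ℕ) (A : ℝ)
    (hA : (1 : ℝ) / q ≤ A) : ∃ c : ℝ, 0 < c ∧ ∃ X₀ : ℝ, ∀ X : ℝ, X₀ ≤ X →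
      c * X ^ (((m : ℝ) + 1) / q) ≤ ((Pts L S A X).ncard : ℝ) := by
  classical
  have hq0 : (0 : ℝ) < q := by exact_mod_cast (by omega : 0 < q)
  obtain ⟨M, hM⟩ := N1_le hL hq S
  have hL0 : ∀ i, L i ≠ 0 := by
    intro i h0
    obtain ⟨s, hs, a, b, hab, ha, hb⟩ : ∃ s : Fin (m + 1) → Fin q, Function.Injective s ∧
        ∃ a b : Fin (m + 1), a ≠ b ∧ s a = i ∧ True := by
      obtain ⟨j, hj⟩ : ∃ j : Fin q, i ≠ j := by
        by_contra hcon
        push Not at hcon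
        have h1 : Fintype.card (Fin q) ≤ 1 := Fintype.card_le_one_iff.2 fun a b => by
          rw [← hcon a, ← hcon b]
        rw [Fintype.card_fin] at h1
        omega
      obtain ⟨s, hs, a, b, hab, ha, -⟩ := exists_sel hm hq hj
      exact ⟨s, hs, a, b, hab, ha, trivial⟩
    apply hL s hs
    apply Matrix.det_eq_zero_of_row_eq_zero a
    intro j
    rw [Matrix.of_apply, ha, h0]
    rfl
  obtain ⟨c, hc, Y₀, hprim⟩ := Pool.Agent.Y815.NT.prim m q hm L hL0
  obtain ⟨K, hK⟩ : ∃ K : ℝ, K = Real.exp (|M| / q) := ⟨_, rfl⟩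
  have hK1 : 1 ≤ K := by rw [hK]; exact Real.one_le_exp (by positivity)
  refine ⟨c * ((1 / (2 * K)) ^ (m + 1)), by positivity, (K * (Y₀ + 2)) ^ (q : ℝ), ?_⟩
  intro X hX
  have hKY : 1 ≤ K * (Y₀ + 2) := by nlinarith [(Nat.cast_nonneg Y₀ : (0 : ℝ) ≤ (Y₀ : ℝ))]
  have hX1 : 1 ≤ X := (Real.one_le_rpow hKY hq0.le).trans hX
  have hX0 : 0 < X := by linarith
  have hXq : K * (Y₀ + 2) ≤ X ^ ((1 : ℝ) / q) := by
    calc K * (Y₀ + 2) = ((K * (Y₀ + 2)) ^ (q : ℝ)) ^ ((1 : ℝ) / q) := by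
          rw [← Real.rpow_mul (by linarith), mul_one_div_cancel hq0.ne', Real.rpow_one]
      _ ≤ _ := Real.rpow_le_rpow (by positivity) hX (by positivity)
  set Y : ℕ := ⌊X ^ ((1 : ℝ) / q) / K⌋₊ with hY
  have hYle : (Y : ℝ) ≤ X ^ ((1 : ℝ) / q) / K := Nat.floor_le (by positivity)
  have hXK : (Y₀ : ℝ) + 2 ≤ X ^ ((1 : ℝ) / q) / K := by
    rw [le_div_iff₀ (by linarith)]; linarith
  have hYlt : X ^ ((1 : ℝ) / q) / K < Y + 1 := Nat.lt_floor_add_one _
  have hYY : Y₀ ≤ Y := by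
    have : (Y₀ : ℝ) < Y + 1 := by linarith
    exact_mod_cast Nat.lt_succ_iff.1 (by exact_mod_cast this)
  have hYh : X ^ ((1 : ℝ) / q) / K / 2 ≤ Y := by linarith [(Nat.cast_nonneg Y₀ : (0 : ℝ) ≤ (Y₀ : ℝ))]
  refine le_trans ?_ (le_trans (hprim Y hYY) ?_)
  · rw [mul_assoc]
    apply mul_le_mul_of_nonneg_left _ hc.le
    calc (1 / (2 * K)) ^ (m + 1) * X ^ (((m : ℝ) + 1) / q)
        = (X ^ ((1 : ℝ) / q) / K / 2) ^ (m + 1) := by
          have e1 : X ^ (((m : ℝ) + 1) / q) = (X ^ ((1 : ℝ) / q)) ^ (m + 1) := by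
            rw [← Real.rpow_natCast (X ^ ((1 : ℝ) / q)), ← Real.rpow_mul hX0.le]
            congr 1
            push_cast
            field_simp
          rw [e1, ← mul_pow]
          congr 1
          field_simp
      _ ≤ _ := pow_le_pow_left₀ (by positivity) hYh _
  · rw [← Set.ncard_coe_finset]
    have hsub : ((((Fintype.piFinset fun _ : Fin (m + 1) => Icc (1 : ℤ) Y).filter fun x =>
        univ.gcd x = 1 ∧ ∀ i, ∑ j, L i j * x j ≠ 0) : Finset (Fin (m + 1) → ℤ)) :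
          Set (Fin (m + 1) → ℤ)) ⊆ Pts L S A X := by
      intro x hx
      rw [mem_coe, mem_filter, Fintype.mem_piFinset] at hx
      obtain ⟨h1, h2, h3⟩ := hx
      have hht : ht x ≤ Real.log (X ^ ((1 : ℝ) / q) / K) := by
        unfold ht
        apply Real.log_le_log
        · exact_mod_cast sup_pos h2
        · refine le_trans ?_ hYle
          have : (univ.sup fun j => (x j).natAbs : ℕ) ≤ Y := by
            apply Finset.sup_le
            intro j _
            have := mem_Icc.1 (h1 j)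
            omega
          exact_mod_cast this
      have hlogK : Real.log K = |M| / q := by rw [hK, Real.log_exp]
      rw [Real.log_div (by positivity) (by linarith), Real.log_rpow hX0, hlogK] at hht
      refine ⟨h2, h3, ?_, ?_⟩
      · have e1 : 0 ≤ |M| / q := by positivity
        have e2 : (1 : ℝ) / q * Real.log X ≤ A * Real.log X :=
          mul_le_mul_of_nonneg_right hA (Real.log_nonneg hX1)
        linarith
      · refine (hM x h2 h3).trans ?_
        have e3 : (q : ℝ) * ht x ≤ q * (1 / q * Real.log X - |M| / q) :=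
          mul_le_mul_of_nonneg_left hht hq0.le
        have e4 : (q : ℝ) * (1 / q * Real.log X - |M| / q) = Real.log X - |M| := by
          field_simp
        have e5 := le_abs_self M
        linarith
    exact_mod_cast Set.ncard_le_ncard hsub (Pts_finite S A X)

end

end Pool.Agent.Y594.NT
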