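import Pool.Agent.Y594.NT.Thr
import Pool.Agent.Y349.NT2.USum
import Pool.Agent.Y349.NT2.LatN
import Pool.Agent.Y500.NT2.LowN
import Pool.Agent.Y87.NT2.KSum

/-!
# The threshold: final bounds (helper594)
-/

set_option autoImplicit false

namespace Pool.Agent.Y594.NT

open Finset Pool.Agent.H785R2.ABC Pool.Agent.H705R2.ABC

/-- upper bound for the number of exceptional tuples -/
theorem thr_upper (m : ℕ) (hm : 1 ≤ m) (A : ℝ) (hA : 1 ≤ A) : ∃ ν : ℝ, 0 < ν ∧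
    ∀ δ : ℝ, 0 < δ → ∃ C : ℝ, 0 < C ∧ ∀ X : ℝ, 1 ≤ X → ∀ M : ℝ, 0 < M → M ≤ 1 →
    ∀ E : Finset (Fin (m + 2) → ℤ),
    (∀ z ∈ E, Adm A X z ∧ ∃ i, (rad (∏ i, (z i).natAbs) : ℝ) ^ M ≤ ((z i).natAbs : ℝ)) →
    (E.card : ℝ) ≤ C * (X ^ (1 - M + δ) + X ^ (((m : ℝ) + 1) / (m + 2) - ν)) := by
  classical
  obtain ⟨ν, hν, -, C₁, hC₁, h1⟩ := crude m hm A hA
  refine ⟨ν, hν, fun δ hδ => ?_⟩
  obtain ⟨C₂, hC₂, h2⟩ := near2 Pool.Agent.Y87.NT2.ksum Pool.Agent.Y349.NT2.latn (m + 2) (by omega)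
    δ hδ
  refine ⟨C₁ + C₂, by positivity, ?_⟩
  intro X hX M hM hM1 E hE
  have hX0 : 0 < X := by linarith
  obtain ⟨U, hU1, hUX, hbad⟩ := h1 X hX
  have hb1 := hbad (E.filter fun z => ¬ Good X U z) (fun z hz => by
    obtain ⟨z1, z2⟩ := mem_filter.1 hz
    exact ⟨(hE z z1).1, z2⟩)
  have hb2 := h2 X hX M hM hM1 U hU1 hUX (E.filter fun z => Good X U z) (by
    intro z hz
    obtain ⟨z1, z2, z3⟩ := mem_filter.1 hz
    obtain ⟨⟨g1, g2, g3, g4, g5⟩, g6⟩ := hE z z1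
    exact ⟨g1, g2, g3, z2, g5, g6, z3⟩)
  have hc : E.card = (E.filter fun z => Good X U z).card + (E.filter fun z => ¬ Good X U z).card :=
    (Finset.card_filter_add_card_filter_not _).symm
  have p1 : 0 ≤ X ^ (1 - M + δ) := by positivity
  have p2 : 0 ≤ X ^ (((m : ℝ) + 1) / (m + 2) - ν) := by positivity
  rw [hc]
  push_cast
  nlinarith [mul_nonneg hC₁.le p1, mul_nonneg hC₂.le p2]

/-- upper bound for the number of all tuples, of the right order of magnitude -/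
theorem tot_upper (m : ℕ) (hm : 1 ≤ m) (A : ℝ) (hA : 1 ≤ A) : ∃ C : ℝ, 0 < C ∧ ∀ X : ℝ, 1 ≤ X →
    ∀ E : Finset (Fin (m + 2) → ℤ), (∀ z ∈ E, Adm A X z) →
    (E.card : ℝ) ≤ C * X ^ (((m : ℝ) + 1) / (m + 2)) := by
  classical
  obtain ⟨ν, hν, -, C₁, hC₁, h1⟩ := crude m hm A hA
  have hN0 : (0 : ℝ) < (m : ℝ) + 2 := by positivity
  obtain ⟨C₂, hC₂, h2⟩ := near Pool.Agent.Y349.NT2.usum Pool.Agent.Y349.NT2.latn (m + 2) (by omega)
    (1 / (2 * ((m : ℝ) + 2))) (by positivity) (by push_cast; apply le_of_eq; field_simp)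
  refine ⟨C₁ + C₂ + 3 ^ (m + 1), by positivity, ?_⟩
  intro X hX E hE
  have hX0 : 0 < X := by linarith
  obtain ⟨U, hU1, hUX, hbad⟩ := h1 X hX
  set W : ℝ := X ^ (1 / ((m : ℝ) + 2)) with hW
  have hW1 : 1 ≤ W := Real.one_le_rpow hX (by positivity)
  set E₁ := E.filter fun z => ¬ Good X U z with hE₁
  set E₂ := E.filter fun z => Good X U z ∧ ∃ i, W ≤ ((z i).natAbs : ℝ) with hE₂
  set E₃ := E.filter fun z => ∀ i, ((z i).natAbs : ℝ) ≤ W with hE₃
  have hcover : E ⊆ (E₁ ∪ E₂) ∪ E₃ := by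
    intro z hz
    rw [mem_union, mem_union]
    by_cases h3 : Good X U z
    · by_cases h4 : ∃ i, W ≤ ((z i).natAbs : ℝ)
      · exact Or.inl (Or.inr (mem_filter.2 ⟨hz, h3, h4⟩))
      · push Not at h4
        exact Or.inr (mem_filter.2 ⟨hz, fun i => (h4 i).le⟩)
    · exact Or.inl (Or.inl (mem_filter.2 ⟨hz, h3⟩))
  have b1 : (E₁.card : ℝ) ≤ C₁ * X ^ (((m : ℝ) + 1) / (m + 2)) := by
    refine (hbad E₁ fun z hz => ?_).trans ?_
    · obtain ⟨z1, z2⟩ := mem_filter.1 hz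
      exact ⟨hE z z1, z2⟩
    · apply mul_le_mul_of_nonneg_left _ hC₁.le
      exact Real.rpow_le_rpow_of_exponent_le hX (by linarith)
  have b2 : (E₂.card : ℝ) ≤ C₂ * X ^ (((m : ℝ) + 1) / (m + 2)) := by
    refine (h2 X hX W hW1 U E₂ fun z hz => ?_).trans (le_of_eq ?_)
    · obtain ⟨z1, ⟨-, z2⟩, z3⟩ := mem_filter.1 hz
      obtain ⟨g1, g2, g3, g4, g5⟩ := hE z z1
      refine ⟨g1, g2, g3, g5, z3, fun i => ⟨(z2 i).1, ?_⟩⟩
      exact (Nat.pow_le_pow_right hU1 (by norm_num)).trans (z2 i).2.2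
    · rw [hW, mul_assoc, ← Real.rpow_mul hX0.le, ← Real.rpow_add hX0]
      congr 2
      push_cast
      field_simp
      ring
  have b3 : (E₃.card : ℝ) ≤ 3 ^ (m + 1) * X ^ (((m : ℝ) + 1) / (m + 2)) := by
    have hinj : Set.InjOn cut (E₃ : Set (Fin (m + 2) → ℤ)) := by
      intro z hz w hw h
      exact cut_inj (hE z (mem_filter.1 hz).1).2.1 (hE w (mem_filter.1 hw).1).2.1 h
    have h3 := box_card W (by linarith) (E₃.image cut) (by
      intro x hx j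
      obtain ⟨z, hz, rfl⟩ := mem_image.1 hx
      have := (mem_filter.1 hz).2 j.castSucc
      rw [Nat.cast_natAbs, Int.cast_abs] at this
      exact this)
    rw [card_image_of_injOn hinj] at h3
    refine h3.trans ?_
    calc (2 * W + 1) ^ (m + 1) ≤ (3 * W) ^ (m + 1) :=
          pow_le_pow_left₀ (by linarith) (by linarith) _
      _ = _ := by
          rw [mul_pow, hW, ← Real.rpow_natCast (X ^ (1 / ((m : ℝ) + 2))), ← Real.rpow_mul hX0.le]
          congr 2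
          push_cast
          field_simp
  have hc : (E.card : ℝ) ≤ E₁.card + E₂.card + E₃.card := by
    have q1 := (card_le_card hcover).trans (card_union_le _ _)
    have q2 := card_union_le E₁ E₂
    exact_mod_cast (by omega : E.card ≤ E₁.card + E₂.card + E₃.card)
  calc (E.card : ℝ) ≤ C₁ * X ^ (((m : ℝ) + 1) / (m + 2)) + C₂ * X ^ (((m : ℝ) + 1) / (m + 2)) +
        3 ^ (m + 1) * X ^ (((m : ℝ) + 1) / (m + 2)) := by linarith
    _ = _ := by ring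

end Pool.Agent.Y594.NT
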