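import Pool.Agent.Y594.NT.Red

/-!
# Hyperplanes in general position (helper594)
-/

set_option autoImplicit false

namespace Pool.Agent.Y594.NT

open Finset Pool.Agent.H785R2.ABC Pool.Agent.H705R2.ABC

/-- the value of the linear form with coefficients `a` at `x` -/
def form {m : ℕ} (a x : Fin (m + 1) → ℤ) : ℤ := ∑ j, a j * x j

/-- general position: any `m + 1` of the forms are linearly independent -/
def GP {m q : ℕ} (L : Fin q → Fin (m + 1) → ℤ) : Prop :=
  ∀ s : Fin (m + 1) → Fin q, Function.Injective s → (Matrix.of fun a b => L (s a) b).det ≠ 0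

section

variable {m q : ℕ} {L : Fin q → Fin (m + 1) → ℤ}

theorem adj_form (L : Fin q → Fin (m + 1) → ℤ) (s : Fin (m + 1) → Fin q)
    (x : Fin (m + 1) → ℤ) (j : Fin (m + 1)) :
    (Matrix.of fun a b => L (s a) b).det * x j =
      ∑ i, (Matrix.of fun a b => L (s a) b).adjugate j i * form (L (s i)) x := by
  set A : Matrix (Fin (m + 1)) (Fin (m + 1)) ℤ := Matrix.of fun a b => L (s a) b with hA
  have h1 : (A.adjugate * A).mulVec x = (A.det • (1 : Matrix (Fin (m + 1)) (Fin (m + 1)) ℤ)).mulVec x := by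
    rw [Matrix.adjugate_mul]
  rw [← Matrix.mulVec_mulVec, Matrix.smul_mulVec, Matrix.one_mulVec] at h1
  have h2 := congrFun h1 j
  rw [Pi.smul_apply, smul_eq_mul] at h2
  rw [← h2]
  rfl

theorem form_inj (hL : GP L) {s : Fin (m + 1) → Fin q} (hs : Function.Injective s)
    {x y : Fin (m + 1) → ℤ} (h : ∀ i, form (L (s i)) x = form (L (s i)) y) : x = y := by
  funext j
  have h1 := adj_form L s x j
  have h2 := adj_form L s y j
  have h3 : (Matrix.of fun a b => L (s a) b).det * x j =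
      (Matrix.of fun a b => L (s a) b).det * y j := by
    rw [h1, h2]
    exact sum_congr rfl fun i _ => by rw [h i]
  exact mul_left_cancel₀ (hL s hs) h3

theorem form_gcd (hL : GP L) {s : Fin (m + 1) → Fin q} (hs : Function.Injective s)
    {x : Fin (m + 1) → ℤ} (hx : univ.gcd x = 1) {d : ℤ} (hd : ∀ i, d ∣ form (L (s i)) x) :
    d ∣ (Matrix.of fun a b => L (s a) b).det := by
  have h1 : d ∣ univ.gcd fun j => (Matrix.of fun a b => L (s a) b).det * x j := by
    apply Finset.dvd_gcd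
    intro j _
    rw [adj_form]
    exact Finset.dvd_sum fun i _ => (hd i).mul_left _
  rw [Finset.gcd_mul_left, hx, mul_one] at h1
  exact h1.trans (normalize_dvd_iff.2 dvd_rfl)

/-- the coordinates are bounded in terms of the values of `m + 1` of the forms -/
theorem form_bound (L : Fin q → Fin (m + 1) → ℤ) (hL : GP L) : ∃ M : ℝ, 1 ≤ M ∧
    ∀ s : Fin (m + 1) → Fin q, Function.Injective s →
    ∀ (x : Fin (m + 1) → ℤ) (B : ℝ), (∀ i, |(form (L (s i)) x : ℝ)| ≤ B) →
    ∀ j, |(x j : ℝ)| ≤ M * B := by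
  classical
  set f : (Fin (m + 1) → Fin q) → ℝ := fun s =>
    ∑ j, ∑ i, |((Matrix.of fun a b => L (s a) b).adjugate j i : ℝ)| with hf
  refine ⟨1 + ∑ s, f s, ?_, ?_⟩
  · have : 0 ≤ ∑ s, f s := sum_nonneg fun s _ => sum_nonneg fun j _ => sum_nonneg fun i _ =>
      abs_nonneg _
    linarith
  intro s hs x B hB j
  have hB0 : 0 ≤ B := (abs_nonneg _).trans (hB 0)
  have h1 := adj_form L s x j
  have h2 : (1 : ℝ) ≤ |((Matrix.of fun a b => L (s a) b).det : ℝ)| := by
    have h3 : 1 ≤ |(Matrix.of fun a b => L (s a) b).det| := Int.one_le_abs (hL s hs)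
    exact_mod_cast h3
  have h4 : |((Matrix.of fun a b => L (s a) b).det : ℝ)| * |(x j : ℝ)| =
      |∑ i, ((Matrix.of fun a b => L (s a) b).adjugate j i : ℝ) * (form (L (s i)) x : ℝ)| := by
    rw [← abs_mul]
    congr 1
    exact_mod_cast h1
  have h5 : f s ≤ ∑ s, f s := single_le_sum (f := f)
    (fun s _ => sum_nonneg fun j _ => sum_nonneg fun i _ => abs_nonneg _) (mem_univ s)
  have h6 : ∑ i, |((Matrix.of fun a b => L (s a) b).adjugate j i : ℝ)| ≤ f s := by
    rw [hf]
    exact single_le_sum (f := fun j => ∑ i, |((Matrix.of fun a b => L (s a) b).adjugate j i : ℝ)|)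
      (fun j _ => sum_nonneg fun i _ => abs_nonneg _) (mem_univ j)
  calc |(x j : ℝ)| ≤ |((Matrix.of fun a b => L (s a) b).det : ℝ)| * |(x j : ℝ)| :=
        le_mul_of_one_le_left (abs_nonneg _) h2
    _ = _ := h4
    _ ≤ ∑ i, |((Matrix.of fun a b => L (s a) b).adjugate j i : ℝ) * (form (L (s i)) x : ℝ)| :=
        abs_sum_le_sum_abs _ _
    _ ≤ ∑ i, |((Matrix.of fun a b => L (s a) b).adjugate j i : ℝ)| * B := by
        apply sum_le_sum
        intro i _
        rw [abs_mul]
        exact mul_le_mul_of_nonneg_left (hB i) (abs_nonneg _)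
    _ = (∑ i, |((Matrix.of fun a b => L (s a) b).adjugate j i : ℝ)|) * B := by rw [sum_mul]
    _ ≤ _ := mul_le_mul_of_nonneg_right (by linarith) hB0

/-- the values of the forms are bounded in terms of the coordinates -/
theorem form_upper (L : Fin q → Fin (m + 1) → ℤ) : ∃ M : ℝ, 1 ≤ M ∧
    ∀ (x : Fin (m + 1) → ℤ) (B : ℝ), (∀ j, |(x j : ℝ)| ≤ B) →
    ∀ i, |(form (L i) x : ℝ)| ≤ M * B := by
  classical
  refine ⟨1 + ∑ i, ∑ j, |(L i j : ℝ)|, ?_, ?_⟩
  · have : 0 ≤ ∑ i, ∑ j, |(L i j : ℝ)| := sum_nonneg fun i _ => sum_nonneg fun j _ => abs_nonneg _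
    linarith
  intro x B hB i
  have hB0 : 0 ≤ B := (abs_nonneg _).trans (hB 0)
  have h1 : ∑ j, |(L i j : ℝ)| ≤ ∑ i, ∑ j, |(L i j : ℝ)| :=
    single_le_sum (f := fun i => ∑ j, |(L i j : ℝ)|)
      (fun i _ => sum_nonneg fun j _ => abs_nonneg _) (mem_univ i)
  rw [form]
  push_cast
  calc |∑ j, (L i j : ℝ) * (x j : ℝ)| ≤ ∑ j, |(L i j : ℝ) * (x j : ℝ)| := abs_sum_le_sum_abs _ _
    _ ≤ ∑ j, |(L i j : ℝ)| * B := by
        apply sum_le_sum
        intro j _
        rw [abs_mul]
        exact mul_le_mul_of_nonneg_left (hB j) (abs_nonneg _)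
    _ = (∑ j, |(L i j : ℝ)|) * B := by rw [sum_mul]
    _ ≤ _ := mul_le_mul_of_nonneg_right (by linarith) hB0

/-- the linear relation between `m + 2` of the forms -/
theorem relation (hL : GP L) {f : Fin (m + 2) → Fin q} (hf : Function.Injective f) :
    ∃ c : Fin (m + 2) → ℤ, (∀ i, c i ≠ 0) ∧ ∀ x, ∑ i, c i * form (L (f i)) x = 0 := by
  classical
  refine ⟨fun i => (-1) ^ (i : ℕ) *
    (Matrix.of fun a b => L (f (i.succAbove a)) b).det, fun i => ?_, fun x => ?_⟩
  · apply mul_ne_zero (pow_ne_zero _ (by norm_num))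
    exact hL (fun a => f (i.succAbove a)) (hf.comp Fin.succAbove_right_injective)
  · set B : Matrix (Fin (m + 2)) (Fin (m + 2)) ℤ :=
      Matrix.of fun i => Fin.cons (form (L (f i)) x) (L (f i)) with hB
    have h1 : B.det = 0 := by
      rw [← Matrix.exists_mulVec_eq_zero_iff]
      refine ⟨Fin.cons 1 (fun j => - x j), ?_, ?_⟩
      · intro h0
        have := congrFun h0 0
        simp at this
      · funext i
        rw [Matrix.mulVec, dotProduct, Fin.sum_univ_succ]
        simp [hB, form]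
    rw [Matrix.det_succ_column_zero] at h1
    rw [← h1]
    apply sum_congr rfl
    intro i _
    have h2 : B.submatrix i.succAbove Fin.succ = Matrix.of fun a b => L (f (i.succAbove a)) b := by
      ext a b
      simp [hB]
    rw [h2]
    have h3 : B i 0 = form (L (f i)) x := by simp [hB]
    rw [h3]
    ring

end

end Pool.Agent.Y594.NT
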