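import Pool.Agent.Y594.NT.Triv

/-!
# The trivial bound for points off an arrangement (helper594)
-/

set_option autoImplicit false

namespace Pool.Agent.Y594.NT

open Finset Pool.Agent.H785R2.ABC Pool.Agent.H705R2.ABC

/-- some `m + 1` of the numbers have a small product -/
theorem pick {m q : ℕ} (r : Fin q → ℝ) (hr : ∀ i, 1 ≤ r i) (T : Finset (Fin q)) (k : ℕ)
    (hT : T.card = (m + 1) + k) (V : ℝ) (hV : ∏ i ∈ T, r i ≤ V) :
    ∃ s : Fin (m + 1) → Fin q, Function.Injective s ∧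
      ∏ i, r (s i) ≤ V ^ (((m : ℝ) + 1) / ((m : ℝ) + 1 + k)) := by
  classical
  obtain ⟨I, -, hIc, hIs⟩ := small_subset (fun i => Real.log (r i)) (m + 1) k T hT
  have e : Fin (m + 1) ≃ I := (Finset.equivFinOfCardEq hIc).symm
  refine ⟨fun i => (e i : Fin q), fun a b hab => e.injective (Subtype.ext hab), ?_⟩
  have h1 : ∏ i, r (e i : Fin q) = ∏ i ∈ I, r i := by
    rw [← Finset.prod_coe_sort I r]
    exact Equiv.prod_comp e fun x : I => r x
  rw [h1]
  have hr0 : ∀ i, 0 < r i := fun i => by linarith [hr i]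
  have h2 : ∏ i ∈ I, r i = Real.exp (∑ i ∈ I, Real.log (r i)) := by
    rw [Real.exp_sum]
    exact prod_congr rfl fun i _ => (Real.exp_log (hr0 i)).symm
  have h3 : 0 < ∏ i ∈ T, r i := prod_pos fun i _ => hr0 i
  have h4 : ∑ i ∈ T, Real.log (r i) ≤ Real.log V := by
    rw [← Real.log_prod fun i _ => (hr0 i).ne']
    exact Real.log_le_log h3 hV
  have hV0 : 0 < V := h3.trans_le hV
  have hk : (0 : ℝ) < (m : ℝ) + 1 + k := by positivity
  rw [h2, Real.rpow_def_of_pos hV0]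
  apply Real.exp_le_exp.2
  push_cast at hIs
  rw [← mul_div_assoc, le_div_iff₀ hk]
  calc (∑ i ∈ I, Real.log (r i)) * ((m : ℝ) + 1 + k)
      = ((m : ℝ) + 1 + k) * ∑ i ∈ I, Real.log (r i) := mul_comm _ _
    _ ≤ ((m : ℝ) + 1) * ∑ i ∈ T, Real.log (r i) := hIs
    _ ≤ ((m : ℝ) + 1) * Real.log V := mul_le_mul_of_nonneg_left h4 (by positivity)
    _ = Real.log V * ((m : ℝ) + 1) := mul_comm _ _

section

variable {m q : ℕ} {L : Fin q → Fin (m + 1) → ℤ}

/-- points where `m + 1` of the forms have a small product of radicals -/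
theorem sub_count (hL : GP L) (S : Finset ℕ) (A ε : ℝ) (hA : 1 ≤ A) (hε : 0 < ε) :
    ∃ D : ℝ, 0 < D ∧ ∀ X : ℝ, 1 ≤ X → ∀ V : ℝ, 0 ≤ V →
    ∀ s : Fin (m + 1) → Fin q, Function.Injective s → ∀ E : Finset (Fin (m + 1) → ℤ),
    (∀ x ∈ E, (∀ i, form (L i) x ≠ 0) ∧ (∀ j, |(x j : ℝ)| ≤ X ^ A) ∧
      ∏ i, (radS S (form (L (s i)) x) : ℝ) ≤ V) →
    (E.card : ℝ) ≤ D * X ^ ε * V := by
  classical
  obtain ⟨D, hD, h⟩ := tuples_le (m + 1) A ε hA hε
  obtain ⟨M, hM, hM'⟩ := form_upper L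
  refine ⟨D * M ^ ε * (PS S : ℝ) ^ (m + 1), ?_, ?_⟩
  · have : (0 : ℝ) < PS S := by exact_mod_cast PS_pos S
    positivity
  intro X hX V hV s hs E hE
  have hX0 : 0 < X := by linarith
  have hinj : Set.InjOn (fun (x : Fin (m + 1) → ℤ) (i : Fin (m + 1)) => form (L (s i)) x) E := by
    intro x _ y _ hxy
    exact form_inj hL hs fun i => congrFun hxy i
  rw [← card_image_of_injOn hinj]
  have h1 := h (M * X) (by nlinarith) ((PS S : ℝ) ^ (m + 1) * V) (by positivity)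
    (E.image fun (x : Fin (m + 1) → ℤ) (i : Fin (m + 1)) => form (L (s i)) x) (by
      intro a ha
      obtain ⟨x, hx, rfl⟩ := mem_image.1 ha
      obtain ⟨g1, g2, g3⟩ := hE x hx
      refine ⟨fun i => ⟨g1 _, ?_⟩, ?_⟩
      · rw [Nat.cast_natAbs, Int.cast_abs]
        refine (hM' x _ g2 (s i)).trans ?_
        rw [Real.mul_rpow (by linarith) hX0.le]
        apply mul_le_mul_of_nonneg_right _ (by positivity)
        calc M = M ^ (1 : ℝ) := (Real.rpow_one M).symm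
          _ ≤ M ^ A := Real.rpow_le_rpow_of_exponent_le hM hA
      · calc ∏ i, (rad (form (L (s i)) x).natAbs : ℝ)
            ≤ ∏ i : Fin (m + 1), ((PS S : ℝ) * (radS S (form (L (s i)) x) : ℝ)) := by
              apply prod_le_prod
              · intro i _; exact Nat.cast_nonneg _
              · intro i _; exact_mod_cast rad_le_radS S _
          _ = (PS S : ℝ) ^ (m + 1) * ∏ i, (radS S (form (L (s i)) x) : ℝ) := by
              rw [prod_mul_distrib, prod_const, card_univ, Fintype.card_fin]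
          _ ≤ _ := mul_le_mul_of_nonneg_left g3 (by positivity))
  refine h1.trans (le_of_eq ?_)
  rw [Real.mul_rpow (by linarith) hX0.le]
  ring

/-- points with a bounded product of radicals: the trivial bound -/
theorem pick_count (hL : GP L) (S : Finset ℕ) (A ε : ℝ) (hA : 1 ≤ A)
    (hε : 0 < ε) : ∃ D : ℝ, 0 < D ∧ ∀ X : ℝ, 1 ≤ X → ∀ (T : Finset (Fin q)) (k : ℕ),
    T.card = (m + 1) + k → ∀ V : ℝ, 0 ≤ V → ∀ E : Finset (Fin (m + 1) → ℤ),
    (∀ x ∈ E, (∀ i, form (L i) x ≠ 0) ∧ (∀ j, |(x j : ℝ)| ≤ X ^ A) ∧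
      ∏ i ∈ T, (radS S (form (L i) x) : ℝ) ≤ V) →
    (E.card : ℝ) ≤ D * X ^ ε * V ^ (((m : ℝ) + 1) / ((m : ℝ) + 1 + k)) := by
  classical
  obtain ⟨D, hD, h⟩ := sub_count hL S A ε hA hε
  refine ⟨((q : ℝ) ^ (m + 1) + 1) * D, by positivity, ?_⟩
  intro X hX T k hT V hV E hE
  have hX0 : 0 < X := by linarith
  set W : ℝ := V ^ (((m : ℝ) + 1) / ((m : ℝ) + 1 + k)) with hW
  have hW0 : 0 ≤ W := Real.rpow_nonneg hV _
  set I : Finset (Fin (m + 1) → Fin q) := univ.filter fun s => Function.Injective s with hI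
  have hIcard : (I.card : ℝ) ≤ (q : ℝ) ^ (m + 1) + 1 := by
    have h1 : I.card ≤ q ^ (m + 1) := (card_le_univ I).trans (by
      rw [Fintype.card_fun, Fintype.card_fin, Fintype.card_fin])
    have h2 : (I.card : ℝ) ≤ (q : ℝ) ^ (m + 1) := by exact_mod_cast h1
    linarith
  have hcover : E ⊆ I.biUnion fun s =>
      E.filter fun x => ∏ i, (radS S (form (L (s i)) x) : ℝ) ≤ W := by
    intro x hx
    obtain ⟨s, hs, hs'⟩ := pick (fun i => (radS S (form (L i) x) : ℝ))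
      (fun i => one_le_radS S _) T k hT V (hE x hx).2.2
    rw [mem_biUnion]
    exact ⟨s, mem_filter.2 ⟨mem_univ _, hs⟩, mem_filter.2 ⟨hx, hs'⟩⟩
  have hb : ∀ s ∈ I, (((E.filter fun x => ∏ i, (radS S (form (L (s i)) x) : ℝ) ≤ W).card : ℕ) : ℝ)
      ≤ D * X ^ ε * W := by
    intro s hs
    apply h X hX W hW0 s (mem_filter.1 hs).2
    intro x hx
    obtain ⟨x1, x2⟩ := mem_filter.1 hx
    exact ⟨(hE x x1).1, (hE x x1).2.1, x2⟩
  calc (E.card : ℝ) ≤ ((I.biUnion fun s =>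
      E.filter fun x => ∏ i, (radS S (form (L (s i)) x) : ℝ) ≤ W).card : ℝ) := by
        exact_mod_cast card_le_card hcover
    _ ≤ ∑ s ∈ I, (((E.filter fun x => ∏ i, (radS S (form (L (s i)) x) : ℝ) ≤ W).card : ℕ) : ℝ) := by
        exact_mod_cast card_biUnion_le
    _ ≤ ∑ _s ∈ I, D * X ^ ε * W := sum_le_sum hb
    _ = I.card * (D * X ^ ε * W) := by rw [sum_const, nsmul_eq_mul]
    _ ≤ ((q : ℝ) ^ (m + 1) + 1) * (D * X ^ ε * W) :=
        mul_le_mul_of_nonneg_right hIcard (by positivity)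
    _ = _ := by ring

/-- points with a bounded product of radicals: the trivial bound -/
theorem ub_count (hL : GP L) (hq : m + 1 ≤ q) (S : Finset ℕ) (A ε : ℝ) (hA : 1 ≤ A)
    (hε : 0 < ε) : ∃ D : ℝ, 0 < D ∧ ∀ X : ℝ, 1 ≤ X → ∀ V : ℝ, 0 ≤ V →
    ∀ E : Finset (Fin (m + 1) → ℤ),
    (∀ x ∈ E, (∀ i, form (L i) x ≠ 0) ∧ (∀ j, |(x j : ℝ)| ≤ X ^ A) ∧
      ∏ i, (radS S (form (L i) x) : ℝ) ≤ V) →
    (E.card : ℝ) ≤ D * X ^ ε * V ^ (((m : ℝ) + 1) / q) := by
  classical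
  obtain ⟨D, hD, h⟩ := pick_count hL S A ε hA hε
  refine ⟨D, hD, ?_⟩
  intro X hX V hV E hE
  obtain ⟨k, hk⟩ : ∃ k, q = (m + 1) + k := ⟨q - (m + 1), by omega⟩
  have h1 := h X hX univ k (by rw [card_univ, Fintype.card_fin, hk]) V hV E hE
  have h2 : (q : ℝ) = (m : ℝ) + 1 + k := by rw [hk]; push_cast; ring
  rw [h2]
  exact h1

end

end Pool.Agent.Y594.NT
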