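import Pool.Agent.Y594.NT.ArrCount

/-!
# Points of large height off an arrangement (helper594)
-/

set_option autoImplicit false

namespace Pool.Agent.Y594.NT

open Finset Pool.Agent.H785R2.ABC Pool.Agent.H705R2.ABC

section

variable {m q : ℕ} {L : Fin q → Fin (m + 1) → ℤ}

theorem form_gcd' {s : Fin (m + 1) → Fin q}
    {x : Fin (m + 1) → ℤ} (hx : univ.gcd x = 1) {c d : ℤ}
    (hd : ∀ i, d ∣ c * form (L (s i)) x) :
    d ∣ c * (Matrix.of fun a b => L (s a) b).det := by
  have h1 : d ∣ univ.gcd fun j => (c * (Matrix.of fun a b => L (s a) b).det) * x j := by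
    apply Finset.dvd_gcd
    intro j _
    rw [mul_assoc, adj_form, mul_sum]
    refine Finset.dvd_sum fun i _ => ?_
    have h2 : c * ((Matrix.of fun a b => L (s a) b).adjugate j i * form (L (s i)) x) =
        (Matrix.of fun a b => L (s a) b).adjugate j i * (c * form (L (s i)) x) := by ring
    rw [h2]
    exact (hd i).mul_left _
  rw [Finset.gcd_mul_left, hx, mul_one] at h1
  exact h1.trans (normalize_dvd_iff.2 dvd_rfl)

/-- points where all radicals are about `X ^ (1 / q)` -/
theorem ex_two (hL : GP L) (hm : 1 ≤ m) (hq : m + 2 ≤ q) (S : Finset ℕ) (A η : ℝ)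
    (hA : 1 ≤ A) (hη : 0 < η) : ∃ ω : ℝ, 0 < ω ∧ ω ≤ 1 ∧ ∀ ρ : ℝ, 0 < ρ → ρ ≤ η / 8 →
    ∃ C : ℝ, 0 < C ∧ ∃ X₀ : ℝ, ∀ X : ℝ, 1 ≤ X → X₀ ≤ X → ∀ E : Finset (Fin (m + 1) → ℤ),
    (∀ x ∈ E, univ.gcd x = 1 ∧ (∀ i, form (L i) x ≠ 0) ∧ (∀ j, |(x j : ℝ)| ≤ X ^ A) ∧
      (∃ j, X ^ ((1 : ℝ) / q + η) ≤ |(x j : ℝ)|) ∧
      ∀ i, (radS S (form (L i) x) : ℝ) ≤ X ^ ((1 : ℝ) / q + ρ)) →
    (E.card : ℝ) ≤ C * X ^ (((1 : ℝ) / q + ρ) * ((m : ℝ) + 1 - ω)) := by
  classical
  obtain ⟨ω, hω, hω1, C, hC, hcore⟩ := core_tuples (m + 2) (by omega) (min (η / 4) 1) (q * A)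
    (lt_min (by positivity) one_pos) (by
      have : (1 : ℝ) ≤ q := by exact_mod_cast (by omega : 1 ≤ q)
      nlinarith)
  refine ⟨ω, hω, hω1, ?_⟩
  intro ρ hρ hρη
  obtain ⟨M1, hM1, hlow⟩ := form_bound L hL
  obtain ⟨M2, hM2, hupp⟩ := form_upper L
  set f : Fin (m + 2) → Fin q := Fin.castLE hq with hf
  have hfi : Function.Injective f := Fin.castLE_injective hq
  obtain ⟨c, hc0, hc⟩ := relation hL hfi
  set s : Fin (m + 1) → Fin q := fun i => f i.castSucc with hs
  have hsi : Function.Injective s := hfi.comp (Fin.castSucc_injective _)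
  set P : ℤ := ∏ i, c i with hP
  have hP0 : P ≠ 0 := prod_ne_zero_iff.2 fun i _ => hc0 i
  set Δ : ℤ := (Matrix.of fun a b => L (s a) b).det with hΔ
  have hΔ0 : Δ ≠ 0 := hL s hsi
  set G : ℕ := (P * Δ).natAbs with hG
  have hG0 : 0 < G := Int.natAbs_pos.2 (mul_ne_zero hP0 hΔ0)
  have hG1 : (1 : ℝ) ≤ G := by exact_mod_cast hG0
  have hcP : ∀ i, (1 : ℝ) ≤ |(c i : ℝ)| ∧ |(c i : ℝ)| ≤ |(P : ℝ)| := by
    intro i
    have h1 : 1 ≤ |c i| := Int.one_le_abs (hc0 i)
    refine ⟨by exact_mod_cast h1, ?_⟩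
    have h2 : |c i| ≤ |P| := by
      rw [Int.abs_eq_natAbs, Int.abs_eq_natAbs]
      exact_mod_cast Nat.le_of_dvd (Int.natAbs_pos.2 hP0)
        (Int.natAbs_dvd_natAbs.2 (Finset.dvd_prod_of_mem c (mem_univ i)))
    exact_mod_cast h2
  have hP1 : 1 ≤ |(P : ℝ)| := (hcP 0).1.trans (hcP 0).2
  have hPS1 : (1 : ℝ) ≤ PS S := by exact_mod_cast PS_pos S
  set K : ℝ := |(P : ℝ)| * PS S * M2 with hK
  have hK1 : 1 ≤ K := by
    have h1 : 1 ≤ |(P : ℝ)| * PS S := one_le_mul_of_one_le_of_one_le hP1 hPS1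
    exact one_le_mul_of_one_le_of_one_le h1 hM2
  have hq0 : (0 : ℝ) < q := by exact_mod_cast (by omega : 0 < q)
  have hq3 : (3 : ℝ) ≤ q := by exact_mod_cast (by omega : 3 ≤ q)
  set K2 : ℝ := 2 * M1 * G * K ^ (2 : ℝ) with hK2
  have hK20 : 0 < K2 := by positivity
  refine ⟨G * (C * K ^ ((m : ℝ) + 1 - ω)), by positivity, K2 ^ (2 / η), ?_⟩
  intro X hX hXX E hE
  have hX0 : 0 < X := by linarith
  have hXK : K2 ≤ X ^ (η / 2) := by
    calc K2 = (K2 ^ (2 / η)) ^ (η / 2) := by
          rw [← Real.rpow_mul hK20.le]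
          have : 2 / η * (η / 2) = 1 := by field_simp
          rw [this, Real.rpow_one]
      _ ≤ X ^ (η / 2) := Real.rpow_le_rpow (by positivity) hXX (by positivity)
  set Z : ℝ := K * X ^ ((1 : ℝ) / q + ρ) with hZ
  have hXp1 : 1 ≤ X ^ ((1 : ℝ) / q + ρ) := Real.one_le_rpow hX (by positivity)
  have hZ1 : 1 ≤ Z := one_le_mul_of_one_le_of_one_le hK1 hXp1
  -- the reduced tuple
  set b : (Fin (m + 1) → ℤ) → Fin (m + 2) → ℤ := fun x i => c i * form (L (f i)) x with hb
  have hex : ∀ x : Fin (m + 1) → ℤ, ∃ g : Fin (m + 2) → ℤ,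
      (∀ i, b x i = univ.gcd (b x) * g i) ∧ univ.gcd g = 1 := by
    intro x
    obtain ⟨g, h1, h2⟩ := Finset.extract_gcd (b x) (univ_nonempty (α := Fin (m + 2)))
    exact ⟨g, fun i => h1 i (mem_univ i), h2⟩
  choose g hg1 hg2 using hex
  have hgcdnn : ∀ x, 0 ≤ univ.gcd (b x) := fun x =>
    Int.nonneg_of_normalize_eq_self Finset.normalize_gcd
  have hgcd : ∀ x ∈ E, 0 < univ.gcd (b x) ∧ univ.gcd (b x) ≤ G := by
    intro x hx
    obtain ⟨h1, h2, -⟩ := hE x hx
    have hne : univ.gcd (b x) ≠ 0 := by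
      intro h0
      rw [Finset.gcd_eq_zero_iff] at h0
      exact mul_ne_zero (hc0 0) (h2 _) (h0 0 (mem_univ _))
    refine ⟨lt_of_le_of_ne (hgcdnn x) hne.symm, ?_⟩
    have h3 : univ.gcd (b x) ∣ P * Δ := by
      apply form_gcd' h1
      intro i
      have h4 : univ.gcd (b x) ∣ b x i.castSucc := Finset.gcd_dvd (mem_univ _)
      refine h4.trans ?_
      exact mul_dvd_mul (Finset.dvd_prod_of_mem c (mem_univ _)) dvd_rfl
    have h5 : (univ.gcd (b x)).natAbs ≤ G := Nat.le_of_dvd hG0 (Int.natAbs_dvd_natAbs.2 h3)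
    have h6 := hgcdnn x
    omega
  -- the fibres
  have hfib : ∀ u ∈ Icc (1 : ℤ) G, (((E.filter fun x => univ.gcd (b x) = u).card : ℕ) : ℝ) ≤
      C * Z ^ ((m : ℝ) + 1 - ω) := by
    intro u hu
    have hinj : Set.InjOn g (E.filter fun x => univ.gcd (b x) = u) := by
      intro x hx y hy hxy
      obtain ⟨-, hx2⟩ := mem_filter.1 hx
      obtain ⟨-, hy2⟩ := mem_filter.1 hy
      apply form_inj hL hsi
      intro i
      have e1 := hg1 x i.castSucc
      have e2 := hg1 y i.castSucc
      rw [hx2] at e1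
      rw [hy2, ← hxy, ← e1] at e2
      exact (mul_left_cancel₀ (hc0 _) e2).symm
    rw [← card_image_of_injOn hinj]
    have hmain := hcore Z hZ1 ((E.filter fun x => univ.gcd (b x) = u).image g) (by
      intro t ht
      obtain ⟨x, hx, rfl⟩ := mem_image.1 ht
      obtain ⟨hxE, hxu⟩ := mem_filter.1 hx
      obtain ⟨h1, h2, h3, h4, h5⟩ := hE x hxE
      obtain ⟨gpos, gle⟩ := hgcd x hxE
      have hbne : ∀ i, b x i ≠ 0 := fun i => mul_ne_zero (hc0 i) (h2 _)
      have hgne : ∀ i, g x i ≠ 0 := by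
        intro i h0
        have := hg1 x i
        rw [h0, mul_zero] at this
        exact hbne i this
      have hgdvd : ∀ i, g x i ∣ b x i := fun i => ⟨univ.gcd (b x), by rw [mul_comm]; exact hg1 x i⟩
      have hgabs : ∀ i, (g x i).natAbs ≤ (b x i).natAbs := fun i =>
        Nat.le_of_dvd (Int.natAbs_pos.2 (hbne i)) (Int.natAbs_dvd_natAbs.2 (hgdvd i))
      have hbabs : ∀ i, ((b x i).natAbs : ℝ) = |(c i : ℝ)| * |(form (L (f i)) x : ℝ)| := by
        intro i
        rw [Nat.cast_natAbs, Int.cast_abs, ← abs_mul]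
        simp only [hb]
        push_cast
        rfl
      refine ⟨fun i => ⟨hgne i, ?_, ?_⟩, ?_, ?_, ?_⟩
      · -- size
        calc ((g x i).natAbs : ℝ) ≤ ((b x i).natAbs : ℝ) := by exact_mod_cast hgabs i
          _ = |(c i : ℝ)| * |(form (L (f i)) x : ℝ)| := hbabs i
          _ ≤ |(P : ℝ)| * (M2 * X ^ A) :=
              mul_le_mul (hcP i).2 (hupp x _ h3 (f i)) (abs_nonneg _) (abs_nonneg _)
          _ = (|(P : ℝ)| * 1 * M2) * X ^ A := by ring
          _ ≤ K * X ^ A := by
              apply mul_le_mul_of_nonneg_right _ (by positivity)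
              apply mul_le_mul_of_nonneg_right _ (by linarith)
              exact mul_le_mul_of_nonneg_left hPS1 (abs_nonneg _)
          _ ≤ K ^ ((q : ℝ) * A) * (X ^ ((1 : ℝ) / q + ρ)) ^ ((q : ℝ) * A) := by
              apply mul_le_mul _ _ (by positivity) (by positivity)
              · calc K = K ^ (1 : ℝ) := (Real.rpow_one K).symm
                  _ ≤ _ := Real.rpow_le_rpow_of_exponent_le hK1 (by nlinarith)
              · rw [← Real.rpow_mul hX0.le]
                apply Real.rpow_le_rpow_of_exponent_le hX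
                have e1 : ((1 : ℝ) / q + ρ) * (q * A) = A + ρ * (q * A) := by
                  field_simp
                rw [e1]
                have : 0 ≤ ρ * (q * A) := by positivity
                linarith
          _ = Z ^ ((q : ℝ) * A) := by
              rw [hZ, Real.mul_rpow (x := K) (by linarith) (by positivity)]
      · -- radical
        calc (rad (g x i).natAbs : ℝ) ≤ (rad (b x i).natAbs : ℝ) := by
              exact_mod_cast rad_le_rad (Int.natAbs_ne_zero.2 (hbne i))
                (Int.natAbs_dvd_natAbs.2 (hgdvd i))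
          _ ≤ ((c i).natAbs : ℝ) * (rad (form (L (f i)) x).natAbs : ℝ) := by
              have hd : rad (b x i).natAbs ∣ (c i).natAbs * rad (form (L (f i)) x).natAbs := by
                apply rad_dvd_of
                intro p hp hpb
                simp only [hb] at hpb
                rw [Int.natAbs_mul] at hpb
                rcases (Nat.Prime.dvd_mul hp).1 hpb with h | h
                · exact h.mul_right _
                · exact (prime_dvd_rad (Int.natAbs_ne_zero.2 (h2 _)) hp h).mul_left _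
              have hpos : 0 < (c i).natAbs * rad (form (L (f i)) x).natAbs :=
                Nat.mul_pos (Int.natAbs_pos.2 (hc0 i)) (rad_pos' _)
              exact_mod_cast Nat.le_of_dvd hpos hd
          _ ≤ |(P : ℝ)| * (PS S * X ^ ((1 : ℝ) / q + ρ)) := by
              apply mul_le_mul _ _ (Nat.cast_nonneg _) (abs_nonneg _)
              · rw [Nat.cast_natAbs, Int.cast_abs]
                exact (hcP i).2
              · calc (rad (form (L (f i)) x).natAbs : ℝ) ≤
                      (PS S : ℝ) * (radS S (form (L (f i)) x) : ℝ) := by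
                      exact_mod_cast rad_le_radS S _
                  _ ≤ _ := mul_le_mul_of_nonneg_left (h5 _) (by linarith)
          _ = (|(P : ℝ)| * PS S * 1) * X ^ ((1 : ℝ) / q + ρ) := by ring
          _ ≤ K * X ^ ((1 : ℝ) / q + ρ) := by
              apply mul_le_mul_of_nonneg_right _ (by positivity)
              exact mul_le_mul_of_nonneg_left hM2 (by positivity)
          _ = Z := rfl
      · -- sum
        have e1 : univ.gcd (b x) * ∑ i, g x i = 0 := by
          rw [mul_sum, ← sum_congr rfl fun i _ => hg1 x i]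
          exact hc x
        exact (mul_eq_zero.1 e1).resolve_left gpos.ne'
      · -- no common prime
        intro p hp
        by_contra hcon
        push Not at hcon
        have e1 : (p : ℤ) ∣ univ.gcd (g x) := Finset.dvd_gcd fun i _ => hcon i
        rw [hg2 x] at e1
        have e2 : (p : ℕ) ∣ 1 := by exact_mod_cast e1
        exact hp.one_lt.ne' (Nat.dvd_one.1 e2)
      · -- height
        have hbig : ∃ i : Fin (m + 1), X ^ ((1 : ℝ) / q + η) / (2 * M1) <
            |(form (L (s i)) x : ℝ)| := by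
          by_contra hcon
          push Not at hcon
          obtain ⟨j, hj⟩ := h4
          have e1 := hlow s hsi x _ hcon j
          have e2 : M1 * (X ^ ((1 : ℝ) / q + η) / (2 * M1)) = X ^ ((1 : ℝ) / q + η) / 2 := by
            field_simp
          rw [e2] at e1
          have e3 : 0 < X ^ ((1 : ℝ) / q + η) := by positivity
          linarith
        obtain ⟨i, hi⟩ := hbig
        refine ⟨i.castSucc, ?_⟩
        have e1 : (G : ℝ) * ((g x i.castSucc).natAbs : ℝ) ≥ |(form (L (s i)) x : ℝ)| := by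
          have e2 : ((b x i.castSucc).natAbs : ℝ) =
              ((univ.gcd (b x)).natAbs : ℝ) * ((g x i.castSucc).natAbs : ℝ) := by
            rw [← Nat.cast_mul, ← Int.natAbs_mul, ← hg1 x i.castSucc]
          have e3 : ((univ.gcd (b x)).natAbs : ℝ) ≤ G := by
            have : (univ.gcd (b x)).natAbs ≤ G := by omega
            exact_mod_cast this
          calc (G : ℝ) * ((g x i.castSucc).natAbs : ℝ)
              ≥ ((univ.gcd (b x)).natAbs : ℝ) * ((g x i.castSucc).natAbs : ℝ) :=
                mul_le_mul_of_nonneg_right e3 (Nat.cast_nonneg _)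
            _ = |(c i.castSucc : ℝ)| * |(form (L (f i.castSucc)) x : ℝ)| := by
                rw [← e2]; exact hbabs _
            _ ≥ |(form (L (s i)) x : ℝ)| := le_mul_of_one_le_left (abs_nonneg _) (hcP _).1
        have hη' : min (η / 4) 1 ≤ η / 4 := min_le_left _ _
        have hη1 : min (η / 4) 1 ≤ 1 := min_le_right _ _
        have hη0 : 0 < min (η / 4) 1 := lt_min (by positivity) one_pos
        have e4 : Z ^ (1 + min (η / 4) 1) ≤ K ^ (2 : ℝ) * X ^ ((1 : ℝ) / q + η / 2) := by
          rw [hZ, Real.mul_rpow (x := K) (by linarith) (by positivity), ← Real.rpow_mul hX0.le]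
          apply mul_le_mul _ _ (by positivity) (by positivity)
          · exact Real.rpow_le_rpow_of_exponent_le hK1 (by linarith)
          · apply Real.rpow_le_rpow_of_exponent_le hX
            have e5 : (1 : ℝ) / q ≤ 1 / 3 := one_div_le_one_div_of_le (by norm_num) hq3
            have e6 : 0 < (1 : ℝ) / q := by positivity
            nlinarith
        have e7 : X ^ ((1 : ℝ) / q + η) = X ^ ((1 : ℝ) / q + η / 2) * X ^ (η / 2) := by
          rw [← Real.rpow_add hX0]; congr 1; ring
        have e8 : (0 : ℝ) < G := by linarith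
        have e9 : 0 < X ^ ((1 : ℝ) / q + η / 2) := by positivity
        have e10 : (G : ℝ) * Z ^ (1 + min (η / 4) 1) ≤ G * ((g x i.castSucc).natAbs : ℝ) := by
          calc (G : ℝ) * Z ^ (1 + min (η / 4) 1) ≤ G * (K ^ (2 : ℝ) * X ^ ((1 : ℝ) / q + η / 2)) :=
                mul_le_mul_of_nonneg_left e4 e8.le
            _ = X ^ ((1 : ℝ) / q + η / 2) * K2 / (2 * M1) := by
                rw [hK2]; field_simp
            _ ≤ X ^ ((1 : ℝ) / q + η / 2) * X ^ (η / 2) / (2 * M1) := by
                apply div_le_div_of_nonneg_right _ (by positivity)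
                exact mul_le_mul_of_nonneg_left hXK e9.le
            _ = X ^ ((1 : ℝ) / q + η) / (2 * M1) := by rw [e7]
            _ ≤ |(form (L (s i)) x : ℝ)| := hi.le
            _ ≤ _ := e1
        exact le_of_mul_le_mul_left e10 e8)
    refine hmain.trans (le_of_eq ?_)
    congr 2
    push_cast
    ring
  have hcov : E.card = ∑ u ∈ Icc (1 : ℤ) G, (E.filter fun x => univ.gcd (b x) = u).card := by
    apply card_eq_sum_card_fiberwise
    intro x hx
    rw [mem_coe, mem_Icc]
    obtain ⟨h1, h2⟩ := hgcd x hx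
    beta_reduce
    exact ⟨by omega, h2⟩
  rw [hcov]
  push_cast
  calc ∑ u ∈ Icc (1 : ℤ) G, (((E.filter fun x => univ.gcd (b x) = u).card : ℕ) : ℝ)
      ≤ ∑ _u ∈ Icc (1 : ℤ) G, C * Z ^ ((m : ℝ) + 1 - ω) := sum_le_sum hfib
    _ = G * (C * Z ^ ((m : ℝ) + 1 - ω)) := by
        rw [sum_const, nsmul_eq_mul, Int.card_Icc]
        congr 1
        have : ((G : ℤ) + 1 - 1).toNat = G := by omega
        rw [this]
    _ = _ := by
        rw [hZ, Real.mul_rpow (x := K) (by linarith) (by positivity), ← Real.rpow_mul hX0.le]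
        ring

end

end Pool.Agent.Y594.NT
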