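import Pool.Agent.Y594.NT.ArrEx

/-!
# Points of large height: all cases (helper594)
-/

set_option autoImplicit false

namespace Pool.Agent.Y594.NT

open Finset Pool.Agent.H785R2.ABC Pool.Agent.H705R2.ABC

/-- integer points in a box -/
theorem box_card {N : ℕ} (B : ℝ) (hB : 0 ≤ B) (E : Finset (Fin N → ℤ))
    (h : ∀ x ∈ E, ∀ j, |(x j : ℝ)| ≤ B) : (E.card : ℝ) ≤ (2 * B + 1) ^ N := by
  classical
  have h1 : E ⊆ Fintype.piFinset fun _ : Fin N => Icc (-(⌊B⌋₊ : ℤ)) ⌊B⌋₊ := by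
    intro x hx
    rw [Fintype.mem_piFinset]
    intro j
    have h2 : (x j).natAbs ≤ ⌊B⌋₊ := by
      apply Nat.le_floor
      rw [Nat.cast_natAbs, Int.cast_abs]
      exact h x hx j
    rw [mem_Icc]
    omega
  have h2 : E.card ≤ (2 * ⌊B⌋₊ + 1) ^ N := by
    refine (card_le_card h1).trans (le_of_eq ?_)
    rw [Fintype.card_piFinset, prod_const, card_univ, Fintype.card_fin, Int.card_Icc]
    congr 1
    omega
  have h3 : (⌊B⌋₊ : ℝ) ≤ B := Nat.floor_le hB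
  calc (E.card : ℝ) ≤ (2 * (⌊B⌋₊ : ℝ) + 1) ^ N := by exact_mod_cast h2
    _ ≤ _ := pow_le_pow_left₀ (by positivity) (by linarith) N

section

variable {m q : ℕ} {L : Fin q → Fin (m + 1) → ℤ}

/-- points of large height are rare -/
theorem ex_arr (hL : GP L) (hm : 1 ≤ m) (hq : m + 2 ≤ q) (S : Finset ℕ) (A η : ℝ)
    (hA : 1 ≤ A) (hη : 0 < η) : ∃ ν : ℝ, 0 < ν ∧ ∃ C : ℝ, 0 < C ∧ ∀ X : ℝ, 1 ≤ X →
    ∀ E : Finset (Fin (m + 1) → ℤ),
    (∀ x ∈ E, univ.gcd x = 1 ∧ (∀ i, form (L i) x ≠ 0) ∧ (∀ j, |(x j : ℝ)| ≤ X ^ A) ∧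
      (∃ j, X ^ ((1 : ℝ) / q + η) ≤ |(x j : ℝ)|) ∧
      ∏ i, (radS S (form (L i) x) : ℝ) ≤ X) →
    (E.card : ℝ) ≤ C * X ^ (((m : ℝ) + 1) / q - ν) := by
  classical
  obtain ⟨ω, hω, hω1, htwo⟩ := ex_two hL hm hq S A η hA hη
  have hq0 : (0 : ℝ) < q := by exact_mod_cast (by omega : 0 < q)
  have hq3 : (3 : ℝ) ≤ q := by exact_mod_cast (by omega : 3 ≤ q)
  have hm0 : (1 : ℝ) ≤ m := by exact_mod_cast hm
  obtain ⟨ρ, hρ⟩ : ∃ ρ : ℝ, ρ = min (η / 8) (ω / (2 * q * (m + 1))) := ⟨_, rfl⟩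
  have hρ0 : 0 < ρ := by rw [hρ]; exact lt_min (by positivity) (by positivity)
  have hρ1 : ρ ≤ η / 8 := by rw [hρ]; exact min_le_left _ _
  have hρ2 : ρ * (m + 1) ≤ ω / (2 * q) := by
    have h1 : ρ ≤ ω / (2 * q * (m + 1)) := by rw [hρ]; exact min_le_right _ _
    calc ρ * (m + 1) ≤ ω / (2 * q * (m + 1)) * (m + 1) :=
          mul_le_mul_of_nonneg_right h1 (by positivity)
      _ = _ := by field_simp
  obtain ⟨C₂, hC₂, X₀, htwo'⟩ := htwo ρ hρ0 hρ1
  obtain ⟨D, hD, hpick⟩ := pick_count hL S A (ρ / (2 * q)) hA (by positivity)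
  set X₁ : ℝ := max X₀ 1 with hX₁
  have hX₁1 : 1 ≤ X₁ := le_max_right _ _
  have hρω : ρ ≤ ω := by
    have h1 : ω / (2 * q) ≤ ω := by
      apply div_le_self hω.le; linarith
    nlinarith
  refine ⟨ρ / (2 * q), by positivity, q * D + C₂ + (2 * X₁ ^ A + 1) ^ (m + 1), by positivity, ?_⟩
  intro X hX E hE
  have hX0 : 0 < X := by linarith
  have hexp0 : 0 ≤ ((m : ℝ) + 1) / q - ρ / (2 * q) := by
    rw [sub_nonneg, div_le_div_iff₀ (by positivity) hq0]
    nlinarith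
  have hbase : 1 ≤ X ^ (((m : ℝ) + 1) / q - ρ / (2 * q)) := Real.one_le_rpow hX hexp0
  rcases lt_or_ge X X₀ with hlt | hge
  · have h1 := box_card (X₁ ^ A) (by positivity) E (fun x hx j => by
      refine ((hE x hx).2.2.1 j).trans ?_
      exact Real.rpow_le_rpow hX0.le (hlt.le.trans (le_max_left _ _)) (by linarith))
    have h2 : (0 : ℝ) ≤ q * D + C₂ := by positivity
    calc (E.card : ℝ) ≤ (2 * X₁ ^ A + 1) ^ (m + 1) := h1
      _ ≤ (q * D + C₂ + (2 * X₁ ^ A + 1) ^ (m + 1)) * 1 := by linarith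
      _ ≤ _ := mul_le_mul_of_nonneg_left hbase (by positivity)
  · obtain ⟨k, hk⟩ : ∃ k, q - 1 = (m + 1) + k := ⟨q - 1 - (m + 1), by omega⟩
    have hk' : (q : ℝ) - 1 = (m : ℝ) + 1 + k := by
      have : (q : ℝ) = ((m + 1 + k + 1 : ℕ) : ℝ) := by
        congr 1; omega
      rw [this]; push_cast; ring
    set E₁ : Fin q → Finset (Fin (m + 1) → ℤ) := fun i =>
      E.filter fun x => X ^ ((1 : ℝ) / q + ρ) < radS S (form (L i) x) with hE₁
    set E₂ : Finset (Fin (m + 1) → ℤ) := E.filter fun x =>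
      ∀ i, (radS S (form (L i) x) : ℝ) ≤ X ^ ((1 : ℝ) / q + ρ) with hE₂
    have hcover : E ⊆ univ.biUnion E₁ ∪ E₂ := by
      intro x hx
      rw [mem_union, mem_biUnion]
      by_cases h : ∀ i, (radS S (form (L i) x) : ℝ) ≤ X ^ ((1 : ℝ) / q + ρ)
      · exact Or.inr (mem_filter.2 ⟨hx, h⟩)
      · push Not at h
        obtain ⟨i, hi⟩ := h
        exact Or.inl ⟨i, mem_univ _, mem_filter.2 ⟨hx, hi⟩⟩
    have b1 : ∀ i ∈ (univ : Finset (Fin q)), ((E₁ i).card : ℝ) ≤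
        D * X ^ (((m : ℝ) + 1) / q - ρ / (2 * q)) := by
      intro i _
      have h1 := hpick X hX (univ.erase i) k (by
        rw [card_erase_of_mem (mem_univ i), card_univ, Fintype.card_fin, hk])
        (X ^ (1 - (1 : ℝ) / q - ρ)) (by positivity) (E₁ i) (by
          intro x hx
          obtain ⟨x1, x2⟩ := mem_filter.1 hx
          obtain ⟨-, g2, g3, -, g5⟩ := hE x x1
          refine ⟨g2, g3, ?_⟩
          rw [← Finset.mul_prod_erase univ _ (mem_univ i)] at g5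
          have g6 : 0 < X ^ ((1 : ℝ) / q + ρ) := by positivity
          have g7 : X ^ ((1 : ℝ) / q + ρ) * ∏ l ∈ univ.erase i, (radS S (form (L l) x) : ℝ) ≤ X :=
            le_trans (mul_le_mul_of_nonneg_right x2.le (prod_nonneg fun l _ => Nat.cast_nonneg _))
              g5
          have g8 : X ^ (1 - (1 : ℝ) / q - ρ) = X / X ^ ((1 : ℝ) / q + ρ) := by
            rw [show (1 : ℝ) - 1 / q - ρ = 1 - (1 / q + ρ) by ring, Real.rpow_sub hX0,
              Real.rpow_one]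
          rw [g8, le_div_iff₀ g6, mul_comm]
          exact g7)
      refine h1.trans ?_
      rw [← Real.rpow_mul hX0.le, mul_assoc, ← Real.rpow_add hX0]
      apply mul_le_mul_of_nonneg_left _ hD.le
      apply Real.rpow_le_rpow_of_exponent_le hX
      rw [← hk']
      have hq1 : (0 : ℝ) < q - 1 := by linarith
      have e1 : (1 - (1 : ℝ) / q - ρ) * (((m : ℝ) + 1) / (q - 1)) =
          ((m : ℝ) + 1) / q - ρ * (((m : ℝ) + 1) / (q - 1)) := by
        field_simp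
      have e2 : (1 : ℝ) / q ≤ ((m : ℝ) + 1) / (q - 1) := by
        rw [div_le_div_iff₀ hq0 hq1]
        nlinarith
      have e3 : ρ * (1 / q) ≤ ρ * (((m : ℝ) + 1) / (q - 1)) :=
        mul_le_mul_of_nonneg_left e2 hρ0.le
      have e4 : ρ * (1 / q) = ρ / (2 * q) + ρ / (2 * q) := by field_simp; ring
      rw [e1]
      linarith
    have b2 : (E₂.card : ℝ) ≤ C₂ * X ^ (((m : ℝ) + 1) / q - ρ / (2 * q)) := by
      have h1 := htwo' X hX hge E₂ (by
        intro x hx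
        obtain ⟨x1, x2⟩ := mem_filter.1 hx
        obtain ⟨g1, g2, g3, g4, -⟩ := hE x x1
        exact ⟨g1, g2, g3, g4, x2⟩)
      refine h1.trans ?_
      apply mul_le_mul_of_nonneg_left _ hC₂.le
      apply Real.rpow_le_rpow_of_exponent_le hX
      have e1 : ((1 : ℝ) / q + ρ) * ((m : ℝ) + 1 - ω) =
          ((m : ℝ) + 1) / q - ω / q + ρ * (m + 1) - ρ * ω := by
        field_simp; ring
      have e2 : ω / q = ω / (2 * q) + ω / (2 * q) := by field_simp; ring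
      have e3 : ρ / (2 * q) ≤ ω / (2 * q) := div_le_div_of_nonneg_right hρω (by positivity)
      have e4 : 0 ≤ ρ * ω := by positivity
      rw [e1]
      linarith
    have h3 : (E.card : ℝ) ≤ ∑ i, ((E₁ i).card : ℝ) + E₂.card := by
      have h4 := (card_le_card hcover).trans (card_union_le _ _)
      have h5 : (univ.biUnion E₁).card ≤ ∑ i, (E₁ i).card := card_biUnion_le
      exact_mod_cast h4.trans (Nat.add_le_add_right h5 _)
    have h4 : ∑ i, ((E₁ i).card : ℝ) ≤ q * (D * X ^ (((m : ℝ) + 1) / q - ρ / (2 * q))) := by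
      calc _ ≤ ∑ _i : Fin q, D * X ^ (((m : ℝ) + 1) / q - ρ / (2 * q)) := sum_le_sum b1
        _ = _ := by rw [sum_const, nsmul_eq_mul, card_univ, Fintype.card_fin]
    have h5 : 0 ≤ (2 * X₁ ^ A + 1) ^ (m + 1) * X ^ (((m : ℝ) + 1) / q - ρ / (2 * q)) := by
      positivity
    calc (E.card : ℝ) ≤ q * (D * X ^ (((m : ℝ) + 1) / q - ρ / (2 * q))) +
          C₂ * X ^ (((m : ℝ) + 1) / q - ρ / (2 * q)) := by linarith
      _ ≤ q * (D * X ^ (((m : ℝ) + 1) / q - ρ / (2 * q))) +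
          C₂ * X ^ (((m : ℝ) + 1) / q - ρ / (2 * q)) +
          (2 * X₁ ^ A + 1) ^ (m + 1) * X ^ (((m : ℝ) + 1) / q - ρ / (2 * q)) := by linarith
      _ = _ := by ring

end

end Pool.Agent.Y594.NT
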