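import Pool.Agent.Y594.NT.Loss

/-!
# The exceptional points (helper594)
-/

set_option autoImplicit false

namespace Pool.Agent.Y594.NT

open Finset Pool.Agent.H785R2.ABC Pool.Agent.H705R2.ABC

variable {m q : ℕ} {L : Fin q → Fin (m + 1) → ℤ}

/-- the points that violate the inequality are rare -/
theorem bad_arr (hL : GP L) (hm : 1 ≤ m) (hq : m + 2 ≤ q) (S : Finset ℕ) (A ε : ℝ)
    (hA : 1 ≤ A) (hε : 0 < ε) : ∃ ν : ℝ, 0 < ν ∧ ∃ C : ℝ, 0 < C ∧ ∀ X : ℝ, 1 ≤ X →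
    ∀ E : Finset (Fin (m + 1) → ℤ),
    (∀ x ∈ E, univ.gcd x = 1 ∧ (∀ i, form (L i) x ≠ 0) ∧ (∀ j, |(x j : ℝ)| ≤ X ^ A) ∧
      ∏ i, (radS S (form (L i) x) : ℝ) ≤ X ∧ ∃ H : ℝ, 1 ≤ H ∧ (∃ j, H ≤ |(x j : ℝ)|) ∧
        (radS S (∏ i, form (L i) x) : ℝ) < H ^ ((q : ℝ) - ε)) →
    (E.card : ℝ) ≤ C * X ^ (((m : ℝ) + 1) / q - ν) := by
  classical
  have hq0 : (0 : ℝ) < q := by exact_mod_cast (by omega : 0 < q)
  have hq3 : (3 : ℝ) ≤ q := by exact_mod_cast (by omega : 3 ≤ q)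
  have hm0 : (1 : ℝ) ≤ m := by exact_mod_cast hm
  obtain ⟨e, he⟩ : ∃ e : ℝ, e = min ε 1 := ⟨_, rfl⟩
  have he0 : 0 < e := by rw [he]; exact lt_min hε one_pos
  have he1 : e ≤ 1 := by rw [he]; exact min_le_right _ _
  have heε : e ≤ ε := by rw [he]; exact min_le_left _ _
  obtain ⟨κ, hκ⟩ : ∃ κ : ℝ, κ = e / (4 * q ^ 3) := ⟨_, rfl⟩
  have hκ0 : 0 < κ := by rw [hκ]; positivity
  have hκq2 : κ * (q * q) = e / (4 * q) := by rw [hκ]; field_simp
  have hκq : κ ≤ e / (4 * q ^ 2) := by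
    rw [hκ]
    apply div_le_div_of_nonneg_left he0.le (by positivity)
    have : (q : ℝ) ^ 2 ≤ q ^ 3 := pow_le_pow_right₀ (by linarith) (by norm_num)
    linarith
  obtain ⟨η, hη⟩ : ∃ η : ℝ, η = κ / (2 * (m + 1)) := ⟨_, rfl⟩
  have hη0 : 0 < η := by rw [hη]; positivity
  have hηm : η * (m + 1) = κ / 2 := by rw [hη]; field_simp
  have hηκ : η ≤ κ := by nlinarith
  obtain ⟨ν₁, hν₁, C₁, hC₁, hex⟩ := ex_arr hL hm hq S A η hA hη0
  obtain ⟨C₂, hC₂, hgc⟩ := gcd_count hL hm (by omega)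
  obtain ⟨C₃, hC₃, hub⟩ := ub_count hL (by omega) S A (e / (8 * q ^ 2)) hA (by positivity)
  obtain ⟨ν, hν⟩ : ∃ ν : ℝ, ν = min ν₁ (κ / 2) := ⟨_, rfl⟩
  have hν1 : ν ≤ ν₁ := by rw [hν]; exact min_le_left _ _
  have hν2 : ν ≤ κ / 2 := by rw [hν]; exact min_le_right _ _
  refine ⟨ν, by rw [hν]; exact lt_min hν₁ (by positivity), C₁ + q * q * C₂ + C₃, by positivity, ?_⟩
  intro X hX E hE
  have hX0 : 0 < X := by linarith
  set E₁ : Finset (Fin (m + 1) → ℤ) := E.filter fun x =>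
    ∃ j, X ^ ((1 : ℝ) / q + η) ≤ |(x j : ℝ)| with hE₁
  set P : Finset (Fin q × Fin q) := (univ ×ˢ univ).filter fun x => x.1 ≠ x.2 with hP
  set E₂ : Fin q × Fin q → Finset (Fin (m + 1) → ℤ) := fun y => E.filter fun x =>
    (∀ j, |(x j : ℝ)| ≤ X ^ ((1 : ℝ) / q + η)) ∧
      X ^ κ ≤ Int.gcd (form (L y.1) x) (form (L y.2) x) with hE₂
  set E₃ : Finset (Fin (m + 1) → ℤ) := E.filter fun x =>
    (∀ j, |(x j : ℝ)| ≤ X ^ ((1 : ℝ) / q + η)) ∧
      ∀ y ∈ P, (Int.gcd (form (L y.1) x) (form (L y.2) x) : ℝ) ≤ X ^ κ with hE₃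
  have hcover : E ⊆ (E₁ ∪ P.biUnion E₂) ∪ E₃ := by
    intro x hx
    rw [mem_union, mem_union, mem_biUnion]
    by_cases h1 : ∃ j, X ^ ((1 : ℝ) / q + η) ≤ |(x j : ℝ)|
    · exact Or.inl (Or.inl (mem_filter.2 ⟨hx, h1⟩))
    push Not at h1
    by_cases h2 : ∃ y ∈ P, X ^ κ ≤ Int.gcd (form (L y.1) x) (form (L y.2) x)
    · obtain ⟨y, hy, hy2⟩ := h2
      exact Or.inl (Or.inr ⟨y, hy, mem_filter.2 ⟨hx, fun j => (h1 j).le, hy2⟩⟩)
    push Not at h2
    exact Or.inr (mem_filter.2 ⟨hx, fun j => (h1 j).le, fun y hy => (h2 y hy).le⟩)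
  have hPcard : (P.card : ℝ) ≤ q * q := by
    have h1 : P.card ≤ q * q := (card_le_univ P).trans (by
      rw [Fintype.card_prod, Fintype.card_fin])
    exact_mod_cast h1
  have b1 : (E₁.card : ℝ) ≤ C₁ * X ^ (((m : ℝ) + 1) / q - ν) := by
    refine (hex X hX E₁ ?_).trans ?_
    · intro x hx
      obtain ⟨x1, x2⟩ := mem_filter.1 hx
      obtain ⟨g1, g2, g3, g4, -⟩ := hE x x1
      exact ⟨g1, g2, g3, x2, g4⟩
    · exact mul_le_mul_of_nonneg_left (Real.rpow_le_rpow_of_exponent_le hX (by linarith)) hC₁.le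
  have b2 : ∀ y ∈ P, ((E₂ y).card : ℝ) ≤ C₂ * X ^ (((m : ℝ) + 1) / q - ν) := by
    intro y hy
    have h1 := hgc (X ^ ((1 : ℝ) / q + η)) (Real.one_le_rpow hX (by positivity)) (X ^ κ)
      (by positivity) y.1 y.2 (mem_filter.1 hy).2 (E₂ y) (by
        intro x hx
        obtain ⟨x1, x2, x3⟩ := mem_filter.1 hx
        exact ⟨(hE x x1).2.1, x2, x3⟩)
    refine h1.trans ?_
    rw [← Real.rpow_natCast (X ^ ((1 : ℝ) / q + η)), ← Real.rpow_mul hX0.le, mul_div_assoc,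
      ← Real.rpow_sub hX0]
    apply mul_le_mul_of_nonneg_left _ hC₂.le
    apply Real.rpow_le_rpow_of_exponent_le hX
    push_cast
    have e1 : ((1 : ℝ) / q + η) * ((m : ℝ) + 1) - κ = ((m : ℝ) + 1) / q + η * (m + 1) - κ := by
      field_simp
    rw [e1, hηm]
    linarith
  have b3 : (E₃.card : ℝ) ≤ C₃ * X ^ (((m : ℝ) + 1) / q - ν) := by
    have h1 := hub X hX (X ^ (1 - e / (4 * q))) (by positivity) E₃ (by
      intro x hx
      obtain ⟨x1, x2, x3⟩ := mem_filter.1 hx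
      obtain ⟨g1, g2, g3, g4, H, hH1, ⟨j, hj⟩, hH2⟩ := hE x x1
      refine ⟨g2, g3, ?_⟩
      have e1 := radS_prod S (fun i => form (L i) x) univ (fun i _ => g2 i)
      have e2 : ∏ i, (radS S (form (L i) x) : ℝ) ≤ (radS S (∏ i, form (L i) x) : ℝ) *
          ∏ y ∈ P, (Int.gcd (form (L y.1) x) (form (L y.2) x) : ℝ) := by
        exact_mod_cast e1
      have e3 : (radS S (∏ i, form (L i) x) : ℝ) ≤ X ^ (1 - e / (2 * q)) := by
        have hHX : H ≤ X ^ ((1 : ℝ) / q + η) := hj.trans (x2 j)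
        have hqe : 0 < (q : ℝ) - e := by linarith
        calc (radS S (∏ i, form (L i) x) : ℝ) ≤ H ^ ((q : ℝ) - ε) := hH2.le
          _ ≤ H ^ ((q : ℝ) - e) := Real.rpow_le_rpow_of_exponent_le hH1 (by linarith)
          _ ≤ (X ^ ((1 : ℝ) / q + η)) ^ ((q : ℝ) - e) :=
              Real.rpow_le_rpow (by linarith) hHX hqe.le
          _ = X ^ (((1 : ℝ) / q + η) * (q - e)) := by rw [← Real.rpow_mul hX0.le]
          _ ≤ _ := by
              apply Real.rpow_le_rpow_of_exponent_le hX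
              have f1 : ((1 : ℝ) / q + η) * (q - e) = 1 - e / q + η * q - η * e := by
                field_simp
                ring
              have f2 : e / q = e / (2 * q) + e / (2 * q) := by field_simp; ring
              have f3 : η * q ≤ e / (2 * q) := by
                calc η * q ≤ κ * q := mul_le_mul_of_nonneg_right hηκ hq0.le
                  _ ≤ e / (4 * q ^ 2) * q := mul_le_mul_of_nonneg_right hκq hq0.le
                  _ = e / (4 * q) := by field_simp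
                  _ ≤ e / (2 * q) := by
                    apply div_le_div_of_nonneg_left he0.le (by positivity)
                    linarith
              have f4 : 0 ≤ η * e := by positivity
              rw [f1]
              linarith
      have e4 : ∏ y ∈ P, (Int.gcd (form (L y.1) x) (form (L y.2) x) : ℝ) ≤
          X ^ (e / (4 * q)) := by
        calc ∏ y ∈ P, (Int.gcd (form (L y.1) x) (form (L y.2) x) : ℝ) ≤ ∏ _y ∈ P, X ^ κ := by
              apply prod_le_prod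
              · intro y _; exact Nat.cast_nonneg _
              · exact x3
          _ = X ^ (κ * P.card) := by
              rw [prod_const, ← Real.rpow_natCast (X ^ κ), ← Real.rpow_mul hX0.le]
          _ ≤ _ := by
              apply Real.rpow_le_rpow_of_exponent_le hX
              rw [← hκq2]
              exact mul_le_mul_of_nonneg_left hPcard hκ0.le
      calc ∏ i, (radS S (form (L i) x) : ℝ) ≤ (radS S (∏ i, form (L i) x) : ℝ) *
            ∏ y ∈ P, (Int.gcd (form (L y.1) x) (form (L y.2) x) : ℝ) := e2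
        _ ≤ X ^ (1 - e / (2 * q)) * X ^ (e / (4 * q)) :=
            mul_le_mul e3 e4 (prod_nonneg fun _ _ => Nat.cast_nonneg _) (by positivity)
        _ = X ^ (1 - e / (4 * q)) := by
            rw [← Real.rpow_add hX0]
            congr 1
            field_simp
            ring)
    refine h1.trans ?_
    rw [← Real.rpow_mul hX0.le, mul_assoc, ← Real.rpow_add hX0]
    apply mul_le_mul_of_nonneg_left _ hC₃.le
    apply Real.rpow_le_rpow_of_exponent_le hX
    have f1 : e / (8 * (q : ℝ) ^ 2) + (1 - e / (4 * q)) * (((m : ℝ) + 1) / q) =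
        ((m : ℝ) + 1) / q - e / (8 * q ^ 2) * (2 * m + 1) := by
      field_simp
      ring
    have f2 : κ / 2 ≤ e / (8 * (q : ℝ) ^ 2) := by
      calc κ / 2 ≤ e / (4 * (q : ℝ) ^ 2) / 2 := by linarith
        _ = _ := by field_simp; ring
    have f3 : e / (8 * (q : ℝ) ^ 2) ≤ e / (8 * q ^ 2) * (2 * m + 1) :=
      le_mul_of_one_le_right (by positivity) (by linarith)
    rw [f1]
    linarith
  have h3 : (E.card : ℝ) ≤ E₁.card + ∑ y ∈ P, ((E₂ y).card : ℝ) + E₃.card := by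
    have h4 := (card_le_card hcover).trans (card_union_le _ _)
    have h5 := card_union_le E₁ (P.biUnion E₂)
    have h6 : (P.biUnion E₂).card ≤ ∑ y ∈ P, (E₂ y).card := card_biUnion_le
    exact_mod_cast (by omega : E.card ≤ E₁.card + ∑ y ∈ P, (E₂ y).card + E₃.card)
  have h4 : ∑ y ∈ P, ((E₂ y).card : ℝ) ≤ q * q * (C₂ * X ^ (((m : ℝ) + 1) / q - ν)) := by
    calc _ ≤ ∑ _y ∈ P, C₂ * X ^ (((m : ℝ) + 1) / q - ν) := sum_le_sum b2
      _ = P.card * (C₂ * X ^ (((m : ℝ) + 1) / q - ν)) := by rw [sum_const, nsmul_eq_mul]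
      _ ≤ _ := mul_le_mul_of_nonneg_right hPcard (by positivity)
  calc (E.card : ℝ) ≤ C₁ * X ^ (((m : ℝ) + 1) / q - ν) +
        q * q * (C₂ * X ^ (((m : ℝ) + 1) / q - ν)) + C₃ * X ^ (((m : ℝ) + 1) / q - ν) := by
        linarith
    _ = _ := by ring

end Pool.Agent.Y594.NT
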