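import Pool.Agent.Y594.NT.Pair

/-!
# Cells of tuples and the three bounds for a cell (helper594)
-/

set_option autoImplicit false

namespace Pool.Agent.Y594.NT

open Finset Pool.Agent.H785R2.ABC Pool.Agent.H705R2.ABC

/-- a cell: positive pairwise coprime numbers `t i`, coprime to the coefficients `w k`, with
`∑ w i * t i = 0`, all of whose parts have comparable sizes -/
structure Cl (n K : ℕ) (w : Fin n → ℤ) (Y : ℕ) (T : Finset (Fin n → ℕ)) : Prop where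
  w0 : ∀ i, w i ≠ 0
  pos : ∀ t ∈ T, ∀ i, 1 ≤ t i
  le : ∀ t ∈ T, ∀ i, (w i).natAbs * t i ≤ Y
  sum : ∀ t ∈ T, ∑ i, w i * (t i : ℤ) = 0
  cop : ∀ t ∈ T, ∀ i k, i ≠ k → Nat.Coprime (t i) (t k)
  cow : ∀ t ∈ T, ∀ i k, IsCoprime (w k) (t i : ℤ)
  rd_le : ∀ s ∈ T, ∀ t ∈ T, ∀ i S, rd K (s i) S ≤ 2 ^ (K + 1) * rd K (t i) S
  part_le : ∀ s ∈ T, ∀ t ∈ T, ∀ i S, part K (s i) S ≤ 2 ^ (K + 1) * part K (t i) S

theorem Cl.t_le {n K : ℕ} {w : Fin n → ℤ} {Y : ℕ} {T : Finset (Fin n → ℕ)} (h : Cl n K w Y T)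
    {t : Fin n → ℕ} (ht : t ∈ T) (i : Fin n) : t i ≤ Y :=
  (Nat.le_mul_of_pos_left _ (Int.natAbs_pos.2 (h.w0 i))).trans (h.le t ht i)

theorem Cl.val_le {n K : ℕ} {w : Fin n → ℤ} {Y : ℕ} {T : Finset (Fin n → ℕ)} (h : Cl n K w Y T)
    {s t : Fin n → ℕ} (hs : s ∈ T) (ht : t ∈ T) (i : Fin n) : s i ≤ 2 ^ (K + 1) * t i := by
  have h1 := h.part_le s hs t ht i univ
  rwa [basics.part_univ K _ (h.pos s hs i), basics.part_univ K _ (h.pos t ht i)] at h1

theorem Cl.rad_le {n K : ℕ} {w : Fin n → ℤ} {Y : ℕ} {T : Finset (Fin n → ℕ)} (h : Cl n K w Y T)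
    {s t : Fin n → ℕ} (hs : s ∈ T) (ht : t ∈ T) (i : Fin n) :
    rad (s i) ≤ 2 ^ (K + 1) * rad (t i) := by
  have h1 := h.rd_le s hs t ht i univ
  rwa [basics.rd_univ, basics.rd_univ] at h1

/-- counting by fibres -/
theorem fiber_card {n : ℕ} (T : Finset (Fin n → ℕ)) (S : Finset (Fin n)) (B : Fin n → Finset ℕ)
    (g : (Fin n → ℕ) → ℕ) (B' : Finset ℕ) (hB : ∀ t ∈ T, ∀ i ∈ S, t i ∈ B i)
    (hB' : ∀ t ∈ T, g t ∈ B') (N : ℝ) (hN0 : 0 ≤ N)
    (hN : ∀ u ∈ T, (((T.filter fun t => (∀ i ∈ S, t i = u i) ∧ g t = g u).card : ℕ) : ℝ) ≤ N) :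
    (T.card : ℝ) ≤ (∏ i ∈ S, ((B i).card : ℝ)) * (B'.card : ℝ) * N := by
  classical
  set φ : (Fin n → ℕ) → (Fin n → ℕ) × ℕ := fun t => (fun i => if i ∈ S then t i else 0, g t)
    with hφ
  set M : Finset ((Fin n → ℕ) × ℕ) :=
    (Fintype.piFinset fun i => if i ∈ S then B i else {0}) ×ˢ B' with hM
  have hmaps : ∀ t ∈ T, φ t ∈ M := by
    intro t ht
    rw [hM, mem_product, Fintype.mem_piFinset]
    refine ⟨fun i => ?_, hB' t ht⟩
    simp only [hφ]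
    by_cases hi : i ∈ S
    · rw [if_pos hi, if_pos hi]; exact hB t ht i hi
    · rw [if_neg hi, if_neg hi]; exact mem_singleton_self _
  have h1 : T.card = ∑ z ∈ M, (T.filter fun t => φ t = z).card :=
    card_eq_sum_card_fiberwise (fun t ht => hmaps t ht)
  have h2 : ∀ z ∈ M, (((T.filter fun t => φ t = z).card : ℕ) : ℝ) ≤ N := by
    intro z _
    rcases (T.filter fun t => φ t = z).eq_empty_or_nonempty with h0 | ⟨u, hu⟩
    · rw [h0]; simpa using hN0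
    · rw [mem_filter] at hu
      refine le_trans ?_ (hN u hu.1)
      exact_mod_cast card_le_card fun t ht => by
        rw [mem_filter] at ht ⊢
        have h3 : φ t = φ u := by rw [ht.2, hu.2]
        refine ⟨ht.1, fun i hi => ?_, congrArg Prod.snd h3⟩
        have h4 := congrFun (congrArg Prod.fst h3) i
        simp only [hφ] at h4
        rwa [if_pos hi, if_pos hi] at h4
  have h5 : (M.card : ℝ) = (∏ i ∈ S, ((B i).card : ℝ)) * (B'.card : ℝ) := by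
    rw [hM, card_product, Fintype.card_piFinset]
    push_cast
    congr 1
    rw [← Finset.prod_subset (subset_univ S)
      (f := fun i => (((if i ∈ S then B i else {0}) : Finset ℕ).card : ℝ))]
    · exact prod_congr rfl fun i hi => by rw [if_pos hi]
    · intro i _ hi
      rw [if_neg hi]
      simp
  rw [h1]
  push_cast
  calc ∑ z ∈ M, (((T.filter fun t => φ t = z).card : ℕ) : ℝ) ≤ ∑ _z ∈ M, N := sum_le_sum h2
    _ = M.card * N := by rw [sum_const, nsmul_eq_mul]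
    _ = _ := by rw [h5]

/-- the set of possible values of one number -/
noncomputable def Bset (Y : ℕ) (R : ℝ) : Finset ℕ := (Icc 1 Y).filter fun d => (rad d : ℝ) ≤ R

/-- the number of integers up to `Y` with a bounded radical -/
theorem Bset_card (ε : ℝ) (hε : 0 < ε) : ∃ D : ℝ, 1 ≤ D ∧ ∀ Y : ℕ, 1 ≤ Y → ∀ R : ℝ, 0 ≤ R →
    ((Bset Y R).card : ℝ) ≤ D * (Y : ℝ) ^ ε * R := by
  obtain ⟨D, hD, h⟩ := stmtA4' ε hε
  refine ⟨max D 1, le_max_right _ _, fun Y hY R hR => (h Y hY R hR).trans ?_⟩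
  have : (0 : ℝ) ≤ (Y : ℝ) ^ ε := Real.rpow_nonneg (Nat.cast_nonneg _) _
  gcongr
  exact le_max_left _ _

/-- product of the bounds for the numbers of values -/
theorem prod_Bset {n : ℕ} (S : Finset (Fin n)) (Y : ℕ) (R : Fin n → ℝ) (c D e : ℝ) (hc : 1 ≤ c)
    (hD : 1 ≤ D) (he : 1 ≤ (Y : ℝ) ^ e) (hR : ∀ i, 0 ≤ R i)
    (h : ∀ R : ℝ, 0 ≤ R → ((Bset Y R).card : ℝ) ≤ D * (Y : ℝ) ^ e * R) :
    (∏ i ∈ S, ((Bset Y (c * R i)).card : ℝ)) ≤ (D * (Y : ℝ) ^ e * c) ^ n * ∏ i ∈ S, R i := by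
  have h1 : (∏ i ∈ S, ((Bset Y (c * R i)).card : ℝ)) ≤ ∏ i ∈ S, (D * (Y : ℝ) ^ e * c) * R i := by
    apply prod_le_prod (fun i _ => Nat.cast_nonneg _)
    intro i _
    refine (h (c * R i) (mul_nonneg (by linarith) (hR i))).trans (le_of_eq (by ring))
  refine h1.trans ?_
  rw [prod_mul_distrib, prod_const]
  apply mul_le_mul_of_nonneg_right _ (prod_nonneg fun i _ => hR i)
  apply pow_le_pow_right₀
  · have h2 : 1 ≤ D * (Y : ℝ) ^ e := by nlinarith
    nlinarith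
  · exact (card_le_univ S).trans (by rw [Fintype.card_fin])

/-- the last number is determined by the others -/
theorem Cl.inj {n K : ℕ} {w : Fin n → ℤ} {Y : ℕ} {T : Finset (Fin n → ℕ)} (h : Cl n K w Y T)
    {s t : Fin n → ℕ} (hs : s ∈ T) (ht : t ∈ T) (l : Fin n) (hst : ∀ i, i ≠ l → s i = t i) :
    s = t := by
  funext i
  by_cases hi : i = l
  · subst hi
    have h1 := h.sum s hs
    have h2 := h.sum t ht
    rw [← Finset.add_sum_erase univ _ (mem_univ i)] at h1 h2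
    have h3 : ∑ x ∈ univ.erase i, w x * (s x : ℤ) = ∑ x ∈ univ.erase i, w x * (t x : ℤ) := by
      apply sum_congr rfl
      intro x hx
      rw [hst x (mem_erase.1 hx).1]
    have h4 : w i * (s i : ℤ) = w i * (t i : ℤ) := by linarith
    exact_mod_cast mul_left_cancel₀ (h.w0 i) h4
  · exact hst i hi

/-- bound (0) -/
theorem triv_bound (n K : ℕ) (ε : ℝ) (hε : 0 < ε) : ∃ D : ℝ, 0 < D ∧ ∀ Y : ℕ, 1 ≤ Y →
    ∀ (w : Fin n → ℤ) (T : Finset (Fin n → ℕ)), Cl n K w Y T → ∀ s ∈ T, ∀ l : Fin n,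
    (T.card : ℝ) ≤ D * (Y : ℝ) ^ ε * ∏ i ∈ ({l} : Finset (Fin n))ᶜ, (rad (s i) : ℝ) := by
  classical
  obtain ⟨D, hD, hc⟩ := Bset_card (ε / (n + 1)) (by positivity)
  refine ⟨(D * 2 ^ (K + 1)) ^ n, by positivity, ?_⟩
  intro Y hY w T hT s hs l
  have hY1 : (1 : ℝ) ≤ Y := by exact_mod_cast hY
  have hY0 : (0 : ℝ) < Y := by linarith
  have hYe : (1 : ℝ) ≤ (Y : ℝ) ^ (ε / (n + 1)) := Real.one_le_rpow hY1 (by positivity)
  have h1 := fiber_card T ({l} : Finset (Fin n))ᶜ (fun i => Bset Y (2 ^ (K + 1) * rad (s i)))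
    (fun _ => 0) {0} ?_ (fun _ _ => mem_singleton_self _) 1 zero_le_one ?_
  · refine h1.trans ?_
    rw [card_singleton, Nat.cast_one, mul_one, mul_one]
    refine (prod_Bset _ Y (fun i => (rad (s i) : ℝ)) (2 ^ (K + 1)) D (ε / (n + 1))
      (one_le_pow₀ (by norm_num)) hD hYe (fun i => Nat.cast_nonneg _) (hc Y hY)).trans ?_
    apply mul_le_mul_of_nonneg_right _ (prod_nonneg fun i _ => Nat.cast_nonneg _)
    have e1 : D * (Y : ℝ) ^ (ε / (n + 1)) * 2 ^ (K + 1) =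
      (D * 2 ^ (K + 1)) * (Y : ℝ) ^ (ε / (n + 1)) := by ring
    rw [e1, mul_pow]
    apply mul_le_mul_of_nonneg_left _ (by positivity)
    rw [← Real.rpow_natCast, ← Real.rpow_mul hY0.le]
    apply Real.rpow_le_rpow_of_exponent_le hY1
    rw [div_mul_eq_mul_div, div_le_iff₀ (by positivity)]
    nlinarith
  · intro t ht i _
    rw [Bset, mem_filter, mem_Icc]
    refine ⟨⟨hT.pos t ht i, hT.t_le ht i⟩, ?_⟩
    exact_mod_cast hT.rad_le ht hs i
  · intro u hu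
    have : (T.filter fun t => (∀ i ∈ ({l} : Finset (Fin n))ᶜ, t i = u i) ∧ (0 : ℕ) = 0).card ≤ 1 := by
      rw [card_le_one]
      intro a ha b hb
      rw [mem_filter] at ha hb
      refine hT.inj ha.1 hb.1 l fun i hi => ?_
      have hi' : i ∈ ({l} : Finset (Fin n))ᶜ := by rw [mem_compl, mem_singleton]; exact hi
      rw [ha.2.1 i hi', hb.2.1 i hi']
    exact_mod_cast this

end Pool.Agent.Y594.NT
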