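import Pool.Agent.Y594.NT.CellP

/-!
# The energy bound for a cell (helper594)
-/

set_option autoImplicit false

namespace Pool.Agent.Y594.NT

open Finset Pool.Agent.H785R2.ABC Pool.Agent.H705R2.ABC

/-- number of pairs of congruent elements -/
noncomputable def En (P : Finset ℕ) (f : ℕ) : ℕ :=
  ((P ×ˢ P).filter fun t => (t.1 : ZMod f) = (t.2 : ZMod f)).card

/-- the modulus after cancelling the coefficient -/
theorem canc {f₀ : ℕ} {w x y : ℤ} (h : w * x ≡ w * y [ZMOD f₀]) (hf : 0 < f₀) :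
    x ≡ y [ZMOD (f₀ / Nat.gcd f₀ w.natAbs : ℕ)] := by
  have h1 := Int.ModEq.cancel_left_div_gcd (by exact_mod_cast hf : (0 : ℤ) < (f₀ : ℤ)) h
  have h2 : ((f₀ / Nat.gcd f₀ w.natAbs : ℕ) : ℤ) = (f₀ : ℤ) / (Int.gcd (f₀ : ℤ) w : ℤ) := by
    rw [Int.natCast_div]
    rfl
  rw [h2]
  exact h1

/-- bound (2): the energy bound -/
theorem tri_bound (n K : ℕ) (ε : ℝ) (hε : 0 < ε) : ∃ D : ℝ, 0 < D ∧ ∀ Y : ℕ, 1 ≤ Y →
    ∀ (w : Fin n → ℤ) (T : Finset (Fin n → ℕ)), Cl n K w Y T → ∀ s ∈ T, ∀ p k r : Fin n, p ≠ k →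
    p ≠ r → k ≠ r → ∀ F : Finset (Fin (K + 1)), ∀ Θp Θk : ℝ, 0 ≤ Θp → 0 ≤ Θk →
    (∀ f : ℕ, 1 ≤ f → f ≤ Y →
      |(w r : ℝ)| * part K (s r) F / (2 ^ (K + 1) * Int.gcd (w p) (w r)) ≤ f → ∀ P : Finset ℕ,
      (∀ x ∈ P, Nat.Coprime x f ∧ ∃ t ∈ T, t p = x) → (En P f : ℝ) ≤ Θp) →
    (∀ f : ℕ, 1 ≤ f → f ≤ Y →
      |(w r : ℝ)| * part K (s r) F / (2 ^ (K + 1) * Int.gcd (w k) (w r)) ≤ f → ∀ P : Finset ℕ,
      (∀ x ∈ P, Nat.Coprime x f ∧ ∃ t ∈ T, t k = x) → (En P f : ℝ) ≤ Θk) →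
    (T.card : ℝ) ≤ D * (Y : ℝ) ^ ε * (∏ i ∈ ({p, k, r} : Finset (Fin n))ᶜ, (rad (s i) : ℝ)) *
      (rd K (s r) F : ℝ) * (Θp * Θk) ^ ((1 : ℝ) / 2) := by
  classical
  obtain ⟨D, hD, hc⟩ := Bset_card (ε / (n + 1)) (by positivity)
  refine ⟨(D * 2 ^ (K + 1)) ^ (n + 1), by positivity, ?_⟩
  intro Y hY w T hT s hs p k r hpk hpr hkr F Θp Θk hΘp hΘk hEp hEk
  have hk1 : (1 : ℝ) ≤ 2 ^ (K + 1) := one_le_pow₀ (by norm_num)
  have hk0 : (0 : ℝ) < 2 ^ (K + 1) := by positivity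
  have hY1 : (1 : ℝ) ≤ Y := by exact_mod_cast hY
  have hY0 : (0 : ℝ) < Y := by linarith
  have hYe : (1 : ℝ) ≤ (Y : ℝ) ^ (ε / (n + 1)) := Real.one_le_rpow hY1 (by positivity)
  set V : ℝ := (Θp * Θk) ^ ((1 : ℝ) / 2) with hV
  have hV0 : 0 ≤ V := Real.rpow_nonneg (mul_nonneg hΘp hΘk) _
  have h1 := fiber_card T ({p, k, r} : Finset (Fin n))ᶜ
    (fun i => Bset Y (2 ^ (K + 1) * rad (s i)))
    (fun t => part K (t r) F) (Bset Y (2 ^ (K + 1) * rd K (s r) F)) ?_ ?_ V hV0 ?_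
  · refine h1.trans ?_
    have h2 := prod_Bset ({p, k, r} : Finset (Fin n))ᶜ Y (fun i => (rad (s i) : ℝ)) (2 ^ (K + 1)) D
      (ε / (n + 1)) hk1 hD hYe (fun i => Nat.cast_nonneg _) (hc Y hY)
    have h3 := hc Y hY (2 ^ (K + 1) * rd K (s r) F) (by positivity)
    have hprod : 0 ≤ ∏ i ∈ ({p, k, r} : Finset (Fin n))ᶜ, (rad (s i) : ℝ) :=
      prod_nonneg fun i _ => Nat.cast_nonneg _
    apply mul_le_mul_of_nonneg_right _ hV0
    calc (∏ i ∈ ({p, k, r} : Finset (Fin n))ᶜ, ((Bset Y (2 ^ (K + 1) * rad (s i))).card : ℝ)) *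
          ((Bset Y (2 ^ (K + 1) * rd K (s r) F)).card : ℝ)
        ≤ ((D * (Y : ℝ) ^ (ε / (n + 1)) * 2 ^ (K + 1)) ^ n *
          ∏ i ∈ ({p, k, r} : Finset (Fin n))ᶜ, (rad (s i) : ℝ)) *
          (D * (Y : ℝ) ^ (ε / (n + 1)) * (2 ^ (K + 1) * rd K (s r) F)) :=
          mul_le_mul h2 h3 (Nat.cast_nonneg _) (mul_nonneg (by positivity) hprod)
      _ = (D * 2 ^ (K + 1)) ^ (n + 1) * ((Y : ℝ) ^ (ε / (n + 1))) ^ (n + 1) *
          (∏ i ∈ ({p, k, r} : Finset (Fin n))ᶜ, (rad (s i) : ℝ)) * (rd K (s r) F : ℝ) := by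
          ring
      _ = _ := by
          rw [← Real.rpow_natCast ((Y : ℝ) ^ (ε / (n + 1))), ← Real.rpow_mul hY0.le]
          congr 4
          push_cast
          field_simp
  · intro t ht i _
    rw [Bset, mem_filter, mem_Icc]
    refine ⟨⟨hT.pos t ht i, hT.t_le ht i⟩, ?_⟩
    exact_mod_cast hT.rad_le ht hs i
  · intro t ht
    rw [Bset, mem_filter, mem_Icc]
    refine ⟨⟨basics.part_pos _ _ _, (Nat.le_of_dvd (hT.pos t ht r)
      (basics.part_dvd K _ _ (hT.pos t ht r))).trans (hT.t_le ht r)⟩, ?_⟩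
    rw [basics.rad_part K _ _ (hT.pos t ht r)]
    exact_mod_cast hT.rd_le t ht s hs r F
  · intro u hu
    set T' := T.filter fun t => (∀ i ∈ ({p, k, r} : Finset (Fin n))ᶜ, t i = u i) ∧
      part K (t r) F = part K (u r) F with hT'
    have hmem : ∀ t ∈ T', t ∈ T ∧ (∀ i, i ≠ p → i ≠ k → i ≠ r → t i = u i) ∧
        part K (t r) F = part K (u r) F := by
      intro t ht
      rw [hT', mem_filter] at ht
      refine ⟨ht.1, fun i h1 h2 h3 => ht.2.1 i ?_, ht.2.2⟩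
      rw [mem_compl, mem_insert, mem_insert, mem_singleton, not_or, not_or]
      exact ⟨h1, h2, h3⟩
    set φ : ℕ := part K (u r) F with hφ
    have hφ1 : 1 ≤ φ := basics.part_pos _ _ _
    set f₀ : ℕ := (w r).natAbs * φ with hf₀
    have hwr : 0 < (w r).natAbs := Int.natAbs_pos.2 (hT.w0 r)
    have hf₀1 : 0 < f₀ := Nat.mul_pos hwr hφ1
    have hφu : φ ∣ u r := basics.part_dvd K _ _ (hT.pos u hu r)
    have hf₀Y : f₀ ≤ Y := (Nat.mul_le_mul_left _ (Nat.le_of_dvd (hT.pos u hu r) hφu)).trans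
      (hT.le u hu r)
    set S₀ : ℤ := ∑ i ∈ ((univ.erase p).erase k).erase r, w i * (u i : ℤ) with hS₀
    have heq : ∀ t ∈ T', w p * (t p : ℤ) + w k * (t k : ℤ) + w r * (t r : ℤ) = -S₀ := by
      intro t ht
      obtain ⟨g1, g2, -⟩ := hmem t ht
      have e1 := hT.sum t g1
      have hd : ∀ z : Fin n → ℕ, ∑ i, w i * (z i : ℤ) = w p * (z p : ℤ) + (w k * (z k : ℤ) +
          (w r * (z r : ℤ) + ∑ i ∈ ((univ.erase p).erase k).erase r, w i * (z i : ℤ))) := by
        intro z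
        rw [Finset.add_sum_erase _ (fun i => w i * (z i : ℤ))
            (mem_erase.2 ⟨hkr.symm, mem_erase.2 ⟨hpr.symm, mem_univ r⟩⟩),
          Finset.add_sum_erase _ (fun i => w i * (z i : ℤ)) (mem_erase.2 ⟨hpk.symm, mem_univ k⟩),
          Finset.add_sum_erase _ (fun i => w i * (z i : ℤ)) (mem_univ p)]
      rw [hd] at e1
      have e3 : ∑ i ∈ ((univ.erase p).erase k).erase r, w i * (t i : ℤ) = S₀ := by
        rw [hS₀]
        apply sum_congr rfl
        intro i hi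
        rw [mem_erase, mem_erase, mem_erase] at hi
        rw [g2 i hi.2.2.1 hi.2.1 hi.1]
      rw [e3] at e1
      linarith
    set P := T'.image fun t => t p with hP
    set Q := T'.image fun t => t k with hQ
    set κP : ℕ → ℤ := fun x => (w p * (x : ℤ)) % (f₀ : ℤ) with hκP
    set κQ : ℕ → ℤ := fun y => (-S₀ - w k * (y : ℤ)) % (f₀ : ℤ) with hκQ
    have hcard : T'.card ≤ ((P ×ˢ Q).filter fun t => κP t.1 = κQ t.2).card := by
      have h1 : (T'.image fun t => (t p, t k)).card = T'.card := by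
        apply card_image_of_injOn
        intro x hx y hy hxy
        simp only [Prod.mk.injEq] at hxy
        have hx' := hmem x hx
        have hy' := hmem y hy
        refine hT.inj hx'.1 hy'.1 r fun i hi => ?_
        by_cases hip : i = p
        · rw [hip]; exact hxy.1
        · by_cases hik : i = k
          · rw [hik]; exact hxy.2
          · rw [hx'.2.1 i hip hik hi, hy'.2.1 i hip hik hi]
      rw [← h1]
      apply card_le_card
      intro x hx
      obtain ⟨t, ht, rfl⟩ := mem_image.1 hx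
      rw [mem_filter, mem_product]
      refine ⟨⟨mem_image_of_mem _ ht, mem_image_of_mem _ ht⟩, ?_⟩
      simp only [hκP, hκQ]
      have h2 := heq t ht
      have h3 : (f₀ : ℤ) ∣ w r * (t r : ℤ) := by
        have h4 : φ ∣ t r := by
          have := basics.part_dvd K (t r) F (hT.pos t (hmem t ht).1 r)
          rwa [(hmem t ht).2.2] at this
        have h5 : (f₀ : ℤ) ∣ (((w r).natAbs * t r : ℕ) : ℤ) := by
          exact_mod_cast Nat.mul_dvd_mul_left _ h4
        have h6 : (((w r).natAbs * t r : ℕ) : ℤ) ∣ w r * (t r : ℤ) := by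
          push_cast
          exact mul_dvd_mul_right ((abs_dvd _ _).2 dvd_rfl) _
        exact h5.trans h6
      have h7 : w p * (t p : ℤ) - (-S₀ - w k * (t k : ℤ)) = -(w r * (t r : ℤ)) := by linarith
      apply Int.ModEq.symm
      rw [Int.modEq_iff_dvd, h7]
      exact (dvd_neg).2 h3
    have hEn : ∀ a : Fin n, a ≠ r → ∀ Θ : ℝ, (∀ f : ℕ, 1 ≤ f → f ≤ Y →
        |(w r : ℝ)| * part K (s r) F / (2 ^ (K + 1) * Int.gcd (w a) (w r)) ≤ f → ∀ P : Finset ℕ,
        (∀ x ∈ P, Nat.Coprime x f ∧ ∃ t ∈ T, t a = x) → (En P f : ℝ) ≤ Θ) →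
        (((((T'.image fun t => t a) ×ˢ (T'.image fun t => t a)).filter fun t =>
          w a * (t.1 : ℤ) ≡ w a * (t.2 : ℤ) [ZMOD f₀]).card : ℕ) : ℝ) ≤ Θ := by
      intro a har Θ hΘ
      set f : ℕ := f₀ / Nat.gcd f₀ (w a).natAbs with hf
      have hgpos : 0 < Nat.gcd f₀ (w a).natAbs := Nat.gcd_pos_of_pos_left _ hf₀1
      have hf1 : 1 ≤ f := Nat.div_pos (Nat.gcd_le_left _ hf₀1) hgpos
      have hff₀ : f ∣ f₀ := Nat.div_dvd_of_dvd (Nat.gcd_dvd_left _ _)
      have hcopφ : Nat.Coprime φ (w a).natAbs := by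
        have h1 := hT.cow u hu r a
        have h2 : Nat.Coprime (w a).natAbs (u r) := by
          have := Int.isCoprime_iff_gcd_eq_one.1 h1
          rwa [Int.gcd, Int.natAbs_natCast] at this
        exact (Nat.Coprime.coprime_dvd_right hφu h2).symm
      have hgcd : Nat.gcd f₀ (w a).natAbs = Int.gcd (w a) (w r) := by
        rw [hf₀, Nat.Coprime.gcd_mul_right_cancel _ hcopφ, Nat.gcd_comm]
        rfl
      have hg0 : (0 : ℝ) < (Int.gcd (w a) (w r) : ℝ) := by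
        rw [← hgcd]; exact_mod_cast hgpos
      have hfval : (f : ℝ) * (Int.gcd (w a) (w r) : ℝ) = |(w r : ℝ)| * φ := by
        have h1 : f * Nat.gcd f₀ (w a).natAbs = f₀ := Nat.div_mul_cancel (Nat.gcd_dvd_left _ _)
        rw [hgcd] at h1
        have h2 : ((f * Int.gcd (w a) (w r) : ℕ) : ℝ) = (((w r).natAbs * φ : ℕ) : ℝ) := by
          rw [h1]
        push_cast at h2
        rw [h2, Nat.cast_natAbs]
        push_cast
        rfl
      refine le_trans ?_ (hΘ f hf1 ((Nat.le_of_dvd hf₀1 hff₀).trans hf₀Y) ?_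
        (T'.image fun t => t a) ?_)
      · rw [En]
        exact_mod_cast card_le_card fun z hz => by
          rw [mem_filter] at hz ⊢
          refine ⟨hz.1, ?_⟩
          have h1 := canc hz.2 hf₀1
          have h2 := (ZMod.intCast_eq_intCast_iff _ _ _).2 h1
          push_cast at h2
          exact h2
      · rw [div_le_iff₀ (by positivity)]
        have h1 : (part K (s r) F : ℝ) ≤ 2 ^ (K + 1) * φ := by
          exact_mod_cast hT.part_le s hs u hu r F
        calc |(w r : ℝ)| * part K (s r) F ≤ |(w r : ℝ)| * (2 ^ (K + 1) * φ) :=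
              mul_le_mul_of_nonneg_left h1 (abs_nonneg _)
          _ = 2 ^ (K + 1) * (|(w r : ℝ)| * φ) := by ring
          _ = 2 ^ (K + 1) * ((f : ℝ) * (Int.gcd (w a) (w r) : ℝ)) := by rw [hfval]
          _ = _ := by ring
      · intro x hx
        obtain ⟨t, ht, rfl⟩ := mem_image.1 hx
        obtain ⟨g1, -, g3⟩ := hmem t ht
        refine ⟨?_, t, g1, rfl⟩
        apply Nat.Coprime.coprime_dvd_right hff₀
        rw [hf₀]
        apply Nat.Coprime.mul_right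
        · have h1 := hT.cow t g1 a r
          have h2 : Nat.Coprime (w r).natAbs (t a) := by
            have := Int.isCoprime_iff_gcd_eq_one.1 h1
            rwa [Int.gcd, Int.natAbs_natCast] at this
          exact h2.symm
        · have h4 : φ ∣ t r := by
            have := basics.part_dvd K (t r) F (hT.pos t g1 r)
            rwa [g3] at this
          exact Nat.Coprime.coprime_dvd_right h4 (hT.cop t g1 a r har)
    have hEP : ((((P ×ˢ P).filter fun t => κP t.1 = κP t.2).card : ℕ) : ℝ) ≤ Θp :=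
      hEn p hpr Θp hEp
    have hEQ : ((((Q ×ˢ Q).filter fun t => κQ t.1 = κQ t.2).card : ℕ) : ℝ) ≤ Θk := by
      refine le_trans ?_ (hEn k hkr Θk hEk)
      exact_mod_cast card_le_card fun z hz => by
        rw [mem_filter] at hz ⊢
        refine ⟨hz.1, ?_⟩
        have h1 : -S₀ - w k * (z.1 : ℤ) ≡ -S₀ - w k * (z.2 : ℤ) [ZMOD (f₀ : ℤ)] := hz.2
        have h2 := (Int.ModEq.refl (n := (f₀ : ℤ)) (-S₀)).sub h1
        have h3 : -S₀ - (-S₀ - w k * (z.1 : ℤ)) = w k * (z.1 : ℤ) := by ring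
        have h4 : -S₀ - (-S₀ - w k * (z.2 : ℤ)) = w k * (z.2 : ℤ) := by ring
        rwa [h3, h4] at h2
    have hcs := Est.cs P Q κP κQ
    have hsq : (T'.card : ℝ) ^ 2 ≤ V ^ 2 := by
      have h2 : Θp * Θk = V ^ 2 := by
        rw [hV, ← Real.rpow_natCast, ← Real.rpow_mul (mul_nonneg hΘp hΘk)]
        norm_num
      calc (T'.card : ℝ) ^ 2 ≤ (((P ×ˢ Q).filter fun t => κP t.1 = κQ t.2).card : ℝ) ^ 2 := by
            apply pow_le_pow_left₀ (Nat.cast_nonneg _)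
            exact_mod_cast hcard
        _ ≤ _ := hcs
        _ ≤ Θp * Θk := mul_le_mul hEP hEQ (Nat.cast_nonneg _) hΘp
        _ = _ := h2
    exact le_of_sq_le_sq hsq hV0

end Pool.Agent.Y594.NT
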