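import Pool.Agent.Y594.NT.Cell

/-!
# The pair bound for a cell (helper594)
-/

set_option autoImplicit false

namespace Pool.Agent.Y594.NT

open Finset Pool.Agent.H785R2.ABC Pool.Agent.H705R2.ABC

theorem rpow_split {Y e : ℝ} {n : ℕ} (hY : 1 ≤ Y) (he : 0 ≤ e) (c : ℝ) (hc : c = e * n) :
    (Y ^ e) ^ n = Y ^ c := by
  rw [← Real.rpow_natCast, ← Real.rpow_mul (by linarith), hc]

theorem part_rad_le {K : ℕ} {s t : ℕ} (S : Finset (Fin (K + 1))) (h : rd K t S ≤ 2 ^ (K + 1) * rd K s S)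
    : (rd K t S : ℝ) ≤ 2 ^ (K + 1) * (rd K s S : ℝ) := by exact_mod_cast h

/-- bound (1): the pair bound -/
theorem pair_bound (n K : ℕ) (ε : ℝ) (hε : 0 < ε) : ∃ D : ℝ, 0 < D ∧ ∀ Y : ℕ, 1 ≤ Y →
    ∀ (w : Fin n → ℤ) (T : Finset (Fin n → ℕ)), Cl n K w Y T → ∀ s ∈ T, ∀ p k : Fin n, p ≠ k →
    (∀ t ∈ T, t p ≠ 1) → ∀ j : Fin (K + 1), (j : ℕ) < K →
    (T.card : ℝ) ≤ D * (Y : ℝ) ^ ε * (∏ i ∈ ({p, k} : Finset (Fin n))ᶜ, (rad (s i) : ℝ)) *
      ((rd K (s p) {j}ᶜ : ℝ) * rd K (s k) {j}ᶜ) *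
      (1 + (rd K (s p) {j} : ℝ) * rd K (s k) {j} * (Int.gcd (w p) (w k) : ℝ) /
        (|(w k : ℝ)| * s k)) := by
  classical
  obtain ⟨D, hD, hc⟩ := Bset_card (ε / (2 * (n + 1))) (by positivity)
  set lam : ℝ := (2 : ℝ) ^ (K + 1) * 2 ^ (K + 1) with hlam
  have hk1 : (1 : ℝ) ≤ 2 ^ (K + 1) := one_le_pow₀ (by norm_num)
  have hk0 : (0 : ℝ) < 2 ^ (K + 1) := by positivity
  have hlam1 : 1 ≤ lam := by nlinarith
  obtain ⟨DP, hDP, hP⟩ := pair_fixed K lam hlam1 (ε / 2) (by positivity)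
  refine ⟨(D * 2 ^ (K + 1)) ^ n * (DP * (2 : ℝ) ^ (ε / 2) * (2 ^ (K + 1)) ^ 5), by positivity, ?_⟩
  intro Y hY w T hT s hs p k hpk h1T j hj
  have hY1 : (1 : ℝ) ≤ Y := by exact_mod_cast hY
  have hY0 : (0 : ℝ) < Y := by linarith
  have hYe : (1 : ℝ) ≤ (Y : ℝ) ^ (ε / (2 * (n + 1))) := Real.one_le_rpow hY1 (by positivity)
  have hsk : (0 : ℝ) < s k := by exact_mod_cast hT.pos s hs k
  have hsp : (0 : ℝ) < s p := by exact_mod_cast hT.pos s hs p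
  have hwk : 0 < |(w k : ℝ)| := abs_pos.2 (by exact_mod_cast hT.w0 k)
  set a : ℝ := 2 ^ (K + 1) * (rd K (s p) {j} : ℝ) with ha
  set a' : ℝ := 2 ^ (K + 1) * (rd K (s k) {j} : ℝ) with ha'
  have hrp : (0 : ℝ) < rd K (s p) {j} := by exact_mod_cast basics.rd_pos K _ _
  have hrk : (0 : ℝ) < rd K (s k) {j} := by exact_mod_cast basics.rd_pos K _ _
  set R : ℝ := 2 ^ (K + 1) * (rd K (s p) {j}ᶜ : ℝ) with hR
  set R' : ℝ := 2 ^ (K + 1) * (rd K (s k) {j}ᶜ : ℝ) with hR'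
  set H : ℝ := |(w k : ℝ)| * s k / 2 ^ (K + 1) with hH
  set τ : ℝ := (s p : ℝ) / 2 ^ (K + 1) with hτ
  set N : ℝ := DP * ((2 * Y : ℕ) : ℝ) ^ (ε / 2) * (R * R') *
      (1 + a * a' * (Int.gcd (w p) (w k) : ℝ) / H) with hN
  have hN0 : 0 ≤ N := by rw [hN]; positivity
  have h1 := fiber_card T ({p, k} : Finset (Fin n))ᶜ (fun i => Bset Y (2 ^ (K + 1) * rad (s i)))
    (fun _ => 0) {0} ?_ (fun _ _ => mem_singleton_self _) N hN0 ?_
  · refine h1.trans ?_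
    rw [card_singleton, Nat.cast_one, mul_one]
    have h2 := prod_Bset ({p, k} : Finset (Fin n))ᶜ Y (fun i => (rad (s i) : ℝ)) (2 ^ (K + 1)) D
      (ε / (2 * (n + 1))) hk1 hD hYe (fun i => Nat.cast_nonneg _) (hc Y hY)
    have h3 : (D * (Y : ℝ) ^ (ε / (2 * (n + 1))) * 2 ^ (K + 1)) ^ n ≤
        (D * 2 ^ (K + 1)) ^ n * (Y : ℝ) ^ (ε / 2) := by
      have e1 : D * (Y : ℝ) ^ (ε / (2 * (n + 1))) * 2 ^ (K + 1) =
        (D * 2 ^ (K + 1)) * (Y : ℝ) ^ (ε / (2 * (n + 1))) := by ring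
      rw [e1, mul_pow]
      apply mul_le_mul_of_nonneg_left _ (by positivity)
      rw [← Real.rpow_natCast, ← Real.rpow_mul hY0.le]
      apply Real.rpow_le_rpow_of_exponent_le hY1
      rw [div_mul_eq_mul_div, div_le_div_iff₀ (by positivity) (by norm_num)]
      nlinarith
    have hprod : 0 ≤ ∏ i ∈ ({p, k} : Finset (Fin n))ᶜ, (rad (s i) : ℝ) :=
      prod_nonneg fun i _ => Nat.cast_nonneg _
    have h4 : N ≤ (DP * (2 : ℝ) ^ (ε / 2) * (2 ^ (K + 1)) ^ 5) * (Y : ℝ) ^ (ε / 2) *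
        ((rd K (s p) {j}ᶜ : ℝ) * rd K (s k) {j}ᶜ) *
        (1 + (rd K (s p) {j} : ℝ) * rd K (s k) {j} * (Int.gcd (w p) (w k) : ℝ) /
          (|(w k : ℝ)| * s k)) := by
      have e1 : ((2 * Y : ℕ) : ℝ) ^ (ε / 2) = (2 : ℝ) ^ (ε / 2) * (Y : ℝ) ^ (ε / 2) := by
        push_cast
        rw [Real.mul_rpow (by norm_num) hY0.le]
      have e2 : a * a' * (Int.gcd (w p) (w k) : ℝ) / H = (2 ^ (K + 1)) ^ 3 *
        ((rd K (s p) {j} : ℝ) * rd K (s k) {j} * (Int.gcd (w p) (w k) : ℝ) /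
          (|(w k : ℝ)| * s k)) := by
        rw [ha, ha', hH]
        field_simp
      rw [hN, e1, e2, hR, hR']
      set u : ℝ := (rd K (s p) {j} : ℝ) * rd K (s k) {j} * (Int.gcd (w p) (w k) : ℝ) /
          (|(w k : ℝ)| * s k) with hu
      have hu0 : 0 ≤ u := by rw [hu]; positivity
      have h5 : 1 + (2 ^ (K + 1)) ^ 3 * u ≤ (2 ^ (K + 1)) ^ 3 * (1 + u) := by
        have : (1 : ℝ) ≤ (2 ^ (K + 1)) ^ 3 := one_le_pow₀ hk1
        nlinarith
      calc DP * (2 ^ (ε / 2) * (Y : ℝ) ^ (ε / 2)) *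
          (2 ^ (K + 1) * (rd K (s p) {j}ᶜ : ℝ) * (2 ^ (K + 1) * (rd K (s k) {j}ᶜ : ℝ))) *
          (1 + (2 ^ (K + 1)) ^ 3 * u)
          ≤ DP * (2 ^ (ε / 2) * (Y : ℝ) ^ (ε / 2)) *
          (2 ^ (K + 1) * (rd K (s p) {j}ᶜ : ℝ) * (2 ^ (K + 1) * (rd K (s k) {j}ᶜ : ℝ))) *
          ((2 ^ (K + 1)) ^ 3 * (1 + u)) := mul_le_mul_of_nonneg_left h5 (by positivity)
        _ = _ := by ring
    calc (∏ i ∈ ({p, k} : Finset (Fin n))ᶜ, ((Bset Y (2 ^ (K + 1) * rad (s i))).card : ℝ)) * N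
        ≤ ((D * 2 ^ (K + 1)) ^ n * (Y : ℝ) ^ (ε / 2) *
          ∏ i ∈ ({p, k} : Finset (Fin n))ᶜ, (rad (s i) : ℝ)) * N := by
          apply mul_le_mul_of_nonneg_right _ hN0
          exact h2.trans (mul_le_mul_of_nonneg_right h3 hprod)
      _ ≤ ((D * 2 ^ (K + 1)) ^ n * (Y : ℝ) ^ (ε / 2) *
          ∏ i ∈ ({p, k} : Finset (Fin n))ᶜ, (rad (s i) : ℝ)) *
          ((DP * (2 : ℝ) ^ (ε / 2) * (2 ^ (K + 1)) ^ 5) * (Y : ℝ) ^ (ε / 2) *
        ((rd K (s p) {j}ᶜ : ℝ) * rd K (s k) {j}ᶜ) *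
        (1 + (rd K (s p) {j} : ℝ) * rd K (s k) {j} * (Int.gcd (w p) (w k) : ℝ) /
          (|(w k : ℝ)| * s k))) := by
          apply mul_le_mul_of_nonneg_left h4
          positivity
      _ = (D * 2 ^ (K + 1)) ^ n * (DP * (2 : ℝ) ^ (ε / 2) * (2 ^ (K + 1)) ^ 5) *
          ((Y : ℝ) ^ (ε / 2) * (Y : ℝ) ^ (ε / 2)) *
          (∏ i ∈ ({p, k} : Finset (Fin n))ᶜ, (rad (s i) : ℝ)) *
        ((rd K (s p) {j}ᶜ : ℝ) * rd K (s k) {j}ᶜ) *
        (1 + (rd K (s p) {j} : ℝ) * rd K (s k) {j} * (Int.gcd (w p) (w k) : ℝ) /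
          (|(w k : ℝ)| * s k)) := by ring
      _ = _ := by rw [← Real.rpow_add hY0, add_halves]
  · intro t ht i _
    rw [Bset, mem_filter, mem_Icc]
    refine ⟨⟨hT.pos t ht i, hT.t_le ht i⟩, ?_⟩
    exact_mod_cast hT.rad_le ht hs i
  · intro u hu
    set T' := T.filter fun t => (∀ i ∈ ({p, k} : Finset (Fin n))ᶜ, t i = u i) ∧ (0 : ℕ) = 0
      with hT'
    have hmem : ∀ t ∈ T', t ∈ T ∧ ∀ i, i ≠ p → i ≠ k → t i = u i := by
      intro t ht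
      rw [hT', mem_filter] at ht
      refine ⟨ht.1, fun i h1 h2 => ht.2.1 i ?_⟩
      rw [mem_compl, mem_insert, mem_singleton, not_or]
      exact ⟨h1, h2⟩
    have hinj : Set.InjOn (fun t : Fin n → ℕ => (t p, t k)) T' := by
      intro x hx y hy hxy
      simp only [Prod.mk.injEq] at hxy
      have hx' := hmem x hx
      have hy' := hmem y hy
      refine hT.inj hx'.1 hy'.1 p fun i hi => ?_
      by_cases hik : i = k
      · rw [hik]; exact hxy.2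
      · rw [hx'.2 i hi hik, hy'.2 i hi hik]
    rw [← card_image_of_injOn hinj]
    have hgam : ∀ t ∈ T', w p * (t p : ℤ) + w k * (t k : ℤ) = w p * (u p : ℤ) + w k * (u k : ℤ) := by
      intro t ht
      obtain ⟨g1, g2⟩ := hmem t ht
      have e1 := hT.sum t g1
      have e2 := hT.sum u hu
      have hd : ∀ z : Fin n → ℕ, ∑ i, w i * (z i : ℤ) = w p * (z p : ℤ) + (w k * (z k : ℤ) +
          ∑ i ∈ (univ.erase p).erase k, w i * (z i : ℤ)) := by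
        intro z
        rw [Finset.add_sum_erase _ (fun i => w i * (z i : ℤ)) (mem_erase.2 ⟨hpk.symm, mem_univ k⟩),
          Finset.add_sum_erase _ (fun i => w i * (z i : ℤ)) (mem_univ p)]
      rw [hd] at e1 e2
      have e3 : ∑ i ∈ (univ.erase p).erase k, w i * (t i : ℤ) =
          ∑ i ∈ (univ.erase p).erase k, w i * (u i : ℤ) := by
        apply sum_congr rfl
        intro i hi
        rw [mem_erase, mem_erase] at hi
        rw [g2 i hi.2.1 hi.1]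
      linarith
    have hγ0 : w p * (u p : ℤ) + w k * (u k : ℤ) ≠ 0 := by
      intro h0
      apply h1T u hu
      have g1 : IsCoprime (w k) (u p : ℤ) := hT.cow u hu p k
      have g2 : IsCoprime (u p : ℤ) (u k : ℤ) := Nat.isCoprime_iff_coprime.2 (hT.cop u hu p k hpk)
      have g3 : IsCoprime (u p : ℤ) (w k * (u k : ℤ)) := IsCoprime.mul_right g1.symm g2
      have g4 : (u p : ℤ) ∣ w k * (u k : ℤ) := ⟨-w p, by linarith⟩
      have g5 : IsUnit (u p : ℤ) := g3.isUnit_of_dvd' dvd_rfl g4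
      rcases Int.isUnit_iff.1 g5 with h | h
      · exact_mod_cast h
      · have : (0 : ℤ) ≤ (u p : ℤ) := Int.natCast_nonneg _
        omega
    have hγX : (w p * (u p : ℤ) + w k * (u k : ℤ)).natAbs ≤ 2 * Y := by
      refine (Int.natAbs_add_le _ _).trans ?_
      rw [Int.natAbs_mul, Int.natAbs_mul, Int.natAbs_natCast, Int.natAbs_natCast]
      have := hT.le u hu p
      have := hT.le u hu k
      omega
    rw [hN]
    refine hP (2 * Y) (by omega) (w p) (w k) _ (hT.w0 p) (hT.w0 k) hγ0 hγX j hj a a' R R' H τ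
      (by positivity) (by positivity) (by positivity) (by positivity) (by positivity)
      (by positivity) _ ?_
    intro z hz
    obtain ⟨t, ht, rfl⟩ := mem_image.1 hz
    obtain ⟨g1, g2⟩ := hmem t ht
    simp only
    have hval1 : (s p : ℝ) ≤ 2 ^ (K + 1) * t p := by exact_mod_cast hT.val_le hs g1 p
    have hval2 : (t p : ℝ) ≤ 2 ^ (K + 1) * s p := by exact_mod_cast hT.val_le g1 hs p
    have hval3 : (s k : ℝ) ≤ 2 ^ (K + 1) * t k := by exact_mod_cast hT.val_le hs g1 k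
    have hval4 : (t k : ℝ) ≤ 2 ^ (K + 1) * s k := by exact_mod_cast hT.val_le g1 hs k
    refine ⟨hT.pos t g1 p, (hT.t_le g1 p).trans (by omega), hT.pos t g1 k,
      (hT.t_le g1 k).trans (by omega), hT.cop t g1 p k hpk, hT.cow t g1 p k, hT.cow t g1 k p,
      hgam t ht, ?_, ?_, ?_, ?_, ?_, ?_, ?_, ?_, ?_⟩
    · rw [ha]; exact_mod_cast hT.rd_le t g1 s hs p {j}
    · rw [ha']; exact_mod_cast hT.rd_le t g1 s hs k {j}
    · rw [ha', hlam, mul_assoc]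
      apply mul_le_mul_of_nonneg_left _ hk0.le
      exact_mod_cast hT.rd_le s hs t g1 k {j}
    · rw [hR]; exact_mod_cast hT.rd_le t g1 s hs p {j}ᶜ
    · rw [hR']; exact_mod_cast hT.rd_le t g1 s hs k {j}ᶜ
    · rw [hτ, div_le_iff₀ hk0]; linarith
    · rw [hτ, hlam]
      have : 2 ^ (K + 1) * 2 ^ (K + 1) * ((s p : ℝ) / 2 ^ (K + 1)) = 2 ^ (K + 1) * s p := by
        field_simp
      rw [this]; exact hval2
    · rw [hH, div_le_iff₀ hk0]
      calc |(w k : ℝ)| * s k ≤ |(w k : ℝ)| * (2 ^ (K + 1) * t k) :=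
            mul_le_mul_of_nonneg_left hval3 hwk.le
        _ = _ := by ring
    · rw [hH, hlam]
      have : 2 ^ (K + 1) * 2 ^ (K + 1) * (|(w k : ℝ)| * s k / 2 ^ (K + 1)) =
          |(w k : ℝ)| * (2 ^ (K + 1) * s k) := by
        field_simp
      rw [this]
      exact mul_le_mul_of_nonneg_left hval4 hwk.le

end Pool.Agent.Y594.NT
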