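import Pool.Agent.Y594.NT.Steps

/-!
# The energy bound for numbers close to `x y ^ 2` (helper594)
-/

set_option autoImplicit false

namespace Pool.Agent.Y594.NT

open Finset Pool.Agent.H785R2.ABC Pool.Agent.H705R2.ABC

theorem mm_zero (K x : ℕ) : mm K x 0 = Real.log (rd K x {0}) := by
  rw [mm, dif_pos (by omega)]
  rfl

theorem mm_one (K x : ℕ) (hK : 2 ≤ K) : mm K x 1 = Real.log (rd K x {1}) := by
  rw [mm, dif_pos (by omega)]
  have : (⟨1, by omega⟩ : Fin (K + 1)) = 1 := by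
    apply Fin.ext
    show 1 = 1 % (K + 1)
    rw [Nat.mod_eq_of_lt (by omega)]
  rw [this]

theorem zero_ne_one' (K : ℕ) (hK : 2 ≤ K) : (0 : Fin (K + 1)) ≠ 1 := by
  intro h
  have h1 := congrArg Fin.val h
  have h2 : ((1 : Fin (K + 1)) : ℕ) = 1 := by
    show 1 % (K + 1) = 1
    exact Nat.mod_eq_of_lt (by omega)
  rw [h2] at h1
  simp at h1

theorem log_rest (K x : ℕ) (hK : 2 ≤ K) : Real.log (rd K x {0, 1}ᶜ) =
    Real.log (rad x) - mm K x 0 - mm K x 1 := by
  rw [log_rd_compl, basics.rd_prod K x {0, 1}, prod_pair (zero_ne_one' K hK), mm_zero,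
    mm_one K x hK]
  push_cast
  rw [Real.log_mul (rd_pos_real _ _ _).ne' (rd_pos_real _ _ _).ne']
  ring

/-- bound (2) for numbers close to `x y ^ 2` -/
theorem tri_T (hE : S_ENT) (n K : ℕ) (hK : 2 ≤ K) (ε : ℝ) (hε : 0 < ε) : ∃ C : ℝ, 0 ≤ C ∧
    ∀ Y : ℕ, 1 ≤ Y →
    ∀ (w : Fin n → ℤ) (T : Finset (Fin n → ℕ)), Cl n K w Y T → 0 < T.card → ∀ s ∈ T,
    ∀ L : ℝ, (∀ i, Real.log (rad (s i)) ≤ L) → ∀ p k r : Fin n, p ≠ k → p ≠ r → k ≠ r →
    ∀ M : ℝ,
    (∀ a, a = p ∨ a = k → Real.log (rad (s a)) +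
      (Real.log (rad (s a)) - mm K (s a) 0 - mm K (s a) 1) +
      max 0 (Real.log (rad (s a)) - (Real.log (|(w r : ℝ)| * s r) - mm K (s r) 0) +
        Real.log (Int.gcd (w a) (w r))) ≤ M) →
    Real.log T.card ≤ C + ε * Real.log Y + ((n : ℝ) - 3) * L +
      (Real.log (rad (s r)) - mm K (s r) 0) + M := by
  classical
  obtain ⟨C1, hC1, h1⟩ := tri_log n K (ε / 2) (by positivity)
  obtain ⟨DJ, hDJ, hJ'⟩ := hE K hK (ε / 2) (by positivity)
  set b : ℝ := ((K : ℝ) + 1) ^ 2 * Real.log 2 with hb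
  have hlog2 : 0 < Real.log 2 := Real.log_pos (by norm_num)
  have hb0 : 0 ≤ b := by positivity
  refine ⟨C1 + |Real.log DJ| + ε * b + 10 * b + Real.log 2, by positivity, ?_⟩
  intro Y hY w T hT hTc s hs L hL p k r hpk hpr hkr M hM
  have hY1 : (1 : ℝ) ≤ Y := by exact_mod_cast hY
  have hY0 : (0 : ℝ) < Y := by linarith
  have hlogY : 0 ≤ Real.log Y := Real.log_nonneg hY1
  set X : ℕ := 2 ^ ((K + 1) * (K + 1)) * Y with hX
  have h2X : 1 ≤ 2 ^ ((K + 1) * (K + 1)) := Nat.one_le_two_pow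
  have hX1 : 1 ≤ X := Nat.mul_pos h2X hY
  have hYX : Y ≤ X := Nat.le_mul_of_pos_left _ h2X
  have hlogX : Real.log X = b + Real.log Y := by
    rw [hX]
    push_cast
    rw [Real.log_mul (by positivity) hY0.ne', Real.log_pow, hb]
    push_cast
    ring
  set N : Fin n → ℕ := fun a => 2 ^ (K + 1) * rd K (s a) {0} with hN
  set N' : Fin n → ℕ := fun a => 2 ^ (K + 1) * rd K (s a) {1} with hN'
  set l : Fin n → ℝ := fun a => 2 ^ (K + 1) * (rd K (s a) {0, 1}ᶜ : ℝ) with hl
  set fm : Fin n → ℝ := fun a => |(w r : ℝ)| * part K (s r) {0}ᶜ /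
    (2 ^ (K + 1) * (Int.gcd (w a) (w r) : ℝ)) with hfm
  have hgpos : ∀ a, 0 < Int.gcd (w a) (w r) := fun a => Int.gcd_pos_of_ne_zero_left _ (hT.w0 a)
  have hfm' : ∀ a, 0 < fm a ∧ Real.log (fm a) = Real.log (|(w r : ℝ)| * s r) -
      Real.log (part K (s r) {0}) - (K + 1) * Real.log 2 - Real.log (Int.gcd (w a) (w r)) :=
    fun a => log_fmin (hT.w0 r) (hgpos a) (hT.pos s hs r) {0}
  have hpartF : Real.log (part K (s r) {0}) = mm K (s r) 0 := by
    rw [basics.part_single K (s r) 0 (by simp; omega), mm_zero]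
    simp
  have hNpos : ∀ a, 1 ≤ N a := fun a => Nat.mul_pos Nat.one_le_two_pow (basics.rd_pos _ _ _)
  have hN'pos : ∀ a, 1 ≤ N' a := fun a => Nat.mul_pos Nat.one_le_two_pow (basics.rd_pos _ _ _)
  have hrdY : ∀ a S, rd K (s a) S ≤ Y := fun a S =>
    (Nat.le_of_dvd (hT.pos s hs a) (Est.rd_dvd_self basics K _ (hT.pos s hs a) S)).trans
      (hT.t_le hs a)
  have h2K : 2 ^ (K + 1) ≤ 2 ^ ((K + 1) * (K + 1)) :=
    Nat.pow_le_pow_right (by norm_num) (Nat.le_mul_of_pos_left _ (by omega))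
  have hNX : ∀ a, N a ≤ X := fun a => Nat.mul_le_mul h2K (hrdY a _)
  have hN'X : ∀ a, N' a ≤ X := fun a => Nat.mul_le_mul h2K (hrdY a _)
  have hl1 : ∀ a, 1 ≤ l a := by
    intro a
    have : (1 : ℝ) ≤ rd K (s a) {0, 1}ᶜ := by exact_mod_cast basics.rd_pos _ _ _
    have : (1 : ℝ) ≤ 2 ^ (K + 1) := one_le_pow₀ (by norm_num)
    simp only [hl]
    nlinarith
  set Θ : Fin n → ℝ := fun a => DJ * (X : ℝ) ^ (ε / 2) *
    (l a ^ 2 * ((N a : ℝ) * N' a * (1 + (N a : ℝ) * N' a / fm a))) with hΘ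
  have hXR : (0 : ℝ) < X := by exact_mod_cast hX1
  have hNR : ∀ a, (0 : ℝ) < N a := fun a => by exact_mod_cast hNpos a
  have hN'R : ∀ a, (0 : ℝ) < N' a := fun a => by exact_mod_cast hN'pos a
  have hΘ0 : ∀ a, 0 < Θ a := by
    intro a
    have := (hfm' a).1
    have := hNR a
    have := hN'R a
    have := hl1 a
    have h5 : 0 < l a := by linarith
    simp only [hΘ]
    positivity
  have hmain := h1 Y hY w T hT hTc s hs L hL p k r hpk hpr hkr {0}ᶜ
    (M + |Real.log DJ| + ε * b + 9 * b + Real.log 2 + ε / 2 * Real.log Y) Θ hΘ0 ?_ ?_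
  · rw [log_rd_compl, ← mm_zero] at hmain
    linarith
  · intro a har f hf1 hfY hf P hP
    have h3 := hJ' X f hX1 hf1 (hfY.trans hYX) (N a) (N' a) (hNpos a) (hNX a) (hN'pos a) (hN'X a)
      (l a) (hl1 a) P (by
      intro x hx
      obtain ⟨hxf, t, ht, rfl⟩ := hP x hx
      refine ⟨hT.pos t ht a, (hT.t_le ht a).trans hYX, hxf, hT.rd_le t ht s hs a _,
        hT.rd_le t ht s hs a _, ?_⟩
      simp only [hl]
      exact_mod_cast hT.rd_le t ht s hs a {0, 1}ᶜ)
    refine (show (En P f : ℝ) ≤ _ from h3).trans ?_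
    simp only [hΘ]
    have hfa := (hfm' a).1
    have hNa := hNR a
    have hNa' := hN'R a
    have hle : (N a : ℝ) * N' a / f ≤ (N a : ℝ) * N' a / fm a := by
      apply div_le_div_of_nonneg_left (by positivity) hfa
      exact hf
    have hl0 : 0 ≤ l a := by linarith [hl1 a]
    apply mul_le_mul_of_nonneg_left _ (by positivity)
    apply mul_le_mul_of_nonneg_left _ (by positivity)
    apply mul_le_mul_of_nonneg_left _ (by positivity)
    linarith
  · intro a ha
    have hMa := hM a ha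
    have hfa := hfm' a
    have hNa := hNR a
    have hNa' := hN'R a
    have hla : 0 < l a := by linarith [hl1 a]
    have hu : 0 < (N a : ℝ) * N' a / fm a := div_pos (by positivity) hfa.1
    have h6 := log_one_add_le hu
    rw [Real.log_div (by positivity) hfa.1.ne', Real.log_mul hNa.ne' hNa'.ne', hfa.2,
      hpartF] at h6
    have hlogl : Real.log (l a) = (K + 1) * Real.log 2 +
        (Real.log (rad (s a)) - mm K (s a) 0 - mm K (s a) 1) := by
      simp only [hl]
      rw [Real.log_mul (by positivity) (rd_pos_real _ _ _).ne', Real.log_pow, log_rest K _ hK]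
      push_cast
      ring
    have hlogN : Real.log (N a) = (K + 1) * Real.log 2 + mm K (s a) 0 := by
      simp only [hN]
      push_cast
      rw [Real.log_mul (by positivity) (rd_pos_real _ _ _).ne', Real.log_pow, mm_zero]
      push_cast
      ring
    have hlogN' : Real.log (N' a) = (K + 1) * Real.log 2 + mm K (s a) 1 := by
      simp only [hN']
      push_cast
      rw [Real.log_mul (by positivity) (rd_pos_real _ _ _).ne', Real.log_pow, mm_one K _ hK]
      push_cast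
      ring
    have hrest : 0 ≤ Real.log (rad (s a)) - mm K (s a) 0 - mm K (s a) 1 := by
      rw [← log_rest K _ hK]
      exact Real.log_nonneg (by exact_mod_cast basics.rd_pos _ _ _)
    have hK1 : ((K : ℝ) + 1) * Real.log 2 ≤ b := by
      rw [hb]
      nlinarith [Nat.cast_nonneg (α := ℝ) K]
    have hΘa : Real.log (Θ a) = Real.log DJ + ε / 2 * (b + Real.log Y) + (2 * Real.log (l a) +
        (Real.log (N a) + Real.log (N' a) + Real.log (1 + (N a : ℝ) * N' a / fm a))) := by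
      have e0 : Θ a = DJ * (X : ℝ) ^ (ε / 2) *
        (l a ^ 2 * ((N a : ℝ) * N' a * (1 + (N a : ℝ) * N' a / fm a))) := rfl
      have u1 : (1 + (N a : ℝ) * N' a / fm a) ≠ 0 := by linarith
      have u2 : (N a : ℝ) * N' a ≠ 0 := mul_ne_zero hNa.ne' hNa'.ne'
      have u3 : l a ^ 2 ≠ 0 := pow_ne_zero _ hla.ne'
      have u4 : (X : ℝ) ^ (ε / 2) ≠ 0 := (Real.rpow_pos_of_pos hXR _).ne'
      rw [e0, Real.log_mul (mul_ne_zero hDJ.ne' u4) (mul_ne_zero u3 (mul_ne_zero u2 u1)),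
        Real.log_mul hDJ.ne' u4, Real.log_rpow hXR, hlogX, Real.log_mul u3 (mul_ne_zero u2 u1),
        Real.log_pow, Real.log_mul u2 u1, Real.log_mul hNa.ne' hNa'.ne']
      push_cast
      ring
    rw [hΘa, hlogl]
    have h7 : max 0 (Real.log (N a) + Real.log (N' a) - (Real.log (|(w r : ℝ)| * s r) -
        mm K (s r) 0 - (K + 1) * Real.log 2 - Real.log (Int.gcd (w a) (w r)))) ≤
        max 0 (Real.log (rad (s a)) - (Real.log (|(w r : ℝ)| * s r) - mm K (s r) 0) +
        Real.log (Int.gcd (w a) (w r))) + 3 * b := by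
      refine le_trans (max_le_max_left 0 ?_) (max_add_le (by positivity))
      linarith
    have := le_abs_self (Real.log DJ)
    have hεb : 0 ≤ ε * b := by positivity
    rw [hlogN, hlogN'] at h6 h7 ⊢
    linarith

end Pool.Agent.Y594.NT
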