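import Pool.Agent.Y594.NT.TriJ
import Pool.Agent.Y594.NT.TriT
import Pool.Agent.Y447.NT.Comb
import Pool.Agent.Y891.NT.En

/-!
# The power saving in a cell (helper594)
-/

set_option autoImplicit false

namespace Pool.Agent.Y594.NT

open Finset Pool.Agent.H785R2.ABC Pool.Agent.H705R2.ABC

theorem exists_two_others {n : ℕ} (hn : 3 ≤ n) (r : Fin n) : ∃ p k : Fin n, p ≠ k ∧ p ≠ r ∧ k ≠ r := by
  classical
  have h1 : 2 ≤ (univ.erase r).card := by
    rw [card_erase_of_mem (mem_univ r), card_univ, Fintype.card_fin]; omega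
  obtain ⟨p, hp, k, hk, hpk⟩ := Finset.one_lt_card.1 (by omega : 1 < (univ.erase r).card)
  exact ⟨p, k, hpk, (mem_erase.1 hp).1, (mem_erase.1 hk).1⟩

theorem max_mul {x L : ℝ} (hL : 0 ≤ L) : max 0 (x * L) = max 0 x * L := by
  rw [max_mul_of_nonneg _ _ hL, zero_mul]

/-- the power saving in a cell -/
theorem core_cell (n : ℕ) (hn : 3 ≤ n) (η A : ℝ) (hη : 0 < η) (hA : 1 ≤ A) :
    ∃ κ : ℝ, 0 < κ ∧ κ ≤ 1 ∧ ∃ K : ℕ, ∃ Z₀ : ℝ, 2 ≤ Z₀ ∧ ∀ Z : ℝ, Z₀ ≤ Z → ∀ Y : ℕ, 1 ≤ Y →
    (Y : ℝ) ≤ Z ^ A → ∀ (w : Fin n → ℤ) (T : Finset (Fin n → ℕ)), Cl n K w Y T →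
    (∀ i k, i ≠ k → (Int.gcd (w i) (w k) : ℝ) ≤ Z ^ κ) → (∀ t ∈ T, ∀ i, (rad (t i) : ℝ) ≤ Z) →
    (∀ t ∈ T, ∃ i, Z ^ (1 + η) ≤ |(w i : ℝ)| * t i) → (T.card : ℝ) ≤ Z ^ ((n : ℝ) - 1 - κ) := by
  classical
  obtain ⟨κ0, hκ0, J, hJ, hcomb⟩ := Pool.Agent.Y447.NT.comb η A hη
  obtain ⟨κ, hκdef⟩ : ∃ κ : ℝ, κ = min κ0 (1 / 2) := ⟨_, rfl⟩
  have hκ : 0 < κ := by rw [hκdef]; exact lt_min hκ0 (by norm_num)
  have hκκ : κ ≤ κ0 := by rw [hκdef]; exact min_le_left _ _
  have hκ2 : κ ≤ 1 / 2 := by rw [hκdef]; exact min_le_right _ _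
  obtain ⟨K, hJK, hK2, hKA⟩ : ∃ K : ℕ, J ≤ K ∧ 2 ≤ K ∧ 20 * A ≤ κ * (K + 1) := by
    obtain ⟨k, hk⟩ := exists_nat_ge (20 * A / κ)
    refine ⟨max J k, le_max_left _ _, hJ.trans (le_max_left _ _), ?_⟩
    rw [div_le_iff₀ hκ] at hk
    have : (k : ℝ) ≤ (max J k : ℕ) := by exact_mod_cast le_max_right _ _
    nlinarith
  obtain ⟨ε, hεdef⟩ : ∃ ε : ℝ, ε = κ / (100 * (A + 1)) := ⟨_, rfl⟩
  have hε : 0 < ε := by rw [hεdef]; positivity
  have hεA : ε * A ≤ κ / 100 := by
    rw [hεdef, div_mul_eq_mul_div, div_le_div_iff₀ (by positivity) (by norm_num)]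
    nlinarith
  obtain ⟨C0, hC0, h0⟩ := triv_log n K ε hε
  obtain ⟨C1, hC1, h1⟩ := pair_log n K ε hε
  obtain ⟨C2, hC2, h2⟩ := tri_J Pool.Agent.Y891.NT.enj n K ε hε
  obtain ⟨C3, hC3, h3⟩ := tri_T Pool.Agent.Y891.NT.ent n K hK2 ε hε
  obtain ⟨C, hCdef⟩ : ∃ C : ℝ, C = C0 + C1 + C2 + C3 + Real.log n + (K + 1) * Real.log 2 :=
    ⟨_, rfl⟩
  have hlog2 : 0 < Real.log 2 := Real.log_pos (by norm_num)
  have hlogn : 0 ≤ Real.log n := Real.log_natCast_nonneg n
  have hKlog : 0 ≤ ((K : ℝ) + 1) * Real.log 2 := by positivity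
  have hC : 0 ≤ C := by rw [hCdef]; positivity
  refine ⟨κ / 20, by positivity, by linarith, K, max 2 (Real.exp (20 * C / κ)), le_max_left _ _, ?_⟩
  intro Z hZ Y hY hYZ w T hT hgcd hrad hbig
  by_contra hcon
  rw [not_le] at hcon
  have hZ2 : 2 ≤ Z := (le_max_left _ _).trans hZ
  have hZ0 : 0 < Z := by linarith
  obtain ⟨L, hLdef⟩ : ∃ L : ℝ, L = Real.log Z := ⟨_, rfl⟩
  have hL : 0 < L := by rw [hLdef]; exact Real.log_pos (by linarith)
  have hCL : C ≤ κ / 20 * L := by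
    have h5 : Real.exp (20 * C / κ) ≤ Z := (le_max_right _ _).trans hZ
    have h6 : 20 * C / κ ≤ L := by
      rw [hLdef]
      exact (Real.le_log_iff_exp_le hZ0).2 h5
    rw [div_le_iff₀ hκ] at h6
    linarith
  have hTc : 0 < T.card := by
    have : (0 : ℝ) < T.card := lt_of_le_of_lt (Real.rpow_nonneg hZ0.le _) hcon
    exact_mod_cast this
  obtain ⟨s, hs⟩ := card_pos.1 hTc
  have hlogT : ((n : ℝ) - 1 - κ / 20) * L < Real.log T.card := by
    have h5 := Real.log_lt_log (Real.rpow_pos_of_pos hZ0 _) hcon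
    rwa [Real.log_rpow hZ0, ← hLdef] at h5
  have hY0 : (0 : ℝ) < Y := by exact_mod_cast hY
  have hYL : Real.log Y ≤ A * L := by
    have h5 := Real.log_le_log hY0 hYZ
    rwa [Real.log_rpow hZ0, ← hLdef] at h5
  have hYL0 : 0 ≤ Real.log Y := Real.log_nonneg (by exact_mod_cast hY)
  have hεY : ε * Real.log Y ≤ κ / 100 * L := by
    calc ε * Real.log Y ≤ ε * (A * L) := mul_le_mul_of_nonneg_left hYL hε.le
      _ = ε * A * L := by ring
      _ ≤ κ / 100 * L := mul_le_mul_of_nonneg_right hεA hL.le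
  have hradL : ∀ i, Real.log (rad (s i)) ≤ L := by
    intro i
    rw [hLdef]
    exact Real.log_le_log (rad_pos_real _) (hrad s hs i)
  have hgL : ∀ i k, i ≠ k → Real.log (Int.gcd (w i) (w k)) ≤ κ / 20 * L := by
    intro i k hik
    have h5 : (0 : ℝ) < Int.gcd (w i) (w k) := by
      exact_mod_cast Int.gcd_pos_of_ne_zero_left _ (hT.w0 i)
    have h6 := Real.log_le_log h5 (hgcd i k hik)
    rwa [Real.log_rpow hZ0, ← hLdef] at h6
  have hsum_C : C0 ≤ C ∧ C1 ≤ C ∧ C2 ≤ C ∧ C3 ≤ C ∧ Real.log n ≤ C ∧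
      ((K : ℝ) + 1) * Real.log 2 ≤ C := by
    rw [hCdef]
    refine ⟨?_, ?_, ?_, ?_, ?_, ?_⟩ <;> linarith
  obtain ⟨hC0L, hC1L, hC2L, hC3L, hCn, hCK⟩ := hsum_C
  -- lower bound for the radicals
  have hlow : ∀ i, (1 - κ / 5) * L ≤ Real.log (rad (s i)) := by
    intro i
    obtain ⟨l, -, -, hl, -⟩ := exists_two_others hn i
    have h5 := h0 Y hY w T hT hTc s hs L hradL i l hl.symm
    nlinarith
  -- the exponents
  obtain ⟨v, hv⟩ : ∃ v : Fin n → ℝ, ∀ i, Real.log (rad (s i)) = v i * L :=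
    ⟨fun i => Real.log (rad (s i)) / L, fun i => (div_mul_cancel₀ _ hL.ne').symm⟩
  obtain ⟨m, hm⟩ : ∃ m : Fin n → ℕ → ℝ, ∀ i j, mm K (s i) j = m i j * L :=
    ⟨fun i j => mm K (s i) j / L, fun i j => (div_mul_cancel₀ _ hL.ne').symm⟩
  obtain ⟨h, hh⟩ : ∃ h : Fin n → ℝ, ∀ i, Real.log (|(w i : ℝ)| * s i) = h i * L :=
    ⟨fun i => Real.log (|(w i : ℝ)| * s i) / L, fun i => (div_mul_cancel₀ _ hL.ne').symm⟩
  have hspos : ∀ i, (0 : ℝ) < s i := fun i => by exact_mod_cast hT.pos s hs i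
  have hwpos : ∀ i, 1 ≤ |(w i : ℝ)| := by
    intro i
    have : (1 : ℤ) ≤ |w i| := Int.one_le_abs (hT.w0 i)
    exact_mod_cast this
  have hvpos : ∀ i, 0 < |(w i : ℝ)| * s i := fun i =>
    mul_pos (by linarith [hwpos i]) (hspos i)
  haveI : Nonempty (Fin n) := ⟨⟨0, by omega⟩⟩
  obtain ⟨r₁, hr₁⟩ := Finite.exists_max (fun i : Fin n => |(w i : ℝ)| * s i)
  have hmax : ∀ i, h i ≤ h r₁ := by
    intro i
    have h5 := Real.log_le_log (hvpos i) (hr₁ i)
    rw [hh, hh] at h5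
    exact le_of_mul_le_mul_right h5 hL
  have hsumm : ∀ i N, ∑ j ∈ range N, mm K (s i) j = (∑ j ∈ range N, m i j) * L := by
    intro i N
    rw [sum_mul]
    exact sum_congr rfl fun j _ => hm i j
  have hwsumm : ∀ i N, ∑ j ∈ range N, ((j : ℝ) + 1) * mm K (s i) j =
      (∑ j ∈ range N, ((j : ℝ) + 1) * m i j) * L := by
    intro i N
    rw [sum_mul]
    exact sum_congr rfl fun j _ => by rw [hm i j]; ring
  have hm0 : ∀ i j, 0 ≤ m i j := by
    intro i j
    have h5 := mm_nonneg K (s i) j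
    rw [hm] at h5
    exact nonneg_of_mul_nonneg_left h5 hL
  have hv1 : ∀ i, v i ≤ 1 := by
    intro i
    have h5 := hradL i
    rw [hv] at h5
    nlinarith
  have hne1 : ∀ p, ∀ t ∈ T, t p ≠ 1 := by
    intro p t ht h5
    have h6 := hT.rad_le hs ht p
    have h7 : rad 1 = 1 := by simp [rad]
    rw [h5, h7, mul_one] at h6
    have h8 : (rad (s p) : ℝ) ≤ 2 ^ (K + 1) := by exact_mod_cast h6
    have h9 := Real.log_le_log (rad_pos_real _) h8
    rw [Real.log_pow] at h9
    push_cast at h9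
    have := hlow p
    nlinarith
  -- apply the combinatorial lemma
  apply hcomb n hn v m h (h r₁) hm0 ?_ ?_ ?_ ?_ ?_ ?_ ?_ ?_ ?_ ?_ ?_
  · intro i
    have h5 := sum_mm_le K (s i) J (by omega)
    rw [hsumm, hv] at h5
    exact le_of_mul_le_mul_right h5 hL
  · intro i
    linarith [hv1 i]
  · intro i
    have h5 := hlow i
    rw [hv] at h5
    have h6 := le_of_mul_le_mul_right h5 hL
    linarith
  · intro i N hN
    have h5 := weight_le K (s i) N (hT.pos s hs i) (by omega)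
    rw [hsumm, hwsumm, hv] at h5
    have h6 : Real.log (s i) ≤ h i * L := by
      rw [← hh]
      apply Real.log_le_log (hspos i)
      nlinarith [hwpos i, hspos i]
    have h7 : (∑ j ∈ range N, ((j : ℝ) + 1) * m i j +
        ((N : ℝ) + 1) * (v i - ∑ j ∈ range N, m i j)) * L ≤ h i * L := by
      refine le_trans (le_of_eq ?_) (h5.trans h6)
      ring
    have h8 := le_of_mul_le_mul_right h7 hL
    linarith
  · intro i
    linarith [hmax i]
  · obtain ⟨r₂, hr₂, hr₂'⟩ := Finset.exists_max_image (univ.erase r₁)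
      (fun i : Fin n => |(w i : ℝ)| * s i) (by
        obtain ⟨p, -, -, hp, -⟩ := exists_two_others hn r₁
        exact ⟨p, mem_erase.2 ⟨hp, mem_univ _⟩⟩)
    have hne : r₂ ≠ r₁ := (mem_erase.1 hr₂).1
    refine ⟨r₁, r₂, hne.symm, by linarith, ?_⟩
    have e1 : (∑ i, (w i : ℝ) * s i) = 0 := by exact_mod_cast hT.sum s hs
    rw [← Finset.add_sum_erase univ _ (mem_univ r₁)] at e1
    have e2 : |(w r₁ : ℝ) * s r₁| ≤ (n : ℝ) * (|(w r₂ : ℝ)| * s r₂) := by
      have e3 : (w r₁ : ℝ) * s r₁ = -∑ i ∈ univ.erase r₁, (w i : ℝ) * s i := by linarith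
      rw [e3, abs_neg]
      refine (abs_sum_le_sum_abs _ _).trans ?_
      calc ∑ i ∈ univ.erase r₁, |(w i : ℝ) * s i|
          ≤ ∑ _i ∈ univ.erase r₁, |(w r₂ : ℝ)| * s r₂ := by
            apply sum_le_sum
            intro i hi
            rw [abs_mul, abs_of_pos (hspos i)]
            exact hr₂' i hi
        _ = ((univ.erase r₁).card : ℝ) * (|(w r₂ : ℝ)| * s r₂) := by
            rw [sum_const, nsmul_eq_mul]
        _ ≤ _ := by
            apply mul_le_mul_of_nonneg_right _ (hvpos r₂).le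
            rw [card_erase_of_mem (mem_univ _), card_univ, Fintype.card_fin]
            exact_mod_cast Nat.sub_le n 1
    rw [abs_mul, abs_of_pos (hspos r₁)] at e2
    have e4 := Real.log_le_log (hvpos r₁) e2
    have hn0 : (n : ℝ) ≠ 0 := by
      have : n ≠ 0 := by omega
      exact_mod_cast this
    rw [Real.log_mul hn0 (hvpos r₂).ne', hh, hh] at e4
    have e5 : (h r₁ - κ) * L ≤ h r₂ * L := by nlinarith
    have := le_of_mul_le_mul_right e5 hL
    linarith
  · obtain ⟨i, hi⟩ := hbig s hs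
    have h5 := Real.log_le_log (Real.rpow_pos_of_pos hZ0 _) hi
    rw [Real.log_rpow hZ0, ← hLdef, hh] at h5
    have h6 := le_of_mul_le_mul_right h5 hL
    linarith [hmax i]
  · have h5 : |(w r₁ : ℝ)| * s r₁ ≤ Y := by
      have h6 := hT.le s hs r₁
      have h7 : (((w r₁).natAbs * s r₁ : ℕ) : ℝ) ≤ Y := by exact_mod_cast h6
      rw [Nat.cast_mul, Nat.cast_natAbs] at h7
      push_cast at h7
      exact h7
    have h6 := (Real.log_le_log (hvpos r₁) h5).trans hYL
    rw [hh] at h6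
    exact le_of_mul_le_mul_right h6 hL
  · intro p k hpk j hj
    by_contra hno
    rw [not_or, not_le] at hno
    obtain ⟨hno1, hno2⟩ := hno
    apply hno2
    have key : ∀ a b : Fin n, a ≠ b → 1 + κ0 < m a j + m b j → h b ≤ 1 + κ0 := by
      intro a b hab hlt
      have h5 := h1 Y hY w T hT hTc s hs L hradL a b hab (hne1 a) j (by omega)
      have hg := hgL a b hab
      rw [hm, hm, hh, hv, hv] at h5
      have hva := hv1 a
      have hvb := hv1 b
      rcases max_choice 0 (m a j * L + m b j * L + Real.log (Int.gcd (w a) (w b)) - h b * L)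
        with h6 | h6
      · rw [h6] at h5
        exfalso
        nlinarith
      · rw [h6] at h5
        have h7 : h b * L ≤ (1 + κ) * L := by nlinarith
        have := le_of_mul_le_mul_right h7 hL
        linarith
    exact ⟨key k p hpk.symm (by linarith), key p k hpk hno1⟩
  · intro r j hj
    obtain ⟨p, k, hpk, hpr, hkr⟩ := exists_two_others hn r
    have h5 := h2 Y hY w T hT hTc s hs L hradL p k r hpk hpr hkr j (by omega)
      ((1 + κ / 10) * L + max 0 (3 / 2 - (h r - ((j : ℝ) + 1) * m r j)) * L) (by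
      intro a ha
      have har : a ≠ r := by rcases ha with rfl | rfl <;> assumption
      have hg := hgL a r har
      have hva := hv1 a
      have hlast : Real.log (rd K (s a) {Fin.last K}) ≤ κ / 20 * L := by
        have e1 := last_le K (s a) (hT.pos s hs a)
        have e2 : Real.log (s a) ≤ A * L :=
          (Real.log_le_log (hspos a) (by exact_mod_cast hT.t_le hs a)).trans hYL
        have e3 : ((K : ℝ) + 1) * Real.log (rd K (s a) {Fin.last K}) ≤
            ((K : ℝ) + 1) * (κ / 20 * L) := by nlinarith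
        exact le_of_mul_le_mul_left e3 (by positivity)
      rw [hv, hh, hm]
      have e4 : max 0 (3 / 2 * (v a * L) - (h r * L - ((j : ℝ) + 1) * (m r j * L)) +
          Real.log (Int.gcd (w a) (w r))) ≤
          max 0 (3 / 2 - (h r - ((j : ℝ) + 1) * m r j)) * L + κ / 20 * L := by
        rw [← max_mul hL.le]
        refine le_trans (max_le_max_left 0 ?_) (max_add_le (by positivity))
        nlinarith
      nlinarith)
    rw [hv, hm] at h5
    have hvr := hv1 r
    have h6 : m r j * L ≤ (κ + max 0 (3 / 2 - (h r - ((j : ℝ) + 1) * m r j))) * L := by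
      nlinarith
    have := le_of_mul_le_mul_right h6 hL
    linarith
  · intro r p k hrp hrk hpk
    have hrest : ∀ a, 0 ≤ v a - m a 0 - m a 1 := by
      intro a
      have e1 := sum_mm_le K (s a) 2 (by omega)
      rw [hsumm, hv, sum_range_succ, sum_range_one] at e1
      have := le_of_mul_le_mul_right e1 hL
      linarith
    have h5 := h3 Y hY w T hT hTc s hs L hradL p k r hpk hrp.symm hrk.symm
      ((1 + κ / 20) * L + ((v p - m p 0 - m p 1) + (v k - m k 0 - m k 1)) * L +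
        max 0 (1 - (h r - m r 0)) * L) (by
      intro a ha
      have har : a ≠ r := by
        rcases ha with rfl | rfl
        · exact hrp.symm
        · exact hrk.symm
      have hg := hgL a r har
      have hva := hv1 a
      have hra : (v a - m a 0 - m a 1) ≤ (v p - m p 0 - m p 1) + (v k - m k 0 - m k 1) := by
        rcases ha with rfl | rfl
        · linarith [hrest k]
        · linarith [hrest p]
      rw [hv, hh, hm, hm, hm]
      have e4 : max 0 (v a * L - (h r * L - m r 0 * L) + Real.log (Int.gcd (w a) (w r))) ≤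
          max 0 (1 - (h r - m r 0)) * L + κ / 20 * L := by
        rw [← max_mul hL.le]
        refine le_trans (max_le_max_left 0 ?_) (max_add_le (by positivity))
        nlinarith
      nlinarith)
    rw [hv, hm] at h5
    have hvr := hv1 r
    have h6 : m r 0 * L ≤ (κ + max 0 (1 - (h r - m r 0)) + (v p - m p 0 - m p 1) +
        (v k - m k 0 - m k 1)) * L := by
      nlinarith
    have := le_of_mul_le_mul_right h6 hL
    linarith

end Pool.Agent.Y594.NT
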