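import Pool.Agent.Y594.NT.Core

/-!
# The power saving for fixed coefficients (helper594)
-/

set_option autoImplicit false

namespace Pool.Agent.Y594.NT

open Finset Pool.Agent.H785R2.ABC Pool.Agent.H705R2.ABC

theorem natlog_le {Y : ℕ} (hY : 1 ≤ Y) : (Nat.log 2 Y : ℝ) * Real.log 2 ≤ Real.log Y := by
  have h1 : 2 ^ Nat.log 2 Y ≤ Y := Nat.pow_log_le_self 2 (by omega)
  have h2 : ((2 : ℝ)) ^ Nat.log 2 Y ≤ Y := by exact_mod_cast h1
  have h3 := Real.log_le_log (by positivity) h2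
  rwa [Real.log_pow] at h3

/-- powers of the logarithm are small -/
theorem log_pow_le (N : ℕ) (ε : ℝ) (hε : 0 < ε) : ∃ D : ℝ, 0 < D ∧ ∀ Y : ℕ, 1 ≤ Y →
    ((Nat.log 2 Y + 1 : ℕ) : ℝ) ^ N ≤ D * (Y : ℝ) ^ ε := by
  obtain ⟨δ, hδ⟩ : ∃ δ : ℝ, δ = ε / (N + 1) := ⟨_, rfl⟩
  have hδ0 : 0 < δ := by rw [hδ]; positivity
  have hlog2 : 0 < Real.log 2 := Real.log_pos (by norm_num)
  refine ⟨(1 / (δ * Real.log 2) + 1) ^ N, by positivity, ?_⟩
  intro Y hY
  have hY1 : (1 : ℝ) ≤ Y := by exact_mod_cast hY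
  have hY0 : (0 : ℝ) < Y := by linarith
  have h1 : (Nat.log 2 Y : ℝ) ≤ (1 / (δ * Real.log 2)) * (Y : ℝ) ^ δ := by
    have h2 := natlog_le hY
    have h3 := Real.log_le_rpow_div hY0.le hδ0
    have h4 : (Nat.log 2 Y : ℝ) ≤ ((Y : ℝ) ^ δ / δ) / Real.log 2 := by
      rw [le_div_iff₀ hlog2]; linarith
    refine h4.trans (le_of_eq ?_)
    field_simp
  have h5 : (1 : ℝ) ≤ (Y : ℝ) ^ δ := Real.one_le_rpow hY1 hδ0.le
  have h6 : ((Nat.log 2 Y + 1 : ℕ) : ℝ) ≤ (1 / (δ * Real.log 2) + 1) * (Y : ℝ) ^ δ := by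
    push_cast
    linarith
  calc ((Nat.log 2 Y + 1 : ℕ) : ℝ) ^ N ≤ ((1 / (δ * Real.log 2) + 1) * (Y : ℝ) ^ δ) ^ N :=
        pow_le_pow_left₀ (by positivity) h6 N
    _ = (1 / (δ * Real.log 2) + 1) ^ N * (Y : ℝ) ^ (δ * N) := by
        rw [mul_pow, ← Real.rpow_natCast ((Y : ℝ) ^ δ), ← Real.rpow_mul hY0.le]
    _ ≤ _ := by
        apply mul_le_mul_of_nonneg_left _ (by positivity)
        apply Real.rpow_le_rpow_of_exponent_le hY1
        rw [hδ, div_mul_eq_mul_div, div_le_iff₀ (by positivity)]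
        nlinarith

theorem le_two_of_log {a b : ℕ} (hb : 1 ≤ b) (h : Nat.log 2 a = Nat.log 2 b) :
    a ≤ 2 * b := by
  have h1 : a < 2 ^ (Nat.log 2 a + 1) := Nat.lt_pow_succ_log_self (by norm_num) a
  have h2 : 2 ^ Nat.log 2 b ≤ b := Nat.pow_log_le_self 2 (by omega)
  rw [h, pow_succ] at h1
  omega

theorem prod_le_two {K : ℕ} (S : Finset (Fin (K + 1))) (f g : Fin (K + 1) → ℕ)
    (h : ∀ j, f j ≤ 2 * g j) : ∏ j ∈ S, f j ≤ 2 ^ (K + 1) * ∏ j ∈ S, g j := by
  calc ∏ j ∈ S, f j ≤ ∏ j ∈ S, 2 * g j := prod_le_prod' fun j _ => h j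
    _ = 2 ^ S.card * ∏ j ∈ S, g j := by rw [prod_mul_distrib, prod_const]
    _ ≤ _ := by
      apply Nat.mul_le_mul_right
      apply Nat.pow_le_pow_right (by norm_num)
      exact (card_le_univ S).trans (by rw [Fintype.card_fin])

/-- the power saving for fixed coefficients -/
theorem core_w (n : ℕ) (hn : 3 ≤ n) (η A : ℝ) (hη : 0 < η) (hA : 1 ≤ A) :
    ∃ κ : ℝ, 0 < κ ∧ κ ≤ 1 ∧ ∃ C : ℝ, 0 < C ∧ ∀ Z : ℝ, 1 ≤ Z → ∀ Y : ℕ, 1 ≤ Y →
    (Y : ℝ) ≤ Z ^ A → ∀ w : Fin n → ℤ, (∀ i, w i ≠ 0) →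
    (∀ i k, i ≠ k → (Int.gcd (w i) (w k) : ℝ) ≤ Z ^ κ) → ∀ E : Finset (Fin n → ℕ),
    (∀ t ∈ E, (∀ i, 1 ≤ t i ∧ (w i).natAbs * t i ≤ Y ∧ (rad (t i) : ℝ) ≤ Z) ∧
      ∑ i, w i * (t i : ℤ) = 0 ∧ (∀ i k, i ≠ k → Nat.Coprime (t i) (t k)) ∧
      (∀ i k, IsCoprime (w k) (t i : ℤ)) ∧ ∃ i, Z ^ (1 + η) ≤ |(w i : ℝ)| * t i) →
    (E.card : ℝ) ≤ C * Z ^ ((n : ℝ) - 1 - κ) := by
  classical
  obtain ⟨κ₁, hκ₁, hκ₁1, K, Z₀, hZ₀, hcell⟩ := core_cell n hn η A hη hA
  obtain ⟨D, hD, hlog⟩ := log_pow_le (2 * n * (K + 1)) (κ₁ / (2 * A)) (by positivity)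
  refine ⟨κ₁ / 2, by positivity, by linarith, max D ((Z₀ ^ A) ^ n), by positivity, ?_⟩
  intro Z hZ Y hY hYZ w hw hg E hE
  have hZ0 : 0 < Z := by linarith
  have hY1 : (1 : ℝ) ≤ Y := by exact_mod_cast hY
  have hn3 : (3 : ℝ) ≤ n := by exact_mod_cast hn
  have htY : ∀ t ∈ E, ∀ i, t i ≤ Y := fun t ht i =>
    (Nat.le_mul_of_pos_left _ (Int.natAbs_pos.2 (hw i))).trans ((hE t ht).1 i).2.1
  rcases lt_or_ge Z Z₀ with hlt | hge
  · -- small Z
    have h1 : E.card ≤ Y ^ n := by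
      have h2 : E ⊆ Fintype.piFinset fun _ : Fin n => Icc 1 Y := by
        intro t ht
        rw [Fintype.mem_piFinset]
        intro i
        rw [mem_Icc]
        exact ⟨((hE t ht).1 i).1, htY t ht i⟩
      refine (card_le_card h2).trans (le_of_eq ?_)
      rw [Fintype.card_piFinset]
      simp
    have h2 : (E.card : ℝ) ≤ (Z₀ ^ A) ^ n := by
      calc (E.card : ℝ) ≤ (Y : ℝ) ^ n := by exact_mod_cast h1
        _ ≤ (Z₀ ^ A) ^ n := by
          apply pow_le_pow_left₀ (by linarith)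
          refine hYZ.trans (Real.rpow_le_rpow hZ0.le hlt.le (by linarith))
    have h3 : 1 ≤ Z ^ ((n : ℝ) - 1 - κ₁ / 2) := Real.one_le_rpow hZ (by linarith)
    calc (E.card : ℝ) ≤ (Z₀ ^ A) ^ n := h2
      _ ≤ max D ((Z₀ ^ A) ^ n) := le_max_right _ _
      _ = max D ((Z₀ ^ A) ^ n) * 1 := (mul_one _).symm
      _ ≤ _ := mul_le_mul_of_nonneg_left h3 (by positivity)
  · -- large Z
    set π : (Fin n → ℕ) → (Fin n → Fin (K + 1) → ℕ) × (Fin n → Fin (K + 1) → ℕ) := fun t =>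
      (fun i j => Nat.log 2 (rd K (t i) {j}), fun i j => Nat.log 2 (part K (t i) {j})) with hπ
    set M : Finset ((Fin n → Fin (K + 1) → ℕ) × (Fin n → Fin (K + 1) → ℕ)) :=
      (Fintype.piFinset fun _ => Fintype.piFinset fun _ => range (Nat.log 2 Y + 1)) ×ˢ
      (Fintype.piFinset fun _ => Fintype.piFinset fun _ => range (Nat.log 2 Y + 1)) with hM
    have hmaps : ∀ t ∈ E, π t ∈ M := by
      intro t ht
      rw [hM, mem_product, Fintype.mem_piFinset, Fintype.mem_piFinset]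
      constructor
      · intro i
        rw [Fintype.mem_piFinset]
        intro j
        rw [mem_range]
        have h1 : rd K (t i) {j} ≤ Y :=
          (Nat.le_of_dvd ((hE t ht).1 i).1 (Est.rd_dvd_self basics K _ ((hE t ht).1 i).1 _)).trans
            (htY t ht i)
        have := Nat.log_mono_right (b := 2) h1
        simp only [hπ]
        omega
      · intro i
        rw [Fintype.mem_piFinset]
        intro j
        rw [mem_range]
        have h1 : part K (t i) {j} ≤ Y :=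
          (Nat.le_of_dvd ((hE t ht).1 i).1 (basics.part_dvd K _ _ ((hE t ht).1 i).1)).trans
            (htY t ht i)
        have := Nat.log_mono_right (b := 2) h1
        simp only [hπ]
        omega
    have hMcard : (M.card : ℝ) ≤ D * (Y : ℝ) ^ (κ₁ / (2 * A)) := by
      refine le_trans (le_of_eq ?_) (hlog Y hY)
      rw [hM, card_product, Fintype.card_piFinset, Finset.prod_const, Fintype.card_piFinset,
        Finset.prod_const, card_range]
      simp only [card_univ, Fintype.card_fin]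
      push_cast
      rw [← pow_mul, ← pow_add]
      congr 1
      ring
    have hfib : ∀ z ∈ M, (((E.filter fun t => π t = z).card : ℕ) : ℝ) ≤
        Z ^ ((n : ℝ) - 1 - κ₁) := by
      intro z _
      apply hcell Z hge Y hY hYZ w (E.filter fun t => π t = z)
      · have hmem : ∀ t ∈ E.filter fun t => π t = z, t ∈ E ∧ π t = z := fun t ht =>
          mem_filter.1 ht
        refine ⟨hw, fun t ht i => ((hE t (hmem t ht).1).1 i).1,
          fun t ht i => ((hE t (hmem t ht).1).1 i).2.1, fun t ht => (hE t (hmem t ht).1).2.1,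
          fun t ht => (hE t (hmem t ht).1).2.2.1, fun t ht => (hE t (hmem t ht).1).2.2.2.1,
          ?_, ?_⟩
        · intro s hs t ht i S
          have h1 : π s = π t := by rw [(hmem s hs).2, (hmem t ht).2]
          rw [basics.rd_prod K (s i) S, basics.rd_prod K (t i) S]
          apply prod_le_two
          intro j
          have h2 := congrFun (congrFun (congrArg Prod.fst h1) i) j
          exact le_two_of_log (basics.rd_pos _ _ _) h2
        · intro s hs t ht i S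
          have h1 : π s = π t := by rw [(hmem s hs).2, (hmem t ht).2]
          rw [basics.part_prod K (s i) S, basics.part_prod K (t i) S]
          apply prod_le_two
          intro j
          have h2 := congrFun (congrFun (congrArg Prod.snd h1) i) j
          exact le_two_of_log (basics.part_pos _ _ _) h2
      · intro i k hik
        refine (hg i k hik).trans ?_
        exact Real.rpow_le_rpow_of_exponent_le hZ (by linarith)
      · intro t ht i
        exact ((hE t (mem_filter.1 ht).1).1 i).2.2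
      · intro t ht
        exact (hE t (mem_filter.1 ht).1).2.2.2.2
    have h1 : E.card = ∑ z ∈ M, (E.filter fun t => π t = z).card :=
      card_eq_sum_card_fiberwise (fun t ht => hmaps t ht)
    have h2 : (E.card : ℝ) ≤ M.card * Z ^ ((n : ℝ) - 1 - κ₁) := by
      rw [h1]
      push_cast
      calc _ ≤ ∑ _z ∈ M, Z ^ ((n : ℝ) - 1 - κ₁) := sum_le_sum hfib
        _ = _ := by rw [sum_const, nsmul_eq_mul]
    have h3 : (Y : ℝ) ^ (κ₁ / (2 * A)) ≤ Z ^ (κ₁ / 2) := by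
      calc (Y : ℝ) ^ (κ₁ / (2 * A)) ≤ (Z ^ A) ^ (κ₁ / (2 * A)) :=
            Real.rpow_le_rpow (by linarith) hYZ (by positivity)
        _ = Z ^ (κ₁ / 2) := by
            rw [← Real.rpow_mul hZ0.le]
            congr 1
            field_simp
    calc (E.card : ℝ) ≤ M.card * Z ^ ((n : ℝ) - 1 - κ₁) := h2
      _ ≤ (D * (Y : ℝ) ^ (κ₁ / (2 * A))) * Z ^ ((n : ℝ) - 1 - κ₁) :=
          mul_le_mul_of_nonneg_right hMcard (Real.rpow_nonneg hZ0.le _)
      _ ≤ (D * Z ^ (κ₁ / 2)) * Z ^ ((n : ℝ) - 1 - κ₁) := by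
          apply mul_le_mul_of_nonneg_right _ (Real.rpow_nonneg hZ0.le _)
          exact mul_le_mul_of_nonneg_left h3 hD.le
      _ = D * Z ^ ((n : ℝ) - 1 - κ₁ / 2) := by
          rw [mul_assoc, ← Real.rpow_add hZ0]
          congr 2
          ring
      _ ≤ _ := mul_le_mul_of_nonneg_right (le_max_left _ _) (Real.rpow_nonneg hZ0.le _)

end Pool.Agent.Y594.NT
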