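import Pool.Agent.Y594.NT.CoreW

/-!
# Tools: fibres of integer tuples, parts of a number (helper594)
-/

set_option autoImplicit false

namespace Pool.Agent.Y594.NT

open Finset Pool.Agent.H785R2.ABC Pool.Agent.H705R2.ABC

/-- counting by fibres -/
theorem fiberZ {n : ℕ} {β : Type*} [DecidableEq β] (T : Finset (Fin n → ℤ)) (S : Finset (Fin n))
    (B : Fin n → Finset ℤ)
    (g : (Fin n → ℤ) → β) (B' : Finset β) (hB : ∀ t ∈ T, ∀ i ∈ S, t i ∈ B i)
    (hB' : ∀ t ∈ T, g t ∈ B') (N : ℝ) (hN0 : 0 ≤ N)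
    (hN : ∀ u ∈ T, (((T.filter fun t => (∀ i ∈ S, t i = u i) ∧ g t = g u).card : ℕ) : ℝ) ≤ N) :
    (T.card : ℝ) ≤ (∏ i ∈ S, ((B i).card : ℝ)) * (B'.card : ℝ) * N := by
  classical
  set φ : (Fin n → ℤ) → (Fin n → ℤ) × β := fun t => (fun i => if i ∈ S then t i else 0, g t)
    with hφ
  set M : Finset ((Fin n → ℤ) × β) :=
    (Fintype.piFinset fun i => if i ∈ S then B i else {0}) ×ˢ B' with hM
  have hmaps : ∀ t ∈ T, φ t ∈ M := by
    intro t ht
    rw [hM, mem_product, Fintype.mem_piFinset]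
    refine ⟨fun i => ?_, hB' t ht⟩
    simp only [hφ]
    by_cases hi : i ∈ S
    · rw [if_pos hi, if_pos hi]; exact hB t ht i hi
    · rw [if_neg hi, if_neg hi]; exact mem_singleton_self _
  have h1 : T.card = ∑ z ∈ M, (T.filter fun t => φ t = z).card :=
    card_eq_sum_card_fiberwise (fun t ht => hmaps t ht)
  have h2 : ∀ z ∈ M, (((T.filter fun t => φ t = z).card : ℕ) : ℝ) ≤ N := by
    intro z _
    rcases (T.filter fun t => φ t = z).eq_empty_or_nonempty with h0 | ⟨u, hu⟩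
    · rw [h0]; simpa using hN0
    · rw [mem_filter] at hu
      refine le_trans ?_ (hN u hu.1)
      exact_mod_cast card_le_card fun t ht => by
        rw [mem_filter] at ht ⊢
        have h3 : φ t = φ u := by rw [ht.2, hu.2]
        refine ⟨ht.1, fun i hi => ?_, congrArg Prod.snd h3⟩
        have h4 := congrFun (congrArg Prod.fst h3) i
        simp only [hφ] at h4
        rwa [if_pos hi, if_pos hi] at h4
  have h5 : (M.card : ℝ) = (∏ i ∈ S, ((B i).card : ℝ)) * (B'.card : ℝ) := by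
    rw [hM, card_product, Fintype.card_piFinset]
    push_cast
    congr 1
    rw [← Finset.prod_subset (subset_univ S)
      (f := fun i => (((if i ∈ S then B i else {0}) : Finset ℤ).card : ℝ))]
    · exact prod_congr rfl fun i hi => by rw [if_pos hi]
    · intro i _ hi
      rw [if_neg hi]
      simp
  rw [h1]
  push_cast
  calc ∑ z ∈ M, (((T.filter fun t => φ t = z).card : ℕ) : ℝ) ≤ ∑ _z ∈ M, N := sum_le_sum h2
    _ = M.card * N := by rw [sum_const, nsmul_eq_mul]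
    _ = _ := by rw [h5]

/-- nonzero integers with a bounded radical -/
noncomputable def BZ (Y : ℕ) (R : ℝ) : Finset ℤ :=
  (Icc (-(Y : ℤ)) Y).filter fun d => d ≠ 0 ∧ (rad d.natAbs : ℝ) ≤ R

theorem mem_BZ {Y : ℕ} {R : ℝ} {d : ℤ} : d ∈ BZ Y R ↔ d ≠ 0 ∧ d.natAbs ≤ Y ∧
    (rad d.natAbs : ℝ) ≤ R := by
  rw [BZ, mem_filter, mem_Icc]
  constructor
  · rintro ⟨⟨h1, h2⟩, h3, h4⟩
    exact ⟨h3, by omega, h4⟩
  · rintro ⟨h1, h2, h3⟩
    exact ⟨⟨by omega, by omega⟩, h1, h3⟩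

theorem mem_Bset {Y : ℕ} {R : ℝ} {d : ℕ} : d ∈ Bset Y R ↔ (1 ≤ d ∧ d ≤ Y) ∧ (rad d : ℝ) ≤ R := by
  rw [Bset, mem_filter, mem_Icc]

theorem BZ_card (Y : ℕ) (R : ℝ) : (BZ Y R).card ≤ 2 * (Bset Y R).card := by
  classical
  have h : BZ Y R ⊆ (Bset Y R).image (fun d : ℕ => (d : ℤ)) ∪
      (Bset Y R).image (fun d : ℕ => -(d : ℤ)) := by
    intro d hd
    obtain ⟨h1, h2, h3⟩ := mem_BZ.1 hd
    have h4 : d.natAbs ∈ Bset Y R := mem_Bset.2 ⟨⟨Int.natAbs_pos.2 h1, h2⟩, h3⟩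
    rw [mem_union]
    rcases Int.natAbs_eq d with h5 | h5
    · exact Or.inl (mem_image.2 ⟨_, h4, h5.symm⟩)
    · exact Or.inr (mem_image.2 ⟨_, h4, h5.symm⟩)
  refine (card_le_card h).trans ((card_union_le _ _).trans ?_)
  have h1 := card_image_le (s := Bset Y R) (f := fun d : ℕ => (d : ℤ))
  have h2 := card_image_le (s := Bset Y R) (f := fun d : ℕ => -(d : ℤ))
  omega

/-- the number of values of one coordinate -/
theorem BZ_le (A ε : ℝ) (hA : 1 ≤ A) (hε : 0 < ε) : ∃ D : ℝ, 1 ≤ D ∧ ∀ Z : ℝ, 1 ≤ Z →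
    ∀ Y : ℕ, 1 ≤ Y → (Y : ℝ) ≤ Z ^ A → ∀ R : ℝ, 0 ≤ R →
    ((BZ Y R).card : ℝ) ≤ D * Z ^ ε * R ∧ ((Bset Y R).card : ℝ) ≤ D * Z ^ ε * R := by
  obtain ⟨D, hD, h⟩ := Bset_card (ε / A) (by positivity)
  refine ⟨2 * D, by linarith, ?_⟩
  intro Z hZ Y hY hYZ R hR
  have hZ0 : 0 < Z := by linarith
  have h1 := h Y hY R hR
  have h2 : (Y : ℝ) ^ (ε / A) ≤ Z ^ ε := by
    calc (Y : ℝ) ^ (ε / A) ≤ (Z ^ A) ^ (ε / A) :=
          Real.rpow_le_rpow (Nat.cast_nonneg _) hYZ (by positivity)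
      _ = Z ^ ε := by
          rw [← Real.rpow_mul hZ0.le]
          congr 1
          field_simp
  have h3 : ((Bset Y R).card : ℝ) ≤ D * Z ^ ε * R :=
    h1.trans (mul_le_mul_of_nonneg_right (mul_le_mul_of_nonneg_left h2 (by linarith)) hR)
  have h4 : ((BZ Y R).card : ℝ) ≤ 2 * ((Bset Y R).card : ℝ) := by exact_mod_cast BZ_card Y R
  have h5 : 0 ≤ D * Z ^ ε * R := mul_nonneg (mul_nonneg (by linarith) (Real.rpow_nonneg hZ0.le _)) hR
  constructor
  · calc ((BZ Y R).card : ℝ) ≤ 2 * (D * Z ^ ε * R) := by linarith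
      _ = _ := by ring
  · calc ((Bset Y R).card : ℝ) ≤ D * Z ^ ε * R := h3
      _ ≤ 2 * (D * Z ^ ε * R) := by linarith
      _ = _ := by ring

/-- a coordinate is determined by the others -/
theorem det_one {n : ℕ} {a b : Fin n → ℤ} (ha : ∑ i, a i = 0) (hb : ∑ i, b i = 0) (l : Fin n)
    (h : ∀ i, i ≠ l → a i = b i) : a = b := by
  funext i
  by_cases hi : i = l
  · subst hi
    rw [← Finset.add_sum_erase univ _ (mem_univ i)] at ha hb
    have h3 : ∑ x ∈ univ.erase i, a x = ∑ x ∈ univ.erase i, b x :=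
      sum_congr rfl fun x hx => h x (mem_erase.1 hx).1
    linarith
  · exact h i hi

/-! ### the part of a number made of the primes with a property -/

open Classical in
/-- the part of `a` made of the primes with the property `Q` -/
noncomputable def cp (a : ℕ) (Q : ℕ → Prop) : ℕ :=
  ∏ p ∈ a.primeFactors.filter Q, p ^ a.factorization p

theorem cp_mul (a : ℕ) (ha : a ≠ 0) (Q : ℕ → Prop) : cp a Q * cp a (fun q => ¬ Q q) = a := by
  classical
  unfold cp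
  rw [Finset.prod_filter_mul_prod_filter_not]
  exact Nat.factorization_prod_pow_eq_self ha

theorem cp_dvd (a : ℕ) (ha : a ≠ 0) (Q : ℕ → Prop) : cp a Q ∣ a :=
  ⟨_, (cp_mul a ha Q).symm⟩

theorem cp_pos (a : ℕ) (Q : ℕ → Prop) : 0 < cp a Q := by
  classical
  unfold cp
  refine Finset.prod_pos fun p hp => ?_
  exact pow_pos (Nat.prime_of_mem_primeFactors (mem_filter.1 hp).1).pos _

theorem cp_prime {a : ℕ} {Q : ℕ → Prop} {q : ℕ} (hq : q.Prime) (h : q ∣ cp a Q) :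
    Q q ∧ q ∣ a := by
  classical
  unfold cp at h
  obtain ⟨p, hp, hqp⟩ := (Nat.Prime.prime hq).exists_mem_finset_dvd h
  rw [mem_filter] at hp
  have h1 := Nat.prime_of_mem_primeFactors hp.1
  have h2 : q = p := (Nat.prime_dvd_prime_iff_eq hq h1).1 (hq.dvd_of_dvd_pow hqp)
  rw [h2]
  exact ⟨hp.2, Nat.dvd_of_mem_primeFactors hp.1⟩

theorem cp_cop {a m : ℕ} {Q : ℕ → Prop} (h : ∀ q, q.Prime → Q q → ¬ q ∣ m) :
    Nat.Coprime (cp a Q) m := by
  rw [Nat.coprime_iff_gcd_eq_one]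
  by_contra hne
  obtain ⟨q, hq, hqd⟩ := Nat.exists_prime_and_dvd hne
  have h1 := cp_prime hq (hqd.trans (Nat.gcd_dvd_left _ _))
  exact h q hq h1.1 (hqd.trans (Nat.gcd_dvd_right _ _))

theorem pow_dvd_cp {a q j : ℕ} {Q : ℕ → Prop} (ha : a ≠ 0) (hq : q.Prime) (hQ : Q q)
    (h : q ^ j ∣ a) : q ^ j ∣ cp a Q := by
  rw [← cp_mul a ha Q] at h
  refine Nat.Coprime.dvd_of_dvd_mul_right ?_ h
  apply Nat.Coprime.pow_left
  rw [Nat.Prime.coprime_iff_not_dvd hq]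
  intro h1
  exact (cp_prime hq h1).1 hQ

theorem rad_dvd_of {a m : ℕ} (h : ∀ q, q.Prime → q ∣ a → q ∣ m) : rad a ∣ m := by
  unfold rad
  apply Finset.prod_primes_dvd
  · intro p hp
    exact (Nat.prime_of_mem_primeFactors hp).prime
  · intro p hp
    exact h p (Nat.prime_of_mem_primeFactors hp) (Nat.dvd_of_mem_primeFactors hp)

theorem prime_dvd_rad {a q : ℕ} (ha : a ≠ 0) (hq : q.Prime) (h : q ∣ a) : q ∣ rad a := by
  unfold rad
  exact Finset.dvd_prod_of_mem _ (Nat.mem_primeFactors.2 ⟨hq, h, ha⟩)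

theorem rad_dvd_rad {a b : ℕ} (hb : b ≠ 0) (h : a ∣ b) : rad a ∣ rad b :=
  rad_dvd_of fun _ hq hqa => prime_dvd_rad hb hq (hqa.trans h)

theorem rad_le_rad {a b : ℕ} (hb : b ≠ 0) (h : a ∣ b) : rad a ≤ rad b :=
  Nat.le_of_dvd (rad_pos' b) (rad_dvd_rad hb h)

end Pool.Agent.Y594.NT
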