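import Pool.Agent.Y594.NT.CellE

/-!
# Logarithms of the parts of a number (helper594)
-/

set_option autoImplicit false

namespace Pool.Agent.Y594.NT

open Finset Pool.Agent.H785R2.ABC Pool.Agent.H705R2.ABC

/-- logarithm of the product of the primes of `x` of class `j` -/
noncomputable def mm (K x j : ℕ) : ℝ :=
  if h : j < K + 1 then Real.log (rd K x {⟨j, h⟩}) else 0

/-- the classes below `N` -/
def SN (K N : ℕ) : Finset (Fin (K + 1)) := univ.filter fun i => (i : ℕ) < N

theorem rd_pos_real (K x : ℕ) (S : Finset (Fin (K + 1))) : (0 : ℝ) < rd K x S := by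
  exact_mod_cast basics.rd_pos K x S

theorem part_pos_real (K x : ℕ) (S : Finset (Fin (K + 1))) : (0 : ℝ) < part K x S := by
  exact_mod_cast basics.part_pos K x S

theorem mm_nonneg (K x j : ℕ) : 0 ≤ mm K x j := by
  unfold mm
  split_ifs with h
  · exact Real.log_nonneg (by exact_mod_cast basics.rd_pos K x _)
  · exact le_rfl

theorem SN_succ {K N : ℕ} (hN : N < K + 1) : SN K (N + 1) = insert ⟨N, hN⟩ (SN K N) := by
  ext i
  simp only [SN, mem_filter, mem_univ, true_and, mem_insert, Fin.ext_iff]
  omega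

theorem not_mem_SN {K N : ℕ} (hN : N < K + 1) : (⟨N, hN⟩ : Fin (K + 1)) ∉ SN K N := by
  simp [SN]

theorem sum_mm (K x : ℕ) : ∀ N : ℕ, N ≤ K + 1 →
    ∑ j ∈ range N, mm K x j = Real.log (rd K x (SN K N)) := by
  intro N
  induction N with
  | zero =>
    intro _
    have : SN K 0 = ∅ := by ext i; simp [SN]
    rw [this, basics.rd_prod]
    simp
  | succ N ih =>
    intro hN
    rw [sum_range_succ, ih (by omega), SN_succ (by omega), basics.rd_prod K x (insert _ _),
      prod_insert (not_mem_SN (by omega)), ← basics.rd_prod]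
    push_cast
    rw [Real.log_mul (rd_pos_real _ _ _).ne' (rd_pos_real _ _ _).ne', mm, dif_pos (by omega),
      add_comm]

theorem sum_wmm (K x : ℕ) : ∀ N : ℕ, N ≤ K →
    ∑ j ∈ range N, ((j : ℝ) + 1) * mm K x j = Real.log (part K x (SN K N)) := by
  intro N
  induction N with
  | zero =>
    intro _
    have : SN K 0 = ∅ := by ext i; simp [SN]
    rw [this, basics.part_prod]
    simp
  | succ N ih =>
    intro hN
    rw [sum_range_succ, ih (by omega), SN_succ (by omega), basics.part_prod K x (insert _ _),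
      prod_insert (not_mem_SN (by omega)), ← basics.part_prod,
      basics.part_single K x ⟨N, by omega⟩ (by simpa using hN)]
    push_cast
    rw [Real.log_mul (pow_pos (rd_pos_real _ _ _) _).ne' (part_pos_real _ _ _).ne', Real.log_pow,
      mm, dif_pos (by omega), add_comm]
    push_cast
    rfl

/-- radical of a set of classes and of its complement -/
theorem log_rd_compl (K x : ℕ) (S : Finset (Fin (K + 1))) :
    Real.log (rd K x Sᶜ) = Real.log (rad x) - Real.log (rd K x S) := by
  rw [← basics.rd_mul K x S]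
  push_cast
  rw [Real.log_mul (rd_pos_real _ _ _).ne' (rd_pos_real _ _ _).ne']
  ring

theorem log_part_compl (K x : ℕ) (hx : 1 ≤ x) (S : Finset (Fin (K + 1))) :
    Real.log (part K x Sᶜ) = Real.log x - Real.log (part K x S) := by
  have h1 : (x : ℝ) = (part K x S : ℝ) * part K x Sᶜ := by
    exact_mod_cast (basics.part_mul K x S hx).symm
  have h2 := congrArg Real.log h1
  rw [Real.log_mul (part_pos_real _ _ _).ne' (part_pos_real _ _ _).ne'] at h2
  linarith

theorem sum_mm_le (K x N : ℕ) (hN : N ≤ K + 1) : ∑ j ∈ range N, mm K x j ≤ Real.log (rad x) := by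
  rw [sum_mm K x N hN]
  have h1 := log_rd_compl K x (SN K N)
  have h2 : 0 ≤ Real.log (rd K x (SN K N)ᶜ) :=
    Real.log_nonneg (by exact_mod_cast basics.rd_pos K x _)
  linarith

/-- the weight inequality -/
theorem weight_le (K x N : ℕ) (hx : 1 ≤ x) (hN : N ≤ K) :
    ∑ j ∈ range N, ((j : ℝ) + 1) * mm K x j +
      ((N : ℝ) + 1) * (Real.log (rad x) - ∑ j ∈ range N, mm K x j) ≤ Real.log x := by
  rw [sum_wmm K x N hN, sum_mm K x N (by omega), ← log_rd_compl]
  have h1 := log_part_compl K x hx (SN K N)
  have h2 : ((N : ℝ) + 1) * Real.log (rd K x (SN K N)ᶜ) ≤ Real.log (part K x (SN K N)ᶜ) := by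
    have h3 : rd K x (SN K N)ᶜ ^ (N + 1) ∣ part K x (SN K N)ᶜ := by
      apply rd_pow_dvd_part
      intro i hi
      rw [mem_compl, SN, mem_filter] at hi
      have : ¬ ((i : ℕ) < N) := fun h => hi ⟨mem_univ _, h⟩
      omega
    have h4 : (rd K x (SN K N)ᶜ : ℝ) ^ (N + 1) ≤ part K x (SN K N)ᶜ := by
      exact_mod_cast Nat.le_of_dvd (basics.part_pos K x _) h3
    have h5 := Real.log_le_log (pow_pos (rd_pos_real K x _) _) h4
    rw [Real.log_pow] at h5
    push_cast at h5
    exact h5
  linarith

/-- the last class has a small radical -/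
theorem last_le (K x : ℕ) (hx : 1 ≤ x) :
    ((K : ℝ) + 1) * Real.log (rd K x {Fin.last K}) ≤ Real.log x := by
  have h1 : (rd K x {Fin.last K} : ℝ) ^ (K + 1) ≤ x := by
    have h2 := basics.part_last K x
    have h3 := Nat.le_of_dvd hx (basics.part_dvd K x {Fin.last K} hx)
    exact_mod_cast h2.trans h3
  have h5 := Real.log_le_log (pow_pos (rd_pos_real K x _) _) h1
  rw [Real.log_pow] at h5
  push_cast at h5
  exact h5

theorem log_one_add_le {u : ℝ} (hu : 0 < u) : Real.log (1 + u) ≤ Real.log 2 + max 0 (Real.log u) := by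
  rcases le_total u 1 with h | h
  · have h1 : Real.log (1 + u) ≤ Real.log 2 := Real.log_le_log (by linarith) (by linarith)
    have := le_max_left 0 (Real.log u)
    linarith
  · have h1 : Real.log (1 + u) ≤ Real.log (2 * u) := Real.log_le_log (by linarith) (by linarith)
    rw [Real.log_mul (by norm_num) (by linarith)] at h1
    have := le_max_right 0 (Real.log u)
    linarith

end Pool.Agent.Y594.NT
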