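import Pool.Agent.Y594.NT.ArrFin

/-!
# Points with many small or shared primes (helper594)
-/

set_option autoImplicit false

namespace Pool.Agent.Y594.NT

open Finset Pool.Agent.H785R2.ABC Pool.Agent.H705R2.ABC

/-- the radicals of the factors against the radical of the product -/
theorem radS_prod {ι : Type*} [DecidableEq ι] (S : Finset ℕ) (a : ι → ℤ) (I : Finset ι)
    (ha : ∀ i ∈ I, a i ≠ 0) :
    ∏ i ∈ I, radS S (a i) ≤ radS S (∏ i ∈ I, a i) *
      ∏ x ∈ (I ×ˢ I).filter (fun x => x.1 ≠ x.2), Int.gcd (a x.1) (a x.2) := by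
  classical
  induction I using Finset.induction_on with
  | empty => simp [radS]
  | insert i I hi ih =>
    have hai : a i ≠ 0 := ha i (mem_insert_self i I)
    have haI : ∀ j ∈ I, a j ≠ 0 := fun j hj => ha j (mem_insert_of_mem hj)
    have hP0 : ∏ j ∈ I, a j ≠ 0 := prod_ne_zero_iff.2 haI
    specialize ih haI
    rw [prod_insert hi, prod_insert hi]
    set P : ℤ := ∏ j ∈ I, a j with hP
    -- two factors
    have h1 : radS S (a i) * radS S P ≤ radS S (a i * P) * ∏ j ∈ I, Int.gcd (a i) (a j) := by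
      unfold radS
      rw [Int.natAbs_mul, Nat.primeFactors_mul (Int.natAbs_ne_zero.2 hai)
        (Int.natAbs_ne_zero.2 hP0), union_sdiff_distrib, ← prod_union_inter]
      apply Nat.mul_le_mul_left
      apply Nat.le_of_dvd
      · exact prod_pos fun j _ => Int.gcd_pos_of_ne_zero_left _ hai
      · apply Finset.prod_primes_dvd
        · intro p hp
          exact (Nat.prime_of_mem_primeFactors (mem_sdiff.1 (mem_inter.1 hp).1).1).prime
        · intro p hp
          obtain ⟨hp1, hp2⟩ := mem_inter.1 hp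
          have hpp := Nat.prime_of_mem_primeFactors (mem_sdiff.1 hp1).1
          have d1 : (p : ℤ) ∣ a i := Int.natCast_dvd.2 (Nat.dvd_of_mem_primeFactors (mem_sdiff.1 hp1).1)
          have d2 : (p : ℤ) ∣ P := Int.natCast_dvd.2 (Nat.dvd_of_mem_primeFactors (mem_sdiff.1 hp2).1)
          obtain ⟨j, hj, hj2⟩ := (Nat.prime_iff_prime_int.1 hpp).exists_mem_finset_dvd d2
          refine dvd_trans ?_ (Finset.dvd_prod_of_mem _ hj)
          exact Int.natCast_dvd_natCast.1 (Int.dvd_coe_gcd d1 hj2)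
    have h2 : (∏ j ∈ I, Int.gcd (a i) (a j)) *
        ∏ x ∈ (I ×ˢ I).filter (fun x => x.1 ≠ x.2), Int.gcd (a x.1) (a x.2) ≤
        ∏ x ∈ ((insert i I) ×ˢ (insert i I)).filter (fun x => x.1 ≠ x.2),
          Int.gcd (a x.1) (a x.2) := by
      have e1 : ∏ j ∈ I, Int.gcd (a i) (a j) =
          ∏ x ∈ ({i} : Finset ι) ×ˢ I, Int.gcd (a x.1) (a x.2) := by
        rw [prod_product]; simp
      have hdis : Disjoint (({i} : Finset ι) ×ˢ I) ((I ×ˢ I).filter (fun x => x.1 ≠ x.2)) := by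
        rw [Finset.disjoint_left]
        intro x hx hx2
        rw [mem_product, mem_singleton] at hx
        rw [mem_filter, mem_product] at hx2
        exact hi (hx.1 ▸ hx2.1.1)
      rw [e1, ← prod_union hdis]
      apply Finset.prod_le_prod_of_subset_of_one_le'
      · intro x hx
        rw [mem_union, mem_product, mem_singleton, mem_filter, mem_product] at hx
        rw [mem_filter, mem_product]
        rcases hx with ⟨hx1, hx2⟩ | ⟨⟨hx1, hx2⟩, hx3⟩
        · refine ⟨⟨hx1 ▸ mem_insert_self _ _, mem_insert_of_mem hx2⟩, ?_⟩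
          intro h
          exact hi (by rw [← hx1, h]; exact hx2)
        · exact ⟨⟨mem_insert_of_mem hx1, mem_insert_of_mem hx2⟩, hx3⟩
      · intro x hx _
        rw [mem_filter, mem_product] at hx
        exact Int.gcd_pos_of_ne_zero_left _ (ha x.1 hx.1.1)
    calc radS S (a i) * ∏ j ∈ I, radS S (a j)
        ≤ radS S (a i) * (radS S P *
          ∏ x ∈ (I ×ˢ I).filter (fun x => x.1 ≠ x.2), Int.gcd (a x.1) (a x.2)) :=
          Nat.mul_le_mul_left _ ih
      _ = (radS S (a i) * radS S P) *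
          ∏ x ∈ (I ×ˢ I).filter (fun x => x.1 ≠ x.2), Int.gcd (a x.1) (a x.2) := by ring
      _ ≤ (radS S (a i * P) * ∏ j ∈ I, Int.gcd (a i) (a j)) *
          ∏ x ∈ (I ×ˢ I).filter (fun x => x.1 ≠ x.2), Int.gcd (a x.1) (a x.2) :=
          Nat.mul_le_mul_right _ h1
      _ = radS S (a i * P) * ((∏ j ∈ I, Int.gcd (a i) (a j)) *
          ∏ x ∈ (I ×ˢ I).filter (fun x => x.1 ≠ x.2), Int.gcd (a x.1) (a x.2)) := by ring
      _ ≤ _ := Nat.mul_le_mul_left _ h2

/-- nonzero multiples of `d` in an interval -/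
theorem mult_card (d N : ℕ) (hd : 1 ≤ d) :
    (((Icc (-(N : ℤ)) N).filter fun a => a ≠ 0 ∧ (d : ℤ) ∣ a).card : ℝ) ≤ 2 * (N : ℝ) / d := by
  classical
  have h : ((Icc (-(N : ℤ)) N).filter fun a => a ≠ 0 ∧ (d : ℤ) ∣ a) ⊆
      (Icc (1 : ℕ) (N / d)).image (fun k : ℕ => (d : ℤ) * k) ∪
      (Icc (1 : ℕ) (N / d)).image (fun k : ℕ => -((d : ℤ) * k)) := by
    intro a ha
    obtain ⟨h1, h2, h3⟩ := mem_filter.1 ha
    rw [mem_Icc] at h1
    have h4 : a.natAbs ≤ N := by omega
    obtain ⟨k, hk⟩ := Int.natCast_dvd.1 h3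
    have hk1 : 1 ≤ k := by
      rcases Nat.eq_zero_or_pos k with h0 | h0
      · rw [h0, mul_zero, Int.natAbs_eq_zero] at hk; exact absurd hk h2
      · exact h0
    have hk2 : k ≤ N / d := (Nat.le_div_iff_mul_le hd).2 (by rw [mul_comm, ← hk]; exact h4)
    rw [mem_union]
    rcases Int.natAbs_eq a with h5 | h5
    · refine Or.inl (mem_image.2 ⟨k, mem_Icc.2 ⟨hk1, hk2⟩, ?_⟩)
      rw [h5, hk]; push_cast; ring
    · refine Or.inr (mem_image.2 ⟨k, mem_Icc.2 ⟨hk1, hk2⟩, ?_⟩)
      rw [h5, hk]; push_cast; ring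
  have h1 := (card_le_card h).trans (card_union_le _ _)
  have h2 := card_image_le (s := Icc (1 : ℕ) (N / d)) (f := fun k : ℕ => (d : ℤ) * k)
  have h3 := card_image_le (s := Icc (1 : ℕ) (N / d)) (f := fun k : ℕ => -((d : ℤ) * k))
  rw [Nat.card_Icc] at h2 h3
  have h4 : (((Icc (-(N : ℤ)) N).filter fun a => a ≠ 0 ∧ (d : ℤ) ∣ a).card : ℝ) ≤
      2 * ((N / d : ℕ) : ℝ) := by
    exact_mod_cast (by omega : ((Icc (-(N : ℤ)) N).filter fun a => a ≠ 0 ∧ (d : ℤ) ∣ a).card ≤
      2 * (N / d))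
  have h5 : ((N / d : ℕ) : ℝ) ≤ (N : ℝ) / d := Nat.cast_div_le
  rw [mul_div_assoc]
  linarith

section

variable {m q : ℕ} {L : Fin q → Fin (m + 1) → ℤ}

/-- a choice of `m + 1` forms containing two given ones -/
theorem exists_sel (hm : 1 ≤ m) (hq : m + 1 ≤ q) {i j : Fin q} (hij : i ≠ j) :
    ∃ s : Fin (m + 1) → Fin q, Function.Injective s ∧
      ∃ a b : Fin (m + 1), a ≠ b ∧ s a = i ∧ s b = j := by
  classical
  set c : Fin (m + 1) → Fin q := Fin.castLE hq with hc
  have hci : Function.Injective c := Fin.castLE_injective hq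
  set a : Fin (m + 1) := 0 with ha
  set b : Fin (m + 1) := Fin.last m with hb
  have hab : a ≠ b := by
    intro h
    have := congrArg Fin.val h
    simp [ha, hb] at this
    omega
  set σ₁ : Equiv.Perm (Fin q) := Equiv.swap (c a) i with hσ₁
  have h1 : σ₁ (c a) = i := Equiv.swap_apply_left _ _
  have h2 : σ₁ (c b) ≠ i := by
    rw [← h1]
    intro h
    exact hab (hci (σ₁.injective h)).symm
  set σ₂ : Equiv.Perm (Fin q) := Equiv.swap (σ₁ (c b)) j with hσ₂
  refine ⟨fun k => σ₂ (σ₁ (c k)), fun x y h => hci (σ₁.injective (σ₂.injective h)),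
    a, b, hab, ?_, ?_⟩
  · show σ₂ (σ₁ (c a)) = i
    rw [h1]
    exact Equiv.swap_apply_of_ne_of_ne h2.symm hij
  · exact Equiv.swap_apply_left _ _

/-- points of a box where two forms have a large common factor -/
theorem gcd_count (hL : GP L) (hm : 1 ≤ m) (hq : m + 1 ≤ q) : ∃ C : ℝ, 0 < C ∧ ∀ B : ℝ, 1 ≤ B →
    ∀ G : ℝ, 0 < G → ∀ i j : Fin q, i ≠ j → ∀ E : Finset (Fin (m + 1) → ℤ),
    (∀ x ∈ E, (∀ i, form (L i) x ≠ 0) ∧ (∀ j, |(x j : ℝ)| ≤ B) ∧
      G ≤ Int.gcd (form (L i) x) (form (L j) x)) →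
    (E.card : ℝ) ≤ C * B ^ (m + 1) / G := by
  classical
  obtain ⟨M, hM, hupp⟩ := form_upper L
  refine ⟨8 * (2 * M + 1) ^ (m + 1), by positivity, ?_⟩
  intro B hB G hG i j hij E hE
  obtain ⟨s, hs, a, b, hab, ha, hb⟩ := exists_sel hm hq hij
  set N : ℕ := ⌊M * B⌋₊ with hN
  have hNB : (N : ℝ) ≤ M * B := Nat.floor_le (by positivity)
  have hinj : Set.InjOn (fun (x : Fin (m + 1) → ℤ) (l : Fin (m + 1)) => form (L (s l)) x) E := by
    intro x _ y _ hxy
    exact form_inj hL hs fun l => congrFun hxy l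
  rw [← card_image_of_injOn hinj]
  set T := E.image fun (x : Fin (m + 1) → ℤ) (l : Fin (m + 1)) => form (L (s l)) x with hT
  set k₀ : ℕ := ⌈G⌉₊ - 1 with hk₀
  have hceil : 1 ≤ ⌈G⌉₊ := Nat.one_le_iff_ne_zero.2 (Nat.ceil_pos.2 hG).ne'
  have hGk : G ≤ (k₀ : ℝ) + 1 := by
    have h1 : G ≤ (⌈G⌉₊ : ℝ) := Nat.le_ceil G
    have h2 : ((k₀ : ℕ) : ℝ) + 1 = (⌈G⌉₊ : ℝ) := by
      rw [hk₀]
      push_cast [Nat.cast_sub hceil]
      ring
    linarith
  set box : ℕ → Finset (Fin (m + 1) → ℤ) := fun d => Fintype.piFinset fun l =>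
    if l = a ∨ l = b then (Icc (-(N : ℤ)) N).filter fun z => z ≠ 0 ∧ (d : ℤ) ∣ z
      else Icc (-(N : ℤ)) N with hbox
  have hcover : T ⊆ (Ioo k₀ (N + 1)).biUnion box := by
    intro t ht
    obtain ⟨x, hx, rfl⟩ := mem_image.1 ht
    obtain ⟨g1, g2, g3⟩ := hE x hx
    have hval : ∀ l, (form (L l) x).natAbs ≤ N := by
      intro l
      apply Nat.le_floor
      rw [Nat.cast_natAbs, Int.cast_abs]
      exact hupp x B g2 l
    set d : ℕ := Int.gcd (form (L i) x) (form (L j) x) with hd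
    have hd0 : 0 < d := Int.gcd_pos_of_ne_zero_left _ (g1 i)
    rw [mem_biUnion]
    refine ⟨d, mem_Ioo.2 ⟨?_, ?_⟩, ?_⟩
    · have h1 : ⌈G⌉₊ ≤ d := Nat.ceil_le.2 g3
      omega
    · have h1 : d ≤ (form (L i) x).natAbs := Nat.le_of_dvd (Int.natAbs_pos.2 (g1 i)) (by
        have := Int.gcd_dvd_left (form (L i) x) (form (L j) x)
        exact Int.natCast_dvd.1 this)
      have := hval i
      omega
    · rw [hbox, Fintype.mem_piFinset]
      intro l
      have h0 : form (L (s l)) x ∈ Icc (-(N : ℤ)) N := by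
        have := hval (s l)
        rw [mem_Icc]; omega
      by_cases hl : l = a ∨ l = b
      · rw [if_pos hl, mem_filter]
        refine ⟨h0, g1 _, ?_⟩
        rcases hl with hl | hl
        · rw [hl, ha]; exact Int.gcd_dvd_left _ _
        · rw [hl, hb]; exact Int.gcd_dvd_right _ _
      · rw [if_neg hl]; exact h0
  have hbcard : ∀ d ∈ Ioo k₀ (N + 1), ((box d).card : ℝ) ≤
      4 * ((2 * M + 1) * B) ^ (m + 1) * ((d : ℝ) ^ 2)⁻¹ := by
    intro d hd
    have hd1 : 1 ≤ d := by have := (mem_Ioo.1 hd).1; omega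
    have hd0 : (0 : ℝ) < d := by exact_mod_cast hd1
    have hNc : ((Icc (-(N : ℤ)) N).card : ℝ) ≤ (2 * M + 1) * B := by
      have h1 : (Icc (-(N : ℤ)) N).card = 2 * N + 1 := by rw [Int.card_Icc]; omega
      rw [h1]; push_cast; nlinarith
    have hMB : 0 ≤ (2 * M + 1) * B := by positivity
    rw [hbox, Fintype.card_piFinset]
    push_cast
    calc ∏ l, (((if l = a ∨ l = b then (Icc (-(N : ℤ)) N).filter fun z => z ≠ 0 ∧ (d : ℤ) ∣ z
          else Icc (-(N : ℤ)) N).card : ℕ) : ℝ)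
        ≤ ∏ l, (if l = a ∨ l = b then 2 * ((2 * M + 1) * B) / d else (2 * M + 1) * B) := by
          apply prod_le_prod
          · intro l _; exact Nat.cast_nonneg _
          · intro l _
            by_cases hl : l = a ∨ l = b
            · rw [if_pos hl, if_pos hl]
              refine (mult_card d N hd1).trans ?_
              apply div_le_div_of_nonneg_right _ hd0.le
              nlinarith
            · rw [if_neg hl, if_neg hl]; exact hNc
      _ = ∏ l, ((2 * M + 1) * B) * (if l = a ∨ l = b then 2 / (d : ℝ) else 1) := by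
          apply prod_congr rfl
          intro l _
          by_cases hl : l = a ∨ l = b
          · rw [if_pos hl, if_pos hl]; ring
          · rw [if_neg hl, if_neg hl, mul_one]
      _ = ((2 * M + 1) * B) ^ (m + 1) * ∏ l, (if l = a ∨ l = b then 2 / (d : ℝ) else 1) := by
          rw [prod_mul_distrib, prod_const, card_univ, Fintype.card_fin]
      _ = ((2 * M + 1) * B) ^ (m + 1) * (2 / (d : ℝ)) ^ 2 := by
          congr 1
          rw [← Finset.prod_filter]
          rw [prod_const]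
          congr 1
          have : (univ.filter fun l : Fin (m + 1) => l = a ∨ l = b) = {a, b} := by
            ext l; simp
          rw [this, card_pair hab]
      _ = _ := by field_simp; ring
  calc (T.card : ℝ) ≤ (((Ioo k₀ (N + 1)).biUnion box).card : ℝ) := by
        exact_mod_cast card_le_card hcover
    _ ≤ ∑ d ∈ Ioo k₀ (N + 1), ((box d).card : ℝ) := by exact_mod_cast card_biUnion_le
    _ ≤ ∑ d ∈ Ioo k₀ (N + 1), 4 * ((2 * M + 1) * B) ^ (m + 1) * ((d : ℝ) ^ 2)⁻¹ :=
        sum_le_sum hbcard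
    _ = 4 * ((2 * M + 1) * B) ^ (m + 1) * ∑ d ∈ Ioo k₀ (N + 1), ((d : ℝ) ^ 2)⁻¹ := by
        rw [mul_sum]
    _ ≤ 4 * ((2 * M + 1) * B) ^ (m + 1) * (2 / G) := by
        apply mul_le_mul_of_nonneg_left _ (by positivity)
        refine (sum_Ioo_inv_sq_le k₀ (N + 1)).trans ?_
        exact div_le_div_of_nonneg_left (by norm_num) hG hGk
    _ = _ := by rw [mul_pow]; ring

end

end Pool.Agent.Y594.NT
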