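import Pool.Agent.Y594.NT.Near

/-!
# Shared primes of a tuple (helper594)
-/

set_option autoImplicit false

namespace Pool.Agent.Y594.NT

open Finset Pool.Agent.H785R2.ABC Pool.Agent.H705R2.ABC

variable {n : ℕ}

open Classical in
/-- primes that divide the coordinate exactly once and divide another coordinate -/
noncomputable def tz (z : Fin n → ℤ) (i : Fin n) : ℕ :=
  ∏ p ∈ ((z i).natAbs.primeFactors.filter (fun p : ℕ => ¬ p ∣ uu (z i))).filter
    (fun p : ℕ => ∃ j, j ≠ i ∧ (p : ℤ) ∣ z j), p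

open Classical in
/-- primes that divide the coordinate exactly once and no other coordinate -/
noncomputable def mz (z : Fin n → ℤ) (i : Fin n) : ℕ :=
  ∏ p ∈ ((z i).natAbs.primeFactors.filter (fun p : ℕ => ¬ p ∣ uu (z i))).filter
    (fun p : ℕ => ¬ ∃ j, j ≠ i ∧ (p : ℤ) ∣ z j), p

theorem tz_pos (z : Fin n → ℤ) (i : Fin n) : 1 ≤ tz z i := by
  classical
  unfold tz
  exact Finset.prod_pos fun p hp =>
    (Nat.prime_of_mem_primeFactors (mem_filter.1 (mem_filter.1 hp).1).1).pos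

theorem pf_uu {a : ℤ} (ha : a ≠ 0) :
    a.natAbs.primeFactors.filter (fun p => p ∣ uu a) = (uu a).primeFactors := by
  ext p
  rw [mem_filter, Nat.mem_primeFactors, Nat.mem_primeFactors]
  have h1 := rad_mul_uu ha
  have h2 := uu_pos ha
  constructor
  · rintro ⟨⟨h3, -, -⟩, h4⟩
    exact ⟨h3, h4, by omega⟩
  · rintro ⟨h3, h4, -⟩
    refine ⟨⟨h3, h4.trans ⟨rad a.natAbs, ?_⟩, Int.natAbs_ne_zero.2 ha⟩, h4⟩
    rw [mul_comm]; exact h1.symm

theorem rad_split {z : Fin n → ℤ} (hz : ∀ i, z i ≠ 0) (i : Fin n) :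
    rad (z i).natAbs = rad (uu (z i)) * tz z i * mz z i := by
  classical
  have h1 : rad (z i).natAbs = (∏ p ∈ (z i).natAbs.primeFactors.filter (fun p => p ∣ uu (z i)), p) *
      ∏ p ∈ (z i).natAbs.primeFactors.filter (fun p => ¬ p ∣ uu (z i)), p := by
    unfold rad
    rw [Finset.prod_filter_mul_prod_filter_not]
  have h2 : ∏ p ∈ (z i).natAbs.primeFactors.filter (fun p => ¬ p ∣ uu (z i)), p =
      tz z i * mz z i := by
    unfold tz mz
    rw [Finset.prod_filter_mul_prod_filter_not]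
  rw [h1, h2, pf_uu (hz i), mul_assoc]
  rfl

theorem tz_dvd {z : Fin n → ℤ} (i : Fin n) : tz z i ∣ (z i).natAbs := by
  classical
  unfold tz
  refine dvd_trans ?_ (Nat.prod_primeFactors_dvd _)
  exact Finset.prod_dvd_prod_of_subset _ _ _ ((filter_subset _ _).trans (filter_subset _ _))

theorem tz_cop (z : Fin n → ℤ) (i : Fin n) : Nat.Coprime (uu (z i)) (tz z i) := by
  classical
  unfold tz
  apply Nat.Coprime.prod_right
  intro p hp
  obtain ⟨hp1, -⟩ := mem_filter.1 hp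
  obtain ⟨hp1, hp2⟩ := mem_filter.1 hp1
  exact ((Nat.Prime.coprime_iff_not_dvd (Nat.prime_of_mem_primeFactors hp1)).2 hp2).symm

theorem rad_cop {a b : ℕ} (h : Nat.Coprime a b) : Nat.Coprime (rad a) b :=
  Nat.Coprime.of_dvd_left (rad_dvd_of fun _ _ h => h) h

theorem dd_dvd {z : Fin n → ℤ} (hz : ∀ i, z i ≠ 0) (i : Fin n) :
    uu (z i) * rad (uu (z i)) * tz z i ∣ (z i).natAbs := by
  have h1 : Nat.Coprime (uu (z i) * rad (uu (z i))) (tz z i) :=
    Nat.Coprime.mul_left (tz_cop z i) (rad_cop (tz_cop z i))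
  exact Nat.Coprime.mul_dvd_of_dvd_of_dvd h1 (uu_dvd (hz i)) (tz_dvd i)

theorem tz_gcd {z : Fin n → ℤ} (hz : ∀ i, z i ≠ 0) (i : Fin n) :
    tz z i ∣ ∏ j ∈ univ.erase i, Int.gcd (z i) (z j) := by
  classical
  unfold tz
  apply Finset.prod_primes_dvd
  · intro p hp
    exact (Nat.prime_of_mem_primeFactors (mem_filter.1 (mem_filter.1 hp).1).1).prime
  · intro p hp
    obtain ⟨hp1, j, hji, hj⟩ := mem_filter.1 hp
    have h1 := Nat.dvd_of_mem_primeFactors (mem_filter.1 hp1).1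
    refine dvd_trans ?_ (Finset.dvd_prod_of_mem _ (mem_erase.2 ⟨hji, mem_univ j⟩))
    exact Int.natCast_dvd_natCast.1 (Int.dvd_coe_gcd (Int.natCast_dvd.2 h1) hj)

/-- the loss by shared primes -/
theorem shared {z : Fin n → ℤ} (hz : ∀ i, z i ≠ 0) :
    (∏ i, rad (z i).natAbs) * rad (∏ i, uu (z i) * tz z i) ≤
      rad (∏ i, (z i).natAbs) * ∏ i, (rad (uu (z i)) * tz z i) := by
  classical
  have hP0 : ∏ i, (z i).natAbs ≠ 0 :=
    prod_ne_zero_iff.2 fun i _ => Int.natAbs_ne_zero.2 (hz i)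
  have h1 : ∏ i, rad (z i).natAbs = (∏ i, (rad (uu (z i)) * tz z i)) * ∏ i, mz z i := by
    rw [← prod_mul_distrib]
    exact prod_congr rfl fun i _ => rad_split hz i
  have h2 : (∏ i, mz z i) * rad (∏ i, uu (z i) * tz z i) ≤ rad (∏ i, (z i).natAbs) := by
    apply Nat.le_of_dvd (rad_pos' _)
    have hK : rad (∏ i, uu (z i) * tz z i) ∣ rad (∏ i, (z i).natAbs) := by
      apply rad_dvd_rad hP0
      apply Finset.prod_dvd_prod_of_dvd
      intro i _
      refine dvd_trans ?_ (dd_dvd hz i)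
      exact mul_dvd_mul (Dvd.intro _ rfl) dvd_rfl
    have hmp : ∀ i, ∀ q : ℕ, q.Prime → q ∣ mz z i → q ∣ (z i).natAbs ∧ ¬ q ∣ uu (z i) ∧
        ∀ j, j ≠ i → ¬ (q : ℤ) ∣ z j := by
      intro i q hq hqm
      unfold mz at hqm
      obtain ⟨p, hp, hqp⟩ := (Nat.Prime.prime hq).exists_mem_finset_dvd hqm
      obtain ⟨hp1, hp2⟩ := mem_filter.1 hp
      obtain ⟨hp1, hp3⟩ := mem_filter.1 hp1
      have hpp := Nat.prime_of_mem_primeFactors hp1
      have e : q = p := (Nat.prime_dvd_prime_iff_eq hq hpp).1 hqp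
      subst e
      refine ⟨Nat.dvd_of_mem_primeFactors hp1, hp3, fun j hj h => hp2 ⟨j, hj, h⟩⟩
    have hcop : Nat.Coprime (∏ i, mz z i) (rad (∏ i, uu (z i) * tz z i)) := by
      rw [Nat.coprime_comm]
      apply rad_cop
      rw [Nat.coprime_comm]
      apply Nat.Coprime.prod_left
      intro i _
      apply Nat.Coprime.prod_right
      intro j _
      rw [Nat.coprime_iff_gcd_eq_one]
      by_contra hne
      obtain ⟨q, hq, hqd⟩ := Nat.exists_prime_and_dvd hne
      obtain ⟨q1, q2, q3⟩ := hmp i q hq (hqd.trans (Nat.gcd_dvd_left _ _))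
      have q4 := hqd.trans (Nat.gcd_dvd_right _ _)
      by_cases hji : j = i
      · subst hji
        rcases (Nat.Prime.dvd_mul hq).1 q4 with h | h
        · exact q2 h
        · unfold tz at h
          obtain ⟨p, hp, hqp⟩ := (Nat.Prime.prime hq).exists_mem_finset_dvd h
          obtain ⟨hp1, l, hl, hl2⟩ := mem_filter.1 hp
          obtain ⟨hp1, hp3⟩ := mem_filter.1 hp1
          have hpp := Nat.prime_of_mem_primeFactors hp1
          have e : q = p := (Nat.prime_dvd_prime_iff_eq hq hpp).1 hqp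
          subst e
          exact q3 l hl hl2
      · have q5 : q ∣ (z j).natAbs := by
          refine q4.trans (dvd_trans ?_ (dd_dvd hz j))
          exact mul_dvd_mul (Dvd.intro _ rfl) dvd_rfl
        exact q3 j hji (Int.natCast_dvd.2 q5)
    apply Nat.Coprime.mul_dvd_of_dvd_of_dvd hcop _ hK
    have hmm : ∀ i, mz z i ∣ rad (∏ i, (z i).natAbs) := by
      intro i
      refine dvd_trans ?_ (rad_dvd_rad hP0 (Finset.dvd_prod_of_mem _ (mem_univ i)))
      unfold mz rad
      exact Finset.prod_dvd_prod_of_subset _ _ _ ((filter_subset _ _).trans (filter_subset _ _))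
    apply Finset.prod_dvd_of_isRelPrime
    · intro i _ j _ hij
      simp only [Function.onFun]
      rw [← Nat.coprime_iff_isRelPrime, Nat.coprime_iff_gcd_eq_one]
      by_contra hne
      obtain ⟨q, hq, hqd⟩ := Nat.exists_prime_and_dvd hne
      obtain ⟨q1, q2, q3⟩ := hmp i q hq (hqd.trans (Nat.gcd_dvd_left _ _))
      obtain ⟨q4, q5, q6⟩ := hmp j q hq (hqd.trans (Nat.gcd_dvd_right _ _))
      exact q3 j (Ne.symm hij) (Int.natCast_dvd.2 q4)
    · intro i _
      exact hmm i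
  rw [h1]
  calc (∏ i, (rad (uu (z i)) * tz z i)) * (∏ i, mz z i) * rad (∏ i, uu (z i) * tz z i)
      = (∏ i, (rad (uu (z i)) * tz z i)) * ((∏ i, mz z i) * rad (∏ i, uu (z i) * tz z i)) := by
        ring
    _ ≤ (∏ i, (rad (uu (z i)) * tz z i)) * rad (∏ i, (z i).natAbs) := Nat.mul_le_mul_left _ h2
    _ = _ := by ring

end Pool.Agent.Y594.NT
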