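import Pool.Agent.Y594.NT.Conv

/-!
# Tuples of integers with sum zero (helper594)
-/

set_option autoImplicit false

namespace Pool.Agent.Y594.NT

open Finset Pool.Agent.H785R2.ABC Pool.Agent.H705R2.ABC

/-- the forms `x_0, ..., x_m, -(x_0 + ... + x_m)` -/
def LS (m : ℕ) : Fin (m + 2) → Fin (m + 1) → ℤ :=
  Fin.snoc (α := fun _ => Fin (m + 1) → ℤ) (fun i => Pi.single i 1) (fun _ => -1)

theorem form_cast {m : ℕ} (i : Fin (m + 1)) (x : Fin (m + 1) → ℤ) :
    form (LS m i.castSucc) x = x i := by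
  unfold form LS
  rw [Fin.snoc_castSucc]
  simp [Pi.single_apply]

theorem form_last {m : ℕ} (x : Fin (m + 1) → ℤ) :
    form (LS m (Fin.last (m + 1))) x = -∑ j, x j := by
  unfold form LS
  rw [Fin.snoc_last]
  simp

theorem sum_form {m : ℕ} (x : Fin (m + 1) → ℤ) : ∑ i, form (LS m i) x = 0 := by
  rw [Fin.sum_univ_castSucc, form_last]
  simp [form_cast]

theorem GP_LS (m : ℕ) : GP (LS m) := by
  classical
  intro s hs h0
  obtain ⟨v, hv0, hv⟩ := (Matrix.exists_mulVec_eq_zero_iff).2 h0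
  have h1 : ∀ i, form (LS m (s i)) v = 0 := fun i => congrFun hv i
  have h2 : ∀ k, form (LS m k) v = 0 := by
    intro k
    by_cases hk : k ∈ univ.image s
    · obtain ⟨i, -, rfl⟩ := mem_image.1 hk
      exact h1 i
    · have h3 : insert k (univ.image s) = univ := by
        apply eq_univ_of_card
        rw [card_insert_of_notMem hk, card_image_of_injective _ hs, card_univ, Fintype.card_fin,
          Fintype.card_fin]
      have h4 := sum_form v
      rw [← h3, sum_insert hk, sum_eq_zero, add_zero] at h4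
      · exact h4
      · intro j hj
        obtain ⟨i, -, rfl⟩ := mem_image.1 hj
        exact h1 i
  apply hv0
  funext j
  have h5 := h2 j.castSucc
  rw [form_cast] at h5
  exact h5

/-- the tuple without its last coordinate -/
def cut {m : ℕ} (z : Fin (m + 2) → ℤ) : Fin (m + 1) → ℤ := fun j => z j.castSucc

theorem form_cut {m : ℕ} {z : Fin (m + 2) → ℤ} (hz : ∑ i, z i = 0) (i : Fin (m + 2)) :
    form (LS m i) (cut z) = z i := by
  refine Fin.lastCases ?_ (fun j => ?_) i
  · rw [form_last]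
    rw [Fin.sum_univ_castSucc] at hz
    unfold cut
    linarith
  · rw [form_cast]; rfl

theorem cut_inj {m : ℕ} {z w : Fin (m + 2) → ℤ} (hz : ∑ i, z i = 0) (hw : ∑ i, w i = 0)
    (h : cut z = cut w) : z = w := by
  funext i
  rw [← form_cut hz i, ← form_cut hw i, h]

theorem gcd_cut {m : ℕ} {z : Fin (m + 2) → ℤ} (hz : ∑ i, z i = 0) (hg : univ.gcd z = 1) :
    univ.gcd (cut z) = 1 := by
  have h1 : univ.gcd (cut z) ∣ univ.gcd z := by
    apply Finset.dvd_gcd
    intro i _
    rw [← form_cut hz i, form]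
    exact Finset.dvd_sum fun j _ => (Finset.gcd_dvd (mem_univ j)).mul_left _
  rw [hg] at h1
  have h2 : normalize (univ.gcd (cut z)) = univ.gcd (cut z) := Finset.normalize_gcd
  rw [← h2, normalize_eq_one]
  exact isUnit_of_dvd_one h1

theorem sup_cut {m : ℕ} {z : Fin (m + 2) → ℤ} (hz : ∑ i, z i = 0) :
    (univ.sup fun j => (cut z j).natAbs : ℕ) ≤ (univ.sup fun j => (z j).natAbs : ℕ) ∧
    (univ.sup fun j => (z j).natAbs : ℕ) ≤ (m + 1) * (univ.sup fun j => (cut z j).natAbs : ℕ) := by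
  constructor
  · apply Finset.sup_le
    intro j _
    exact le_sup (f := fun j => (z j).natAbs) (mem_univ j.castSucc)
  · apply Finset.sup_le
    intro i _
    have hb : ∀ j, (cut z j).natAbs ≤ (univ.sup fun j => (cut z j).natAbs : ℕ) := fun j =>
      le_sup (f := fun j => (cut z j).natAbs) (mem_univ j)
    refine Fin.lastCases ?_ (fun j => ?_) i
    · have h1 : z (Fin.last (m + 1)) = -∑ j, cut z j := by
        rw [← form_cut hz (Fin.last (m + 1)), form_last]
      rw [h1, Int.natAbs_neg]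
      calc (∑ j, cut z j).natAbs ≤ ∑ j, (cut z j).natAbs := Int.natAbs_sum_le _ _
        _ ≤ ∑ _j : Fin (m + 1), (univ.sup fun j => (cut z j).natAbs : ℕ) :=
            sum_le_sum fun j _ => hb j
        _ = _ := by rw [sum_const, card_univ, Fintype.card_fin, smul_eq_mul]
    · refine (hb j).trans ?_
      exact Nat.le_mul_of_pos_left _ (by omega)

theorem ht_cut {m : ℕ} {z : Fin (m + 2) → ℤ} (hz : ∑ i, z i = 0) (hg : univ.gcd z = 1) :
    ht (cut z) ≤ ht z ∧ ht z ≤ ht (cut z) + Real.log (m + 1) := by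
  obtain ⟨h1, h2⟩ := sup_cut hz
  have h3 : (0 : ℝ) < ((univ.sup fun j => (cut z j).natAbs : ℕ) : ℝ) := by
    exact_mod_cast sup_pos (gcd_cut hz hg)
  have h4 : (0 : ℝ) < ((univ.sup fun j => (z j).natAbs : ℕ) : ℝ) := by
    exact_mod_cast sup_pos hg
  constructor
  · apply Real.log_le_log h3
    exact_mod_cast h1
  · unfold ht
    rw [← Real.log_mul h3.ne' (by positivity)]
    apply Real.log_le_log h4
    have h5 : ((univ.sup fun j => (z j).natAbs : ℕ) : ℝ) ≤
        ((m : ℝ) + 1) * ((univ.sup fun j => (cut z j).natAbs : ℕ) : ℝ) := by exact_mod_cast h2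
    linarith

/-- the tuples that are counted -/
def Tup (m : ℕ) (S : Finset ℕ) (A X : ℝ) : Set (Fin (m + 2) → ℤ) :=
  {z | univ.gcd z = 1 ∧ ∑ i, z i = 0 ∧ (∀ i, z i ≠ 0) ∧ ht z ≤ A * Real.log X ∧
    ∑ i, N1 S (z i) ≤ Real.log X}

theorem cut_mem {m : ℕ} {S : Finset ℕ} {A X : ℝ} {z : Fin (m + 2) → ℤ} (hz : z ∈ Tup m S A X) :
    cut z ∈ Pts (LS m) S A X := by
  obtain ⟨h1, h2, h3, h4, h5⟩ := hz
  refine ⟨gcd_cut h2 h1, fun i => ?_, (ht_cut h2 h1).1.trans h4, ?_⟩
  · rw [form_cut h2]; exact h3 i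
  · simp only [form_cut h2]; exact h5

theorem Tup_finite (m : ℕ) (S : Finset ℕ) (A X : ℝ) : (Tup m S A X).Finite := by
  have h1 : (cut '' Tup m S A X).Finite := by
    apply (Pts_finite (L := LS m) S A X).subset
    rintro x ⟨z, hz, rfl⟩
    exact cut_mem hz
  refine Set.Finite.of_finite_image h1 ?_
  intro z hz w hw h
  exact cut_inj hz.2.1 hw.2.1 h

theorem tup_upper (m : ℕ) (S : Finset ℕ) (A δ : ℝ) (hδ : 0 < δ) :
    ∃ C : ℝ, 0 < C ∧ ∀ X : ℝ, 1 ≤ X →
      ((Tup m S A X).ncard : ℝ) ≤ C * X ^ (((m : ℝ) + 1) / (m + 2) + δ) := by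
  obtain ⟨C, hC, h⟩ := pts_upper (GP_LS m) (by omega) S A δ hδ
  refine ⟨C, hC, fun X hX => ?_⟩
  have h1 : (Tup m S A X).ncard ≤ (Pts (LS m) S A X).ncard := by
    refine Set.ncard_le_ncard_of_injOn cut (fun z hz => cut_mem hz) ?_ (Pts_finite S A X)
    intro z hz w hw h
    exact cut_inj hz.2.1 hw.2.1 h
  have h2 := h X hX
  push_cast at h2
  exact le_trans (by exact_mod_cast h1) h2

theorem tup_bad (m : ℕ) (hm : 1 ≤ m) (S : Finset ℕ) (A M : ℝ) (hM : (1 : ℝ) / (m + 2) < M) :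
    ∃ ν : ℝ, 0 < ν ∧ ∃ C : ℝ, 0 < C ∧ ∀ X : ℝ, 1 ≤ X →
      (({z ∈ Tup m S A X | M * N1 S (∏ i, z i) < ht z}.ncard : ℕ) : ℝ) ≤
        C * X ^ (((m : ℝ) + 1) / (m + 2) - ν) := by
  classical
  have hn0 : (0 : ℝ) < (m : ℝ) + 2 := by positivity
  have hM0 : 0 < M := lt_trans (by positivity) hM
  obtain ⟨ε, hε⟩ : ∃ ε : ℝ, ε = ((m : ℝ) + 2) - 1 / M := ⟨_, rfl⟩
  have hε0 : 0 < ε := by
    rw [hε, sub_pos, div_lt_iff₀ hM0]
    rw [div_lt_iff₀ hn0] at hM
    linarith
  obtain ⟨ν, hν, C, hC, h⟩ := pts_bad (GP_LS m) hm le_rfl S A (ε / 2) (by positivity)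
  set B : ℝ := Real.log (m + 1) / M * (2 / ε) with hB
  set F : Set (Fin (m + 1) → ℤ) := {x | univ.gcd x = 1 ∧ ht x ≤ B} with hF
  have hFfin : F.Finite := finite_ht B
  refine ⟨min ν (((m : ℝ) + 1) / (m + 2)), lt_min hν (by positivity), C + F.ncard,
    by positivity, ?_⟩
  intro X hX
  have hX0 : 0 < X := by linarith
  set G : Set (Fin (m + 1) → ℤ) := {x ∈ Pts (LS m) S A X | N1 S (∏ i, form (LS m i) x) <
    (((m + 2 : ℕ) : ℝ) - ε / 2) * ht x} with hG
  have hGfin : G.Finite := (Pts_finite S A X).subset fun x hx => hx.1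
  have h1 : ({z ∈ Tup m S A X | M * N1 S (∏ i, z i) < ht z}.ncard : ℕ) ≤ (G ∪ F).ncard := by
    refine Set.ncard_le_ncard_of_injOn cut ?_ ?_ (hGfin.union hFfin)
    · rintro z ⟨hz, hz2⟩
      have hz' := hz
      obtain ⟨g1, g2, g3, g4, g5⟩ := hz'
      by_cases hb : ht (cut z) ≤ B
      · exact Or.inr ⟨gcd_cut g2 g1, hb⟩
      · refine Or.inl ⟨cut_mem hz, ?_⟩
        push Not at hb
        simp only [form_cut g2]
        have e1 := (ht_cut g2 g1).2
        have e2 : M * N1 S (∏ i, z i) < ht (cut z) + Real.log (m + 1) := by linarith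
        have e3 : N1 S (∏ i, z i) < (ht (cut z) + Real.log (m + 1)) / M := by
          rw [lt_div_iff₀ hM0]; linarith
        refine e3.trans ?_
        have e4 : ε / 2 * B < ε / 2 * ht (cut z) := mul_lt_mul_of_pos_left hb (by positivity)
        have e5 : ε / 2 * B = Real.log (m + 1) / M := by
          rw [hB]; field_simp
        have e6 : ((m : ℝ) + 2) = ε + 1 / M := by rw [hε]; ring
        push_cast
        rw [e6]
        have e7 : (ht (cut z) + Real.log (m + 1)) / M = 1 / M * ht (cut z) + Real.log (m + 1) / M := by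
          ring
        rw [e7]
        rw [e5] at e4
        have e8 : (ε + 1 / M - ε / 2) * ht (cut z) = ε / 2 * ht (cut z) + 1 / M * ht (cut z) := by
          ring
        rw [e8]
        linarith
    · intro z hz w hw h
      exact cut_inj hz.1.2.1 hw.1.2.1 h
  have h2 : ((G ∪ F).ncard : ℝ) ≤ G.ncard + F.ncard := by
    exact_mod_cast Set.ncard_union_le G F
  have h3 := h X hX
  have h4 : X ^ (((m : ℝ) + 1) / ((m + 2 : ℕ) : ℝ) - ν) ≤
      X ^ (((m : ℝ) + 1) / (m + 2) - min ν (((m : ℝ) + 1) / (m + 2))) := by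
    apply Real.rpow_le_rpow_of_exponent_le hX
    push_cast
    linarith [min_le_left ν (((m : ℝ) + 1) / (m + 2))]
  have h5 : 1 ≤ X ^ (((m : ℝ) + 1) / (m + 2) - min ν (((m : ℝ) + 1) / (m + 2))) := by
    apply Real.one_le_rpow hX
    linarith [min_le_right ν (((m : ℝ) + 1) / (m + 2))]
  calc (({z ∈ Tup m S A X | M * N1 S (∏ i, z i) < ht z}.ncard : ℕ) : ℝ)
      ≤ ((G ∪ F).ncard : ℝ) := by exact_mod_cast h1
    _ ≤ G.ncard + F.ncard := h2
    _ ≤ C * X ^ (((m : ℝ) + 1) / (m + 2) - min ν (((m : ℝ) + 1) / (m + 2))) +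
        F.ncard * X ^ (((m : ℝ) + 1) / (m + 2) - min ν (((m : ℝ) + 1) / (m + 2))) := by
        apply add_le_add
        · exact h3.trans (mul_le_mul_of_nonneg_left h4 hC.le)
        · exact le_mul_of_one_le_right (Nat.cast_nonneg _) h5
    _ = _ := by ring

/-- many tuples with positive coordinates except the last -/
theorem tup_lower (m : ℕ) (hm : 1 ≤ m) (S : Finset ℕ) : ∃ c : ℝ, 0 < c ∧ ∃ X₀ : ℝ,
    ∀ X : ℝ, X₀ ≤ X → ∃ T : Finset (Fin (m + 2) → ℤ),
      (∀ z ∈ T, univ.gcd z = 1 ∧ ∑ i, z i = 0 ∧ (∀ j : Fin (m + 1), 0 < z j.castSucc) ∧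
        ht z ≤ 1 / (m + 2) * Real.log X ∧ ∑ i, N1 S (z i) ≤ Real.log X) ∧
      c * X ^ (((m : ℝ) + 1) / (m + 2)) ≤ (T.card : ℝ) := by
  classical
  have hL0 : ∀ i, LS m i ≠ 0 := by
    intro i h0
    have h1 : form (LS m i) (fun _ => 1) = 0 := by rw [h0]; simp [form]
    revert h1
    refine Fin.lastCases ?_ (fun j => ?_) i
    · rw [form_last]
      simp only [sum_const, card_univ, Fintype.card_fin]
      simp
      intro h
      have h2 : (0 : ℤ) ≤ (m : ℤ) := Int.natCast_nonneg m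
      omega
    · rw [form_cast]; simp
  obtain ⟨c, hc, Y₀, hprim⟩ := Pool.Agent.Y815.NT.prim m (m + 2) hm (LS m) hL0
  have hn0 : (0 : ℝ) < (m : ℝ) + 2 := by positivity
  refine ⟨c * ((1 / (2 * ((m : ℝ) + 1))) ^ (m + 1)), by positivity,
    (((m : ℝ) + 1) * (Y₀ + 2)) ^ ((m : ℝ) + 2), ?_⟩
  intro X hX
  have hY0 : (0 : ℝ) ≤ (Y₀ : ℝ) := Nat.cast_nonneg _
  have hm0 : (0 : ℝ) ≤ (m : ℝ) := Nat.cast_nonneg _
  have hKY : 1 ≤ ((m : ℝ) + 1) * (Y₀ + 2) := by nlinarith
  have hX1 : 1 ≤ X := (Real.one_le_rpow hKY hn0.le).trans hX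
  have hX0 : 0 < X := by linarith
  have hXq : ((m : ℝ) + 1) * (Y₀ + 2) ≤ X ^ ((1 : ℝ) / (m + 2)) := by
    calc ((m : ℝ) + 1) * (Y₀ + 2) =
        ((((m : ℝ) + 1) * (Y₀ + 2)) ^ ((m : ℝ) + 2)) ^ ((1 : ℝ) / (m + 2)) := by
          rw [← Real.rpow_mul (by linarith), mul_one_div_cancel hn0.ne', Real.rpow_one]
      _ ≤ _ := Real.rpow_le_rpow (by positivity) hX (by positivity)
  set Y : ℕ := ⌊X ^ ((1 : ℝ) / (m + 2)) / (m + 1)⌋₊ with hY
  have hYle : (Y : ℝ) ≤ X ^ ((1 : ℝ) / (m + 2)) / (m + 1) := Nat.floor_le (by positivity)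
  have hXK : (Y₀ : ℝ) + 2 ≤ X ^ ((1 : ℝ) / (m + 2)) / (m + 1) := by
    rw [le_div_iff₀ (by linarith)]; linarith
  have hYlt : X ^ ((1 : ℝ) / (m + 2)) / (m + 1) < Y + 1 := Nat.lt_floor_add_one _
  have hYY : Y₀ ≤ Y := by
    have : (Y₀ : ℝ) < Y + 1 := by linarith
    exact_mod_cast Nat.lt_succ_iff.1 (by exact_mod_cast this)
  have hYh : X ^ ((1 : ℝ) / (m + 2)) / (m + 1) / 2 ≤ Y := by linarith
  set P := (Fintype.piFinset fun _ : Fin (m + 1) => Icc (1 : ℤ) Y).filter fun x =>
        univ.gcd x = 1 ∧ ∀ i, ∑ j, LS m i j * x j ≠ 0 with hP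
  have hPi : Function.Injective fun (x : Fin (m + 1) → ℤ) (i : Fin (m + 2)) => form (LS m i) x := by
    intro x y h
    funext j
    have := congrFun h j.castSucc
    simp only [form_cast] at this
    exact this
  refine ⟨P.image fun x i => form (LS m i) x, ?_, ?_⟩
  · intro z hz
    obtain ⟨x, hx, rfl⟩ := mem_image.1 hz
    rw [hP, mem_filter, Fintype.mem_piFinset] at hx
    obtain ⟨h1, h2, h3⟩ := hx
    have hs : ∑ i, form (LS m i) x = 0 := sum_form x
    have hg : (univ.gcd fun i => form (LS m i) x) = 1 := by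
      have h4 : (univ.gcd fun i => form (LS m i) x) ∣ univ.gcd x := by
        apply Finset.dvd_gcd
        intro j _
        have h5 : (univ.gcd fun i => form (LS m i) x) ∣ form (LS m j.castSucc) x :=
          Finset.gcd_dvd (mem_univ _)
        rwa [form_cast] at h5
      rw [h2] at h4
      have h5 : normalize (univ.gcd fun i => form (LS m i) x) =
        (univ.gcd fun i => form (LS m i) x) := Finset.normalize_gcd
      rw [← h5, normalize_eq_one]
      exact isUnit_of_dvd_one h4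
    have hb : ∀ i, ((form (LS m i) x).natAbs : ℝ) ≤ X ^ ((1 : ℝ) / (m + 2)) := by
      intro i
      have h6 : (form (LS m i) x).natAbs ≤ (m + 1) * Y := by
        refine Fin.lastCases ?_ (fun j => ?_) i
        · rw [form_last, Int.natAbs_neg]
          calc (∑ j, x j).natAbs ≤ ∑ j, (x j).natAbs := Int.natAbs_sum_le _ _
            _ ≤ ∑ _j : Fin (m + 1), Y := sum_le_sum fun j _ => by
                have := mem_Icc.1 (h1 j); omega
            _ = _ := by rw [sum_const, card_univ, Fintype.card_fin, smul_eq_mul]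
        · rw [form_cast]
          have := mem_Icc.1 (h1 j)
          have h7 : (x j).natAbs ≤ Y := by omega
          exact h7.trans (Nat.le_mul_of_pos_left _ (by omega))
      calc ((form (LS m i) x).natAbs : ℝ) ≤ ((m : ℝ) + 1) * Y := by exact_mod_cast h6
        _ ≤ ((m : ℝ) + 1) * (X ^ ((1 : ℝ) / (m + 2)) / (m + 1)) :=
            mul_le_mul_of_nonneg_left hYle (by positivity)
        _ = _ := by field_simp
    refine ⟨hg, hs, fun j => ?_, ?_, ?_⟩
    · beta_reduce
      rw [form_cast]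
      have := mem_Icc.1 (h1 j); omega
    · unfold ht
      rw [← Real.log_rpow hX0]
      apply Real.log_le_log
      · exact_mod_cast sup_pos hg
      · obtain ⟨j, hj⟩ := exists_sup fun i => form (LS m i) x
        rw [hj, ← Int.cast_abs, ← Nat.cast_natAbs]
        exact hb j
    · rw [sum_N1]
      apply Real.log_le_log
      · exact prod_pos fun i _ => by have := one_le_radS S (form (LS m i) x); linarith
      · calc ∏ i, (radS S (form (LS m i) x) : ℝ) ≤ ∏ _i : Fin (m + 2), X ^ ((1 : ℝ) / (m + 2)) := by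
              apply prod_le_prod
              · intro i _; exact Nat.cast_nonneg _
              · intro i _
                refine le_trans ?_ (hb i)
                have h0 : form (LS m i) x ≠ 0 := h3 i
                exact_mod_cast radS_le_natAbs S h0
          _ = X := by
              rw [prod_const, card_univ, Fintype.card_fin, ← Real.rpow_natCast,
                ← Real.rpow_mul hX0.le]
              push_cast
              rw [one_div_mul_cancel hn0.ne', Real.rpow_one]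
  · rw [card_image_of_injective _ hPi]
    refine le_trans ?_ (hprim Y hYY)
    rw [mul_assoc]
    apply mul_le_mul_of_nonneg_left _ hc.le
    calc (1 / (2 * ((m : ℝ) + 1))) ^ (m + 1) * X ^ (((m : ℝ) + 1) / (m + 2))
        = (X ^ ((1 : ℝ) / (m + 2)) / (m + 1) / 2) ^ (m + 1) := by
          have e1 : X ^ (((m : ℝ) + 1) / (m + 2)) = (X ^ ((1 : ℝ) / (m + 2))) ^ (m + 1) := by
            rw [← Real.rpow_natCast (X ^ ((1 : ℝ) / (m + 2))), ← Real.rpow_mul hX0.le]
            congr 1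
            push_cast
            field_simp
          rw [e1, ← mul_pow]
          congr 1
          field_simp
      _ ≤ _ := pow_le_pow_left₀ (by positivity) hYh _

end Pool.Agent.Y594.NT
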