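import Pool.Agent.Y594.NT.Stm2
import Pool.Agent.Y594.NT.Sum

/-!
# Tuples near the threshold (helper594)
-/

set_option autoImplicit false

namespace Pool.Agent.Y594.NT

open Finset Pool.Agent.H785R2.ABC Pool.Agent.H705R2.ABC

/-- the cofactor of the radical -/
def uu (a : ℤ) : ℕ := a.natAbs / rad a.natAbs

theorem rad_mul_uu {a : ℤ} (ha : a ≠ 0) : rad a.natAbs * uu a = a.natAbs :=
  Nat.mul_div_cancel' (rad_dvd_of fun _ _ h => h)

theorem uu_pos {a : ℤ} (ha : a ≠ 0) : 1 ≤ uu a := by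
  rcases Nat.eq_zero_or_pos (uu a) with h | h
  · have := rad_mul_uu ha
    rw [h, mul_zero] at this
    exact absurd this.symm (Int.natAbs_ne_zero.2 ha)
  · exact h

theorem uu_dvd {a : ℤ} (ha : a ≠ 0) : uu a * rad (uu a) ∣ a.natAbs := by
  have h1 := rad_mul_uu ha
  have h2 : uu a ∣ a.natAbs := ⟨rad a.natAbs, by rw [mul_comm]; exact h1.symm⟩
  calc uu a * rad (uu a) ∣ uu a * rad a.natAbs :=
        Nat.mul_dvd_mul_left _ (rad_dvd_rad (Int.natAbs_ne_zero.2 ha) h2)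
    _ = a.natAbs := by rw [mul_comm]; exact h1

theorem rad_le_self' {u : ℕ} (hu : 1 ≤ u) : rad u ≤ u :=
  Nat.le_of_dvd hu (rad_dvd_of fun _ _ h => h)

theorem geom_le (r : ℝ) (h0 : 0 ≤ r) (h1 : r < 1) (T : ℕ) :
    ∑ t ∈ range T, r ^ t ≤ 1 / (1 - r) := by
  have h2 : (∑ t ∈ range T, r ^ t) * (1 - r) = 1 - r ^ T := by
    have := geom_sum_mul_neg r T
    linarith
  rw [le_div_iff₀ (by linarith), h2]
  have : 0 ≤ r ^ T := pow_nonneg h0 T
  linarith

theorem sum_triple {α β γ : Type*} (A : Finset α) (B : Finset β) (D : Finset γ) (f : α → ℝ)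
    (g : β → ℝ) (h : γ → ℝ) (c : ℝ) :
    ∑ y ∈ A ×ˢ (B ×ˢ D), c * (f y.1 * (g y.2.1 * h y.2.2)) =
      c * ((∑ x ∈ A, f x) * ((∑ x ∈ B, g x) * ∑ x ∈ D, h x)) := by
  rw [Finset.sum_product]
  have h1 : ∀ x ∈ A, ∑ y ∈ B ×ˢ D, c * (f x * (g y.1 * h y.2)) =
      c * f x * ((∑ x ∈ B, g x) * ∑ x ∈ D, h x) := by
    intro x _
    rw [Finset.sum_product, Finset.sum_mul_sum, Finset.mul_sum]
    apply sum_congr rfl
    intro y _
    rw [Finset.mul_sum]
    apply sum_congr rfl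
    intro w _
    ring
  rw [sum_congr rfl h1, ← Finset.sum_mul, ← Finset.mul_sum]
  ring

/-- tuples whose coordinates have a bounded cofactor of the radical -/
theorem near (hU : S_USUM) (hLat : S_LATN) (n : ℕ) (hn : 3 ≤ n) (a : ℝ) (ha : 0 < a)
    (hna : (n : ℝ) * a ≤ 1 / 2) : ∃ C : ℝ, 0 < C ∧ ∀ X : ℝ, 1 ≤ X → ∀ W : ℝ, 1 ≤ W →
    ∀ U : ℕ, ∀ E : Finset (Fin n → ℤ),
    (∀ z ∈ E, univ.gcd z = 1 ∧ ∑ i, z i = 0 ∧ (∀ i, z i ≠ 0) ∧
      ∏ i, (rad (z i).natAbs : ℝ) ≤ X ∧ (∃ i, W ≤ ((z i).natAbs : ℝ)) ∧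
      ∀ i, uu (z i) ≤ U ∧ U ^ 4 ≤ (z i).natAbs) →
    (E.card : ℝ) ≤ C * X ^ (1 - a) * W ^ (-(1 - n * a)) := by
  classical
  obtain ⟨CU, hCU, hCU'⟩ := hU a ha
  have hn0 : (0 : ℝ) < n := by
    have : 0 < n := by omega
    exact_mod_cast this
  have hn3 : (3 : ℝ) ≤ n := by exact_mod_cast hn
  have ha1 : a ≤ 1 := by nlinarith
  obtain ⟨r₁, hr₁⟩ : ∃ r : ℝ, r = (2 : ℝ) ^ (-(1 / 2) : ℝ) := ⟨_, rfl⟩
  obtain ⟨r₂, hr₂⟩ : ∃ r : ℝ, r = (2 : ℝ) ^ (-a) := ⟨_, rfl⟩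
  have hr₁0 : 0 < r₁ := by rw [hr₁]; positivity
  have hr₂0 : 0 < r₂ := by rw [hr₂]; positivity
  have hr₁1 : r₁ < 1 := by
    rw [hr₁]; exact Real.rpow_lt_one_of_one_lt_of_neg (by norm_num) (by norm_num)
  have hr₂1 : r₂ < 1 := by
    rw [hr₂]; exact Real.rpow_lt_one_of_one_lt_of_neg (by norm_num) (by linarith)
  have hd1 : 0 < 1 - r₁ := by linarith
  have hd2 : 0 < 1 - r₂ := by linarith
  refine ⟨n * (6 ^ (n - 1) * 2 * (1 / (1 - r₁)) * (1 / (1 - r₂)) ^ n * CU ^ n), by positivity, ?_⟩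
  intro X hX W hW U E hE
  have hX0 : 0 < X := by linarith
  have hW0 : 0 < W := by linarith
  have hb : 0 < 1 - (n : ℝ) * a := by linarith
  -- the first exponent
  have hex : ∃ κ : ℕ, W ≤ 2 ^ (κ + 1) := by
    obtain ⟨κ, hκ⟩ := pow_unbounded_of_one_lt W (by norm_num : (1 : ℝ) < 2)
    exact ⟨κ, hκ.le.trans (pow_le_pow_right₀ (by norm_num) (by omega))⟩
  set κ₁ := Nat.find hex with hκ₁
  have hκ₁1 : W ≤ 2 ^ (κ₁ + 1) := Nat.find_spec hex
  have hκ₁2 : ∀ κ : ℕ, W ≤ 2 ^ (κ + 1) → κ₁ ≤ κ := fun κ h => Nat.find_min' hex h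
  set T : ℕ := (E.sup fun z => univ.sup fun i => Nat.log 2 (z i).natAbs) + 1 with hT
  have hlogT : ∀ z ∈ E, ∀ i, Nat.log 2 (z i).natAbs < T := by
    intro z hz i
    have h1 : Nat.log 2 (z i).natAbs ≤ univ.sup fun i => Nat.log 2 (z i).natAbs :=
      le_sup (f := fun i => Nat.log 2 (z i).natAbs) (mem_univ i)
    have h2 : (univ.sup fun i => Nat.log 2 (z i).natAbs) ≤
        E.sup fun z => univ.sup fun i => Nat.log 2 (z i).natAbs :=
      le_sup (f := fun z : Fin n → ℤ => univ.sup fun i => Nat.log 2 (z i).natAbs) hz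
    omega
  set M : Finset (ℕ × (Fin n → ℕ) × (Fin n → ℕ)) := range T ×ˢ
    ((Fintype.piFinset fun _ : Fin n => range T) ×ˢ (Fintype.piFinset fun _ : Fin n => Icc 1 U))
    with hM
  set c : ℝ := 6 ^ (n - 1) * 2 * X ^ (1 - a) * W ^ (-(1 - n * a)) with hc
  have hc0 : 0 ≤ c := by rw [hc]; positivity
  set F : ℕ × (Fin n → ℕ) × (Fin n → ℕ) → ℝ := fun y =>
    c * (r₁ ^ y.1 * ((∏ i, r₂ ^ y.2.1 i) * ∏ i, ((y.2.2 i : ℝ) ^ (-a) / (rad (y.2.2 i) : ℝ))))
    with hF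
  have hF0 : ∀ y, 0 ≤ F y := by
    intro y
    rw [hF]
    apply mul_nonneg hc0
    apply mul_nonneg (by positivity)
    apply mul_nonneg (prod_nonneg fun i _ => by positivity)
    exact prod_nonneg fun i _ => div_nonneg (Real.rpow_nonneg (Nat.cast_nonneg _) _)
      (Nat.cast_nonneg _)
  -- sum of the bounds
  have hsum : ∑ y ∈ M, F y ≤ c * ((1 / (1 - r₁)) * ((1 / (1 - r₂)) ^ n * CU ^ n)) := by
    have e1 : ∑ y ∈ M, F y = c * ((∑ t ∈ range T, r₁ ^ t) *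
        ((∏ _i : Fin n, ∑ l ∈ range T, r₂ ^ l) *
          ∏ _i : Fin n, ∑ u ∈ Icc 1 U, (u : ℝ) ^ (-a) / (rad u : ℝ))) := by
      rw [Finset.prod_univ_sum, Finset.prod_univ_sum]
      exact sum_triple (range T) (Fintype.piFinset fun _ : Fin n => range T)
        (Fintype.piFinset fun _ : Fin n => Icc 1 U) (fun t => r₁ ^ t)
        (fun p => ∏ i, r₂ ^ p i) (fun p => ∏ i, ((p i : ℝ) ^ (-a) / (rad (p i) : ℝ))) c
    rw [e1, prod_const, prod_const, card_univ, Fintype.card_fin]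
    apply mul_le_mul_of_nonneg_left _ hc0
    have g1 := geom_le r₁ hr₁0.le hr₁1 T
    have g2 := geom_le r₂ hr₂0.le hr₂1 T
    have g3 := hCU' U
    have g4 : 0 ≤ ∑ u ∈ Icc 1 U, (u : ℝ) ^ (-a) / (rad u : ℝ) :=
      sum_nonneg fun u _ => div_nonneg (Real.rpow_nonneg (Nat.cast_nonneg _) _) (Nat.cast_nonneg _)
    have g5 : 0 ≤ ∑ l ∈ range T, r₂ ^ l := sum_nonneg fun l _ => by positivity
    have g6 : 0 ≤ ∑ l ∈ range T, r₁ ^ l := sum_nonneg fun l _ => by positivity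
    apply mul_le_mul g1 _ (by positivity) (by positivity)
    apply mul_le_mul (pow_le_pow_left₀ g5 g2 n) (pow_le_pow_left₀ g4 g3 n) (by positivity)
      (by positivity)
  -- the fibres
  have hk : ∀ k ∈ (univ : Finset (Fin n)),
      (((E.filter fun z => ∀ i, (z i).natAbs ≤ (z k).natAbs).card : ℕ) : ℝ) ≤ ∑ y ∈ M, F y := by
    intro k _
    set Ek := E.filter fun z => ∀ i, (z i).natAbs ≤ (z k).natAbs with hEk
    set π : (Fin n → ℤ) → ℕ × (Fin n → ℕ) × (Fin n → ℕ) := fun z =>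
      (Nat.log 2 (z k).natAbs - κ₁, fun i => Nat.log 2 (z k).natAbs - Nat.log 2 (z i).natAbs,
        fun i => uu (z i)) with hπ
    have hmaps : ∀ z ∈ Ek, π z ∈ M := by
      intro z hz
      obtain ⟨z1, z2⟩ := mem_filter.1 hz
      obtain ⟨g1, g2, g3, g4, g5, g6⟩ := hE z z1
      have g7 := hlogT z z1 k
      rw [hM, mem_product, mem_product, Fintype.mem_piFinset, Fintype.mem_piFinset]
      refine ⟨mem_range.2 (by simp only [hπ]; omega), fun i => mem_range.2 (by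
        simp only [hπ]; omega), fun i => mem_Icc.2 ⟨uu_pos (g3 i), (g6 i).1⟩⟩
    have h1 : Ek.card = ∑ y ∈ M, (Ek.filter fun z => π z = y).card :=
      card_eq_sum_card_fiberwise (fun z hz => hmaps z hz)
    rw [h1]
    push_cast
    apply sum_le_sum
    rintro ⟨t, lam, u⟩ _
    rcases (Ek.filter fun z => π z = (t, lam, u)).eq_empty_or_nonempty with h0 | ⟨z₀, hz₀⟩
    · rw [h0, card_empty, Nat.cast_zero]; exact hF0 _
    -- data of the fibre
    have hdata : ∀ z ∈ Ek.filter fun z => π z = (t, lam, u), z ∈ E ∧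
        (∀ i, Nat.log 2 (z i).natAbs = κ₁ + t - lam i) ∧ (∀ i, lam i ≤ κ₁ + t) ∧ lam k = 0 ∧
        (∀ i, uu (z i) = u i) := by
      intro z hz
      obtain ⟨z1, z3⟩ := mem_filter.1 hz
      obtain ⟨z1, z2⟩ := mem_filter.1 z1
      obtain ⟨g1, g2, g3, g4, ⟨i₀, g5⟩, g6⟩ := hE z z1
      have q1 : Nat.log 2 (z k).natAbs - κ₁ = t := congrArg Prod.fst z3
      have q2 : ∀ i, Nat.log 2 (z k).natAbs - Nat.log 2 (z i).natAbs = lam i := fun i =>
        congrFun (congrArg Prod.fst (congrArg Prod.snd z3)) i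
      have q3 : ∀ i, uu (z i) = u i := fun i =>
        congrFun (congrArg Prod.snd (congrArg Prod.snd z3)) i
      have q4 : κ₁ ≤ Nat.log 2 (z k).natAbs := by
        apply hκ₁2
        have q5 : (z k).natAbs < 2 ^ (Nat.log 2 (z k).natAbs + 1) :=
          Nat.lt_pow_succ_log_self (by norm_num) _
        have q6 : ((z i₀).natAbs : ℝ) ≤ ((z k).natAbs : ℝ) := by exact_mod_cast z2 i₀
        have q7 : ((z k).natAbs : ℝ) ≤ 2 ^ (Nat.log 2 (z k).natAbs + 1) := by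
          exact_mod_cast q5.le
        linarith
      have q8 : ∀ i, Nat.log 2 (z i).natAbs ≤ Nat.log 2 (z k).natAbs := fun i =>
        Nat.log_mono_right (z2 i)
      refine ⟨z1, fun i => ?_, fun i => ?_, ?_, q3⟩
      · have := q2 i; have := q8 i; omega
      · have := q2 i; omega
      · have := q2 k; omega
    obtain ⟨p1, p2, p3, p4, p5⟩ := hdata z₀ hz₀
    obtain ⟨g1, g2, g3, g4, g5, g6⟩ := hE z₀ p1
    have hu1 : ∀ i, 1 ≤ u i := fun i => by rw [← p5 i]; exact uu_pos (g3 i)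
    have huU : ∀ i, u i ≤ U := fun i => by rw [← p5 i]; exact (g6 i).1
    set e : Fin n → ℕ := fun i => κ₁ + t - lam i with he
    have hpow : ∀ z ∈ Ek.filter fun z => π z = (t, lam, u), ∀ i,
        2 ^ e i ≤ (z i).natAbs ∧ (z i).natAbs ≤ 2 ^ (e i + 1) := by
      intro z hz i
      obtain ⟨w1, w2, -⟩ := hdata z hz
      have w3 := (hE z w1).2.2.1 i
      have w4 : Nat.log 2 (z i).natAbs = e i := w2 i
      rw [← w4]
      exact ⟨Nat.pow_log_le_self 2 (Int.natAbs_ne_zero.2 w3),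
        (Nat.lt_pow_succ_log_self (by norm_num) _).le⟩
    have hlat := hLat n hn k (fun i => u i * rad (u i))
      (fun i => Nat.mul_pos (hu1 i) (rad_pos' _)) (fun i => 2 ^ (e i + 1)) (by
        intro i _
        have w1 : u i * rad (u i) ≤ U * U :=
          Nat.mul_le_mul (huU i) ((rad_le_self' (hu1 i)).trans (huU i))
        have w2 : u k * rad (u k) ≤ U * U :=
          Nat.mul_le_mul (huU k) ((rad_le_self' (hu1 k)).trans (huU k))
        calc (u i * rad (u i)) * (u k * rad (u k)) ≤ (U * U) * (U * U) := Nat.mul_le_mul w1 w2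
          _ = U ^ 4 := by ring
          _ ≤ (z₀ i).natAbs := (g6 i).2
          _ ≤ 2 ^ (e i + 1) := (hpow z₀ hz₀ i).2)
      (Ek.filter fun z => π z = (t, lam, u)) (by
        intro z hz
        obtain ⟨w1, w2, -, -, w5⟩ := hdata z hz
        obtain ⟨v1, v2, v3, -⟩ := hE z w1
        refine ⟨v1, v2, fun i => ?_, fun i _ => (hpow z hz i).2⟩
        rw [← w5 i]
        exact Int.natCast_dvd.2 (uu_dvd (v3 i)))
    set Q : ℝ := ∏ i, (2 : ℝ) ^ e i with hQ
    set Uu : ℝ := ∏ i, (u i : ℝ) with hUu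
    set Rr : ℝ := ∏ i, (rad (u i) : ℝ) with hRr
    have hQ0 : 0 < Q := prod_pos fun i _ => by positivity
    have hu0 : ∀ i, (0 : ℝ) < u i := fun i => by exact_mod_cast hu1 i
    have hUu0 : 0 < Uu := prod_pos fun i _ => hu0 i
    have hRr0 : 0 < Rr := prod_pos fun i _ => by exact_mod_cast rad_pos' _
    have hQX : Q ≤ X * Uu := by
      calc Q ≤ ∏ i, ((z₀ i).natAbs : ℝ) := by
            apply prod_le_prod
            · intro i _; positivity
            · intro i _; exact_mod_cast (hpow z₀ hz₀ i).1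
        _ = ∏ i, ((rad (z₀ i).natAbs : ℝ) * (u i : ℝ)) := by
            apply prod_congr rfl
            intro i _
            rw [← p5 i]
            exact_mod_cast (rad_mul_uu (g3 i)).symm
        _ = (∏ i, (rad (z₀ i).natAbs : ℝ)) * Uu := by rw [prod_mul_distrib]
        _ ≤ X * Uu := mul_le_mul_of_nonneg_right g4 hUu0.le
    have hNk : ∏ i ∈ univ.erase k, ((2 ^ (e i + 1) : ℕ) : ℝ) = 2 ^ (n - 1) * (Q / 2 ^ (κ₁ + t)) := by
      have w1 : Q = 2 ^ e k * ∏ i ∈ univ.erase k, (2 : ℝ) ^ e i := by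
        rw [hQ, Finset.mul_prod_erase univ (fun i => (2 : ℝ) ^ e i) (mem_univ k)]
      have w2 : e k = κ₁ + t := by simp only [he, p4]; omega
      have w3 : ∏ i ∈ univ.erase k, ((2 ^ (e i + 1) : ℕ) : ℝ) =
          2 ^ (n - 1) * ∏ i ∈ univ.erase k, (2 : ℝ) ^ e i := by
        push_cast
        have : ∀ i, (2 : ℝ) ^ (e i + 1) = 2 * 2 ^ e i := fun i => by rw [pow_succ]; ring
        rw [prod_congr rfl fun i _ => this i, prod_mul_distrib, prod_const,
          card_erase_of_mem (mem_univ k), card_univ, Fintype.card_fin]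
      rw [w3, w1, w2]
      congr 1
      field_simp
    rw [hNk] at hlat
    have hprodd : ∏ i, ((u i * rad (u i) : ℕ) : ℝ) = Uu * Rr := by
      push_cast
      rw [prod_mul_distrib]
    rw [hprodd] at hlat
    set cF : ℝ := (((Ek.filter fun z => π z = (t, lam, u)).card : ℕ) : ℝ) with hcF
    have h6 : (3 : ℝ) ^ (n - 1) * (2 ^ (n - 1) * (Q / 2 ^ (κ₁ + t))) =
        6 ^ (n - 1) * (Q / 2 ^ (κ₁ + t)) := by
      rw [← mul_assoc, ← mul_pow]; norm_num
    rw [h6] at hlat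
    have hstep : cF ≤ 6 ^ (n - 1) * (Q ^ a * (X ^ (1 - a) * Uu ^ (1 - a)) / 2 ^ (κ₁ + t)) /
        (Uu * Rr) := by
      rw [le_div_iff₀ (by positivity)]
      refine hlat.trans ?_
      apply mul_le_mul_of_nonneg_left _ (by positivity)
      apply div_le_div_of_nonneg_right _ (by positivity)
      calc Q = Q ^ a * Q ^ (1 - a) := by
            rw [← Real.rpow_add hQ0]
            have : a + (1 - a) = 1 := by ring
            rw [this, Real.rpow_one]
        _ ≤ Q ^ a * (X * Uu) ^ (1 - a) := by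
            apply mul_le_mul_of_nonneg_left _ (by positivity)
            exact Real.rpow_le_rpow hQ0.le hQX (by linarith)
        _ = Q ^ a * (X ^ (1 - a) * Uu ^ (1 - a)) := by
            rw [Real.mul_rpow hX0.le hUu0.le]
    refine hstep.trans ?_
    -- evaluate
    have hQa : Q ^ a = (2 : ℝ) ^ ((n : ℝ) * a * ((κ₁ + t : ℕ) : ℝ)) * ∏ i, r₂ ^ lam i := by
      have w1 : ∀ i, ((2 : ℝ) ^ e i) ^ a = (2 : ℝ) ^ (a * ((κ₁ + t : ℕ) : ℝ)) * r₂ ^ lam i := by
        intro i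
        rw [← Real.rpow_natCast 2 (e i), ← Real.rpow_mul (by norm_num), hr₂,
          ← Real.rpow_natCast _ (lam i), ← Real.rpow_mul (by norm_num),
          ← Real.rpow_add (by norm_num)]
        congr 1
        have w2 : ((e i : ℕ) : ℝ) = ((κ₁ + t : ℕ) : ℝ) - (lam i : ℝ) := by
          rw [he, Nat.cast_sub (p3 i)]
        rw [w2]
        ring
      rw [hQ, ← Real.finset_prod_rpow _ _ (fun i _ => by positivity),
        prod_congr rfl fun i _ => w1 i, prod_mul_distrib, prod_const, card_univ,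
        Fintype.card_fin, ← Real.rpow_natCast, ← Real.rpow_mul (by norm_num)]
      congr 2
      ring
    have hUa : Uu ^ (1 - a) / (Uu * Rr) = ∏ i, ((u i : ℝ) ^ (-a) / (rad (u i) : ℝ)) := by
      rw [prod_div_distrib, Real.finset_prod_rpow _ _ (fun i _ => (hu0 i).le)]
      rw [← hUu, ← hRr, Real.rpow_sub hUu0, Real.rpow_one, Real.rpow_neg hUu0.le]
      field_simp
    have hκt : (2 : ℝ) ^ ((n : ℝ) * a * ((κ₁ + t : ℕ) : ℝ)) / 2 ^ (κ₁ + t) ≤
        2 * W ^ (-(1 - n * a)) * r₁ ^ t := by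
      have w1 : (2 : ℝ) ^ ((n : ℝ) * a * ((κ₁ + t : ℕ) : ℝ)) / 2 ^ (κ₁ + t) =
          (2 : ℝ) ^ (-(1 - n * a) * (κ₁ : ℝ)) * (2 : ℝ) ^ (-(1 - n * a) * (t : ℝ)) := by
        rw [← Real.rpow_natCast 2 (κ₁ + t), ← Real.rpow_sub (by norm_num),
          ← Real.rpow_add (by norm_num)]
        congr 1
        push_cast
        ring
      have w2 : (2 : ℝ) ^ (-(1 - n * a) * (κ₁ : ℝ)) ≤ 2 * W ^ (-(1 - n * a)) := by
        have w3 : ((2 : ℝ) ^ (κ₁ + 1)) ^ (-(1 - n * a)) ≤ W ^ (-(1 - n * a)) :=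
          Real.rpow_le_rpow_of_nonpos hW0 hκ₁1 (by linarith)
        have w4 : (2 : ℝ) ^ (-(1 - n * a) * (κ₁ : ℝ)) =
            (2 : ℝ) ^ (1 - n * a) * ((2 : ℝ) ^ (κ₁ + 1)) ^ (-(1 - n * a)) := by
          rw [← Real.rpow_natCast 2 (κ₁ + 1), ← Real.rpow_mul (by norm_num),
            ← Real.rpow_add (by norm_num)]
          congr 1
          push_cast
          ring
        have w5 : (2 : ℝ) ^ (1 - n * a) ≤ 2 := by
          calc (2 : ℝ) ^ (1 - n * a) ≤ (2 : ℝ) ^ (1 : ℝ) :=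
                Real.rpow_le_rpow_of_exponent_le (by norm_num) (by nlinarith)
            _ = 2 := Real.rpow_one 2
        rw [w4]
        exact mul_le_mul w5 w3 (by positivity) (by norm_num)
      have w6 : (2 : ℝ) ^ (-(1 - n * a) * (t : ℝ)) ≤ r₁ ^ t := by
        rw [hr₁, ← Real.rpow_natCast _ t, ← Real.rpow_mul (by norm_num)]
        apply Real.rpow_le_rpow_of_exponent_le (by norm_num)
        have : (0 : ℝ) ≤ t := Nat.cast_nonneg t
        nlinarith
      rw [w1]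
      exact mul_le_mul w2 w6 (by positivity) (by positivity)
    have hG0 : 0 ≤ (∏ i, r₂ ^ lam i) * ∏ i, ((u i : ℝ) ^ (-a) / (rad (u i) : ℝ)) := by
      apply mul_nonneg (prod_nonneg fun i _ => by positivity)
      exact prod_nonneg fun i _ => div_nonneg (Real.rpow_nonneg (Nat.cast_nonneg _) _)
        (Nat.cast_nonneg _)
    calc 6 ^ (n - 1) * (Q ^ a * (X ^ (1 - a) * Uu ^ (1 - a)) / 2 ^ (κ₁ + t)) / (Uu * Rr)
        = 6 ^ (n - 1) * X ^ (1 - a) * ((2 : ℝ) ^ ((n : ℝ) * a * ((κ₁ + t : ℕ) : ℝ)) /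
            2 ^ (κ₁ + t)) * ((∏ i, r₂ ^ lam i) * (Uu ^ (1 - a) / (Uu * Rr))) := by
          rw [hQa]; ring
      _ = 6 ^ (n - 1) * X ^ (1 - a) * ((2 : ℝ) ^ ((n : ℝ) * a * ((κ₁ + t : ℕ) : ℝ)) /
            2 ^ (κ₁ + t)) * ((∏ i, r₂ ^ lam i) *
              ∏ i, ((u i : ℝ) ^ (-a) / (rad (u i) : ℝ))) := by rw [hUa]
      _ ≤ 6 ^ (n - 1) * X ^ (1 - a) * (2 * W ^ (-(1 - n * a)) * r₁ ^ t) * ((∏ i, r₂ ^ lam i) *
              ∏ i, ((u i : ℝ) ^ (-a) / (rad (u i) : ℝ))) := by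
          apply mul_le_mul_of_nonneg_right _ hG0
          exact mul_le_mul_of_nonneg_left hκt (by positivity)
      _ = F (t, lam, u) := by
          simp only [hF, hc]
          ring
  -- conclusion
  have hcov : E ⊆ univ.biUnion fun k => E.filter fun z => ∀ i, (z i).natAbs ≤ (z k).natAbs := by
    intro z hz
    obtain ⟨k, -, hk2⟩ := exists_max_image (univ : Finset (Fin n)) (fun i => (z i).natAbs)
      ⟨⟨0, by omega⟩, mem_univ _⟩
    rw [mem_biUnion]
    exact ⟨k, mem_univ _, mem_filter.2 ⟨hz, fun i => hk2 i (mem_univ i)⟩⟩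
  calc (E.card : ℝ) ≤ ((univ.biUnion fun k =>
        E.filter fun z => ∀ i, (z i).natAbs ≤ (z k).natAbs).card : ℝ) := by
        exact_mod_cast card_le_card hcov
    _ ≤ ∑ k : Fin n, (((E.filter fun z => ∀ i, (z i).natAbs ≤ (z k).natAbs).card : ℕ) : ℝ) := by
        exact_mod_cast card_biUnion_le
    _ ≤ ∑ _k : Fin n, c * ((1 / (1 - r₁)) * ((1 / (1 - r₂)) ^ n * CU ^ n)) :=
        sum_le_sum fun k hk' => (hk k hk').trans hsum
    _ = n * (c * ((1 / (1 - r₁)) * ((1 / (1 - r₂)) ^ n * CU ^ n))) := by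
        rw [sum_const, nsmul_eq_mul, card_univ, Fintype.card_fin]
    _ = _ := by rw [hc]; ring

end Pool.Agent.Y594.NT
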