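import Pool.Agent.Y594.NT.Mt

/-!
# Exceptional tuples near the threshold, with shared primes (helper594)
-/

set_option autoImplicit false

namespace Pool.Agent.Y594.NT

open Finset Pool.Agent.H785R2.ABC Pool.Agent.H705R2.ABC

theorem min_bound {X Y M : ℝ} (hX : 1 ≤ X) (hY : 1 ≤ Y) (hM : 0 < M) (hM1 : M ≤ 1) :
    min X (Y ^ (1 / M)) ≤ Y * X ^ (1 - M) := by
  have hX0 : 0 < X := by linarith
  have hY0 : 0 < Y := by linarith
  rcases le_total Y (X ^ M) with h | h
  · refine (min_le_right _ _).trans ?_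
    have h1 : 0 ≤ 1 / M - 1 := by
      rw [sub_nonneg, le_div_iff₀ hM]; linarith
    calc Y ^ (1 / M) = Y * Y ^ (1 / M - 1) := by
          rw [← Real.rpow_one_add' hY0.le (by
            have : 0 < 1 / M := by positivity
            linarith)]
          congr 1; ring
      _ ≤ Y * (X ^ M) ^ (1 / M - 1) := by
          apply mul_le_mul_of_nonneg_left _ hY0.le
          exact Real.rpow_le_rpow hY0.le h h1
      _ = Y * X ^ (1 - M) := by
          rw [← Real.rpow_mul hX0.le]
          congr 2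
          field_simp
  · refine (min_le_left _ _).trans ?_
    calc X = X ^ M * X ^ (1 - M) := by
          rw [← Real.rpow_add hX0]
          have : M + (1 - M) = 1 := by ring
          rw [this, Real.rpow_one]
      _ ≤ Y * X ^ (1 - M) := mul_le_mul_of_nonneg_right h (by positivity)

/-- exceptional tuples with a bounded cofactor of the radical and bounded shared part -/
theorem near2 (hK : S_KSUM) (hLat : S_LATN) (n : ℕ) (hn : 3 ≤ n) (δ : ℝ) (hδ : 0 < δ) :
    ∃ C : ℝ, 0 < C ∧ ∀ X : ℝ, 1 ≤ X → ∀ M : ℝ, 0 < M → M ≤ 1 → ∀ U : ℕ, 1 ≤ U → (U : ℝ) ≤ X →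
    ∀ E : Finset (Fin n → ℤ),
    (∀ z ∈ E, univ.gcd z = 1 ∧ ∑ i, z i = 0 ∧ (∀ i, z i ≠ 0) ∧
      (∀ i, ((z i).natAbs : ℝ) ≤ n * X) ∧ ∏ i, (rad (z i).natAbs : ℝ) ≤ X ∧
      (∃ i, (rad (∏ i, (z i).natAbs) : ℝ) ^ M ≤ ((z i).natAbs : ℝ)) ∧
      ∀ i, uu (z i) ≤ U ∧ tz z i ≤ U ∧ U ^ 6 ≤ (z i).natAbs) →
    (E.card : ℝ) ≤ C * X ^ (1 - M + δ) := by
  classical
  obtain ⟨CK, hCK, hCK'⟩ := hK (n + n) (δ / 2) (by positivity)
  obtain ⟨CL, hCL, hCL'⟩ := log_pow_le (n + 1) (δ / 2) (by positivity)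
  have hn0 : (0 : ℝ) < n := by
    have : 0 < n := by omega
    exact_mod_cast this
  have hn3 : (3 : ℝ) ≤ n := by exact_mod_cast hn
  refine ⟨n * (6 ^ (n - 1) * 2 * (CL * (n : ℝ) ^ (δ / 2)) * CK), by positivity, ?_⟩
  intro X hX M hM hM1 U hU hUX E hE
  have hX0 : 0 < X := by linarith
  set Y : ℕ := ⌊(n : ℝ) * X⌋₊ with hY
  have hY1 : 1 ≤ Y := Nat.le_floor (by push_cast; nlinarith)
  have hYX : (Y : ℝ) ≤ n * X := Nat.floor_le (by positivity)
  set T : ℕ := Nat.log 2 Y + 1 with hT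
  have hlogT : ∀ z ∈ E, ∀ i, Nat.log 2 (z i).natAbs < T := by
    intro z hz i
    have h1 : (z i).natAbs ≤ Y := Nat.le_floor ((hE z hz).2.2.2.1 i)
    have h2 := Nat.log_mono_right (b := 2) h1
    omega
  have hTn : (T : ℝ) ^ (n + 1) ≤ CL * ((n : ℝ) ^ (δ / 2) * X ^ (δ / 2)) := by
    have h1 := hCL' Y hY1
    refine h1.trans ?_
    apply mul_le_mul_of_nonneg_left _ hCL.le
    rw [← Real.mul_rpow hn0.le hX0.le]
    exact Real.rpow_le_rpow (Nat.cast_nonneg _) hYX (by positivity)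
  set P : Finset (ℕ × (Fin n → ℕ) × (Fin (n + n) → ℕ)) := range T ×ˢ
    ((Fintype.piFinset fun _ : Fin n => range T) ×ˢ
      (Fintype.piFinset fun _ : Fin (n + n) => Icc 1 U)) with hP
  set c : ℝ := 6 ^ (n - 1) * 2 * X ^ (1 - M) with hc
  have hc0 : 0 ≤ c := by rw [hc]; positivity
  set F : ℕ × (Fin n → ℕ) × (Fin (n + n) → ℕ) → ℝ := fun y =>
    c * (1 * (1 * (1 / (rad (∏ i, y.2.2 i) : ℝ)))) with hF
  have hF0 : ∀ y, 0 ≤ F y := by
    intro y
    rw [hF]
    exact mul_nonneg hc0 (mul_nonneg zero_le_one (mul_nonneg zero_le_one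
      (div_nonneg zero_le_one (Nat.cast_nonneg _))))
  have hsum : ∑ y ∈ P, F y ≤ c * (CL * ((n : ℝ) ^ (δ / 2) * X ^ (δ / 2)) *
      (CK * X ^ (δ / 2))) := by
    have e1 : ∑ y ∈ P, F y = c * ((∑ _t ∈ range T, (1 : ℝ)) *
        ((∑ _p ∈ (Fintype.piFinset fun _ : Fin n => range T), (1 : ℝ)) *
          ∑ w ∈ (Fintype.piFinset fun _ : Fin (n + n) => Icc 1 U),
            1 / (rad (∏ i, w i) : ℝ))) :=
      sum_triple (range T) (Fintype.piFinset fun _ : Fin n => range T)
        (Fintype.piFinset fun _ : Fin (n + n) => Icc 1 U) (fun _ => 1) (fun _ => 1)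
        (fun w => 1 / (rad (∏ i, w i) : ℝ)) c
    rw [e1]
    apply mul_le_mul_of_nonneg_left _ hc0
    have e2 : ∑ _t ∈ range T, (1 : ℝ) = T := by simp
    have e3 : ∑ _p ∈ (Fintype.piFinset fun _ : Fin n => range T), (1 : ℝ) = (T : ℝ) ^ n := by
      rw [sum_const, nsmul_eq_mul, mul_one, Fintype.card_piFinset]
      simp
    rw [e2, e3, ← mul_assoc, ← pow_succ']
    have e4 := hCK' U hU
    have e5 : (U : ℝ) ^ (δ / 2) ≤ X ^ (δ / 2) :=
      Real.rpow_le_rpow (Nat.cast_nonneg _) hUX (by positivity)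
    apply mul_le_mul hTn (e4.trans (mul_le_mul_of_nonneg_left e5 hCK.le)) _ (by positivity)
    exact sum_nonneg fun w _ => div_nonneg zero_le_one (Nat.cast_nonneg _)
  have hk : ∀ k ∈ (univ : Finset (Fin n)),
      (((E.filter fun z => ∀ i, (z i).natAbs ≤ (z k).natAbs).card : ℕ) : ℝ) ≤ ∑ y ∈ P, F y := by
    intro k _
    set Ek := E.filter fun z => ∀ i, (z i).natAbs ≤ (z k).natAbs with hEk
    set π : (Fin n → ℤ) → ℕ × (Fin n → ℕ) × (Fin (n + n) → ℕ) := fun z =>
      (Nat.log 2 (z k).natAbs, fun i => Nat.log 2 (z k).natAbs - Nat.log 2 (z i).natAbs,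
        Fin.append (fun i => uu (z i)) (fun i => tz z i)) with hπ
    have hmaps : ∀ z ∈ Ek, π z ∈ P := by
      intro z hz
      obtain ⟨z1, z2⟩ := mem_filter.1 hz
      obtain ⟨g1, g2, g3, g4, g5, g5', g6⟩ := hE z z1
      have g7 := hlogT z z1 k
      rw [hP, mem_product, mem_product, Fintype.mem_piFinset, Fintype.mem_piFinset]
      refine ⟨mem_range.2 g7, fun i => mem_range.2 (by simp only [hπ]; omega), fun i => ?_⟩
      simp only [hπ]
      refine Fin.addCases (fun j => ?_) (fun j => ?_) i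
      · rw [Fin.append_left, mem_Icc]
        exact ⟨uu_pos (g3 j), (g6 j).1⟩
      · rw [Fin.append_right, mem_Icc]
        exact ⟨tz_pos z j, (g6 j).2.1⟩
    have h1 : Ek.card = ∑ y ∈ P, (Ek.filter fun z => π z = y).card :=
      card_eq_sum_card_fiberwise (fun z hz => hmaps z hz)
    rw [h1]
    push_cast
    apply sum_le_sum
    rintro ⟨κ, lam, w⟩ _
    rcases (Ek.filter fun z => π z = (κ, lam, w)).eq_empty_or_nonempty with h0 | ⟨z₀, hz₀⟩
    · rw [h0, card_empty, Nat.cast_zero]; exact hF0 _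
    -- data of the fibre
    have hdata : ∀ z ∈ Ek.filter fun z => π z = (κ, lam, w), z ∈ E ∧
        (∀ i, Nat.log 2 (z i).natAbs = κ - lam i) ∧ lam k = 0 ∧
        (Fin.append (fun i => uu (z i)) (fun i => tz z i) = w) ∧
        (∀ i, (z i).natAbs ≤ 2 ^ (κ + 1)) := by
      intro z hz
      obtain ⟨z1, z3⟩ := mem_filter.1 hz
      obtain ⟨z1, z2⟩ := mem_filter.1 z1
      have q1 : Nat.log 2 (z k).natAbs = κ := congrArg Prod.fst z3
      have q2 : ∀ i, Nat.log 2 (z k).natAbs - Nat.log 2 (z i).natAbs = lam i := fun i =>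
        congrFun (congrArg Prod.fst (congrArg Prod.snd z3)) i
      have q3 : Fin.append (fun i => uu (z i)) (fun i => tz z i) = w :=
        congrArg Prod.snd (congrArg Prod.snd z3)
      have q8 : ∀ i, Nat.log 2 (z i).natAbs ≤ Nat.log 2 (z k).natAbs := fun i =>
        Nat.log_mono_right (z2 i)
      refine ⟨z1, fun i => ?_, ?_, q3, fun i => ?_⟩
      · have := q2 i; have := q8 i; omega
      · have := q2 k; omega
      · rw [← q1]
        exact (z2 i).trans (Nat.lt_pow_succ_log_self (by norm_num) _).le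
    have huw : ∀ z ∈ Ek.filter fun z => π z = (κ, lam, w), ∀ i,
        uu (z i) = w (Fin.castAdd n i) ∧ tz z i = w (Fin.natAdd n i) := by
      intro z hz i
      obtain ⟨-, -, -, q3, -⟩ := hdata z hz
      rw [← q3, Fin.append_left, Fin.append_right]
      exact ⟨rfl, rfl⟩
    set u : Fin n → ℕ := fun i => w (Fin.castAdd n i) with hu
    set t : Fin n → ℕ := fun i => w (Fin.natAdd n i) with ht
    obtain ⟨p1, p2, p4, p5, p6⟩ := hdata z₀ hz₀
    obtain ⟨g1, g2, g3, g4, g5, ⟨i₁, g5'⟩, g6⟩ := hE z₀ p1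
    have hu1 : ∀ i, 1 ≤ u i := fun i => by
      have := (huw z₀ hz₀ i).1
      simp only [hu]
      rw [← this]; exact uu_pos (g3 i)
    have ht1 : ∀ i, 1 ≤ t i := fun i => by
      have := (huw z₀ hz₀ i).2
      simp only [ht]
      rw [← this]; exact tz_pos z₀ i
    have huU : ∀ i, u i ≤ U := fun i => by
      have := (huw z₀ hz₀ i).1
      simp only [hu]
      rw [← this]; exact (g6 i).1
    have htU : ∀ i, t i ≤ U := fun i => by
      have := (huw z₀ hz₀ i).2
      simp only [ht]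
      rw [← this]; exact (g6 i).2.1
    set e : Fin n → ℕ := fun i => κ - lam i with he
    have hpow : ∀ z ∈ Ek.filter fun z => π z = (κ, lam, w), ∀ i,
        2 ^ e i ≤ (z i).natAbs ∧ (z i).natAbs ≤ 2 ^ (e i + 1) := by
      intro z hz i
      obtain ⟨w1, w2, -⟩ := hdata z hz
      have w3 := (hE z w1).2.2.1 i
      have w4 : Nat.log 2 (z i).natAbs = e i := w2 i
      rw [← w4]
      exact ⟨Nat.pow_log_le_self 2 (Int.natAbs_ne_zero.2 w3),
        (Nat.lt_pow_succ_log_self (by norm_num) _).le⟩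
    have hlat := hLat n hn k (fun i => u i * rad (u i) * t i)
      (fun i => Nat.mul_pos (Nat.mul_pos (hu1 i) (rad_pos' _)) (ht1 i)) (fun i => 2 ^ (e i + 1)) (by
        intro i _
        have w1 : ∀ i, u i * rad (u i) * t i ≤ U * U * U := fun i =>
          Nat.mul_le_mul (Nat.mul_le_mul (huU i) ((rad_le_self' (hu1 i)).trans (huU i))) (htU i)
        calc (u i * rad (u i) * t i) * (u k * rad (u k) * t k) ≤ (U * U * U) * (U * U * U) :=
              Nat.mul_le_mul (w1 i) (w1 k)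
          _ = U ^ 6 := by ring
          _ ≤ (z₀ i).natAbs := (g6 i).2.2
          _ ≤ 2 ^ (e i + 1) := (hpow z₀ hz₀ i).2)
      (Ek.filter fun z => π z = (κ, lam, w)) (by
        intro z hz
        obtain ⟨w1, -⟩ := hdata z hz
        obtain ⟨v1, v2, v3, -⟩ := hE z w1
        refine ⟨v1, v2, fun i => ?_, fun i _ => (hpow z hz i).2⟩
        have h2 := dd_dvd v3 i
        rw [(huw z hz i).1, (huw z hz i).2] at h2
        exact Int.natCast_dvd.2 h2)
    set Q : ℝ := ∏ i, (2 : ℝ) ^ e i with hQ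
    set Uu : ℝ := ∏ i, (u i : ℝ) with hUu
    set V : ℝ := ∏ i, ((rad (u i) : ℝ) * (t i : ℝ)) with hV
    set K : ℕ := rad (∏ i, w i) with hKK
    have hw : ∏ i, w i = ∏ i, (u i * t i) := by
      rw [Fin.prod_univ_add, prod_mul_distrib]
    have hQ0 : 0 < Q := prod_pos fun i _ => by positivity
    have hu0 : ∀ i, (0 : ℝ) < u i := fun i => by exact_mod_cast hu1 i
    have ht0 : ∀ i, (0 : ℝ) < t i := fun i => by exact_mod_cast ht1 i
    have hUu0 : 0 < Uu := prod_pos fun i _ => hu0 i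
    have hV0 : 0 < V := prod_pos fun i _ => mul_pos (by exact_mod_cast rad_pos' _) (ht0 i)
    have hK0 : (0 : ℝ) < K := by exact_mod_cast rad_pos' _
    have hzr : ∏ i, ((z₀ i).natAbs : ℝ) = (∏ i, (rad (z₀ i).natAbs : ℝ)) * Uu := by
      rw [← prod_mul_distrib]
      apply prod_congr rfl
      intro i _
      have := (huw z₀ hz₀ i).1
      have h2 : (rad (z₀ i).natAbs) * uu (z₀ i) = (z₀ i).natAbs := rad_mul_uu (g3 i)
      rw [this] at h2
      exact_mod_cast h2.symm
    have hQz : Q ≤ ∏ i, ((z₀ i).natAbs : ℝ) := by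
      apply prod_le_prod
      · intro i _; positivity
      · intro i _; exact_mod_cast (hpow z₀ hz₀ i).1
    have hKV : (K : ℝ) ≤ V := by
      have h2 : K ∣ ∏ i, (rad (u i) * t i) := by
        rw [hKK, hw]
        apply rad_dvd_of
        intro q hq hq2
        obtain ⟨i, -, hi⟩ := (Nat.Prime.prime hq).exists_mem_finset_dvd hq2
        refine dvd_trans ?_ (Finset.dvd_prod_of_mem _ (mem_univ i))
        rcases (Nat.Prime.dvd_mul hq).1 hi with h | h
        · exact (prime_dvd_rad (by have := hu1 i; omega) hq h).mul_right _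
        · exact h.mul_left _
      have h3 : 0 < ∏ i, (rad (u i) * t i) :=
        Finset.prod_pos fun i _ => Nat.mul_pos (rad_pos' _) (ht1 i)
      have h4 := Nat.le_of_dvd h3 h2
      have h5 : ((∏ i, (rad (u i) * t i) : ℕ) : ℝ) = V := by rw [hV]; push_cast; rfl
      rw [← h5]
      exact_mod_cast h4
    set N : ℝ := (rad (∏ i, (z₀ i).natAbs) : ℝ) with hN
    have hN0 : 0 < N := by rw [hN]; exact_mod_cast rad_pos' _
    have hshared : (∏ i, (rad (z₀ i).natAbs : ℝ)) * K ≤ N * V := by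
      have h2 := shared (z := z₀) g3
      have h3 : ∏ i, uu (z₀ i) * tz z₀ i = ∏ i, w i := by
        rw [hw]
        apply prod_congr rfl
        intro i _
        rw [(huw z₀ hz₀ i).1, (huw z₀ hz₀ i).2]
      have h4 : ∏ i, (rad (uu (z₀ i)) * tz z₀ i) = ∏ i, (rad (u i) * t i) := by
        apply prod_congr rfl
        intro i _
        rw [(huw z₀ hz₀ i).1, (huw z₀ hz₀ i).2]
      rw [h3, h4] at h2
      have h5 : ((∏ i, (rad (u i) * t i) : ℕ) : ℝ) = V := by rw [hV]; push_cast; rfl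
      rw [← h5, hN, hKK]
      exact_mod_cast h2
    set Z : ℝ := 2 ^ (κ + 1) with hZ
    have hZ1 : 1 ≤ Z := one_le_pow₀ (by norm_num)
    have hNZ : N ≤ Z ^ (1 / M) := by
      have h2 : N ^ M ≤ Z := by
        refine g5'.trans ?_
        rw [hZ]
        exact_mod_cast p6 i₁
      calc N = (N ^ M) ^ (1 / M) := by
            rw [← Real.rpow_mul hN0.le, mul_one_div_cancel hM.ne', Real.rpow_one]
        _ ≤ _ := Real.rpow_le_rpow (Real.rpow_nonneg hN0.le _) h2 (one_div_nonneg.2 hM.le)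
    have hmain : Q * K ≤ min X (Z ^ (1 / M)) * (V * Uu) := by
      have hR0 : 0 ≤ ∏ i, (rad (z₀ i).natAbs : ℝ) := prod_nonneg fun _ _ => Nat.cast_nonneg _
      rcases min_choice X (Z ^ (1 / M)) with h | h
      · rw [h]
        calc Q * K ≤ ((∏ i, (rad (z₀ i).natAbs : ℝ)) * Uu) * V := by
              rw [← hzr]; exact mul_le_mul hQz hKV hK0.le (hQ0.le.trans hQz)
          _ ≤ (X * Uu) * V := by
              apply mul_le_mul_of_nonneg_right _ hV0.le
              exact mul_le_mul_of_nonneg_right g5 hUu0.le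
          _ = _ := by ring
      · rw [h]
        calc Q * K ≤ ((∏ i, (rad (z₀ i).natAbs : ℝ)) * Uu) * K := by
              rw [← hzr]; exact mul_le_mul_of_nonneg_right hQz hK0.le
          _ = ((∏ i, (rad (z₀ i).natAbs : ℝ)) * K) * Uu := by ring
          _ ≤ (N * V) * Uu := mul_le_mul_of_nonneg_right hshared hUu0.le
          _ ≤ (Z ^ (1 / M) * V) * Uu := by
              apply mul_le_mul_of_nonneg_right _ hUu0.le
              exact mul_le_mul_of_nonneg_right hNZ hV0.le
          _ = _ := by ring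
    have hNk : ∏ i ∈ univ.erase k, ((2 ^ (e i + 1) : ℕ) : ℝ) = 2 ^ (n - 1) * (Q / 2 ^ κ) := by
      have w1 : Q = 2 ^ e k * ∏ i ∈ univ.erase k, (2 : ℝ) ^ e i := by
        rw [hQ, Finset.mul_prod_erase univ (fun i => (2 : ℝ) ^ e i) (mem_univ k)]
      have w2 : e k = κ := by simp only [he, p4]; omega
      have w3 : ∏ i ∈ univ.erase k, ((2 ^ (e i + 1) : ℕ) : ℝ) =
          2 ^ (n - 1) * ∏ i ∈ univ.erase k, (2 : ℝ) ^ e i := by
        push_cast
        have : ∀ i, (2 : ℝ) ^ (e i + 1) = 2 * 2 ^ e i := fun i => by rw [pow_succ]; ring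
        rw [prod_congr rfl fun i _ => this i, prod_mul_distrib, prod_const,
          card_erase_of_mem (mem_univ k), card_univ, Fintype.card_fin]
      rw [w3, w1, w2]
      congr 1
      field_simp
    rw [hNk] at hlat
    have hprodd : ∏ i, ((u i * rad (u i) * t i : ℕ) : ℝ) = Uu * V := by
      rw [hUu, hV, ← prod_mul_distrib]
      apply prod_congr rfl
      intro i _
      push_cast
      ring
    rw [hprodd] at hlat
    set cF : ℝ := (((Ek.filter fun z => π z = (κ, lam, w)).card : ℕ) : ℝ) with hcF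
    have h6 : (3 : ℝ) ^ (n - 1) * (2 ^ (n - 1) * (Q / 2 ^ κ)) = 6 ^ (n - 1) * (Q / 2 ^ κ) := by
      rw [← mul_assoc, ← mul_pow]; norm_num
    rw [h6] at hlat
    have hUV : 0 < Uu * V := mul_pos hUu0 hV0
    have hfin : cF * K ≤ c := by
      have h7 : cF * (Uu * V) * K ≤ 6 ^ (n - 1) * ((min X (Z ^ (1 / M)) * (V * Uu)) / 2 ^ κ) := by
        calc cF * (Uu * V) * K ≤ 6 ^ (n - 1) * (Q / 2 ^ κ) * K :=
              mul_le_mul_of_nonneg_right hlat hK0.le
          _ = 6 ^ (n - 1) * ((Q * K) / 2 ^ κ) := by ring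
          _ ≤ _ := by
              apply mul_le_mul_of_nonneg_left _ (pow_nonneg (by norm_num) _)
              exact div_le_div_of_nonneg_right hmain (pow_nonneg (by norm_num) _)
      have h8 : min X (Z ^ (1 / M)) ≤ Z * X ^ (1 - M) := min_bound hX hZ1 hM hM1
      have h9 : 6 ^ (n - 1) * ((min X (Z ^ (1 / M)) * (V * Uu)) / 2 ^ κ) ≤ c * (Uu * V) := by
        calc 6 ^ (n - 1) * ((min X (Z ^ (1 / M)) * (V * Uu)) / 2 ^ κ)
            ≤ 6 ^ (n - 1) * (((Z * X ^ (1 - M)) * (V * Uu)) / 2 ^ κ) := by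
              apply mul_le_mul_of_nonneg_left _ (pow_nonneg (by norm_num) _)
              apply div_le_div_of_nonneg_right _ (pow_nonneg (by norm_num) _)
              exact mul_le_mul_of_nonneg_right h8 (mul_nonneg hV0.le hUu0.le)
          _ = c * (Uu * V) := by
              rw [hc, hZ, pow_succ]
              field_simp
      have h10 : (cF * K) * (Uu * V) ≤ c * (Uu * V) := by
        calc (cF * K) * (Uu * V) = cF * (Uu * V) * K := by ring
          _ ≤ _ := h7.trans h9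
      exact le_of_mul_le_mul_right h10 hUV
    calc cF ≤ c / K := by rw [le_div_iff₀ hK0]; exact hfin
      _ = F (κ, lam, w) := by
          simp only [hF]
          ring
  have hcov : E ⊆ univ.biUnion fun k => E.filter fun z => ∀ i, (z i).natAbs ≤ (z k).natAbs := by
    intro z hz
    obtain ⟨k, -, hk2⟩ := exists_max_image (univ : Finset (Fin n)) (fun i => (z i).natAbs)
      ⟨⟨0, by omega⟩, mem_univ _⟩
    rw [mem_biUnion]
    exact ⟨k, mem_univ _, mem_filter.2 ⟨hz, fun i => hk2 i (mem_univ i)⟩⟩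
  calc (E.card : ℝ) ≤ ((univ.biUnion fun k =>
        E.filter fun z => ∀ i, (z i).natAbs ≤ (z k).natAbs).card : ℝ) := by
        exact_mod_cast card_le_card hcov
    _ ≤ ∑ k : Fin n, (((E.filter fun z => ∀ i, (z i).natAbs ≤ (z k).natAbs).card : ℕ) : ℝ) := by
        exact_mod_cast card_biUnion_le
    _ ≤ ∑ _k : Fin n, c * (CL * ((n : ℝ) ^ (δ / 2) * X ^ (δ / 2)) * (CK * X ^ (δ / 2))) :=
        sum_le_sum fun k hk' => (hk k hk').trans hsum
    _ = n * (c * (CL * ((n : ℝ) ^ (δ / 2) * X ^ (δ / 2)) * (CK * X ^ (δ / 2)))) := by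
        rw [sum_const, nsmul_eq_mul, card_univ, Fintype.card_fin]
    _ = n * (6 ^ (n - 1) * 2 * (CL * (n : ℝ) ^ (δ / 2)) * CK) *
          (X ^ (1 - M) * (X ^ (δ / 2) * X ^ (δ / 2))) := by rw [hc]; ring
    _ = _ := by
        rw [← Real.rpow_add hX0, ← Real.rpow_add hX0]
        congr 2
        ring

end Pool.Agent.Y594.NT
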