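import Pool.Agent.Y594.NT.Stm
import Pool.Agent.H705R2.ABC.Main

/-!
# The pair bound (helper594)
-/

set_option autoImplicit false

namespace Pool.Agent.Y594.NT

open Finset Pool.Agent.H785R2.ABC Pool.Agent.H705R2.ABC

theorem m1' : StmtM1 := stmtM1_of basics stmtA4' stmtD'

/-- arithmetic of one equation -/
theorem cop_aux {a b t s : ℤ} {f : ℕ} (hab : IsCoprime a b) (hat : IsCoprime a s)
    (hE : a * t + b * s = f ∨ a * t + b * s = -f) : IsCoprime a (f : ℤ) := by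
  have h1 : IsCoprime a (b * s) := IsCoprime.mul_right hab hat
  have h2 : IsCoprime a (b * s + a * t) := h1.add_mul_left_right t
  rcases hE with h | h
  · have : b * s + a * t = f := by linarith
    rwa [this] at h2
  · have : b * s + a * t = -f := by linarith
    rw [this] at h2
    exact (IsCoprime.neg_right_iff a f).1 h2

/-- The number of solutions of `wp * x + wk * y = γ` in numbers with bounded parts. -/
theorem pair_fixed (K : ℕ) (lam : ℝ) (hlam : 1 ≤ lam) (ε : ℝ) (hε : 0 < ε) :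
    ∃ D : ℝ, 0 < D ∧ ∀ X : ℕ, 1 ≤ X → ∀ wp wk γ : ℤ, wp ≠ 0 → wk ≠ 0 → γ ≠ 0 → γ.natAbs ≤ X →
    ∀ j : Fin (K + 1), (j : ℕ) < K → ∀ a a' R R' H τ : ℝ, 0 < a → 0 < a' → 0 ≤ R → 0 ≤ R' →
    0 < H → 0 < τ → ∀ P : Finset (ℕ × ℕ),
    (∀ t ∈ P, 1 ≤ t.1 ∧ t.1 ≤ X ∧ 1 ≤ t.2 ∧ t.2 ≤ X ∧ Nat.Coprime t.1 t.2 ∧
      IsCoprime wk (t.1 : ℤ) ∧ IsCoprime wp (t.2 : ℤ) ∧
      wp * t.1 + wk * t.2 = γ ∧
      (rd K t.1 {j} : ℝ) ≤ a ∧ (rd K t.2 {j} : ℝ) ≤ a' ∧ a' ≤ lam * rd K t.2 {j} ∧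
      (rd K t.1 {j}ᶜ : ℝ) ≤ R ∧ (rd K t.2 {j}ᶜ : ℝ) ≤ R' ∧
      τ ≤ t.1 ∧ (t.1 : ℝ) ≤ lam * τ ∧ H ≤ |(wk : ℝ)| * t.2 ∧ |(wk : ℝ)| * t.2 ≤ lam * H) →
    (P.card : ℝ) ≤ D * (X : ℝ) ^ ε * (R * R') *
      (1 + a * a' * (Int.gcd wp wk : ℝ) / H) := by
  classical
  obtain ⟨D, hD, hM⟩ := m1' K ε hε (lam ^ (K + 1)) (one_le_pow₀ hlam)
  refine ⟨D * (4 * lam ^ 2), by positivity, ?_⟩
  intro X hX wp wk γ hwp hwk hγ hγX j hj a a' R R' H τ ha ha' hR hR' hH hτ P hP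
  have hlam0 : 0 < lam := by linarith
  have hX0 : (0 : ℝ) < X := by exact_mod_cast hX
  rcases P.eq_empty_or_nonempty with hE | ⟨t₀, ht₀⟩
  · rw [hE, Finset.card_empty, Nat.cast_zero]
    positivity
  obtain ⟨h01, h02, h03, h04, h05, h06, h07, h08, -⟩ := hP t₀ ht₀
  -- the gcd
  obtain ⟨d, hd⟩ : ∃ d : ℕ, d = Int.gcd wp wk := ⟨_, rfl⟩
  have hd0 : 0 < d := by
    rw [hd]; exact Int.gcd_pos_of_ne_zero_left _ hwp
  obtain ⟨wp', hwp'⟩ : (d : ℤ) ∣ wp := by rw [hd]; exact Int.gcd_dvd_left _ _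
  obtain ⟨wk', hwk'⟩ : (d : ℤ) ∣ wk := by rw [hd]; exact Int.gcd_dvd_right _ _
  have hdz : (d : ℤ) ≠ 0 := by exact_mod_cast hd0.ne'
  have hcop : IsCoprime wp' wk' := by
    rw [Int.isCoprime_iff_gcd_eq_one]
    have h1 : Int.gcd (d * wp') (d * wk') = d * Int.gcd wp' wk' := by
      rw [Int.gcd_mul_left]; simp
    rw [← hwp', ← hwk', ← hd] at h1
    have h2 : d * Int.gcd wp' wk' = d * 1 := by rw [← h1, mul_one]
    exact Nat.eq_of_mul_eq_mul_left hd0 h2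
  obtain ⟨γ', hγ'⟩ : ∃ γ' : ℤ, γ = d * γ' := ⟨wp' * t₀.1 + wk' * t₀.2, by
    rw [← h08, hwp', hwk']; ring⟩
  have hγ'0 : γ' ≠ 0 := by rintro rfl; exact hγ (by rw [hγ', mul_zero])
  obtain ⟨f, hf⟩ : ∃ f : ℕ, f = γ'.natAbs := ⟨_, rfl⟩
  have hf1 : 1 ≤ f := by rw [hf]; exact Int.natAbs_pos.2 hγ'0
  have hfX : f ≤ X := by
    refine le_trans ?_ hγX
    rw [hγ', Int.natAbs_mul, hf, Int.natAbs_natCast]
    exact Nat.le_mul_of_pos_left _ hd0
  have hgabs : γ' = f ∨ γ' = -f := by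
    rw [hf]; exact Int.natAbs_eq γ'
  have hEq : ∀ t ∈ P, wp' * (t.1 : ℤ) + wk' * (t.2 : ℤ) = γ' := by
    intro t ht
    have h1 := (hP t ht).2.2.2.2.2.2.2.1
    rw [hwp', hwk', hγ'] at h1
    apply mul_left_cancel₀ hdz
    linarith
  have hEq' : ∀ t ∈ P, wp' * (t.1 : ℤ) + wk' * (t.2 : ℤ) = f ∨
      wp' * (t.1 : ℤ) + wk' * (t.2 : ℤ) = -f := by
    intro t ht
    rw [hEq t ht]; exact hgabs
  have hck : ∀ t ∈ P, IsCoprime wk' (t.1 : ℤ) := fun t ht =>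
    IsCoprime.of_isCoprime_of_dvd_left (hP t ht).2.2.2.2.2.1 ⟨d, by rw [hwk']; ring⟩
  have hcp : ∀ t ∈ P, IsCoprime wp' (t.2 : ℤ) := fun t ht =>
    IsCoprime.of_isCoprime_of_dvd_left (hP t ht).2.2.2.2.2.2.1 ⟨d, by rw [hwp']; ring⟩
  have hup : IsCoprime wp' (f : ℤ) := cop_aux hcop (hcp t₀ ht₀) (hEq' t₀ ht₀)
  have huk : IsCoprime wk' (f : ℤ) := by
    refine cop_aux hcop.symm (hck t₀ ht₀) (s := (t₀.1 : ℤ)) (t := (t₀.2 : ℤ)) ?_
    rcases hEq' t₀ ht₀ with h | h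
    · left; linarith
    · right; linarith
  have hunit : ∀ z : ℤ, IsCoprime z (f : ℤ) → IsUnit ((z : ℤ) : ZMod f) := by
    intro z hz
    obtain ⟨u, v, huv⟩ := hz
    have h1 : ((u * z + v * f : ℤ) : ZMod f) = 1 := by rw [huv]; simp
    push_cast at h1
    rw [ZMod.natCast_self, mul_zero, add_zero, mul_comm] at h1
    exact IsUnit.of_mul_eq_one _ h1
  obtain ⟨up, hup'⟩ := hunit _ hup
  obtain ⟨uk, huk'⟩ := hunit _ huk
  -- coprimality with f
  have hct : ∀ t ∈ P, Nat.Coprime t.1 f ∧ Nat.Coprime t.2 f := by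
    intro t ht
    have h1 : IsCoprime (t.1 : ℤ) (t.2 : ℤ) := Nat.isCoprime_iff_coprime.2 (hP t ht).2.2.2.2.1
    constructor
    · rw [← Nat.isCoprime_iff_coprime]
      refine cop_aux (a := (t.1 : ℤ)) (b := (t.2 : ℤ)) (t := wp') (s := wk') h1
        (hck t ht).symm ?_
      rcases hEq' t ht with h | h
      · left; linarith
      · right; linarith
    · rw [← Nat.isCoprime_iff_coprime]
      refine cop_aux (a := (t.2 : ℤ)) (b := (t.1 : ℤ)) (t := wk') (s := wp') h1.symm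
        (hcp t ht).symm ?_
      rcases hEq' t ht with h | h
      · left; linarith
      · right; linarith
  -- the congruence
  have hcong : ∀ t ∈ P, (t.1 : ZMod f) = (-(uk : ZMod f) * ((up⁻¹ : (ZMod f)ˣ) : ZMod f)) *
      (t.2 : ZMod f) := by
    intro t ht
    have h1 : ((wp' * (t.1 : ℤ) + wk' * (t.2 : ℤ) : ℤ) : ZMod f) = 0 := by
      rw [hEq t ht]
      rcases hgabs with h | h
      · rw [h]; simp
      · rw [h]; simp
    push_cast at h1
    rw [← hup', ← huk'] at h1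
    have h2 : (up : ZMod f) * ((up⁻¹ : (ZMod f)ˣ) : ZMod f) = 1 := Units.mul_inv up
    calc (t.1 : ZMod f) = ((up : ZMod f) * ((up⁻¹ : (ZMod f)ˣ) : ZMod f)) * t.1 := by
          rw [h2, one_mul]
      _ = ((up⁻¹ : (ZMod f)ˣ) : ZMod f) * ((up : ZMod f) * t.1) := by ring
      _ = ((up⁻¹ : (ZMod f)ˣ) : ZMod f) * (-((uk : ZMod f) * t.2)) := by
          rw [eq_neg_of_add_eq_zero_left h1]
      _ = _ := by ring
  have hσ : IsUnit (-(uk : ZMod f) * ((up⁻¹ : (ZMod f)ˣ) : ZMod f)) :=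
    (uk.isUnit.neg).mul (up⁻¹).isUnit
  -- real quantities
  have hwkR : 0 < |(wk : ℝ)| := abs_pos.2 (by exact_mod_cast hwk)
  have hwpR : 0 < |(wp : ℝ)| := abs_pos.2 (by exact_mod_cast hwp)
  have hfR : (0 : ℝ) < f := by exact_mod_cast hf1
  have hdR : (0 : ℝ) < d := by exact_mod_cast hd0
  have hγR : |(γ : ℝ)| = d * f := by
    rw [hγ']
    push_cast
    rw [abs_mul, abs_of_pos hdR, hf]
    congr 1
    rw [Nat.cast_natAbs]; push_cast; rfl
  -- the window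
  obtain ⟨ρ, δ, hρ, hδ, hδf, hwin⟩ : ∃ ρ δ : ℝ, 0 < ρ ∧ 0 ≤ δ ∧
      δ / f ≤ 4 * lam ^ 2 * d / H ∧
      ∀ t ∈ P, ρ * t.2 ≤ t.1 ∧ (t.1 : ℝ) ≤ ρ * (1 + δ) * t.2 := by
    by_cases hbig : H / 2 ≤ |(γ : ℝ)|
    · refine ⟨τ * |(wk : ℝ)| / (lam * H), lam ^ 2 - 1, by positivity, ?_, ?_, ?_⟩
      · nlinarith
      · rw [div_le_div_iff₀ hfR hH]
        have h1 : H ≤ 2 * (d * f) := by rw [← hγR]; linarith
        have h2 : 0 ≤ lam ^ 2 - 1 := by nlinarith
        calc (lam ^ 2 - 1) * H ≤ (lam ^ 2 - 1) * (2 * (d * f)) :=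
              mul_le_mul_of_nonneg_left h1 h2
          _ ≤ 4 * lam ^ 2 * d * f := by
              have : 0 ≤ (d : ℝ) * f := by positivity
              nlinarith
      · intro t ht
        obtain ⟨-, -, -, -, -, -, -, -, -, -, -, -, -, g1, g2, g3, g4⟩ := hP t ht
        constructor
        · rw [div_mul_eq_mul_div, div_le_iff₀ (by positivity)]
          calc τ * |(wk : ℝ)| * t.2 = τ * (|(wk : ℝ)| * t.2) := by ring
            _ ≤ t.1 * (lam * H) := mul_le_mul g1 g4 (by positivity) (by positivity)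
        · have e1 : τ * |(wk : ℝ)| / (lam * H) * (1 + (lam ^ 2 - 1)) * t.2 =
            (lam * τ) * ((|(wk : ℝ)| * t.2) / H) := by
            field_simp
            ring
          rw [e1]
          have h1 : 1 ≤ (|(wk : ℝ)| * t.2) / H := by rw [le_div_iff₀ hH]; linarith
          have h2 : 0 ≤ lam * τ := by positivity
          nlinarith
    · rw [not_le] at hbig
      obtain ⟨u, hu⟩ : ∃ u : ℝ, u = |(γ : ℝ)| / H := ⟨_, rfl⟩
      have hu0 : 0 ≤ u := by rw [hu]; positivity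
      have hu1 : u ≤ 1 / 2 := by
        rw [hu, div_le_iff₀ hH]; linarith
      have huH : u * H = |(γ : ℝ)| := by rw [hu, div_mul_cancel₀ _ hH.ne']
      refine ⟨(1 - u) * |(wk : ℝ)| / |(wp : ℝ)|, 4 * u, ?_, by positivity, ?_, ?_⟩
      · have : 0 < 1 - u := by linarith
        positivity
      · rw [hu, hγR]
        have e1 : 4 * ((d : ℝ) * f / H) / f = 4 * d / H := by
          field_simp
        rw [e1]
        apply div_le_div_of_nonneg_right _ hH.le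
        have : (1 : ℝ) ≤ lam ^ 2 := one_le_pow₀ hlam
        nlinarith
      · intro t ht
        obtain ⟨-, -, -, -, -, -, -, g0, -, -, -, -, -, g1, g2, g3, g4⟩ := hP t ht
        have g0' : (wp : ℝ) * t.1 + (wk : ℝ) * t.2 = γ := by exact_mod_cast g0
        have ht2 : (0 : ℝ) ≤ t.2 := Nat.cast_nonneg _
        have ht1 : (0 : ℝ) ≤ t.1 := Nat.cast_nonneg _
        have hk : |(wk : ℝ) * t.2| = |(wk : ℝ)| * t.2 := by rw [abs_mul, abs_of_nonneg ht2]
        have hp : |(wp : ℝ) * t.1| = |(wp : ℝ)| * t.1 := by rw [abs_mul, abs_of_nonneg ht1]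
        have hle : |(γ : ℝ)| ≤ u * (|(wk : ℝ)| * t.2) := by
          rw [← huH]; exact mul_le_mul_of_nonneg_left g3 hu0
        have h1 : |(wp : ℝ)| * t.1 ≤ |(wk : ℝ)| * t.2 + |(γ : ℝ)| := by
          rw [← hp, ← hk]
          have : (wp : ℝ) * t.1 = γ - wk * t.2 := by linarith
          rw [this]
          have := abs_sub (γ : ℝ) (wk * t.2)
          linarith
        have h2 : |(wk : ℝ)| * t.2 ≤ |(wp : ℝ)| * t.1 + |(γ : ℝ)| := by
          rw [← hp, ← hk]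
          have : (wk : ℝ) * t.2 = γ - wp * t.1 := by linarith
          rw [this]
          have := abs_sub (γ : ℝ) (wp * t.1)
          linarith
        constructor
        · rw [div_mul_eq_mul_div, div_le_iff₀ hwpR]
          nlinarith
        · have e1 : (1 - u) * |(wk : ℝ)| / |(wp : ℝ)| * (1 + 4 * u) * t.2 =
            ((1 - u) * (1 + 4 * u)) * (|(wk : ℝ)| * t.2) / |(wp : ℝ)| := by ring
          rw [e1, le_div_iff₀ hwpR]
          have h3 : 1 + u ≤ (1 - u) * (1 + 4 * u) := by nlinarith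
          have h4 : 0 ≤ |(wk : ℝ)| * t.2 := by positivity
          nlinarith [mul_le_mul_of_nonneg_right h3 h4]
  -- apply M1
  have hGood : Good K ((j : ℕ) + 1) {j} := by
    intro i hi
    rw [Finset.mem_singleton] at hi
    subst hi
    exact Or.inr ⟨hj, dvd_rfl⟩
  have hpart : ∀ x : ℕ, (part K x {j} : ℝ) = (rd K x {j} : ℝ) ^ ((j : ℕ) + 1) := by
    intro x
    rw [basics.part_single K x j hj]
    push_cast
    rfl
  have hje : (j : ℕ) + 1 ≤ K + 1 := by omega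
  have hmain := hM ((j : ℕ) + 1) (by omega) hje X f hX hf1 hfX _ hσ {j} {j} hGood hGood
    (a ^ ((j : ℕ) + 1)) (a' ^ ((j : ℕ) + 1)) R R' ρ δ (by positivity) (by positivity) hR hR' hρ hδ
    P (by
      intro t ht
      obtain ⟨g1, g2, g3, g4, g5, g6, g7, g8, g9, g10, g11, g12, g13, -⟩ := hP t ht
      refine ⟨g1, g2, g3, g4, g5, (hct t ht).1, (hct t ht).2, hcong t ht, ?_, ?_, ?_, g12, g13,
        (hwin t ht).1, (hwin t ht).2⟩
      · rw [hpart]; exact pow_le_pow_left₀ (Nat.cast_nonneg _) g9 _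
      · rw [hpart]; exact pow_le_pow_left₀ (Nat.cast_nonneg _) g10 _
      · rw [hpart]
        calc a' ^ ((j : ℕ) + 1) ≤ (lam * rd K t.2 {j}) ^ ((j : ℕ) + 1) :=
              pow_le_pow_left₀ ha'.le g11 _
          _ = lam ^ ((j : ℕ) + 1) * (rd K t.2 {j} : ℝ) ^ ((j : ℕ) + 1) := mul_pow _ _ _
          _ ≤ lam ^ (K + 1) * (rd K t.2 {j} : ℝ) ^ ((j : ℕ) + 1) := by
              apply mul_le_mul_of_nonneg_right _ (by positivity)
              exact pow_le_pow_right₀ hlam hje)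
  have hroot : (a ^ ((j : ℕ) + 1) * a' ^ ((j : ℕ) + 1)) ^ ((1 : ℝ) / (((j : ℕ) + 1 : ℕ) : ℝ)) =
      a * a' := by
    rw [← mul_pow, one_div]
    exact Real.pow_rpow_inv_natCast (by positivity) (by omega)
  rw [hroot] at hmain
  refine hmain.trans ?_
  have h5 : 1 + δ * (a * a') / f ≤ 4 * lam ^ 2 * (1 + a * a' * (d : ℝ) / H) := by
    have h6 : δ * (a * a') / f = (δ / f) * (a * a') := by ring
    rw [h6]
    have h7 : (δ / f) * (a * a') ≤ 4 * lam ^ 2 * d / H * (a * a') :=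
      mul_le_mul_of_nonneg_right hδf (by positivity)
    have h8 : (1 : ℝ) ≤ 4 * lam ^ 2 := by nlinarith [one_le_pow₀ (n := 2) hlam]
    calc 1 + (δ / f) * (a * a') ≤ 4 * lam ^ 2 + 4 * lam ^ 2 * d / H * (a * a') := by linarith
      _ = _ := by ring
  rw [← hd]
  calc D * (X : ℝ) ^ ε * (R * R') * (1 + δ * (a * a') / f)
      ≤ D * (X : ℝ) ^ ε * (R * R') * (4 * lam ^ 2 * (1 + a * a' * (d : ℝ) / H)) :=
        mul_le_mul_of_nonneg_left h5 (by positivity)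
    _ = _ := by ring

end Pool.Agent.Y594.NT
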