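import Pool.Agent.Y594.NT.Frag

/-!
# Tuples with small common factors (helper594)
-/

set_option autoImplicit false

namespace Pool.Agent.Y594.NT

open Finset Pool.Agent.H785R2.ABC Pool.Agent.H705R2.ABC

/-- the part of the `i`-th coordinate that is coprime to the other coordinates -/
noncomputable def cpart {n : ℕ} (b : Fin n → ℤ) (i : Fin n) : ℕ :=
  cp (b i).natAbs (fun q => ∀ k, k ≠ i → ¬ (q : ℤ) ∣ b k)

/-- the other part -/
noncomputable def vpart {n : ℕ} (b : Fin n → ℤ) (i : Fin n) : ℕ :=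
  cp (b i).natAbs (fun q => ¬ ∀ k, k ≠ i → ¬ (q : ℤ) ∣ b k)

/-- the other part with the sign -/
noncomputable def wpart {n : ℕ} (b : Fin n → ℤ) (i : Fin n) : ℤ := (b i).sign * (vpart b i : ℤ)

section

variable {n : ℕ} {b : Fin n → ℤ}

theorem cpart_pos (b : Fin n → ℤ) (i : Fin n) : 0 < cpart b i := cp_pos _ _

theorem vpart_pos (b : Fin n → ℤ) (i : Fin n) : 0 < vpart b i := cp_pos _ _

theorem cv_mul (hb : ∀ i, b i ≠ 0) (i : Fin n) : cpart b i * vpart b i = (b i).natAbs :=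
  cp_mul _ (Int.natAbs_ne_zero.2 (hb i)) _

theorem wc_mul (hb : ∀ i, b i ≠ 0) (i : Fin n) : wpart b i * (cpart b i : ℤ) = b i := by
  have h1 := cv_mul hb i
  calc wpart b i * (cpart b i : ℤ) = (b i).sign * ((cpart b i * vpart b i : ℕ) : ℤ) := by
        rw [wpart]; push_cast; ring
    _ = b i := by rw [h1]; exact Int.sign_mul_natAbs _

theorem wpart_natAbs (hb : ∀ i, b i ≠ 0) (i : Fin n) : (wpart b i).natAbs = vpart b i := by
  rw [wpart, Int.natAbs_mul, Int.natAbs_natCast, Int.natAbs_sign_of_ne_zero (hb i), one_mul]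

theorem cpart_dvd (hb : ∀ i, b i ≠ 0) (i : Fin n) : cpart b i ∣ (b i).natAbs :=
  cp_dvd _ (Int.natAbs_ne_zero.2 (hb i)) _

theorem vpart_dvd (hb : ∀ i, b i ≠ 0) (i : Fin n) : vpart b i ∣ (b i).natAbs :=
  cp_dvd _ (Int.natAbs_ne_zero.2 (hb i)) _

theorem cpart_cop (hb : ∀ i, b i ≠ 0) {i k : Fin n} (hik : i ≠ k) :
    Nat.Coprime (cpart b i) (cpart b k) := by
  apply cp_cop
  intro q _ hQ hq
  exact hQ k hik.symm (Int.natCast_dvd.2 (hq.trans (cpart_dvd hb k)))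

theorem vc_cop (hb : ∀ i, b i ≠ 0) (i k : Fin n) : Nat.Coprime (cpart b i) (vpart b k) := by
  apply cp_cop
  intro q hqp hQ hq
  by_cases hik : k = i
  · subst hik
    exact (cp_prime hqp hq).1 hQ
  · exact hQ k hik (Int.natCast_dvd.2 (hq.trans (vpart_dvd hb k)))

theorem wc_cop (hb : ∀ i, b i ≠ 0) (i k : Fin n) : IsCoprime (wpart b k) (cpart b i : ℤ) := by
  rw [Int.isCoprime_iff_gcd_eq_one, Int.gcd_eq_natAbs, wpart_natAbs hb, Int.natAbs_natCast]
  exact (vc_cop hb i k).symm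

theorem w_gcd (hb : ∀ i, b i ≠ 0) (i k : Fin n) :
    Int.gcd (wpart b i) (wpart b k) ≤ Int.gcd (b i) (b k) := by
  apply Nat.le_of_dvd (Int.gcd_pos_of_ne_zero_left _ (hb i))
  rw [Int.gcd_eq_natAbs, wpart_natAbs hb, wpart_natAbs hb, Int.gcd_eq_natAbs]
  exact Nat.dvd_gcd ((Nat.gcd_dvd_left _ _).trans (vpart_dvd hb i))
    ((Nat.gcd_dvd_right _ _).trans (vpart_dvd hb k))

theorem vpart_rad (hb : ∀ i, b i ≠ 0) (i : Fin n) {W : ℝ} (hW : 1 ≤ W)
    (h : ∀ k, i ≠ k → (rad (Int.gcd (b i) (b k)) : ℝ) ≤ W) : (rad (vpart b i) : ℝ) ≤ W ^ n := by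
  classical
  have hd : rad (vpart b i) ∣ ∏ k ∈ univ.erase i, rad (Int.gcd (b i) (b k)) := by
    apply rad_dvd_of
    intro q hq hqv
    obtain ⟨h1, h2⟩ := cp_prime hq hqv
    push Not at h1
    obtain ⟨k, hki, hk⟩ := h1
    refine (prime_dvd_rad (Int.gcd_pos_of_ne_zero_left _ (hb i)).ne' hq ?_).trans
      (Finset.dvd_prod_of_mem _ (mem_erase.2 ⟨hki, mem_univ k⟩))
    exact Int.natCast_dvd_natCast.1 (Int.dvd_coe_gcd (Int.natCast_dvd.2 h2) hk)
  have hpos : 0 < ∏ k ∈ univ.erase i, rad (Int.gcd (b i) (b k)) :=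
    Finset.prod_pos fun k _ => rad_pos' _
  have h1 : (rad (vpart b i) : ℝ) ≤ ∏ k ∈ univ.erase i, (rad (Int.gcd (b i) (b k)) : ℝ) := by
    exact_mod_cast Nat.le_of_dvd hpos hd
  refine h1.trans ?_
  calc ∏ k ∈ univ.erase i, (rad (Int.gcd (b i) (b k)) : ℝ) ≤ ∏ _k ∈ univ.erase i, W := by
        apply prod_le_prod
        · intro k _; exact Nat.cast_nonneg _
        · intro k hk
          exact h k (mem_erase.1 hk).1.symm
    _ = W ^ (univ.erase i).card := by rw [prod_const]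
    _ ≤ W ^ n := by
        apply pow_le_pow_right₀ hW
        exact (card_le_univ _).trans (by rw [Fintype.card_fin])

end

/-- (C) tuples with small common factors -/
theorem redC (n : ℕ) (hn : 3 ≤ n) (η A : ℝ) (hη : 0 < η) (hA : 1 ≤ A) : ∃ κ : ℝ, 0 < κ ∧ κ ≤ 1 ∧
    ∀ ε : ℝ, 0 < ε →
    ∃ C : ℝ, 0 < C ∧ ∀ Z : ℝ, 1 ≤ Z → ∀ Y : ℕ, 1 ≤ Y → (Y : ℝ) ≤ Z ^ A → ∀ W : ℝ, 1 ≤ W →
    ∀ E : Finset (Fin n → ℤ),
    (∀ b ∈ E, (∀ i, b i ≠ 0 ∧ (b i).natAbs ≤ Y ∧ (rad (b i).natAbs : ℝ) ≤ Z) ∧ ∑ i, b i = 0 ∧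
      (∀ i k, i ≠ k → (Int.gcd (b i) (b k) : ℝ) ≤ Z ^ κ ∧
        (rad (Int.gcd (b i) (b k)) : ℝ) ≤ W) ∧ ∃ i, Z ^ (1 + η) ≤ ((b i).natAbs : ℝ)) →
    (E.card : ℝ) ≤ C * Z ^ ε * W ^ (n * n) * Z ^ ((n : ℝ) - 1 - κ) := by
  classical
  obtain ⟨κ, hκ, hκ1, C, hC, hcore⟩ := core_w n hn η A hη hA
  refine ⟨κ, hκ, hκ1, fun ε hε => ?_⟩
  obtain ⟨D, hD, h1⟩ := BZ_le A (ε / n) hA (by positivity)
  refine ⟨D ^ n * C, by positivity, ?_⟩
  intro Z hZ Y hY hYZ W hW E hE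
  have hZ0 : 0 < Z := by linarith
  have hn0 : (n : ℝ) ≠ 0 := by
    have : 0 < n := by omega
    exact_mod_cast this.ne'
  have hne : ∀ b ∈ E, ∀ i, b i ≠ 0 := fun b hb i => ((hE b hb).1 i).1
  set M : Finset (Fin n → ℤ) := Fintype.piFinset fun _ => BZ Y (W ^ n) with hM
  have hmaps : ∀ b ∈ E, wpart b ∈ M := by
    intro b hb
    rw [hM, Fintype.mem_piFinset]
    intro i
    rw [mem_BZ, wpart_natAbs (hne b hb)]
    refine ⟨?_, ?_, ?_⟩
    · intro h0
      have h2 := wpart_natAbs (hne b hb) i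
      rw [h0, Int.natAbs_zero] at h2
      exact absurd h2.symm (vpart_pos b i).ne'
    · exact (Nat.le_of_dvd (Int.natAbs_pos.2 (hne b hb i)) (vpart_dvd (hne b hb) i)).trans
        ((hE b hb).1 i).2.1
    · exact vpart_rad (hne b hb) i hW fun k hik => ((hE b hb).2.2.1 i k hik).2
  have hMcard : (M.card : ℝ) ≤ D ^ n * Z ^ ε * W ^ (n * n) := by
    rw [hM, Fintype.card_piFinset, prod_const, card_univ, Fintype.card_fin]
    push_cast
    calc ((BZ Y (W ^ n)).card : ℝ) ^ n ≤ (D * Z ^ (ε / n) * W ^ n) ^ n :=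
          pow_le_pow_left₀ (Nat.cast_nonneg _) (h1 Z hZ Y hY hYZ _ (by positivity)).1 n
      _ = _ := by
          rw [mul_pow, mul_pow, ← pow_mul, ← Real.rpow_natCast (Z ^ (ε / n)),
            ← Real.rpow_mul hZ0.le, div_mul_cancel₀ _ hn0]
  have hfib : ∀ w ∈ M, (((E.filter fun b => wpart b = w).card : ℕ) : ℝ) ≤
      C * Z ^ ((n : ℝ) - 1 - κ) := by
    intro w _
    rcases (E.filter fun b => wpart b = w).eq_empty_or_nonempty with h0 | ⟨u, hu⟩
    · rw [h0, card_empty, Nat.cast_zero]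
      positivity
    have hmem : ∀ b ∈ E.filter fun b => wpart b = w, b ∈ E ∧ wpart b = w := fun b hb =>
      mem_filter.1 hb
    have hinj : Set.InjOn (fun b : Fin n → ℤ => cpart b) (E.filter fun b => wpart b = w) := by
      intro x hx y hy hxy
      funext i
      have hx' := hmem x hx
      have hy' := hmem y hy
      have e1 := wc_mul (hne x hx'.1) i
      have e2 := wc_mul (hne y hy'.1) i
      have e3 : cpart x i = cpart y i := congrFun hxy i
      rw [← e1, ← e2, hx'.2, hy'.2, e3]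
    rw [← card_image_of_injOn hinj]
    have hu' := hmem u hu
    apply hcore Z hZ Y hY hYZ w
    · intro i h0
      have h2 := wpart_natAbs (hne u hu'.1) i
      rw [hu'.2, h0, Int.natAbs_zero] at h2
      exact absurd h2.symm (vpart_pos u i).ne'
    · intro i k hik
      rw [← hu'.2]
      refine le_trans ?_ ((hE u hu'.1).2.2.1 i k hik).1
      exact_mod_cast w_gcd (hne u hu'.1) i k
    · intro t ht
      obtain ⟨b, hb, rfl⟩ := mem_image.1 ht
      obtain ⟨b1, b2⟩ := hmem b hb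
      have hb0 := hne b b1
      have habs : ∀ i, (w i).natAbs * cpart b i = (b i).natAbs := by
        intro i
        rw [← b2, wpart_natAbs hb0, mul_comm]
        exact cv_mul hb0 i
      refine ⟨fun i => ⟨cpart_pos b i, ?_, ?_⟩, ?_, ?_, ?_, ?_⟩
      · rw [habs i]
        exact ((hE b b1).1 i).2.1
      · refine le_trans ?_ ((hE b b1).1 i).2.2
        exact_mod_cast rad_le_rad (Int.natAbs_ne_zero.2 (hb0 i)) (cpart_dvd hb0 i)
      · rw [← b2]
        rw [sum_congr rfl fun i _ => wc_mul hb0 i]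
        exact (hE b b1).2.1
      · intro i k hik
        exact cpart_cop hb0 hik
      · intro i k
        rw [← b2]
        exact wc_cop hb0 i k
      · obtain ⟨i, hi⟩ := (hE b b1).2.2.2
        refine ⟨i, hi.trans (le_of_eq ?_)⟩
        rw [← habs i, Nat.cast_mul, Nat.cast_natAbs, Int.cast_abs]
  have h2 : E.card = ∑ w ∈ M, (E.filter fun b => wpart b = w).card :=
    card_eq_sum_card_fiberwise (fun b hb => hmaps b hb)
  rw [h2]
  push_cast
  calc ∑ w ∈ M, (((E.filter fun b => wpart b = w).card : ℕ) : ℝ)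
      ≤ ∑ _w ∈ M, C * Z ^ ((n : ℝ) - 1 - κ) := sum_le_sum hfib
    _ = M.card * (C * Z ^ ((n : ℝ) - 1 - κ)) := by rw [sum_const, nsmul_eq_mul]
    _ ≤ (D ^ n * Z ^ ε * W ^ (n * n)) * (C * Z ^ ((n : ℝ) - 1 - κ)) :=
        mul_le_mul_of_nonneg_right hMcard (by positivity)
    _ = _ := by ring

end Pool.Agent.Y594.NT
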