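import Pool.Agent.Y594.NT.RedB
import Pool.Agent.Y594.NT.RedC

/-!
# The power saving for integer tuples with sum zero (helper594)
-/

set_option autoImplicit false

namespace Pool.Agent.Y594.NT

open Finset Pool.Agent.H785R2.ABC Pool.Agent.H705R2.ABC

/-- the power saving: the integer tuples with sum `0`, without common prime factor, with nonzero
coordinates of radical at most `Z`, the largest coordinate being between `Z ^ (1 + η)` and `Z ^ A`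
in absolute value -/
theorem core_tuples (n : ℕ) (hn : 3 ≤ n) (η A : ℝ) (hη : 0 < η) (hA : 1 ≤ A) :
    ∃ ν : ℝ, 0 < ν ∧ ν ≤ 1 ∧ ∃ C : ℝ, 0 < C ∧ ∀ Z : ℝ, 1 ≤ Z → ∀ E : Finset (Fin n → ℤ),
    (∀ b ∈ E, (∀ i, b i ≠ 0 ∧ ((b i).natAbs : ℝ) ≤ Z ^ A ∧ (rad (b i).natAbs : ℝ) ≤ Z) ∧
      ∑ i, b i = 0 ∧ (∀ q : ℕ, q.Prime → ∃ l, ¬ (q : ℤ) ∣ b l) ∧
      ∃ i, Z ^ (1 + η) ≤ ((b i).natAbs : ℝ)) →
    (E.card : ℝ) ≤ C * Z ^ ((n : ℝ) - 1 - ν) := by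
  classical
  obtain ⟨κB, hκB, hκB1, hredB⟩ := redB n hn A hA
  obtain ⟨κC, hκC, hκC1, hredC⟩ := redC n hn η A hη hA
  have hn0 : (0 : ℝ) < n := by
    have : 0 < n := by omega
    exact_mod_cast this
  have hn3 : (3 : ℝ) ≤ n := by exact_mod_cast hn
  obtain ⟨μ, hμ⟩ : ∃ μ : ℝ, μ = min κB (κC / n) := ⟨_, rfl⟩
  have hμ0 : 0 < μ := by rw [hμ]; exact lt_min hκB (by positivity)
  have hμB : μ ≤ κB := by rw [hμ]; exact min_le_left _ _
  have hμC : μ ≤ κC / n := by rw [hμ]; exact min_le_right _ _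
  obtain ⟨ω, hω⟩ : ∃ ω : ℝ, ω = min (μ / 2) (κC / (2 * n ^ 2)) := ⟨_, rfl⟩
  have hω0 : 0 < ω := by rw [hω]; exact lt_min (by positivity) (by positivity)
  have hω1 : ω ≤ μ / 2 := by rw [hω]; exact min_le_left _ _
  have hω2 : ω * n ^ 2 ≤ κC / 2 := by
    have h1 : ω ≤ κC / (2 * n ^ 2) := by rw [hω]; exact min_le_right _ _
    calc ω * n ^ 2 ≤ κC / (2 * n ^ 2) * n ^ 2 := mul_le_mul_of_nonneg_right h1 (by positivity)
      _ = κC / 2 := by field_simp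
  have hω3 : ω ≤ κC / 2 := by
    refine le_trans ?_ hω2
    have hn1 : (1 : ℝ) ≤ (n : ℝ) ^ 2 := one_le_pow₀ (by linarith)
    exact le_mul_of_one_le_right hω0.le hn1
  obtain ⟨DA, hDA, hA'⟩ := redA n hn A hA (ω / 2) (by positivity)
  obtain ⟨DB, hDB, hB'⟩ := hredB (ω / 2) (by positivity)
  obtain ⟨DC, hDC, hC'⟩ := hredC (ω / 2) (by positivity)
  refine ⟨ω / 2, by positivity, by linarith, n * n * DA + n * n * (2 * DB) + DC, by positivity, ?_⟩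
  intro Z hZ E hE
  have hZ0 : 0 < Z := by linarith
  set Y : ℕ := ⌊Z ^ A⌋₊ with hY
  have hZA : 1 ≤ Z ^ A := Real.one_le_rpow hZ (by linarith)
  have hY1 : 1 ≤ Y := Nat.le_floor (by simpa using hZA)
  have hYZ : (Y : ℝ) ≤ Z ^ A := Nat.floor_le (by linarith)
  have hW1 : 1 ≤ Z ^ ω := Real.one_le_rpow hZ hω0.le
  have hG1 : 1 ≤ Z ^ κC := Real.one_le_rpow hZ hκC.le
  have hbase : ∀ b ∈ E, ∀ i, b i ≠ 0 ∧ (b i).natAbs ≤ Y ∧ (rad (b i).natAbs : ℝ) ≤ Z := by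
    intro b hb i
    obtain ⟨h1, h2, h3⟩ := (hE b hb).1 i
    exact ⟨h1, Nat.le_floor h2, h3⟩
  set P : Finset (Fin n × Fin n) := univ.filter fun x => x.1 ≠ x.2 with hP
  have hPcard : (P.card : ℝ) ≤ n * n := by
    have h1 : P.card ≤ n * n := (card_le_univ P).trans (by
      rw [Fintype.card_prod, Fintype.card_fin])
    exact_mod_cast h1
  set EA : Fin n × Fin n → Finset (Fin n → ℤ) := fun x =>
    E.filter fun b => Z ^ ω ≤ rad (Int.gcd (b x.1) (b x.2)) with hEA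
  set EB : Fin n × Fin n → Finset (Fin n → ℤ) := fun x =>
    E.filter fun b => Z ^ κC ≤ Int.gcd (b x.1) (b x.2) ∧
      (rad (Int.gcd (b x.1) (b x.2)) : ℝ) ≤ Z ^ ω with hEB
  set EC : Finset (Fin n → ℤ) := E.filter fun b => ∀ i k, i ≠ k →
    (Int.gcd (b i) (b k) : ℝ) ≤ Z ^ κC ∧ (rad (Int.gcd (b i) (b k)) : ℝ) ≤ Z ^ ω with hEC
  have hcover : E ⊆ (P.biUnion EA ∪ P.biUnion EB) ∪ EC := by
    intro b hb
    rw [mem_union, mem_union, mem_biUnion, mem_biUnion]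
    by_cases h1 : ∃ x ∈ P, Z ^ ω ≤ rad (Int.gcd (b x.1) (b x.2))
    · obtain ⟨x, hx, hx2⟩ := h1
      exact Or.inl (Or.inl ⟨x, hx, mem_filter.2 ⟨hb, hx2⟩⟩)
    push Not at h1
    by_cases h2 : ∃ x ∈ P, Z ^ κC ≤ Int.gcd (b x.1) (b x.2)
    · obtain ⟨x, hx, hx2⟩ := h2
      exact Or.inl (Or.inr ⟨x, hx, mem_filter.2 ⟨hb, hx2, (h1 x hx).le⟩⟩)
    push Not at h2
    refine Or.inr (mem_filter.2 ⟨hb, fun i k hik => ?_⟩)
    have hx : (i, k) ∈ P := mem_filter.2 ⟨mem_univ _, hik⟩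
    exact ⟨(h2 _ hx).le, (h1 _ hx).le⟩
  have bA : ∀ x ∈ P, ((EA x).card : ℝ) ≤ DA * Z ^ ((n : ℝ) - 1 - ω / 2) := by
    intro x hx
    have h1 := hA' Z hZ Y hY1 hYZ (Z ^ ω) (by positivity) x.1 x.2 (mem_filter.1 hx).2 (EA x) (by
      intro b hb
      obtain ⟨b1, b2⟩ := mem_filter.1 hb
      exact ⟨hbase b b1, (hE b b1).2.1, b2⟩)
    refine h1.trans (le_of_eq ?_)
    have h2 : ((n - 1 : ℕ) : ℝ) = (n : ℝ) - 1 := by
      rw [Nat.cast_sub (by omega), Nat.cast_one]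
    rw [← Real.rpow_natCast Z (n - 1), h2, mul_div_assoc, ← Real.rpow_sub hZ0, mul_assoc,
      ← Real.rpow_add hZ0]
    congr 2
    ring
  have bB : ∀ x ∈ P, ((EB x).card : ℝ) ≤ 2 * DB * Z ^ ((n : ℝ) - 1 - ω / 2) := by
    intro x hx
    have h1 := hB' Z hZ Y hY1 hYZ (Z ^ κC) (Z ^ ω) hG1 hW1 x.1 x.2 (mem_filter.1 hx).2 (EB x) (by
      intro b hb
      obtain ⟨b1, b2⟩ := mem_filter.1 hb
      exact ⟨hbase b b1, (hE b b1).2.1, (hE b b1).2.2.1, b2.1, b2.2⟩)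
    refine h1.trans ?_
    have h2 : ((n - 2 : ℕ) : ℝ) = (n : ℝ) - 2 := by
      rw [Nat.cast_sub (by omega), Nat.cast_ofNat]
    have h3 : Z ^ (1 - κB) ≤ Z ^ (1 - μ) := Real.rpow_le_rpow_of_exponent_le hZ (by linarith)
    have h4 : Z / (Z ^ κC) ^ ((1 : ℝ) / n) ≤ Z ^ (1 - μ) := by
      have h5 : Z / (Z ^ κC) ^ ((1 : ℝ) / n) = Z ^ (1 - κC / n) := by
        rw [← Real.rpow_mul hZ0.le, Real.rpow_sub hZ0, Real.rpow_one, mul_one_div]
      rw [h5]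
      exact Real.rpow_le_rpow_of_exponent_le hZ (by linarith)
    calc DB * Z ^ (ω / 2) * Z ^ ω * Z ^ (n - 2) * (Z ^ (1 - κB) + Z / (Z ^ κC) ^ ((1 : ℝ) / n))
        ≤ DB * Z ^ (ω / 2) * Z ^ ω * Z ^ (n - 2) * (Z ^ (1 - μ) + Z ^ (1 - μ)) := by
          apply mul_le_mul_of_nonneg_left _ (by positivity)
          linarith
      _ = 2 * DB * (Z ^ (ω / 2) * (Z ^ ω * (Z ^ ((n : ℝ) - 2) * Z ^ (1 - μ)))) := by
          rw [← Real.rpow_natCast Z (n - 2), h2]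
          ring
      _ = 2 * DB * Z ^ (ω / 2 + (ω + ((n : ℝ) - 2 + (1 - μ)))) := by
          rw [← Real.rpow_add hZ0, ← Real.rpow_add hZ0, ← Real.rpow_add hZ0]
      _ ≤ 2 * DB * Z ^ ((n : ℝ) - 1 - ω / 2) := by
          apply mul_le_mul_of_nonneg_left _ (by positivity)
          apply Real.rpow_le_rpow_of_exponent_le hZ
          linarith
  have bC : (EC.card : ℝ) ≤ DC * Z ^ ((n : ℝ) - 1 - ω / 2) := by
    have h1 := hC' Z hZ Y hY1 hYZ (Z ^ ω) hW1 EC (by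
      intro b hb
      obtain ⟨b1, b2⟩ := mem_filter.1 hb
      exact ⟨hbase b b1, (hE b b1).2.1, b2, (hE b b1).2.2.2⟩)
    refine h1.trans ?_
    calc DC * Z ^ (ω / 2) * (Z ^ ω) ^ (n * n) * Z ^ ((n : ℝ) - 1 - κC)
        = DC * (Z ^ (ω / 2) * (Z ^ (ω * n ^ 2) * Z ^ ((n : ℝ) - 1 - κC))) := by
          rw [← Real.rpow_natCast (Z ^ ω), ← Real.rpow_mul hZ0.le]
          push_cast
          rw [pow_two]
          ring
      _ = DC * Z ^ (ω / 2 + (ω * n ^ 2 + ((n : ℝ) - 1 - κC))) := by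
          rw [← Real.rpow_add hZ0, ← Real.rpow_add hZ0]
      _ ≤ _ := by
          apply mul_le_mul_of_nonneg_left _ (by positivity)
          apply Real.rpow_le_rpow_of_exponent_le hZ
          linarith
  have hZp : 0 ≤ Z ^ ((n : ℝ) - 1 - ω / 2) := by positivity
  have hc1 : (E.card : ℝ) ≤ ((∑ x ∈ P, (EA x).card + ∑ x ∈ P, (EB x).card) + EC.card : ℕ) := by
    have h1 := (card_le_card hcover).trans (card_union_le _ _)
    have h2 := card_union_le (P.biUnion EA) (P.biUnion EB)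
    have h3 : (P.biUnion EA).card ≤ ∑ x ∈ P, (EA x).card := card_biUnion_le
    have h4 : (P.biUnion EB).card ≤ ∑ x ∈ P, (EB x).card := card_biUnion_le
    exact_mod_cast (by omega : E.card ≤ (∑ x ∈ P, (EA x).card + ∑ x ∈ P, (EB x).card) + EC.card)
  push_cast at hc1
  have sA : ∑ x ∈ P, ((EA x).card : ℝ) ≤ n * n * (DA * Z ^ ((n : ℝ) - 1 - ω / 2)) := by
    calc _ ≤ ∑ _x ∈ P, DA * Z ^ ((n : ℝ) - 1 - ω / 2) := sum_le_sum bA
      _ = P.card * (DA * Z ^ ((n : ℝ) - 1 - ω / 2)) := by rw [sum_const, nsmul_eq_mul]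
      _ ≤ _ := mul_le_mul_of_nonneg_right hPcard (by positivity)
  have sB : ∑ x ∈ P, ((EB x).card : ℝ) ≤ n * n * (2 * DB * Z ^ ((n : ℝ) - 1 - ω / 2)) := by
    calc _ ≤ ∑ _x ∈ P, 2 * DB * Z ^ ((n : ℝ) - 1 - ω / 2) := sum_le_sum bB
      _ = P.card * (2 * DB * Z ^ ((n : ℝ) - 1 - ω / 2)) := by rw [sum_const, nsmul_eq_mul]
      _ ≤ _ := mul_le_mul_of_nonneg_right hPcard (by positivity)
  calc (E.card : ℝ) ≤ n * n * (DA * Z ^ ((n : ℝ) - 1 - ω / 2)) +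
        n * n * (2 * DB * Z ^ ((n : ℝ) - 1 - ω / 2)) + DC * Z ^ ((n : ℝ) - 1 - ω / 2) := by
        linarith
    _ = _ := by ring

end Pool.Agent.Y594.NT
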