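import Pool.Agent.Y594.NT.Frag

/-!
# Tuples with a common factor of large radical (helper594)
-/

set_option autoImplicit false

namespace Pool.Agent.Y594.NT

open Finset Pool.Agent.H785R2.ABC Pool.Agent.H705R2.ABC

theorem stmtA5' : StmtA5 := stmtA5_of (stmtA3_of stmtA2)

/-- product of the numbers of values of the coordinates in `S` -/
theorem prod_BZ {n : ℕ} (S : Finset (Fin n)) (Y : ℕ) (Z D e : ℝ) (hD : 1 ≤ D) (hZ : 1 ≤ Z)
    (he : 0 ≤ e) (h : ((BZ Y Z).card : ℝ) ≤ D * Z ^ e * Z) :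
    (∏ _i ∈ S, ((BZ Y Z).card : ℝ)) ≤ D ^ n * Z ^ (e * n) * Z ^ S.card := by
  have hZ0 : 0 < Z := by linarith
  have hcard : S.card ≤ n := (card_le_univ S).trans (by rw [Fintype.card_fin])
  have hZe : 1 ≤ Z ^ e := Real.one_le_rpow hZ he
  rw [prod_const]
  calc ((BZ Y Z).card : ℝ) ^ S.card ≤ (D * Z ^ e * Z) ^ S.card :=
        pow_le_pow_left₀ (Nat.cast_nonneg _) h _
    _ = (D * Z ^ e) ^ S.card * Z ^ S.card := mul_pow _ _ _
    _ ≤ (D * Z ^ e) ^ n * Z ^ S.card := by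
        apply mul_le_mul_of_nonneg_right _ (by positivity)
        exact pow_le_pow_right₀ (by nlinarith) hcard
    _ = _ := by
        rw [mul_pow, ← Real.rpow_natCast (Z ^ e), ← Real.rpow_mul hZ0.le]

theorem card_compl_three {n : ℕ} {p k l : Fin n} (hpk : p ≠ k) (hpl : p ≠ l) (hkl : k ≠ l) :
    3 ≤ n ∧ (({p, k, l} : Finset (Fin n))ᶜ).card + 3 = n := by
  classical
  have h5 : ({p, k, l} : Finset (Fin n)).card = 3 := card_eq_three.2 ⟨p, k, l, hpk, hpl, hkl, rfl⟩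
  have h6 : ({p, k, l} : Finset (Fin n)).card ≤ Fintype.card (Fin n) := card_le_univ _
  rw [h5, Fintype.card_fin] at h6
  rw [card_compl, h5, Fintype.card_fin]
  omega

/-- (A) tuples where two coordinates have a common factor of large radical -/
theorem redA (n : ℕ) (hn : 3 ≤ n) (A : ℝ) (hA : 1 ≤ A) (ε : ℝ) (hε : 0 < ε) :
    ∃ D : ℝ, 0 < D ∧ ∀ Z : ℝ, 1 ≤ Z → ∀ Y : ℕ, 1 ≤ Y → (Y : ℝ) ≤ Z ^ A → ∀ G : ℝ, 0 < G →
    ∀ p k : Fin n, p ≠ k → ∀ E : Finset (Fin n → ℤ),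
    (∀ b ∈ E, (∀ i, b i ≠ 0 ∧ (b i).natAbs ≤ Y ∧ (rad (b i).natAbs : ℝ) ≤ Z) ∧ ∑ i, b i = 0 ∧
      G ≤ rad (Int.gcd (b p) (b k))) →
    (E.card : ℝ) ≤ D * Z ^ ε * Z ^ (n - 1) / G := by
  classical
  obtain ⟨δ, hδ⟩ : ∃ δ : ℝ, δ = ε / (n + 1) := ⟨_, rfl⟩
  have hδ0 : 0 < δ := by rw [hδ]; positivity
  obtain ⟨D1, hD1, h1⟩ := BZ_le A δ hA hδ0
  obtain ⟨D2, hD2, h2⟩ := stmtA5' (δ / A) (by positivity)
  refine ⟨D1 ^ n * (4 * D2), by positivity, ?_⟩
  intro Z hZ Y hY hYZ G hG p k hpk E hE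
  have hZ0 : 0 < Z := by linarith
  obtain ⟨l, hlp, hlk⟩ : ∃ l : Fin n, l ≠ p ∧ l ≠ k := by
    have h3 : 1 ≤ (({p, k} : Finset (Fin n))ᶜ).card := by
      rw [card_compl, card_pair hpk, Fintype.card_fin]; omega
    obtain ⟨l, hl⟩ := card_pos.1 h3
    rw [mem_compl, mem_insert, mem_singleton, not_or] at hl
    exact ⟨l, hl.1, hl.2⟩
  obtain ⟨-, hcard⟩ := card_compl_three hpk hlp.symm hlk.symm
  set B' : Finset (ℤ × ℤ) := ((BZ Y Z) ×ˢ (BZ Y Z)).filter fun x =>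
    G ≤ rad (Int.gcd x.1 x.2) with hB'
  -- number of pairs
  have hpairs : (B'.card : ℝ) ≤ 4 * D2 * Z ^ δ * Z ^ 2 / G := by
    set P : Finset (ℕ × ℕ) := ((Bset Y Z) ×ˢ (Bset Y Z)).filter fun x =>
      G ≤ rad (Nat.gcd x.1 x.2) with hP
    have hb1 : B'.card ≤ 4 * P.card := by
      have hmaps : ∀ x ∈ B', (x.1.natAbs, x.2.natAbs) ∈ P := by
        intro x hx
        rw [hB', mem_filter, mem_product] at hx
        obtain ⟨⟨g1, g2⟩, g3⟩ := hx
        rw [mem_BZ] at g1 g2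
        rw [hP, mem_filter, mem_product, mem_Bset, mem_Bset]
        exact ⟨⟨⟨⟨Int.natAbs_pos.2 g1.1, g1.2.1⟩, g1.2.2⟩, ⟨⟨Int.natAbs_pos.2 g2.1, g2.2.1⟩,
          g2.2.2⟩⟩, g3⟩
      refine card_le_mul_card_image_of_maps_to (f := fun x : ℤ × ℤ => (x.1.natAbs, x.2.natAbs))
        hmaps 4 ?_
      intro y _
      have hsub : (B'.filter fun x => (x.1.natAbs, x.2.natAbs) = y) ⊆
          (({(y.1 : ℤ), -(y.1 : ℤ)} : Finset ℤ) ×ˢ ({(y.2 : ℤ), -(y.2 : ℤ)} : Finset ℤ)) := by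
        intro x hx
        have hx' := (mem_filter.1 hx).2
        rw [mem_product, mem_insert, mem_singleton, mem_insert, mem_singleton]
        have e1 : x.1.natAbs = y.1 := congrArg Prod.fst hx'
        have e2 : x.2.natAbs = y.2 := congrArg Prod.snd hx'
        constructor
        · rcases Int.natAbs_eq x.1 with h | h <;> omega
        · rcases Int.natAbs_eq x.2 with h | h <;> omega
      refine (card_le_card hsub).trans ?_
      rw [card_product]
      have e1 : ({(y.1 : ℤ), -(y.1 : ℤ)} : Finset ℤ).card ≤ 2 := card_le_two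
      have e2 : ({(y.2 : ℤ), -(y.2 : ℤ)} : Finset ℤ).card ≤ 2 := card_le_two
      calc _ ≤ 2 * 2 := Nat.mul_le_mul e1 e2
        _ = 4 := by norm_num
    have hb2 : (P.card : ℝ) * G ≤ D2 * Z ^ δ * Z ^ 2 := by
      have h3 := h2 Y hY Z (by linarith)
      have h4 : (Y : ℝ) ^ (δ / A) ≤ Z ^ δ := by
        calc (Y : ℝ) ^ (δ / A) ≤ (Z ^ A) ^ (δ / A) :=
              Real.rpow_le_rpow (Nat.cast_nonneg _) hYZ (by positivity)
          _ = Z ^ δ := by
              rw [← Real.rpow_mul hZ0.le]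
              congr 1
              field_simp
      calc (P.card : ℝ) * G = ∑ _x ∈ P, G := by rw [sum_const, nsmul_eq_mul]
        _ ≤ ∑ x ∈ P, (Nat.gcd (rad x.1) (rad x.2) : ℝ) := by
            apply sum_le_sum
            intro x hx
            rw [hP, mem_filter, mem_product, mem_Bset, mem_Bset] at hx
            obtain ⟨⟨g1, g2⟩, g3⟩ := hx
            refine g3.trans ?_
            have e1 : rad (Nat.gcd x.1 x.2) ∣ Nat.gcd (rad x.1) (rad x.2) :=
              Nat.dvd_gcd (rad_dvd_rad (by omega) (Nat.gcd_dvd_left _ _))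
                (rad_dvd_rad (by omega) (Nat.gcd_dvd_right _ _))
            exact_mod_cast Nat.le_of_dvd (Nat.gcd_pos_of_pos_left _ (rad_pos' _)) e1
        _ ≤ ∑ x ∈ (Bset Y Z) ×ˢ (Bset Y Z), (Nat.gcd (rad x.1) (rad x.2) : ℝ) :=
            sum_le_sum_of_subset_of_nonneg (filter_subset _ _) fun _ _ _ => Nat.cast_nonneg _
        _ = ∑ d ∈ Bset Y Z, ∑ d' ∈ Bset Y Z, (Nat.gcd (rad d) (rad d') : ℝ) := sum_product _ _ _
        _ ≤ D2 * (Y : ℝ) ^ (δ / A) * Z ^ 2 := h3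
        _ ≤ _ := by
            apply mul_le_mul_of_nonneg_right _ (by positivity)
            exact mul_le_mul_of_nonneg_left h4 hD2.le
    have hb1' : (B'.card : ℝ) ≤ 4 * P.card := by exact_mod_cast hb1
    rw [le_div_iff₀ hG]
    calc (B'.card : ℝ) * G ≤ (4 * P.card) * G := mul_le_mul_of_nonneg_right hb1' hG.le
      _ = 4 * (P.card * G) := by ring
      _ ≤ 4 * (D2 * Z ^ δ * Z ^ 2) := by linarith
      _ = _ := by ring
  have hmain := fiberZ E ({p, k, l} : Finset (Fin n))ᶜ (fun _ => BZ Y Z)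
    (fun b => (b p, b k)) B' ?_ ?_ 1 zero_le_one ?_
  · refine hmain.trans ?_
    have hprod := prod_BZ (({p, k, l} : Finset (Fin n))ᶜ) Y Z D1 δ hD1 hZ hδ0.le
      (h1 Z hZ Y hY hYZ Z (by linarith)).1
    rw [mul_one]
    calc (∏ _i ∈ (({p, k, l} : Finset (Fin n))ᶜ), ((BZ Y Z).card : ℝ)) * (B'.card : ℝ)
        ≤ (D1 ^ n * Z ^ (δ * n) * Z ^ (({p, k, l} : Finset (Fin n))ᶜ).card) *
          (4 * D2 * Z ^ δ * Z ^ 2 / G) :=
          mul_le_mul hprod hpairs (Nat.cast_nonneg _) (by positivity)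
      _ = D1 ^ n * (4 * D2) * (Z ^ (δ * n) * Z ^ δ) *
          (Z ^ (({p, k, l} : Finset (Fin n))ᶜ).card * Z ^ 2) / G := by ring
      _ = _ := by
          rw [← Real.rpow_add hZ0, ← pow_add]
          congr 3
          · congr 1
            rw [hδ]
            field_simp
          · congr 1
            omega
  · intro b hb i _
    exact mem_BZ.2 ((hE b hb).1 i)
  · intro b hb
    rw [hB', mem_filter, mem_product]
    exact ⟨⟨mem_BZ.2 ((hE b hb).1 p), mem_BZ.2 ((hE b hb).1 k)⟩, (hE b hb).2.2⟩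
  · intro u hu
    have : (E.filter fun t => (∀ i ∈ ({p, k, l} : Finset (Fin n))ᶜ, t i = u i) ∧
        (t p, t k) = (u p, u k)).card ≤ 1 := by
      rw [card_le_one]
      intro a ha b hb
      rw [mem_filter] at ha hb
      refine det_one (hE a ha.1).2.1 (hE b hb.1).2.1 l fun i hi => ?_
      by_cases hip : i = p
      · rw [hip]
        exact (congrArg Prod.fst ha.2.2).trans (congrArg Prod.fst hb.2.2).symm
      · by_cases hik : i = k
        · rw [hik]
          exact (congrArg Prod.snd ha.2.2).trans (congrArg Prod.snd hb.2.2).symm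
        · have hi' : i ∈ ({p, k, l} : Finset (Fin n))ᶜ := by
            rw [mem_compl, mem_insert, mem_insert, mem_singleton, not_or, not_or]
            exact ⟨hip, hik, hi⟩
          rw [ha.2.1 i hi', hb.2.1 i hi']
    exact_mod_cast this

end Pool.Agent.Y594.NT
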