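import Pool.Agent.Y594.NT.RedA
import Pool.Agent.Y944.NT.Res

/-!
# Tuples with a large common factor of small radical (helper594)
-/

set_option autoImplicit false

namespace Pool.Agent.Y594.NT

open Finset Pool.Agent.H785R2.ABC Pool.Agent.H705R2.ABC

/-- integers with a small radical in a residue class -/
theorem resZ (A : ℝ) (hA : 1 ≤ A) : ∃ κ : ℝ, 0 < κ ∧ κ ≤ 1 ∧ ∀ ε : ℝ, 0 < ε → ∃ D : ℝ, 0 < D ∧
    ∀ Z : ℝ, 1 ≤ Z → ∀ g : ℕ, 1 ≤ g → (g : ℝ) ≤ Z ^ A → ∀ (c : ℤ) (B : Finset ℤ),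
    (∀ b ∈ B, b ≠ 0 ∧ ((b.natAbs : ℕ) : ℝ) ≤ Z ^ A ∧ (rad b.natAbs : ℝ) ≤ Z ∧
      Nat.Coprime b.natAbs g ∧ (g : ℤ) ∣ b - c) →
    (B.card : ℝ) ≤ D * Z ^ ε * (Z ^ (1 - κ) + Z / g) := by
  classical
  obtain ⟨κ, hκ, hκ1, h⟩ := Pool.Agent.Y944.NT.res A hA
  refine ⟨κ, hκ, hκ1, fun ε hε => ?_⟩
  obtain ⟨D, hD, hD'⟩ := h ε hε
  refine ⟨2 * D, by positivity, ?_⟩
  intro Z hZ g hg hgZ c B hB
  set B1 := B.filter fun b => 0 < b with hB1
  set B2 := B.filter fun b => ¬ 0 < b with hB2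
  have hcast : ∀ b ∈ B, ((b : ℤ) : ZMod g) = ((c : ℤ) : ZMod g) := by
    intro b hb
    have h1 := (hB b hb).2.2.2.2
    have h2 := (ZMod.intCast_zmod_eq_zero_iff_dvd (b - c) g).2 h1
    push_cast at h2
    exact sub_eq_zero.1 h2
  have c1 : (B1.card : ℝ) ≤ D * Z ^ ε * (Z ^ (1 - κ) + Z / g) := by
    have hinj : Set.InjOn (fun b : ℤ => b.natAbs) B1 := by
      intro x hx y hy hxy
      have hx' := (mem_filter.1 hx).2
      have hy' := (mem_filter.1 hy).2
      simp only at hxy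
      omega
    rw [← card_image_of_injOn hinj]
    apply hD' Z hZ g hg hgZ (c : ZMod g)
    intro x hx
    obtain ⟨b, hb, rfl⟩ := mem_image.1 hx
    obtain ⟨hb1, hb2⟩ := mem_filter.1 hb
    obtain ⟨g1, g2, g3, g4, g5⟩ := hB b hb1
    refine ⟨Int.natAbs_pos.2 g1, g2, g3, g4, ?_⟩
    rw [← hcast b hb1]
    have h3 : ((b.natAbs : ℕ) : ℤ) = b := by omega
    calc ((b.natAbs : ℕ) : ZMod g) = (((b.natAbs : ℕ) : ℤ) : ZMod g) := by rw [Int.cast_natCast]
      _ = ((b : ℤ) : ZMod g) := by rw [h3]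
  have c2 : (B2.card : ℝ) ≤ D * Z ^ ε * (Z ^ (1 - κ) + Z / g) := by
    have hneg : ∀ x ∈ B2, x < 0 := by
      intro x hx
      have h1 := (mem_filter.1 hx).2
      have h2 := (hB x (mem_filter.1 hx).1).1
      omega
    have hinj : Set.InjOn (fun b : ℤ => b.natAbs) B2 := by
      intro x hx y hy hxy
      have hx' := hneg x hx
      have hy' := hneg y hy
      simp only at hxy
      omega
    rw [← card_image_of_injOn hinj]
    apply hD' Z hZ g hg hgZ (-(c : ZMod g))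
    intro x hx
    obtain ⟨b, hb, rfl⟩ := mem_image.1 hx
    obtain ⟨hb1, -⟩ := mem_filter.1 hb
    have hb2 := hneg b hb
    obtain ⟨g1, g2, g3, g4, g5⟩ := hB b hb1
    refine ⟨Int.natAbs_pos.2 g1, g2, g3, g4, ?_⟩
    rw [← hcast b hb1]
    have h3 : ((b.natAbs : ℕ) : ℤ) = -b := by omega
    calc ((b.natAbs : ℕ) : ZMod g) = (((b.natAbs : ℕ) : ℤ) : ZMod g) := by rw [Int.cast_natCast]
      _ = ((-b : ℤ) : ZMod g) := by rw [h3]
      _ = -((b : ℤ) : ZMod g) := by push_cast; rfl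
  have h4 : B.card = B1.card + B2.card := by
    rw [hB1, hB2, Finset.card_filter_add_card_filter_not]
  rw [h4]
  push_cast
  linarith

/-- the common factor splits into parts coprime to one more coordinate each -/
theorem exists_part {n : ℕ} (hn : 3 ≤ n) {b : Fin n → ℤ} {p k : Fin n} (hp : b p ≠ 0)
    (hg : ∀ q : ℕ, q.Prime → ∃ l, ¬ (q : ℤ) ∣ b l) {G : ℝ} (hG : 1 ≤ G)
    (hG2 : G ≤ (Int.gcd (b p) (b k) : ℝ)) : ∃ l : Fin n, l ≠ p ∧ l ≠ k ∧
      G ^ ((1 : ℝ) / n) ≤ cp (Int.gcd (b p) (b k)) (fun q => ¬ (q : ℤ) ∣ b l) := by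
  classical
  by_contra hcon
  push Not at hcon
  set g : ℕ := Int.gcd (b p) (b k) with hgdef
  have hg0 : g ≠ 0 := (Int.gcd_pos_of_ne_zero_left _ hp).ne'
  set S : Finset (Fin n) := univ.filter fun l => l ≠ p ∧ l ≠ k with hS
  have hdvd : g ∣ ∏ l ∈ S, cp g (fun q => ¬ (q : ℤ) ∣ b l) := by
    rw [Nat.dvd_iff_prime_pow_dvd_dvd]
    intro q j hq hqj
    rcases Nat.eq_zero_or_pos j with hj | hj
    · rw [hj, pow_zero]; exact one_dvd _
    obtain ⟨l, hl⟩ := hg q hq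
    have hqg : q ∣ g := (dvd_pow_self q (by omega)).trans hqj
    have h1 : (q : ℤ) ∣ b p := (Int.natCast_dvd_natCast.2 hqg).trans (Int.gcd_dvd_left _ _)
    have h2 : (q : ℤ) ∣ b k := (Int.natCast_dvd_natCast.2 hqg).trans (Int.gcd_dvd_right _ _)
    have hlS : l ∈ S := by
      rw [hS, mem_filter]
      refine ⟨mem_univ _, ?_, ?_⟩
      · rintro rfl; exact hl h1
      · rintro rfl; exact hl h2
    exact (pow_dvd_cp hg0 hq hl hqj).trans
      (Finset.dvd_prod_of_mem (fun l => cp g (fun q => ¬ (q : ℤ) ∣ b l)) hlS)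
  have hle : g ≤ ∏ l ∈ S, cp g (fun q => ¬ (q : ℤ) ∣ b l) :=
    Nat.le_of_dvd (Finset.prod_pos fun l _ => cp_pos _ _) hdvd
  have hn0 : (0 : ℝ) < n := by
    have : 0 < n := by omega
    exact_mod_cast this
  have hSne : S.Nonempty := by
    rw [nonempty_iff_ne_empty]
    intro h0
    rw [h0, prod_empty] at hle
    have h1 : G ≤ 1 := hG2.trans (by exact_mod_cast hle)
    obtain ⟨l, k', -, hl1, -⟩ := exists_two_others hn p
    by_cases hlk : l = k
    · obtain ⟨a, c, hac, ha, hc⟩ := exists_two_others hn p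
      by_cases hak : a = k
      · have : c ∈ S := by
          rw [hS, mem_filter]
          exact ⟨mem_univ _, hc, fun h => hac (hak.trans h.symm)⟩
        rw [h0] at this
        exact absurd this (Finset.notMem_empty _)
      · have : a ∈ S := by rw [hS, mem_filter]; exact ⟨mem_univ _, ha, hak⟩
        rw [h0] at this
        exact absurd this (Finset.notMem_empty _)
    · have : l ∈ S := by rw [hS, mem_filter]; exact ⟨mem_univ _, hl1, hlk⟩
      rw [h0] at this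
      exact absurd this (Finset.notMem_empty _)
  have hlt : (∏ l ∈ S, (cp g (fun q => ¬ (q : ℤ) ∣ b l) : ℝ)) < ∏ _l ∈ S, G ^ ((1 : ℝ) / n) := by
    apply Finset.prod_lt_prod_of_nonempty
    · intro l _
      exact_mod_cast cp_pos _ _
    · intro l hl
      rw [hS, mem_filter] at hl
      exact hcon l hl.2.1 hl.2.2
    · exact hSne
  rw [prod_const] at hlt
  have h5 : (G ^ ((1 : ℝ) / n)) ^ S.card ≤ G := by
    rw [← Real.rpow_natCast, ← Real.rpow_mul (by linarith)]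
    calc G ^ ((1 : ℝ) / n * S.card) ≤ G ^ (1 : ℝ) := by
          apply Real.rpow_le_rpow_of_exponent_le hG
          rw [one_div, inv_mul_le_iff₀ hn0, mul_one]
          exact_mod_cast (card_le_univ S).trans (by rw [Fintype.card_fin])
      _ = G := Real.rpow_one _
  have h6 : (g : ℝ) ≤ ∏ l ∈ S, (cp g (fun q => ¬ (q : ℤ) ∣ b l) : ℝ) := by exact_mod_cast hle
  linarith

/-- (B) tuples where two coordinates have a large common factor of small radical -/
theorem redB (n : ℕ) (hn : 3 ≤ n) (A : ℝ) (hA : 1 ≤ A) : ∃ κ : ℝ, 0 < κ ∧ κ ≤ 1 ∧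
    ∀ ε : ℝ, 0 < ε →
    ∃ D : ℝ, 0 < D ∧ ∀ Z : ℝ, 1 ≤ Z → ∀ Y : ℕ, 1 ≤ Y → (Y : ℝ) ≤ Z ^ A → ∀ G W : ℝ, 1 ≤ G →
    1 ≤ W → ∀ p k : Fin n, p ≠ k → ∀ E : Finset (Fin n → ℤ),
    (∀ b ∈ E, (∀ i, b i ≠ 0 ∧ (b i).natAbs ≤ Y ∧ (rad (b i).natAbs : ℝ) ≤ Z) ∧ ∑ i, b i = 0 ∧
      (∀ q : ℕ, q.Prime → ∃ l, ¬ (q : ℤ) ∣ b l) ∧
      G ≤ Int.gcd (b p) (b k) ∧ (rad (Int.gcd (b p) (b k)) : ℝ) ≤ W) →
    (E.card : ℝ) ≤ D * Z ^ ε * W * Z ^ (n - 2) * (Z ^ (1 - κ) + Z / G ^ ((1 : ℝ) / n)) := by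
  classical
  obtain ⟨κ, hκ, hκ1, hres⟩ := resZ A hA
  refine ⟨κ, hκ, hκ1, fun ε hε => ?_⟩
  obtain ⟨δ, hδ⟩ : ∃ δ : ℝ, δ = ε / (n + 3) := ⟨_, rfl⟩
  have hδ0 : 0 < δ := by rw [hδ]; positivity
  obtain ⟨D1, hD1, h1⟩ := BZ_le A δ hA hδ0
  obtain ⟨D2, hD2, h2⟩ := hres δ hδ0
  refine ⟨n * (D1 ^ n * D1 * D1 * D2), ?_, ?_⟩
  · have : (0 : ℝ) < n := by
      have : 0 < n := by omega
      exact_mod_cast this
    positivity
  intro Z hZ Y hY hYZ G W hG hW p k hpk E hE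
  have hZ0 : 0 < Z := by linarith
  have hG0 : 0 < G := by linarith
  have hGn : 0 < G ^ ((1 : ℝ) / n) := Real.rpow_pos_of_pos hG0 _
  set V : ℝ := D1 ^ n * D1 * D1 * D2 * Z ^ ε * W * Z ^ (n - 2) *
    (Z ^ (1 - κ) + Z / G ^ ((1 : ℝ) / n)) with hV
  set gl : Fin n → (Fin n → ℤ) → ℕ := fun l b =>
    cp (Int.gcd (b p) (b k)) (fun q => ¬ (q : ℤ) ∣ b l) with hgl
  have hcover : E ⊆ (univ.filter fun l : Fin n => l ≠ p ∧ l ≠ k).biUnion fun l =>
      E.filter fun b => G ^ ((1 : ℝ) / n) ≤ gl l b := by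
    intro b hb
    obtain ⟨g1, g2, g3, g4, g5⟩ := hE b hb
    obtain ⟨l, hlp, hlk, hl⟩ := exists_part hn (g1 p).1 g3 hG g4
    rw [mem_biUnion]
    exact ⟨l, mem_filter.2 ⟨mem_univ _, hlp, hlk⟩, mem_filter.2 ⟨hb, hl⟩⟩
  have hl : ∀ l ∈ (univ.filter fun l : Fin n => l ≠ p ∧ l ≠ k),
      (((E.filter fun b => G ^ ((1 : ℝ) / n) ≤ gl l b).card : ℕ) : ℝ) ≤ V := by
    intro l hl
    obtain ⟨-, hlp, hlk⟩ := mem_filter.1 hl
    obtain ⟨-, hcard⟩ := card_compl_three hpk hlp.symm hlk.symm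
    set E' := E.filter fun b => G ^ ((1 : ℝ) / n) ≤ gl l b with hE'
    have hg0 : ∀ b ∈ E', Int.gcd (b p) (b k) ≠ 0 := fun b hb =>
      (Int.gcd_pos_of_ne_zero_left _ ((hE b (mem_filter.1 hb).1).1 p).1).ne'
    have hgdvd : ∀ b ∈ E', gl l b ∣ (b p).natAbs := fun b hb =>
      (cp_dvd _ (hg0 b hb) _).trans (by
        have h5 := Int.gcd_dvd_left (b p) (b k)
        exact Int.natCast_dvd.1 h5)
    have hgY : ∀ b ∈ E', gl l b ≤ Y := fun b hb =>
      (Nat.le_of_dvd (Int.natAbs_pos.2 ((hE b (mem_filter.1 hb).1).1 p).1) (hgdvd b hb)).trans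
        ((hE b (mem_filter.1 hb).1).1 p).2.1
    have hmain := fiberZ E' ({p, k, l} : Finset (Fin n))ᶜ (fun _ => BZ Y Z)
      (fun b => (gl l b, b p)) ((Bset Y W) ×ˢ (BZ Y Z)) ?_ ?_
      (D2 * Z ^ δ * (Z ^ (1 - κ) + Z / G ^ ((1 : ℝ) / n))) (by positivity) ?_
    · refine hmain.trans ?_
      have hprod := prod_BZ (({p, k, l} : Finset (Fin n))ᶜ) Y Z D1 δ hD1 hZ hδ0.le
        (h1 Z hZ Y hY hYZ Z (by linarith)).1
      have e1 := (h1 Z hZ Y hY hYZ Z (by linarith)).1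
      have e2 := (h1 Z hZ Y hY hYZ W (by linarith)).2
      rw [card_product, Nat.cast_mul]
      calc (∏ _i ∈ (({p, k, l} : Finset (Fin n))ᶜ), ((BZ Y Z).card : ℝ)) *
            (((Bset Y W).card : ℝ) * ((BZ Y Z).card : ℝ)) *
            (D2 * Z ^ δ * (Z ^ (1 - κ) + Z / G ^ ((1 : ℝ) / n)))
          ≤ (D1 ^ n * Z ^ (δ * n) * Z ^ (({p, k, l} : Finset (Fin n))ᶜ).card) *
            ((D1 * Z ^ δ * W) * (D1 * Z ^ δ * Z)) *
            (D2 * Z ^ δ * (Z ^ (1 - κ) + Z / G ^ ((1 : ℝ) / n))) := by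
            apply mul_le_mul_of_nonneg_right _ (by positivity)
            exact mul_le_mul hprod (mul_le_mul e2 e1 (Nat.cast_nonneg _) (by positivity))
              (by positivity) (by positivity)
        _ = D1 ^ n * D1 * D1 * D2 * (Z ^ (δ * n) * (Z ^ δ * (Z ^ δ * Z ^ δ))) * W *
            (Z ^ (({p, k, l} : Finset (Fin n))ᶜ).card * Z) *
            (Z ^ (1 - κ) + Z / G ^ ((1 : ℝ) / n)) := by ring
        _ = V := by
            have e3 : (({p, k, l} : Finset (Fin n))ᶜ).card + 1 = n - 2 := by omega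
            have e5 : Z ^ (({p, k, l} : Finset (Fin n))ᶜ).card * Z = Z ^ (n - 2) := by
              rw [← e3, pow_succ]
            have e4 : δ * n + (δ + (δ + δ)) = ε := by
              rw [hδ]; field_simp; ring
            rw [hV, ← Real.rpow_add hZ0, ← Real.rpow_add hZ0, ← Real.rpow_add hZ0, e5, e4]
    · intro b hb i _
      exact mem_BZ.2 ((hE b (mem_filter.1 hb).1).1 i)
    · intro b hb
      have hb' := hE b (mem_filter.1 hb).1
      rw [mem_product, mem_Bset]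
      refine ⟨⟨⟨cp_pos _ _, hgY b hb⟩, ?_⟩, mem_BZ.2 (hb'.1 p)⟩
      refine le_trans ?_ hb'.2.2.2.2
      exact_mod_cast rad_le_rad (hg0 b hb) (cp_dvd _ (hg0 b hb) _)
    · intro u hu
      set T' := E'.filter fun t => (∀ i ∈ ({p, k, l} : Finset (Fin n))ᶜ, t i = u i) ∧
        (gl l t, t p) = (gl l u, u p) with hT'
      have hmem : ∀ t ∈ T', t ∈ E' ∧ (∀ i, i ≠ p → i ≠ k → i ≠ l → t i = u i) ∧
          gl l t = gl l u ∧ t p = u p := by
        intro t ht
        rw [hT', mem_filter] at ht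
        refine ⟨ht.1, fun i g1 g2 g3 => ht.2.1 i ?_, congrArg Prod.fst ht.2.2,
          congrArg Prod.snd ht.2.2⟩
        rw [mem_compl, mem_insert, mem_insert, mem_singleton, not_or, not_or]
        exact ⟨g1, g2, g3⟩
      have hinj : Set.InjOn (fun t : Fin n → ℤ => t l) T' := by
        intro x hx y hy hxy
        obtain ⟨x1, x2, -, x4⟩ := hmem x hx
        obtain ⟨y1, y2, -, y4⟩ := hmem y hy
        refine det_one (hE x (mem_filter.1 x1).1).2.1 (hE y (mem_filter.1 y1).1).2.1 k fun i hi => ?_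
        by_cases hip : i = p
        · rw [hip, x4, y4]
        · by_cases hil : i = l
          · rw [hil]; exact hxy
          · rw [x2 i hip hi hil, y2 i hip hi hil]
      rw [← card_image_of_injOn hinj]
      have hgu1 : 1 ≤ gl l u := cp_pos _ _
      have hguY : (gl l u : ℝ) ≤ Z ^ A := le_trans (by exact_mod_cast hgY u hu) hYZ
      have hbound := h2 Z hZ (gl l u) hgu1 hguY (u l) (T'.image fun t : Fin n → ℤ => t l) (by
        intro x hx
        obtain ⟨t, ht, rfl⟩ := mem_image.1 hx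
        obtain ⟨t1, t2, t3, t4⟩ := hmem t ht
        have ht' := hE t (mem_filter.1 t1).1
        refine ⟨(ht'.1 l).1, le_trans (by exact_mod_cast (ht'.1 l).2.1) hYZ, (ht'.1 l).2.2,
          ?_, ?_⟩
        · rw [← t3]
          apply Nat.Coprime.symm
          apply cp_cop
          intro q _ hq hq2
          exact hq (Int.natCast_dvd.2 hq2)
        · -- congruence
          have e1 := ht'.2.1
          have e2 := (hE u (mem_filter.1 hu).1).2.1
          have hd : ∀ z : Fin n → ℤ, ∑ i, z i = z p + (z k + (z l +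
              ∑ i ∈ ((univ.erase p).erase k).erase l, z i)) := by
            intro z
            rw [Finset.add_sum_erase _ z
                (mem_erase.2 ⟨hlk, mem_erase.2 ⟨hlp, mem_univ l⟩⟩),
              Finset.add_sum_erase _ z (mem_erase.2 ⟨hpk.symm, mem_univ k⟩),
              Finset.add_sum_erase _ z (mem_univ p)]
          rw [hd] at e1 e2
          have e3 : ∑ i ∈ ((univ.erase p).erase k).erase l, t i =
              ∑ i ∈ ((univ.erase p).erase k).erase l, u i := by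
            apply sum_congr rfl
            intro i hi
            rw [mem_erase, mem_erase, mem_erase] at hi
            exact t2 i hi.2.2.1 hi.2.1 hi.1
          have e4 : t l - u l = u k - t k := by rw [e3] at e1; linarith
          rw [e4]
          apply dvd_sub
          · refine (Int.natCast_dvd_natCast.2 (cp_dvd _ (hg0 u hu) _)).trans
              (Int.gcd_dvd_right _ _)
          · rw [← t3]
            refine (Int.natCast_dvd_natCast.2 (cp_dvd _ (hg0 t t1) _)).trans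
              (Int.gcd_dvd_right _ _))
      refine hbound.trans ?_
      apply mul_le_mul_of_nonneg_left _ (by positivity)
      have h6 : G ^ ((1 : ℝ) / n) ≤ gl l u := (mem_filter.1 hu).2
      have h7 : Z / (gl l u : ℝ) ≤ Z / G ^ ((1 : ℝ) / n) :=
        div_le_div_of_nonneg_left hZ0.le hGn h6
      linarith
  have hV0 : 0 ≤ V := by rw [hV]; positivity
  calc (E.card : ℝ) ≤ (((univ.filter fun l : Fin n => l ≠ p ∧ l ≠ k).biUnion fun l =>
      E.filter fun b => G ^ ((1 : ℝ) / n) ≤ gl l b).card : ℝ) := by exact_mod_cast card_le_card hcover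
    _ ≤ ∑ l ∈ (univ.filter fun l : Fin n => l ≠ p ∧ l ≠ k),
        (((E.filter fun b => G ^ ((1 : ℝ) / n) ≤ gl l b).card : ℕ) : ℝ) := by
        exact_mod_cast card_biUnion_le
    _ ≤ ∑ _l ∈ (univ.filter fun l : Fin n => l ≠ p ∧ l ≠ k), V := sum_le_sum hl
    _ = (((univ.filter fun l : Fin n => l ≠ p ∧ l ≠ k).card : ℕ) : ℝ) * V := by
        rw [sum_const, nsmul_eq_mul]
    _ ≤ n * V := by
        apply mul_le_mul_of_nonneg_right _ hV0
        exact_mod_cast (card_le_univ _).trans (by rw [Fintype.card_fin])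
    _ = _ := by rw [hV]; ring

end Pool.Agent.Y594.NT
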