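import Pool.Agent.Y594.NT.Logs

/-!
# The bounds for a cell in logarithmic form (helper594)
-/

set_option autoImplicit false

namespace Pool.Agent.Y594.NT

open Finset Pool.Agent.H785R2.ABC Pool.Agent.H705R2.ABC

theorem sum_log_le {n : ℕ} (S : Finset (Fin n)) (s : Fin n → ℕ) (L : ℝ)
    (h : ∀ i, Real.log (rad (s i)) ≤ L) :
    Real.log (∏ i ∈ S, (rad (s i) : ℝ)) ≤ (S.card : ℝ) * L := by
  rw [Real.log_prod (fun i _ => by
    have : 1 ≤ rad (s i) := rad_pos' _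
    exact_mod_cast (by omega : rad (s i) ≠ 0))]
  calc ∑ i ∈ S, Real.log (rad (s i)) ≤ ∑ _i ∈ S, L := sum_le_sum fun i _ => h i
    _ = (S.card : ℝ) * L := by rw [sum_const, nsmul_eq_mul]

theorem prod_rad_pos {n : ℕ} (S : Finset (Fin n)) (s : Fin n → ℕ) :
    0 < ∏ i ∈ S, (rad (s i) : ℝ) :=
  prod_pos fun i _ => by exact_mod_cast rad_pos' (s i)

theorem rad_pos_real (x : ℕ) : (0 : ℝ) < rad x := by exact_mod_cast rad_pos' x

/-- bound (0) in logarithmic form -/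
theorem triv_log (n K : ℕ) (ε : ℝ) (hε : 0 < ε) : ∃ C : ℝ, 0 ≤ C ∧ ∀ Y : ℕ, 1 ≤ Y →
    ∀ (w : Fin n → ℤ) (T : Finset (Fin n → ℕ)), Cl n K w Y T → 0 < T.card → ∀ s ∈ T,
    ∀ L : ℝ, (∀ i, Real.log (rad (s i)) ≤ L) → ∀ i l : Fin n, i ≠ l →
    Real.log T.card ≤ C + ε * Real.log Y + ((n : ℝ) - 2) * L + Real.log (rad (s i)) := by
  classical
  obtain ⟨D, hD, h⟩ := triv_bound n K ε hε
  refine ⟨|Real.log D|, abs_nonneg _, ?_⟩
  intro Y hY w T hT hTc s hs L hL i l hil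
  have hY0 : (0 : ℝ) < Y := by exact_mod_cast hY
  have hTc' : (0 : ℝ) < T.card := by exact_mod_cast hTc
  have h1 := Real.log_le_log hTc' (h Y hY w T hT s hs l)
  have hi : i ∈ ({l} : Finset (Fin n))ᶜ := by rw [mem_compl, mem_singleton]; exact hil
  rw [← Finset.mul_prod_erase _ _ hi, Real.log_mul (by positivity)
    (mul_pos (rad_pos_real _) (prod_rad_pos _ _)).ne',
    Real.log_mul hD.ne' (Real.rpow_pos_of_pos hY0 _).ne', Real.log_rpow hY0,
    Real.log_mul (rad_pos_real _).ne' (prod_rad_pos _ _).ne'] at h1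
  have h2 := sum_log_le (({l} : Finset (Fin n))ᶜ.erase i) s L hL
  have h3 : ((({l} : Finset (Fin n))ᶜ.erase i).card : ℝ) = (n : ℝ) - 2 := by
    rw [card_erase_of_mem hi, card_compl, card_singleton, Fintype.card_fin]
    have : 2 ≤ n := by
      have := i.2; have := l.2
      have : (i : ℕ) ≠ l := fun h => hil (Fin.ext h)
      omega
    rw [Nat.cast_sub (by omega), Nat.cast_sub (by omega)]
    push_cast
    ring
  rw [h3] at h2
  have := le_abs_self (Real.log D)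
  linarith

/-- bound (1) in logarithmic form -/
theorem pair_log (n K : ℕ) (ε : ℝ) (hε : 0 < ε) : ∃ C : ℝ, 0 ≤ C ∧ ∀ Y : ℕ, 1 ≤ Y →
    ∀ (w : Fin n → ℤ) (T : Finset (Fin n → ℕ)), Cl n K w Y T → 0 < T.card → ∀ s ∈ T,
    ∀ L : ℝ, (∀ i, Real.log (rad (s i)) ≤ L) → ∀ p k : Fin n, p ≠ k → (∀ t ∈ T, t p ≠ 1) →
    ∀ j : ℕ, j < K →
    Real.log T.card ≤ C + ε * Real.log Y + ((n : ℝ) - 2) * L +
      (Real.log (rad (s p)) - mm K (s p) j) + (Real.log (rad (s k)) - mm K (s k) j) +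
      max 0 (mm K (s p) j + mm K (s k) j + Real.log (Int.gcd (w p) (w k)) -
        Real.log (|(w k : ℝ)| * s k)) := by
  classical
  obtain ⟨D, hD, h⟩ := pair_bound n K ε hε
  refine ⟨|Real.log D| + Real.log 2, by positivity, ?_⟩
  intro Y hY w T hT hTc s hs L hL p k hpk h1 j hj
  have hY0 : (0 : ℝ) < Y := by exact_mod_cast hY
  have hTc' : (0 : ℝ) < T.card := by exact_mod_cast hTc
  have hj' : j < K + 1 := by omega
  have hb := h Y hY w T hT s hs p k hpk h1 ⟨j, hj'⟩ hj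
  have hg : (0 : ℝ) < Int.gcd (w p) (w k) := by
    exact_mod_cast Int.gcd_pos_of_ne_zero_left _ (hT.w0 p)
  have hwk : 0 < |(w k : ℝ)| := abs_pos.2 (by exact_mod_cast hT.w0 k)
  have hsk : (0 : ℝ) < s k := by exact_mod_cast hT.pos s hs k
  have hrp := rd_pos_real K (s p) {⟨j, hj'⟩}
  have hrk := rd_pos_real K (s k) {⟨j, hj'⟩}
  have hrpc := rd_pos_real K (s p) {⟨j, hj'⟩}ᶜ
  have hrkc := rd_pos_real K (s k) {⟨j, hj'⟩}ᶜ
  set u : ℝ := (rd K (s p) {⟨j, hj'⟩} : ℝ) * rd K (s k) {⟨j, hj'⟩} *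
    (Int.gcd (w p) (w k) : ℝ) / (|(w k : ℝ)| * s k) with hu
  have hu0 : 0 < u := by rw [hu]; positivity
  have h2 := Real.log_le_log hTc' hb
  have hP := prod_rad_pos ({p, k} : Finset (Fin n))ᶜ s
  have hYe : 0 < (Y : ℝ) ^ ε := Real.rpow_pos_of_pos hY0 _
  rw [Real.log_mul (by positivity) (by positivity), Real.log_mul (by positivity) (by positivity),
    Real.log_mul (by positivity) hP.ne', Real.log_mul hD.ne' hYe.ne',
    Real.log_rpow hY0, Real.log_mul hrpc.ne' hrkc.ne', log_rd_compl, log_rd_compl] at h2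
  have h3 := sum_log_le (({p, k} : Finset (Fin n))ᶜ) s L hL
  have h4 : ((({p, k} : Finset (Fin n))ᶜ).card : ℝ) = (n : ℝ) - 2 := by
    rw [card_compl, card_pair hpk, Fintype.card_fin]
    have : 2 ≤ n := by
      have := p.2; have := k.2
      have : (p : ℕ) ≠ k := fun h => hpk (Fin.ext h)
      omega
    rw [Nat.cast_sub (by omega)]
    push_cast
    ring
  rw [h4] at h3
  have h5 := log_one_add_le hu0
  have hup : Real.log u = mm K (s p) j + mm K (s k) j + Real.log (Int.gcd (w p) (w k)) -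
        Real.log (|(w k : ℝ)| * s k) := by
    rw [hu, Real.log_div (by positivity) (by positivity), Real.log_mul (by positivity) hg.ne',
      Real.log_mul hrp.ne' hrk.ne', mm, mm, dif_pos hj', dif_pos hj']
  have hmp : mm K (s p) j = Real.log (rd K (s p) {⟨j, hj'⟩}) := by rw [mm, dif_pos hj']
  have hmk : mm K (s k) j = Real.log (rd K (s k) {⟨j, hj'⟩}) := by rw [mm, dif_pos hj']
  rw [hup] at h5
  rw [hmp, hmk] at h5 ⊢
  have := le_abs_self (Real.log D)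
  linarith

/-- the general energy bound in logarithmic form -/
theorem tri_log (n K : ℕ) (ε : ℝ) (hε : 0 < ε) : ∃ C : ℝ, 0 ≤ C ∧ ∀ Y : ℕ, 1 ≤ Y →
    ∀ (w : Fin n → ℤ) (T : Finset (Fin n → ℕ)), Cl n K w Y T → 0 < T.card → ∀ s ∈ T,
    ∀ L : ℝ, (∀ i, Real.log (rad (s i)) ≤ L) → ∀ p k r : Fin n, p ≠ k → p ≠ r → k ≠ r →
    ∀ F : Finset (Fin (K + 1)), ∀ M : ℝ, ∀ Θ : Fin n → ℝ, (∀ a, 0 < Θ a) →
    (∀ a, a ≠ r → ∀ f : ℕ, 1 ≤ f → f ≤ Y →
      |(w r : ℝ)| * part K (s r) F / (2 ^ (K + 1) * Int.gcd (w a) (w r)) ≤ f → ∀ P : Finset ℕ,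
      (∀ x ∈ P, Nat.Coprime x f ∧ ∃ t ∈ T, t a = x) → (En P f : ℝ) ≤ Θ a) →
    (∀ a, a = p ∨ a = k → Real.log (Θ a) ≤ M) →
    Real.log T.card ≤ C + ε * Real.log Y + ((n : ℝ) - 3) * L + Real.log (rd K (s r) F) + M := by
  classical
  obtain ⟨D, hD, h⟩ := tri_bound n K ε hε
  refine ⟨|Real.log D|, by positivity, ?_⟩
  intro Y hY w T hT hTc s hs L hL p k r hpk hpr hkr F M Θ hΘ0 hΘ hM
  have hY0 : (0 : ℝ) < Y := by exact_mod_cast hY
  have hTc' : (0 : ℝ) < T.card := by exact_mod_cast hTc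
  have hb := h Y hY w T hT s hs p k r hpk hpr hkr F (Θ p) (Θ k) (hΘ0 p).le (hΘ0 k).le
    (hΘ p hpr) (hΘ k hkr)
  have h2 := Real.log_le_log hTc' hb
  have hP := prod_rad_pos ({p, k, r} : Finset (Fin n))ᶜ s
  have hYe : 0 < (Y : ℝ) ^ ε := Real.rpow_pos_of_pos hY0 _
  have hF := rd_pos_real K (s r) F
  have hpos : 0 < Θ p * Θ k := mul_pos (hΘ0 p) (hΘ0 k)
  rw [Real.log_mul (by positivity) (Real.rpow_pos_of_pos hpos _).ne',
    Real.log_mul (by positivity) hF.ne',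
    Real.log_mul (by positivity) hP.ne', Real.log_mul hD.ne' hYe.ne',
    Real.log_rpow hY0, Real.log_rpow hpos, Real.log_mul (hΘ0 p).ne' (hΘ0 k).ne'] at h2
  have h3 := sum_log_le (({p, k, r} : Finset (Fin n))ᶜ) s L hL
  have h4 : ((({p, k, r} : Finset (Fin n))ᶜ).card : ℝ) = (n : ℝ) - 3 := by
    have h5 : ({p, k, r} : Finset (Fin n)).card = 3 := card_eq_three.2 ⟨p, k, r, hpk, hpr, hkr, rfl⟩
    have h6 : ({p, k, r} : Finset (Fin n)).card ≤ Fintype.card (Fin n) := card_le_univ _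
    rw [h5, Fintype.card_fin] at h6
    rw [card_compl, h5, Fintype.card_fin, Nat.cast_sub h6]
    push_cast
    ring
  rw [h4] at h3
  have h7 := hM p (Or.inl rfl)
  have h8 := hM k (Or.inr rfl)
  have := le_abs_self (Real.log D)
  linarith

theorem max_add_le {x y : ℝ} (hy : 0 ≤ y) : max 0 (x + y) ≤ max 0 x + y :=
  max_le (by have := le_max_left 0 x; linarith) (by have := le_max_right 0 x; linarith)

theorem log_fmin {K : ℕ} {wr : ℤ} (hwr : wr ≠ 0) {g : ℕ} (hg : 0 < g) {x : ℕ} (hx : 1 ≤ x)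
    (F : Finset (Fin (K + 1))) :
    0 < |(wr : ℝ)| * part K x Fᶜ / (2 ^ (K + 1) * g) ∧
    Real.log (|(wr : ℝ)| * part K x Fᶜ / (2 ^ (K + 1) * g)) =
      Real.log (|(wr : ℝ)| * x) - Real.log (part K x F) - (K + 1) * Real.log 2 - Real.log g := by
  have h1 : 0 < |(wr : ℝ)| := abs_pos.2 (by exact_mod_cast hwr)
  have h2 := part_pos_real K x Fᶜ
  have h3 : (0 : ℝ) < g := by exact_mod_cast hg
  have h4 : (0 : ℝ) < x := by exact_mod_cast hx
  refine ⟨by positivity, ?_⟩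
  rw [Real.log_div (by positivity) (by positivity), Real.log_mul h1.ne' h2.ne',
    Real.log_mul (by positivity) h3.ne', Real.log_pow, log_part_compl K x hx,
    Real.log_mul h1.ne' h4.ne']
  push_cast
  ring

end Pool.Agent.Y594.NT
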