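import Pool.Agent.H705R2.ABC.Defs

/-!
# The n-term abc inequality for almost all points: statements of the modules (helper594)
-/

set_option autoImplicit false

namespace Pool.Agent.Y594.NT

open Finset Pool.Agent.H785R2.ABC

/-- COMB: the combinatorial lemma (`m i j` is the exponent of the product of the primes that divide
the `i`-th number exactly `j + 1` times) -/
def S_COMB : Prop :=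
  ∀ η A : ℝ, 0 < η → ∃ κ : ℝ, 0 < κ ∧ ∃ J : ℕ, 2 ≤ J ∧ ∀ n : ℕ, 3 ≤ n →
    ∀ (v : Fin n → ℝ) (m : Fin n → ℕ → ℝ) (h : Fin n → ℝ) (H : ℝ),
    (∀ i j, 0 ≤ m i j) →
    (∀ i, ∑ j ∈ range J, m i j ≤ v i) →
    (∀ i, v i ≤ 1 + κ) →
    (∀ i, 1 - κ ≤ v i) →
    (∀ i, ∀ N, N ≤ J → ∑ j ∈ range N, ((j : ℝ) + 1) * m i j +
      ((N : ℝ) + 1) * (v i - ∑ j ∈ range N, m i j) ≤ h i + κ) →
    (∀ i, h i ≤ H + κ) →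
    (∃ r₁ r₂, r₁ ≠ r₂ ∧ H - κ ≤ h r₁ ∧ H - κ ≤ h r₂) →
    1 + η ≤ H → H ≤ A →
    (∀ p k, p ≠ k → ∀ j, j < J → m p j + m k j ≤ 1 + κ ∨ (h p ≤ 1 + κ ∧ h k ≤ 1 + κ)) →
    (∀ r, ∀ j, j < J → m r j ≤ κ + max 0 (3 / 2 - (h r - ((j : ℝ) + 1) * m r j))) →
    (∀ r p k, r ≠ p → r ≠ k → p ≠ k → m r 0 ≤ κ + max 0 (1 - (h r - m r 0)) +
      (v p - m p 0 - m p 1) + (v k - m k 0 - m k 1)) →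
    False

/-- RES: numbers with a small radical in a residue class -/
def S_RES : Prop :=
  ∀ A : ℝ, 1 ≤ A → ∃ κ : ℝ, 0 < κ ∧ κ ≤ 1 ∧ ∀ ε : ℝ, 0 < ε → ∃ D : ℝ, 0 < D ∧
    ∀ Z : ℝ, 1 ≤ Z → ∀ g : ℕ, 1 ≤ g → (g : ℝ) ≤ Z ^ A → ∀ (c : ZMod g) (B : Finset ℕ),
    (∀ b ∈ B, 1 ≤ b ∧ (b : ℝ) ≤ Z ^ A ∧ (rad b : ℝ) ≤ Z ∧ Nat.Coprime b g ∧ (b : ZMod g) = c) →
    (B.card : ℝ) ≤ D * Z ^ ε * (Z ^ (1 - κ) + Z / g)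

/-- ENJ: the additive energy modulo `f` of a set of integers whose parts are bounded -/
def S_ENJ : Prop :=
  ∀ K : ℕ, ∀ ε : ℝ, 0 < ε → ∃ D : ℝ, 0 < D ∧ ∀ X f : ℕ, 1 ≤ X → 1 ≤ f → f ≤ X →
    ∀ N : Fin K → ℕ, (∀ i, 1 ≤ N i) → ∏ i, N i ≤ X → ∀ l : ℝ, 1 ≤ l → ∀ P : Finset ℕ,
    (∀ x ∈ P, 1 ≤ x ∧ x ≤ X ∧ Nat.Coprime x f ∧ (∀ i : Fin K, rd K x {i.castSucc} ≤ N i) ∧
      (rd K x {Fin.last K} : ℝ) ≤ l) →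
    ((((P ×ˢ P).filter fun t => (t.1 : ZMod f) = (t.2 : ZMod f)).card : ℕ) : ℝ) ≤
      D * (X : ℝ) ^ ε *
        (l ^ 2 * ((∏ i, (N i : ℝ)) * (1 + (∏ i, (N i : ℝ)) ^ ((3 : ℝ) / 2) / f)))

/-- ENT: the same for numbers that are essentially `x y ^ 2` -/
def S_ENT : Prop :=
  ∀ K : ℕ, 2 ≤ K → ∀ ε : ℝ, 0 < ε → ∃ D : ℝ, 0 < D ∧ ∀ X f : ℕ, 1 ≤ X → 1 ≤ f → f ≤ X →
    ∀ N T : ℕ, 1 ≤ N → N ≤ X → 1 ≤ T → T ≤ X → ∀ l : ℝ, 1 ≤ l → ∀ P : Finset ℕ,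
    (∀ x ∈ P, 1 ≤ x ∧ x ≤ X ∧ Nat.Coprime x f ∧ rd K x {0} ≤ N ∧ rd K x {1} ≤ T ∧
      (rd K x {0, 1}ᶜ : ℝ) ≤ l) →
    ((((P ×ˢ P).filter fun t => (t.1 : ZMod f) = (t.2 : ZMod f)).card : ℕ) : ℝ) ≤
      D * (X : ℝ) ^ ε * (l ^ 2 * ((N : ℝ) * T * (1 + (N : ℝ) * T / f)))

/-- PRIM: many primitive vectors with positive coordinates where no form vanishes -/
def S_PRIM : Prop :=
  ∀ (m q : ℕ), 1 ≤ m → ∀ L : Fin q → Fin (m + 1) → ℤ, (∀ i, L i ≠ 0) →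
    ∃ c : ℝ, 0 < c ∧ ∃ Y₀ : ℕ, ∀ Y : ℕ, Y₀ ≤ Y → c * (Y : ℝ) ^ (m + 1) ≤
      ((((Fintype.piFinset fun _ : Fin (m + 1) => Icc (1 : ℤ) Y).filter fun x =>
        univ.gcd x = 1 ∧ ∀ i, ∑ j, L i j * x j ≠ 0).card : ℕ) : ℝ)

end Pool.Agent.Y594.NT
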