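import Pool.Agent.H705R2.ABC.Defs

/-!
# Exact exponents near the threshold: statements of the modules (helper594)
-/

set_option autoImplicit false

namespace Pool.Agent.Y594.NT

open Finset Pool.Agent.H785R2.ABC

/-- USUM: a convergent sum -/
def S_USUM : Prop :=
  ∀ δ : ℝ, 0 < δ → ∃ C : ℝ, 0 < C ∧ ∀ N : ℕ,
    ∑ u ∈ Icc 1 N, (u : ℝ) ^ (-δ) / (rad u : ℝ) ≤ C

/-- LATN: tuples with sum zero in a box, with prescribed divisors -/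
def S_LATN : Prop :=
  ∀ n : ℕ, 3 ≤ n → ∀ k : Fin n, ∀ d : Fin n → ℕ, (∀ i, 1 ≤ d i) → ∀ N : Fin n → ℕ,
    (∀ i, i ≠ k → d i * d k ≤ N i) → ∀ E : Finset (Fin n → ℤ),
    (∀ z ∈ E, univ.gcd z = 1 ∧ ∑ i, z i = 0 ∧ (∀ i, (d i : ℤ) ∣ z i) ∧
      ∀ i, i ≠ k → (z i).natAbs ≤ N i) →
    (E.card : ℝ) * ∏ i, (d i : ℝ) ≤ 3 ^ (n - 1) * ∏ i ∈ univ.erase k, (N i : ℝ)

/-- LOWN: many tuples of large height with a small product of radicals -/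
def S_LOWN : Prop :=
  ∀ m : ℕ, 1 ≤ m → ∀ δ : ℝ, 0 < δ → ∃ X₀ : ℝ, 1 ≤ X₀ ∧ ∀ X : ℝ, X₀ ≤ X →
    ∀ M : ℝ, (1 : ℝ) / (m + 2) ≤ M → M ≤ 1 / ((m : ℝ) + 1) →
    ∃ T : Finset (Fin (m + 2) → ℤ),
      (∀ z ∈ T, univ.gcd z = 1 ∧ ∑ i, z i = 0 ∧ (∀ j : Fin (m + 1), 0 < z j.castSucc) ∧
        ∏ i, (rad (z i).natAbs : ℝ) ≤ X ∧
        (∃ i, X ^ M ≤ ((z i).natAbs : ℝ)) ∧ ∀ i, ((z i).natAbs : ℝ) ≤ X ^ (M + δ)) ∧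
      X ^ (1 - M - δ) ≤ (T.card : ℝ)

/-- KSUM: the sum of the reciprocals of the radicals of all products of `k` numbers up to `U` -/
def S_KSUM : Prop :=
  ∀ k : ℕ, ∀ δ : ℝ, 0 < δ → ∃ C : ℝ, 0 < C ∧ ∀ U : ℕ, 1 ≤ U →
    ∑ w ∈ Fintype.piFinset (fun _ : Fin k => Icc 1 U), 1 / (rad (∏ i, w i) : ℝ) ≤
      C * (U : ℝ) ^ δ

end Pool.Agent.Y594.NT
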