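import Pool.Agent.H705R2.ABC.Defs
import Mathlib

/-!
# Exceptions outside a closed subset: statement of the module (helper594)
-/

set_option autoImplicit false

namespace Pool.Agent.Y594.NT

open Finset Pool.Agent.H785R2.ABC

/-- LOWG: many tuples of large height with a small product of radicals, off a hypersurface -/
def S_LOWG : Prop :=
  ∀ m : ℕ, 1 ≤ m → ∀ G : MvPolynomial (Fin (m + 1)) ℤ, G ≠ 0 → ∀ δ : ℝ, 0 < δ →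
    ∃ X₀ : ℝ, 1 ≤ X₀ ∧ ∀ X : ℝ, X₀ ≤ X →
    ∀ M : ℝ, (1 : ℝ) / (m + 2) ≤ M → M + δ ≤ 1 / ((m : ℝ) + 1) →
    ∃ T : Finset (Fin (m + 2) → ℤ),
      (∀ z ∈ T, univ.gcd z = 1 ∧ ∑ i, z i = 0 ∧ (∀ j : Fin (m + 1), 0 < z j.castSucc) ∧
        ∏ i, (rad (z i).natAbs : ℝ) ≤ X ∧
        (∃ i, X ^ M ≤ ((z i).natAbs : ℝ)) ∧ (∀ i, ((z i).natAbs : ℝ) ≤ X ^ (M + δ)) ∧
        MvPolynomial.eval (fun j : Fin (m + 1) => z j.castSucc) G ≠ 0) ∧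
      X ^ (1 - M - δ) ≤ (T.card : ℝ)

end Pool.Agent.Y594.NT
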