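import Pool.Agent.Y594.NT.Near2

/-!
# The threshold: crude cases (helper594)
-/

set_option autoImplicit false

namespace Pool.Agent.Y594.NT

open Finset Pool.Agent.H785R2.ABC Pool.Agent.H705R2.ABC

/-- tuples in a box with one coordinate in a small set -/
theorem one_small {n : ℕ} (hn : 3 ≤ n) (B : ℝ) (hB : 0 ≤ B) (i : Fin n) (V : Finset ℤ)
    (E : Finset (Fin n → ℤ)) (hE : ∀ z ∈ E, ∑ i, z i = 0 ∧ (∀ i, ((z i).natAbs : ℝ) ≤ B) ∧ z i ∈ V) :
    (E.card : ℝ) ≤ (2 * B + 1) ^ (n - 2) * V.card := by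
  classical
  obtain ⟨k, l, -, hki, -⟩ := exists_two_others hn i
  have hmain := fiberZ E ({i, k} : Finset (Fin n))ᶜ (fun _ => Icc (-(⌊B⌋₊ : ℤ)) ⌊B⌋₊)
    (fun z => z i) V (fun z hz j _ => by
      have h2 : (z j).natAbs ≤ ⌊B⌋₊ := Nat.le_floor ((hE z hz).2.1 j)
      rw [mem_Icc]
      omega) (fun z hz => (hE z hz).2.2) 1 zero_le_one (fun u hu => by
      have h1 : (E.filter fun t => (∀ j ∈ ({i, k} : Finset (Fin n))ᶜ, t j = u j) ∧
          t i = u i).card ≤ 1 := by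
        rw [card_le_one]
        intro a ha b hb
        obtain ⟨a1, a2, a3⟩ := mem_filter.1 ha
        obtain ⟨b1, b2, b3⟩ := mem_filter.1 hb
        refine det_one (hE a a1).1 (hE b b1).1 k fun j hj => ?_
        by_cases hji : j = i
        · rw [hji, a3, b3]
        · have hj' : j ∈ ({i, k} : Finset (Fin n))ᶜ := by
            rw [mem_compl, mem_insert, mem_singleton, not_or]
            exact ⟨hji, hj⟩
          rw [a2 j hj', b2 j hj']
      exact_mod_cast h1)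
  rw [prod_const, mul_one] at hmain
  have hc : (({i, k} : Finset (Fin n))ᶜ).card = n - 2 := by
    rw [card_compl, card_pair (Ne.symm hki), Fintype.card_fin]
  have hI : ((Icc (-(⌊B⌋₊ : ℤ)) ⌊B⌋₊).card : ℝ) ≤ 2 * B + 1 := by
    have h1 : (Icc (-(⌊B⌋₊ : ℤ)) ⌊B⌋₊).card = 2 * ⌊B⌋₊ + 1 := by rw [Int.card_Icc]; omega
    have h2 : (⌊B⌋₊ : ℝ) ≤ B := Nat.floor_le hB
    rw [h1]; push_cast; linarith
  rw [hc] at hmain
  refine hmain.trans ?_
  apply mul_le_mul_of_nonneg_right _ (Nat.cast_nonneg _)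
  exact pow_le_pow_left₀ (Nat.cast_nonneg _) hI _

/-- the conditions on a tuple -/
def Adm {n : ℕ} (A X : ℝ) (z : Fin n → ℤ) : Prop :=
  univ.gcd z = 1 ∧ ∑ i, z i = 0 ∧ (∀ i, z i ≠ 0) ∧ (∀ i, ((z i).natAbs : ℝ) ≤ X ^ A) ∧
    ∏ i, (rad (z i).natAbs : ℝ) ≤ X

/-- the good tuples -/
def Good {n : ℕ} (X : ℝ) (U : ℕ) (z : Fin n → ℤ) : Prop :=
  (∀ i, ((z i).natAbs : ℝ) ≤ n * X) ∧ ∀ i, uu (z i) ≤ U ∧ tz z i ≤ U ∧ U ^ 6 ≤ (z i).natAbs

theorem radS_empty (a : ℤ) : radS ∅ a = rad a.natAbs := by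
  unfold radS rad
  rw [sdiff_empty]

/-- all but few tuples are good -/
theorem crude (m : ℕ) (hm : 1 ≤ m) (A : ℝ) (hA : 1 ≤ A) : ∃ ν : ℝ, 0 < ν ∧
    ν ≤ ((m : ℝ) + 1) / (m + 2) ∧ ∃ C : ℝ, 0 < C ∧
    ∀ X : ℝ, 1 ≤ X → ∃ U : ℕ, 1 ≤ U ∧ (U : ℝ) ≤ X ∧ ∀ E : Finset (Fin (m + 2) → ℤ),
    (∀ z ∈ E, Adm A X z ∧ ¬ Good X U z) →
    (E.card : ℝ) ≤ C * X ^ (((m : ℝ) + 1) / (m + 2) - ν) := by
  classical
  obtain ⟨N, hN⟩ : ∃ N : ℝ, N = (m : ℝ) + 2 := ⟨_, rfl⟩
  have hm1 : (1 : ℝ) ≤ m := by exact_mod_cast hm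
  have hN3 : 3 ≤ N := by rw [hN]; linarith
  have hN0 : 0 < N := by linarith
  have hcastN : ((m + 2 : ℕ) : ℝ) = N := by rw [hN]; push_cast; rfl
  have hmN : (m : ℝ) + 1 = N - 1 := by rw [hN]; ring
  obtain ⟨η, hη⟩ : ∃ η : ℝ, η = 1 / (64 * N ^ 3) := ⟨_, rfl⟩
  have hη0 : 0 < η := by rw [hη]; positivity
  obtain ⟨ν₁, hν₁, C₁, hC₁, hex⟩ := ex_arr (GP_LS m) hm le_rfl ∅ A η hA hη0
  obtain ⟨C₂, hC₂, hgc⟩ := gcd_count (GP_LS m) hm (by omega)
  obtain ⟨D, hD, hBZ⟩ := BZ_le 1 (1 / (64 * N)) le_rfl (by positivity)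
  obtain ⟨ν, hν⟩ : ∃ ν : ℝ, ν = min ν₁ (1 / (64 * N ^ 2)) := ⟨_, rfl⟩
  have hν1 : ν ≤ ν₁ := by rw [hν]; exact min_le_left _ _
  have hν2 : ν ≤ 1 / (64 * N ^ 2) := by rw [hν]; exact min_le_right _ _
  have hn64 : 1 / (64 * N ^ 2) ≤ 1 / (64 * N) := by
    apply one_div_le_one_div_of_le (by positivity)
    nlinarith
  have hηN : η * N = 1 / (64 * N ^ 2) := by rw [hη]; field_simp
  set Ca : ℝ := (3 * N) ^ (m + 1) * D * N ^ (1 / (64 * N)) with hCa
  set Cb : ℝ := (3 * N) ^ (m + 1) * 3 with hCb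
  refine ⟨ν, by rw [hν]; exact lt_min hν₁ (by positivity), ?_,
    C₁ + N * Ca + N * Cb + N * N * C₂, by positivity, ?_⟩
  · rw [hmN, ← hN]
    have h1 : 1 / (64 * N ^ 2) ≤ (N - 1) / N := by
      rw [div_le_div_iff₀ (by positivity) hN0]
      nlinarith [sq_nonneg N]
    linarith
  intro X hX
  have hX0 : 0 < X := by linarith
  obtain ⟨u, hu⟩ : ∃ u : ℝ, u = X ^ (1 / (16 * N)) := ⟨_, rfl⟩
  have hu1 : 1 ≤ u := by rw [hu]; exact Real.one_le_rpow hX (by positivity)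
  have hu0 : 0 < u := by linarith
  have hUle : (⌊u⌋₊ : ℝ) ≤ u := Nat.floor_le hu0.le
  have huX : u ≤ X := by
    rw [hu]
    calc X ^ (1 / (16 * N)) ≤ X ^ (1 : ℝ) := by
          apply Real.rpow_le_rpow_of_exponent_le hX
          rw [div_le_one (by positivity)]
          linarith
      _ = X := Real.rpow_one X
  refine ⟨⌊u⌋₊, Nat.le_floor (by simpa using hu1), hUle.trans huX, ?_⟩
  intro E hE
  set U : ℕ := ⌊u⌋₊ with hU
  obtain ⟨b, hb⟩ : ∃ b : ℝ, b = X ^ (1 / N + η) := ⟨_, rfl⟩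
  have hb1 : 1 ≤ b := by rw [hb]; exact Real.one_le_rpow hX (by positivity)
  have hb0 : 0 < b := by linarith
  have hbX : b ≤ X := by
    rw [hb]
    calc X ^ (1 / N + η) ≤ X ^ (1 : ℝ) := by
          apply Real.rpow_le_rpow_of_exponent_le hX
          have h1 : 1 / N ≤ 1 / 3 := one_div_le_one_div_of_le (by norm_num) hN3
          have h2 : η ≤ 1 / 64 := by
            rw [hη]
            apply one_div_le_one_div_of_le (by norm_num)
            have : 1 ≤ N ^ 3 := one_le_pow₀ (by linarith)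
            linarith
          linarith
      _ = X := Real.rpow_one X
  obtain ⟨B, hB⟩ : ∃ B : ℝ, B = N * b := ⟨_, rfl⟩
  have hB1 : 1 ≤ B := by rw [hB]; nlinarith
  have hB0 : 0 < B := by linarith
  have hBX : B ≤ N * X := by rw [hB]; exact mul_le_mul_of_nonneg_left hbX hN0.le
  -- the large ones
  set E₀ : Finset (Fin (m + 2) → ℤ) := E.filter fun z => ∃ j, b ≤ |(cut z j : ℝ)| with hE₀
  set Ea : Fin (m + 2) → Finset (Fin (m + 2) → ℤ) := fun i => E.filter fun z =>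
    (∀ j, |(cut z j : ℝ)| ≤ b) ∧ U < uu (z i) with hEa
  set Eb : Fin (m + 2) → Finset (Fin (m + 2) → ℤ) := fun i => E.filter fun z =>
    (∀ j, |(cut z j : ℝ)| ≤ b) ∧ (z i).natAbs < U ^ 6 with hEb
  set Ec : Fin (m + 2) × Fin (m + 2) → Finset (Fin (m + 2) → ℤ) := fun y => E.filter fun z =>
    (∀ j, |(cut z j : ℝ)| ≤ b) ∧ X ^ (1 / (16 * N ^ 2)) ≤ Int.gcd (z y.1) (z y.2) with hEc
  set P : Finset (Fin (m + 2) × Fin (m + 2)) := univ.filter fun x => x.1 ≠ x.2 with hP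
  have hPcard : (P.card : ℝ) ≤ N * N := by
    have h1 : P.card ≤ (m + 2) * (m + 2) := (card_le_univ P).trans (by
      rw [Fintype.card_prod, Fintype.card_fin])
    rw [← hcastN]
    exact_mod_cast h1
  have hbox : ∀ z ∈ E, (∀ j, |(cut z j : ℝ)| ≤ b) → ∀ i, ((z i).natAbs : ℝ) ≤ B := by
    intro z hz hc i
    obtain ⟨⟨g1, g2, g3, -, -⟩, -⟩ := hE z hz
    have h1 := form_cut g2 i
    rw [← h1]
    refine Fin.lastCases ?_ (fun j => ?_) i
    · rw [form_last, Int.natAbs_neg]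
      calc ((∑ j, cut z j).natAbs : ℝ) ≤ ((∑ j, (cut z j).natAbs : ℕ) : ℝ) := by
            exact_mod_cast Int.natAbs_sum_le _ _
        _ = ∑ j, |(cut z j : ℝ)| := by
            push_cast
            exact sum_congr rfl fun j _ => by rw [Nat.cast_natAbs, Int.cast_abs]
        _ ≤ ∑ _j : Fin (m + 1), b := sum_le_sum fun j _ => hc j
        _ = ((m : ℝ) + 1) * b := by
            rw [sum_const, nsmul_eq_mul, card_univ, Fintype.card_fin]; push_cast; ring
        _ ≤ B := by rw [hB, hmN]; nlinarith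
    · rw [form_cast, Nat.cast_natAbs, Int.cast_abs]
      refine (hc j).trans ?_
      rw [hB]; nlinarith
  have hcover : E ⊆ ((E₀ ∪ univ.biUnion Ea) ∪ univ.biUnion Eb) ∪ P.biUnion Ec := by
    intro z hz
    rw [mem_union, mem_union, mem_union, mem_biUnion, mem_biUnion, mem_biUnion]
    by_cases h1 : ∃ j, b ≤ |(cut z j : ℝ)|
    · exact Or.inl (Or.inl (Or.inl (mem_filter.2 ⟨hz, h1⟩)))
    push Not at h1
    have h1' : ∀ j, |(cut z j : ℝ)| ≤ b := fun j => (h1 j).le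
    have hbz := hbox z hz h1'
    obtain ⟨⟨g1, g2, g3, g4, g5⟩, g6⟩ := hE z hz
    by_cases h2 : ∃ i, U < uu (z i)
    · obtain ⟨i, hi⟩ := h2
      exact Or.inl (Or.inl (Or.inr ⟨i, mem_univ _, mem_filter.2 ⟨hz, h1', hi⟩⟩))
    push Not at h2
    by_cases h3 : ∃ i, (z i).natAbs < U ^ 6
    · obtain ⟨i, hi⟩ := h3
      exact Or.inl (Or.inr ⟨i, mem_univ _, mem_filter.2 ⟨hz, h1', hi⟩⟩)
    push Not at h3
    right
    have h4 : ∃ i, U < tz z i := by
      by_contra hcon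
      push Not at hcon
      apply g6
      refine ⟨fun i => (hbz i).trans (by rw [hcastN]; exact hBX), fun i => ⟨h2 i, hcon i, h3 i⟩⟩
    obtain ⟨i, hi⟩ := h4
    have h5 : ∃ j ∈ univ.erase i, X ^ (1 / (16 * N ^ 2)) ≤ (Int.gcd (z i) (z j) : ℝ) := by
      by_contra hcon
      push Not at hcon
      have h6 : (tz z i : ℝ) ≤ ∏ j ∈ univ.erase i, (Int.gcd (z i) (z j) : ℝ) := by
        have h7 := Nat.le_of_dvd (Finset.prod_pos fun j _ => Int.gcd_pos_of_ne_zero_left _ (g3 i))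
          (tz_gcd g3 i)
        exact_mod_cast h7
      have h8 : ∏ j ∈ univ.erase i, (Int.gcd (z i) (z j) : ℝ) ≤
          (X ^ (1 / (16 * N ^ 2))) ^ (m + 1) := by
        calc _ ≤ ∏ _j ∈ univ.erase i, X ^ (1 / (16 * N ^ 2)) :=
              prod_le_prod (fun j _ => Nat.cast_nonneg _) fun j hj => (hcon j hj).le
          _ = _ := by
              rw [prod_const, card_erase_of_mem (mem_univ i), card_univ, Fintype.card_fin]
              rfl
      have h9 : (X ^ (1 / (16 * N ^ 2))) ^ (m + 1) ≤ u := by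
        rw [← Real.rpow_natCast, ← Real.rpow_mul hX0.le, hu]
        apply Real.rpow_le_rpow_of_exponent_le hX
        push_cast
        rw [hmN]
        have e1 : 1 / (16 * N ^ 2) * (N - 1) = 1 / (16 * N) - 1 / (16 * N ^ 2) := by
          field_simp
        rw [e1]
        have : 0 < 1 / (16 * N ^ 2) := by positivity
        linarith
      have h10 : u < (U : ℝ) + 1 := Nat.lt_floor_add_one u
      have h11 : ((U : ℝ) + 1) ≤ tz z i := by exact_mod_cast hi
      linarith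
    obtain ⟨j, hj, hj2⟩ := h5
    exact ⟨(i, j), mem_filter.2 ⟨mem_univ _, (mem_erase.1 hj).1.symm⟩,
      mem_filter.2 ⟨hz, h1', hj2⟩⟩
  -- (0)
  have hcutinj : ∀ F : Finset (Fin (m + 2) → ℤ), F ⊆ E → Set.InjOn cut (F : Set (Fin (m + 2) → ℤ)) := by
    intro F hF z hz w hw h
    exact cut_inj (hE z (hF hz)).1.2.1 (hE w (hF hw)).1.2.1 h
  have hpts : ∀ z ∈ E, univ.gcd (cut z) = 1 ∧ (∀ i, form (LS m i) (cut z) ≠ 0) ∧
      (∀ j, |(cut z j : ℝ)| ≤ X ^ A) ∧ ∏ i, (radS ∅ (form (LS m i) (cut z)) : ℝ) ≤ X := by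
    intro z hz
    obtain ⟨⟨g1, g2, g3, g4, g5⟩, -⟩ := hE z hz
    refine ⟨gcd_cut g2 g1, fun i => by rw [form_cut g2]; exact g3 i, fun j => ?_, ?_⟩
    · have := g4 j.castSucc
      rw [Nat.cast_natAbs, Int.cast_abs] at this
      exact this
    · calc ∏ i, (radS ∅ (form (LS m i) (cut z)) : ℝ) = ∏ i, (rad (z i).natAbs : ℝ) :=
            prod_congr rfl fun i _ => by rw [form_cut g2, radS_empty]
        _ ≤ X := g5
  have b0 : (E₀.card : ℝ) ≤ C₁ * X ^ ((N - 1) / N - ν) := by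
    have h1 := hex X hX (E₀.image cut) (by
      intro x hx
      obtain ⟨z, hz, rfl⟩ := mem_image.1 hx
      obtain ⟨z1, z2⟩ := mem_filter.1 hz
      obtain ⟨g1, g2, g3, g4⟩ := hpts z z1
      refine ⟨g1, g2, g3, ?_, g4⟩
      rw [hcastN, ← hb]
      exact z2)
    rw [card_image_of_injOn (hcutinj E₀ (filter_subset _ _)), hcastN, hmN] at h1
    refine h1.trans ?_
    apply mul_le_mul_of_nonneg_left _ hC₁.le
    exact Real.rpow_le_rpow_of_exponent_le hX (by linarith)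
  have hB3 : 2 * B + 1 ≤ 3 * N * b := by rw [hB]; nlinarith
  -- (a)
  have ba : ∀ i ∈ (univ : Finset (Fin (m + 2))), ((Ea i).card : ℝ) ≤ Ca * X ^ ((N - 1) / N - ν) := by
    intro i _
    set Y : ℕ := ⌊B⌋₊ with hY
    have hY1 : 1 ≤ Y := Nat.le_floor (by simpa using hB1)
    have hYB : (Y : ℝ) ≤ B := Nat.floor_le hB0.le
    have h1 := one_small (n := m + 2) (by omega) B hB0.le i (BZ Y (B / u)) (Ea i) (by
      intro z hz
      obtain ⟨z1, z2, z3⟩ := mem_filter.1 hz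
      obtain ⟨⟨g1, g2, g3, -, -⟩, -⟩ := hE z z1
      have hbz := hbox z z1 z2
      refine ⟨g2, hbz, mem_BZ.2 ⟨g3 i, Nat.le_floor (hbz i), ?_⟩⟩
      rw [le_div_iff₀ hu0]
      have e1 : u ≤ uu (z i) := by
        have h10 : u < (U : ℝ) + 1 := Nat.lt_floor_add_one u
        have h11 : ((U : ℝ) + 1) ≤ uu (z i) := by exact_mod_cast z3
        linarith
      have e2 : (rad (z i).natAbs : ℝ) * (uu (z i) : ℝ) = ((z i).natAbs : ℝ) := by
        exact_mod_cast rad_mul_uu (g3 i)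
      calc (rad (z i).natAbs : ℝ) * u ≤ (rad (z i).natAbs : ℝ) * (uu (z i) : ℝ) :=
            mul_le_mul_of_nonneg_left e1 (Nat.cast_nonneg _)
        _ = ((z i).natAbs : ℝ) := e2
        _ ≤ B := hbz i)
    have h2 := (hBZ (N * X) (by nlinarith) Y hY1 (by
      rw [Real.rpow_one]; exact hYB.trans hBX) (B / u) (by positivity)).1
    refine h1.trans ?_
    have e3 : m + 2 - 2 = m := by omega
    rw [e3]
    calc (2 * B + 1) ^ m * ((BZ Y (B / u)).card : ℝ)
        ≤ (3 * N * b) ^ m * (D * (N * X) ^ (1 / (64 * N)) * (B / u)) :=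
          mul_le_mul (pow_le_pow_left₀ (by linarith) hB3 m) h2 (Nat.cast_nonneg _) (by positivity)
      _ ≤ (3 * N * b) ^ m * (D * (N * X) ^ (1 / (64 * N)) * ((3 * N * b) / u)) := by
          apply mul_le_mul_of_nonneg_left _ (by positivity)
          apply mul_le_mul_of_nonneg_left _ (by positivity)
          apply div_le_div_of_nonneg_right _ hu0.le
          linarith
      _ = Ca * (b ^ (m + 1) * X ^ (1 / (64 * N)) / u) := by
          rw [hCa, Real.mul_rpow hN0.le hX0.le]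
          ring
      _ ≤ Ca * X ^ ((N - 1) / N - ν) := by
          apply mul_le_mul_of_nonneg_left _ (by positivity)
          rw [hb, hu, ← Real.rpow_natCast, ← Real.rpow_mul hX0.le, ← Real.rpow_add hX0,
            ← Real.rpow_sub hX0]
          apply Real.rpow_le_rpow_of_exponent_le hX
          push_cast
          rw [hmN]
          have f1 : (1 / N + η) * (N - 1) = (N - 1) / N + (η * N - η) := by field_simp
          have f2 : 1 / (16 * N) = 4 * (1 / (64 * N)) := by field_simp; norm_num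
          have f4 : 0 < 1 / (64 * N) := by positivity
          rw [f1, f2, hηN]
          linarith
  -- (b)
  have bb : ∀ i ∈ (univ : Finset (Fin (m + 2))), ((Eb i).card : ℝ) ≤ Cb * X ^ ((N - 1) / N - ν) := by
    intro i _
    have hU6 : ((U ^ 6 : ℕ) : ℝ) ≤ u ^ 6 := by
      push_cast
      exact pow_le_pow_left₀ (Nat.cast_nonneg _) hUle 6
    have h1 := one_small (n := m + 2) (by omega) B hB0.le i
      (Icc (-((U ^ 6 : ℕ) : ℤ)) ((U ^ 6 : ℕ) : ℤ)) (Eb i) (by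
      intro z hz
      obtain ⟨z1, z2, z3⟩ := mem_filter.1 hz
      obtain ⟨⟨g1, g2, g3, -, -⟩, -⟩ := hE z z1
      have hbz := hbox z z1 z2
      refine ⟨g2, hbz, mem_Icc.2 ?_⟩
      generalize U ^ 6 = w at z3
      omega)
    have hI : ((Icc (-((U ^ 6 : ℕ) : ℤ)) ((U ^ 6 : ℕ) : ℤ)).card : ℝ) ≤ 3 * u ^ 6 := by
      have h3 : (Icc (-((U ^ 6 : ℕ) : ℤ)) ((U ^ 6 : ℕ) : ℤ)).card = 2 * U ^ 6 + 1 := by
        rw [Int.card_Icc]
        generalize U ^ 6 = w
        omega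
      have h4 : 1 ≤ u ^ 6 := one_le_pow₀ hu1
      rw [h3]
      push_cast at hU6 ⊢
      linarith
    refine h1.trans ?_
    have e3 : m + 2 - 2 = m := by omega
    rw [e3]
    calc (2 * B + 1) ^ m * ((Icc (-((U ^ 6 : ℕ) : ℤ)) ((U ^ 6 : ℕ) : ℤ)).card : ℝ)
        ≤ (3 * N * b) ^ m * (3 * u ^ 6) :=
          mul_le_mul (pow_le_pow_left₀ (by linarith) hB3 m) hI (Nat.cast_nonneg _) (by positivity)
      _ = (3 * N) ^ m * 3 * (b ^ m * u ^ 6) := by rw [mul_pow]; ring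
      _ ≤ Cb * (b ^ m * u ^ 6) := by
          apply mul_le_mul_of_nonneg_right _ (by positivity)
          rw [hCb]
          apply mul_le_mul_of_nonneg_right _ (by norm_num)
          exact pow_le_pow_right₀ (by linarith) (by omega)
      _ ≤ Cb * X ^ ((N - 1) / N - ν) := by
          apply mul_le_mul_of_nonneg_left _ (by positivity)
          rw [hb, hu, ← Real.rpow_natCast, ← Real.rpow_natCast, ← Real.rpow_mul hX0.le,
            ← Real.rpow_mul hX0.le, ← Real.rpow_add hX0]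
          apply Real.rpow_le_rpow_of_exponent_le hX
          push_cast
          have f0 : (m : ℝ) = N - 2 := by rw [hN]; ring
          rw [f0]
          have f1 : (1 / N + η) * (N - 2) = (N - 1) / N - 1 / N + (η * N - 2 * η) := by
            field_simp; ring
          have f2 : 1 / (16 * N) * 6 = 24 * (1 / (64 * N)) := by field_simp; norm_num
          have f3 : 1 / N = 64 * (1 / (64 * N)) := by field_simp
          have f4 : 0 < 1 / (64 * N) := by positivity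
          rw [f1, f2, hηN, f3]
          linarith
  -- (c)
  have bc : ∀ y ∈ P, ((Ec y).card : ℝ) ≤ C₂ * X ^ ((N - 1) / N - ν) := by
    intro y hy
    have h1 := hgc b hb1 (X ^ (1 / (16 * N ^ 2))) (by positivity) y.1 y.2 (mem_filter.1 hy).2
      ((Ec y).image cut) (by
        intro x hx
        obtain ⟨z, hz, rfl⟩ := mem_image.1 hx
        obtain ⟨z1, z2, z3⟩ := mem_filter.1 hz
        have g2 := (hE z z1).1.2.1
        refine ⟨(hpts z z1).2.1, z2, ?_⟩
        rw [form_cut g2, form_cut g2]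
        exact z3)
    rw [card_image_of_injOn (hcutinj (Ec y) (filter_subset _ _))] at h1
    refine h1.trans ?_
    rw [hb, ← Real.rpow_natCast, ← Real.rpow_mul hX0.le, mul_div_assoc, ← Real.rpow_sub hX0]
    apply mul_le_mul_of_nonneg_left _ hC₂.le
    apply Real.rpow_le_rpow_of_exponent_le hX
    push_cast
    rw [hmN]
    have f1 : (1 / N + η) * (N - 1) = (N - 1) / N + (η * N - η) := by field_simp
    have f2 : 1 / (16 * N ^ 2) = 4 * (1 / (64 * N ^ 2)) := by field_simp; norm_num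
    have f3 : 0 < 1 / (64 * N ^ 2) := by positivity
    rw [f1, f2, hηN]
    linarith
  have h3 : (E.card : ℝ) ≤ E₀.card + ∑ i, ((Ea i).card : ℝ) + ∑ i, ((Eb i).card : ℝ) +
      ∑ y ∈ P, ((Ec y).card : ℝ) := by
    have q1 := (card_le_card hcover).trans (card_union_le _ _)
    have q2 := card_union_le (E₀ ∪ univ.biUnion Ea) (univ.biUnion Eb)
    have q3 := card_union_le E₀ (univ.biUnion Ea)
    have q4 : (univ.biUnion Ea).card ≤ ∑ i, (Ea i).card := card_biUnion_le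
    have q5 : (univ.biUnion Eb).card ≤ ∑ i, (Eb i).card := card_biUnion_le
    have q6 : (P.biUnion Ec).card ≤ ∑ y ∈ P, (Ec y).card := card_biUnion_le
    exact_mod_cast (by omega : E.card ≤ E₀.card + ∑ i, (Ea i).card + ∑ i, (Eb i).card +
      ∑ y ∈ P, (Ec y).card)
  have sa : ∑ i, ((Ea i).card : ℝ) ≤ N * (Ca * X ^ ((N - 1) / N - ν)) := by
    calc _ ≤ ∑ _i : Fin (m + 2), Ca * X ^ ((N - 1) / N - ν) := sum_le_sum ba
      _ = _ := by rw [sum_const, nsmul_eq_mul, card_univ, Fintype.card_fin, hcastN]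
  have sb : ∑ i, ((Eb i).card : ℝ) ≤ N * (Cb * X ^ ((N - 1) / N - ν)) := by
    calc _ ≤ ∑ _i : Fin (m + 2), Cb * X ^ ((N - 1) / N - ν) := sum_le_sum bb
      _ = _ := by rw [sum_const, nsmul_eq_mul, card_univ, Fintype.card_fin, hcastN]
  have sc : ∑ y ∈ P, ((Ec y).card : ℝ) ≤ N * N * (C₂ * X ^ ((N - 1) / N - ν)) := by
    calc _ ≤ ∑ _y ∈ P, C₂ * X ^ ((N - 1) / N - ν) := sum_le_sum bc
      _ = P.card * (C₂ * X ^ ((N - 1) / N - ν)) := by rw [sum_const, nsmul_eq_mul]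
      _ ≤ _ := mul_le_mul_of_nonneg_right hPcard (by positivity)
  have hexp : ((m : ℝ) + 1) / (m + 2) = (N - 1) / N := by rw [hmN, ← hN]
  rw [hexp]
  calc (E.card : ℝ) ≤ C₁ * X ^ ((N - 1) / N - ν) + N * (Ca * X ^ ((N - 1) / N - ν)) +
        N * (Cb * X ^ ((N - 1) / N - ν)) + N * N * (C₂ * X ^ ((N - 1) / N - ν)) := by linarith
    _ = _ := by ring

end Pool.Agent.Y594.NT
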