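import Pool.Agent.Y594.NT.Steps

/-!
# The two energy bounds for a cell (helper594)
-/

set_option autoImplicit false

namespace Pool.Agent.Y594.NT

open Finset Pool.Agent.H785R2.ABC Pool.Agent.H705R2.ABC

/-- bound (2) with the energy of product sets -/
theorem tri_J (hJ : S_ENJ) (n K : ℕ) (ε : ℝ) (hε : 0 < ε) : ∃ C : ℝ, 0 ≤ C ∧ ∀ Y : ℕ, 1 ≤ Y →
    ∀ (w : Fin n → ℤ) (T : Finset (Fin n → ℕ)), Cl n K w Y T → 0 < T.card → ∀ s ∈ T,
    ∀ L : ℝ, (∀ i, Real.log (rad (s i)) ≤ L) → ∀ p k r : Fin n, p ≠ k → p ≠ r → k ≠ r →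
    ∀ j : ℕ, j < K → ∀ M : ℝ,
    (∀ a, a = p ∨ a = k → Real.log (rad (s a)) + Real.log (rd K (s a) {Fin.last K}) +
      max 0 (3 / 2 * Real.log (rad (s a)) - (Real.log (|(w r : ℝ)| * s r) -
        ((j : ℝ) + 1) * mm K (s r) j) + Real.log (Int.gcd (w a) (w r))) ≤ M) →
    Real.log T.card ≤ C + ε * Real.log Y + ((n : ℝ) - 3) * L +
      (Real.log (rad (s r)) - mm K (s r) j) + M := by
  classical
  obtain ⟨C1, hC1, h1⟩ := tri_log n K (ε / 2) (by positivity)
  obtain ⟨DJ, hDJ, hJ'⟩ := hJ K (ε / 2) (by positivity)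
  set b : ℝ := ((K : ℝ) + 1) ^ 2 * Real.log 2 with hb
  have hlog2 : 0 < Real.log 2 := Real.log_pos (by norm_num)
  have hb0 : 0 ≤ b := by positivity
  refine ⟨C1 + |Real.log DJ| + ε * b + 10 * b + Real.log 2, by positivity, ?_⟩
  intro Y hY w T hT hTc s hs L hL p k r hpk hpr hkr j hj M hM
  have hY1 : (1 : ℝ) ≤ Y := by exact_mod_cast hY
  have hY0 : (0 : ℝ) < Y := by linarith
  have hlogY : 0 ≤ Real.log Y := Real.log_nonneg hY1
  have hj' : j < K + 1 := by omega
  set F : Finset (Fin (K + 1)) := {⟨j, hj'⟩} with hF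
  set X : ℕ := 2 ^ ((K + 1) * (K + 1)) * Y with hX
  have h2X : 1 ≤ 2 ^ ((K + 1) * (K + 1)) := Nat.one_le_two_pow
  have hX1 : 1 ≤ X := Nat.mul_pos h2X hY
  have hYX : Y ≤ X := Nat.le_mul_of_pos_left _ h2X
  have hlogX : Real.log X = b + Real.log Y := by
    rw [hX]
    push_cast
    rw [Real.log_mul (by positivity) hY0.ne', Real.log_pow, hb]
    push_cast
    ring
  set N : Fin n → Fin K → ℕ := fun a i => 2 ^ (K + 1) * rd K (s a) {i.castSucc} with hN
  set l : Fin n → ℝ := fun a => 2 ^ (K + 1) * (rd K (s a) {Fin.last K} : ℝ) with hl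
  set fm : Fin n → ℝ := fun a => |(w r : ℝ)| * part K (s r) Fᶜ /
    (2 ^ (K + 1) * (Int.gcd (w a) (w r) : ℝ)) with hfm
  set Qd : Fin n → ℝ := fun a => ∏ i, (N a i : ℝ) with hQdef
  have hgpos : ∀ a, 0 < Int.gcd (w a) (w r) := fun a => Int.gcd_pos_of_ne_zero_left _ (hT.w0 a)
  have hfm' : ∀ a, 0 < fm a ∧ Real.log (fm a) = Real.log (|(w r : ℝ)| * s r) -
      Real.log (part K (s r) F) - (K + 1) * Real.log 2 - Real.log (Int.gcd (w a) (w r)) :=
    fun a => log_fmin (hT.w0 r) (hgpos a) (hT.pos s hs r) F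
  have hpartF : Real.log (part K (s r) F) = ((j : ℝ) + 1) * mm K (s r) j := by
    rw [hF, basics.part_single K (s r) ⟨j, hj'⟩ hj, mm, dif_pos hj']
    push_cast
    rw [Real.log_pow]
    push_cast
    rfl
  -- the product of the bounds
  have hQeq : ∀ a, Qd a * rd K (s a) {Fin.last K} = 2 ^ ((K + 1) * K) * (rad (s a) : ℝ) := by
    intro a
    have h2 := Est.rd_split basics K (s a)
    rw [basics.rd_univ] at h2
    rw [← h2, hQdef]
    simp only [hN]
    push_cast
    rw [prod_mul_distrib, prod_const, card_univ, Fintype.card_fin, ← pow_mul]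
    ring
  have hNpos : ∀ a i, 1 ≤ N a i := fun a i =>
    Nat.mul_pos Nat.one_le_two_pow (basics.rd_pos _ _ _)
  have hQ0 : ∀ a, 0 < Qd a := fun a => prod_pos fun i _ => by exact_mod_cast hNpos a i
  have hlogQ : ∀ a, Real.log (Qd a) + Real.log (rd K (s a) {Fin.last K}) ≤
      b + Real.log (rad (s a)) := by
    intro a
    rw [← Real.log_mul (hQ0 a).ne' (rd_pos_real _ _ _).ne', hQeq,
      Real.log_mul (by positivity) (rad_pos_real _).ne', Real.log_pow, hb]
    push_cast
    nlinarith [Nat.cast_nonneg (α := ℝ) K]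
  have hQX : ∀ a, ∏ i, N a i ≤ X := by
    intro a
    have h3 : ∏ i, N a i ≤ 2 ^ ((K + 1) * K) * rad (s a) := by
      have h4 : (∏ i, N a i) * rd K (s a) {Fin.last K} = 2 ^ ((K + 1) * K) * rad (s a) := by
        have := hQeq a
        simp only [hQdef] at this
        exact_mod_cast this
      rw [← h4]
      exact Nat.le_mul_of_pos_right _ (basics.rd_pos _ _ _)
    refine h3.trans ?_
    rw [hX]
    apply Nat.mul_le_mul (Nat.pow_le_pow_right (by norm_num) (by nlinarith))
    exact (rad_le_self (hT.pos s hs a)).trans (hT.t_le hs a)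
  have hl1 : ∀ a, 1 ≤ l a := by
    intro a
    have : (1 : ℝ) ≤ rd K (s a) {Fin.last K} := by exact_mod_cast basics.rd_pos _ _ _
    have : (1 : ℝ) ≤ 2 ^ (K + 1) := one_le_pow₀ (by norm_num)
    simp only [hl]
    nlinarith
  set Θ : Fin n → ℝ := fun a => DJ * (X : ℝ) ^ (ε / 2) *
    (l a ^ 2 * (Qd a * (1 + Qd a ^ ((3 : ℝ) / 2) / fm a))) with hΘ
  have hXR : (0 : ℝ) < X := by exact_mod_cast hX1
  have hΘ0 : ∀ a, 0 < Θ a := by
    intro a
    have := (hfm' a).1
    have := hQ0 a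
    have := hl1 a
    have h5 : 0 < l a := by linarith
    have h6 : 0 < Qd a ^ ((3 : ℝ) / 2) := Real.rpow_pos_of_pos (hQ0 a) _
    simp only [hΘ]
    positivity
  have hmain := h1 Y hY w T hT hTc s hs L hL p k r hpk hpr hkr Fᶜ
    (M + |Real.log DJ| + ε * b + 9 * b + Real.log 2 + ε / 2 * Real.log Y) Θ hΘ0 ?_ ?_
  · rw [log_rd_compl] at hmain
    have e1 : Real.log (rd K (s r) F) = mm K (s r) j := by rw [mm, dif_pos hj']
    rw [e1] at hmain
    linarith
  · intro a har f hf1 hfY hf P hP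
    have h3 := hJ' X f hX1 hf1 (hfY.trans hYX) (N a) (hNpos a) (hQX a) (l a) (hl1 a) P (by
      intro x hx
      obtain ⟨hxf, t, ht, rfl⟩ := hP x hx
      refine ⟨hT.pos t ht a, (hT.t_le ht a).trans hYX, hxf, fun i => hT.rd_le t ht s hs a _, ?_⟩
      simp only [hl]
      exact_mod_cast hT.rd_le t ht s hs a {Fin.last K})
    refine (show (En P f : ℝ) ≤ _ from h3).trans ?_
    simp only [hΘ]
    have hfa := (hfm' a).1
    have hle : Qd a ^ ((3 : ℝ) / 2) / f ≤ Qd a ^ ((3 : ℝ) / 2) / fm a := by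
      apply div_le_div_of_nonneg_left (Real.rpow_nonneg (hQ0 a).le _) hfa
      exact hf
    have hl0 : 0 ≤ l a := by linarith [hl1 a]
    have hQa := (hQ0 a).le
    apply mul_le_mul_of_nonneg_left _ (by positivity)
    apply mul_le_mul_of_nonneg_left _ (by positivity)
    apply mul_le_mul_of_nonneg_left _ hQa
    have : (∏ i, (N a i : ℝ)) = Qd a := rfl
    rw [this]
    linarith
  · intro a ha
    have hMa := hM a ha
    have hfa := hfm' a
    have hQa := hQ0 a
    have hla : 0 < l a := by linarith [hl1 a]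
    have hu : 0 < Qd a ^ ((3 : ℝ) / 2) / fm a := div_pos (Real.rpow_pos_of_pos hQa _) hfa.1
    have h6 := log_one_add_le hu
    rw [Real.log_div (Real.rpow_pos_of_pos hQa _).ne' hfa.1.ne', Real.log_rpow hQa, hfa.2,
      hpartF] at h6
    have hlogl : Real.log (l a) = (K + 1) * Real.log 2 + Real.log (rd K (s a) {Fin.last K}) := by
      simp only [hl]
      rw [Real.log_mul (by positivity) (rd_pos_real _ _ _).ne', Real.log_pow]
      push_cast
      ring
    have hlast : 0 ≤ Real.log (rd K (s a) {Fin.last K}) :=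
      Real.log_nonneg (by exact_mod_cast basics.rd_pos _ _ _)
    have hK1 : ((K : ℝ) + 1) * Real.log 2 ≤ b := by
      rw [hb]
      nlinarith [Nat.cast_nonneg (α := ℝ) K]
    have hlQ := hlogQ a
    simp only [hΘ]
    rw [Real.log_mul (by positivity) (by positivity),
      Real.log_mul hDJ.ne' (Real.rpow_pos_of_pos hXR _).ne', Real.log_rpow hXR, hlogX,
      Real.log_mul (by positivity) (by positivity), Real.log_pow,
      Real.log_mul hQa.ne' (by positivity), hlogl]
    push_cast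
    have h7 : max 0 (3 / 2 * Real.log (Qd a) - (Real.log (|(w r : ℝ)| * s r) -
        ((j : ℝ) + 1) * mm K (s r) j - (K + 1) * Real.log 2 - Real.log (Int.gcd (w a) (w r)))) ≤
        max 0 (3 / 2 * Real.log (rad (s a)) - (Real.log (|(w r : ℝ)| * s r) -
        ((j : ℝ) + 1) * mm K (s r) j) + Real.log (Int.gcd (w a) (w r))) + (5 / 2) * b := by
      refine le_trans (max_le_max_left 0 ?_) (max_add_le (by positivity))
      linarith
    have := le_abs_self (Real.log DJ)
    nlinarith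

end Pool.Agent.Y594.NT
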