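import Pool.Agent.Y594.NT.Arr

/-!
# The trivial bound (helper594)
-/

set_option autoImplicit false

namespace Pool.Agent.Y594.NT

open Finset Pool.Agent.H785R2.ABC Pool.Agent.H705R2.ABC

/-- `t` elements with a small sum -/
theorem small_subset {ι : Type*} [DecidableEq ι] (v : ι → ℝ) (t : ℕ) : ∀ (k : ℕ) (T : Finset ι),
    T.card = t + k → ∃ I ⊆ T, I.card = t ∧ ((t + k : ℕ) : ℝ) * ∑ i ∈ I, v i ≤ t * ∑ i ∈ T, v i := by
  intro k
  induction k with
  | zero => intro T hT; exact ⟨T, Subset.rfl, by omega, by simp⟩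
  | succ k ih =>
    intro T hT
    have hne : T.Nonempty := by rw [← card_pos]; omega
    obtain ⟨a, ha, hmax⟩ := exists_max_image T v hne
    have h1 : ∑ i ∈ T, v i ≤ (T.card : ℝ) * v a := by
      calc ∑ i ∈ T, v i ≤ ∑ _i ∈ T, v a := sum_le_sum hmax
        _ = _ := by rw [sum_const, nsmul_eq_mul]
    obtain ⟨I, hI, hIc, hIs⟩ := ih (T.erase a) (by rw [card_erase_of_mem ha]; omega)
    refine ⟨I, hI.trans (erase_subset _ _), hIc, ?_⟩
    have h2 : ∑ i ∈ T.erase a, v i = ∑ i ∈ T, v i - v a := by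
      rw [← Finset.add_sum_erase T v ha]; ring
    rw [h2] at hIs
    rw [hT] at h1
    rcases Nat.eq_zero_or_pos (t + k) with h0 | h0
    · have ht : t = 0 := by omega
      subst ht
      have : I = ∅ := card_eq_zero.1 hIc
      rw [this]
      simp
    · have h0' : (0 : ℝ) < ((t + k : ℕ) : ℝ) := by exact_mod_cast h0
      have ht0 : (0 : ℝ) ≤ t := Nat.cast_nonneg _
      push_cast at h1 hIs h0' ⊢
      -- multiply by (t + k)
      have h3 : ((t : ℝ) + k) * (((t : ℝ) + (k + 1)) * ∑ i ∈ I, v i) ≤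
          ((t : ℝ) + k) * (t * ∑ i ∈ T, v i) := by
        have h4 : ((t : ℝ) + (k + 1)) * (((t : ℝ) + k) * ∑ i ∈ I, v i) ≤
            ((t : ℝ) + (k + 1)) * (t * (∑ i ∈ T, v i - v a)) :=
          mul_le_mul_of_nonneg_left hIs (by positivity)
        have h5 : (t : ℝ) * ∑ i ∈ T, v i ≤ t * (((t : ℝ) + (k + 1)) * v a) :=
          mul_le_mul_of_nonneg_left h1 ht0
        nlinarith
      exact le_of_mul_le_mul_left h3 h0'

/-- the trivial bound: tuples of integers with a bounded product of radicals -/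
theorem tuples_le (N : ℕ) (A ε : ℝ) (hA : 1 ≤ A) (hε : 0 < ε) : ∃ D : ℝ, 0 < D ∧ ∀ X : ℝ,
    1 ≤ X → ∀ V : ℝ, 0 ≤ V → ∀ T : Finset (Fin N → ℤ),
    (∀ a ∈ T, (∀ i, a i ≠ 0 ∧ ((a i).natAbs : ℝ) ≤ X ^ A) ∧
      ∏ i, (rad (a i).natAbs : ℝ) ≤ V) →
    (T.card : ℝ) ≤ D * X ^ ε * V := by
  classical
  obtain ⟨δ, hδ⟩ : ∃ δ : ℝ, δ = ε / (N + 1) := ⟨_, rfl⟩
  have hδ0 : 0 < δ := by rw [hδ]; positivity
  obtain ⟨D1, hD1, h1⟩ := BZ_le A δ hA hδ0
  obtain ⟨D2, hD2, h2⟩ := log_pow_le N (δ / A) (by positivity)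
  refine ⟨D2 * (D1 ^ N * 2 ^ N), by positivity, ?_⟩
  intro X hX V hV T hT
  have hX0 : 0 < X := by linarith
  set Y : ℕ := ⌊X ^ A⌋₊ with hY
  have hXA : 1 ≤ X ^ A := Real.one_le_rpow hX (by linarith)
  have hY1 : 1 ≤ Y := Nat.le_floor (by simpa using hXA)
  have hYX : (Y : ℝ) ≤ X ^ A := Nat.floor_le (by linarith)
  set π : (Fin N → ℤ) → (Fin N → ℕ) := fun a i => Nat.log 2 (rad (a i).natAbs) with hπ
  set M : Finset (Fin N → ℕ) := Fintype.piFinset fun _ => range (Nat.log 2 Y + 1) with hM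
  have hrY : ∀ a ∈ T, ∀ i, rad (a i).natAbs ≤ Y := by
    intro a ha i
    obtain ⟨g1, g2⟩ := (hT a ha).1 i
    have g3 : (a i).natAbs ≤ Y := Nat.le_floor g2
    refine le_trans ?_ g3
    apply Nat.le_of_dvd (Int.natAbs_pos.2 g1)
    exact rad_dvd_of fun _ _ h => h
  have hmaps : ∀ a ∈ T, π a ∈ M := by
    intro a ha
    rw [hM, Fintype.mem_piFinset]
    intro i
    rw [mem_range]
    have := Nat.log_mono_right (b := 2) (hrY a ha i)
    simp only [hπ]
    omega
  have hMcard : (M.card : ℝ) ≤ D2 * X ^ δ := by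
    have h3 : (M.card : ℝ) = ((Nat.log 2 Y + 1 : ℕ) : ℝ) ^ N := by
      rw [hM, Fintype.card_piFinset]
      simp
    rw [h3]
    refine (h2 Y hY1).trans ?_
    apply mul_le_mul_of_nonneg_left _ hD2.le
    calc (Y : ℝ) ^ (δ / A) ≤ (X ^ A) ^ (δ / A) :=
          Real.rpow_le_rpow (Nat.cast_nonneg _) hYX (by positivity)
      _ = X ^ δ := by
          rw [← Real.rpow_mul hX0.le]
          congr 1
          field_simp
  have hfib : ∀ z ∈ M, (((T.filter fun a => π a = z).card : ℕ) : ℝ) ≤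
      D1 ^ N * 2 ^ N * X ^ (δ * N) * V := by
    intro z _
    rcases (T.filter fun a => π a = z).eq_empty_or_nonempty with h0 | ⟨u, hu⟩
    · rw [h0, card_empty, Nat.cast_zero]; positivity
    have hsub : (T.filter fun a => π a = z) ⊆
        Fintype.piFinset fun i => BZ Y ((2 : ℝ) ^ (z i + 1)) := by
      intro a ha
      obtain ⟨ha1, ha2⟩ := mem_filter.1 ha
      rw [Fintype.mem_piFinset]
      intro i
      rw [mem_BZ]
      obtain ⟨g1, g2⟩ := (hT a ha1).1 i
      refine ⟨g1, Nat.le_floor g2, ?_⟩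
      have g3 : z i = Nat.log 2 (rad (a i).natAbs) := by rw [← ha2]
      rw [g3]
      exact_mod_cast (Nat.lt_pow_succ_log_self (by norm_num) (rad (a i).natAbs)).le
    have hprod : ∏ i, (2 : ℝ) ^ z i ≤ V := by
      obtain ⟨hu1, hu2⟩ := mem_filter.1 hu
      refine le_trans ?_ (hT u hu1).2
      apply prod_le_prod
      · intro i _; positivity
      · intro i _
        have g3 : z i = Nat.log 2 (rad (u i).natAbs) := by rw [← hu2]
        rw [g3]
        exact_mod_cast Nat.pow_log_le_self 2 (Nat.one_le_iff_ne_zero.1 (rad_pos' _))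
    calc (((T.filter fun a => π a = z).card : ℕ) : ℝ)
        ≤ ((Fintype.piFinset fun i => BZ Y ((2 : ℝ) ^ (z i + 1))).card : ℝ) := by
          exact_mod_cast card_le_card hsub
      _ = ∏ i, ((BZ Y ((2 : ℝ) ^ (z i + 1))).card : ℝ) := by
          rw [Fintype.card_piFinset]; push_cast; rfl
      _ ≤ ∏ i, (D1 * X ^ δ * (2 : ℝ) ^ (z i + 1)) := by
          apply prod_le_prod
          · intro i _; exact Nat.cast_nonneg _
          · intro i _; exact (h1 X hX Y hY1 hYX _ (by positivity)).1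
      _ = D1 ^ N * 2 ^ N * X ^ (δ * N) * ∏ i, (2 : ℝ) ^ z i := by
          have g4 : ∀ i, D1 * X ^ δ * (2 : ℝ) ^ (z i + 1) = (D1 * X ^ δ * 2) * 2 ^ z i := by
            intro i; rw [pow_succ]; ring
          rw [prod_congr rfl fun i _ => g4 i, prod_mul_distrib, prod_const, card_univ,
            Fintype.card_fin, mul_pow, mul_pow, ← Real.rpow_natCast (X ^ δ),
            ← Real.rpow_mul hX0.le]
          ring
      _ ≤ _ := mul_le_mul_of_nonneg_left hprod (by positivity)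
  have h3 : T.card = ∑ z ∈ M, (T.filter fun a => π a = z).card :=
    card_eq_sum_card_fiberwise (fun a ha => hmaps a ha)
  rw [h3]
  push_cast
  calc ∑ z ∈ M, (((T.filter fun a => π a = z).card : ℕ) : ℝ)
      ≤ ∑ _z ∈ M, D1 ^ N * 2 ^ N * X ^ (δ * N) * V := sum_le_sum hfib
    _ = M.card * (D1 ^ N * 2 ^ N * X ^ (δ * N) * V) := by rw [sum_const, nsmul_eq_mul]
    _ ≤ (D2 * X ^ δ) * (D1 ^ N * 2 ^ N * X ^ (δ * N) * V) :=
        mul_le_mul_of_nonneg_right hMcard (by positivity)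
    _ = D2 * (D1 ^ N * 2 ^ N) * (X ^ δ * X ^ (δ * N)) * V := by ring
    _ = _ := by
        have e1 : δ + δ * N = ε := by
          rw [hδ]; field_simp; ring
        rw [← Real.rpow_add hX0, e1]

/-- the product of the primes outside `S` that divide `a` -/
def radS (S : Finset ℕ) (a : ℤ) : ℕ := ∏ p ∈ a.natAbs.primeFactors \ S, p

theorem radS_pos (S : Finset ℕ) (a : ℤ) : 0 < radS S a := by
  unfold radS
  exact Finset.prod_pos fun p hp =>
    (Nat.prime_of_mem_primeFactors (mem_sdiff.1 hp).1).pos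

theorem one_le_radS (S : Finset ℕ) (a : ℤ) : (1 : ℝ) ≤ radS S a := by
  exact_mod_cast radS_pos S a

/-- the constant lost by leaving out `S` -/
def PS (S : Finset ℕ) : ℕ := ∏ p ∈ S, max p 1

theorem PS_pos (S : Finset ℕ) : 0 < PS S := Finset.prod_pos fun p _ => by omega

theorem rad_le_radS (S : Finset ℕ) (a : ℤ) : rad a.natAbs ≤ PS S * radS S a := by
  classical
  unfold rad radS PS
  rw [← Finset.prod_sdiff (s₁ := a.natAbs.primeFactors ∩ S) (s₂ := a.natAbs.primeFactors)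
    inter_subset_left, Finset.sdiff_inter_self_left, mul_comm]
  apply Nat.mul_le_mul_right
  calc ∏ p ∈ a.natAbs.primeFactors ∩ S, p ≤ ∏ p ∈ a.natAbs.primeFactors ∩ S, max p 1 :=
        prod_le_prod' fun p _ => le_max_left _ _
    _ ≤ ∏ p ∈ S, max p 1 := by
        apply Finset.prod_le_prod_of_subset_of_one_le' inter_subset_right
        intro p _ _
        exact le_max_right _ _

theorem radS_le_natAbs (S : Finset ℕ) {a : ℤ} (ha : a ≠ 0) : radS S a ≤ a.natAbs := by
  classical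
  apply Nat.le_of_dvd (Int.natAbs_pos.2 ha)
  refine dvd_trans ?_ (Nat.prod_primeFactors_dvd _)
  unfold radS
  exact Finset.prod_dvd_prod_of_subset _ _ _ sdiff_subset

end Pool.Agent.Y594.NT
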